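import Pool.Agent.P.MP_e94e4b_nt.LG.Basic

/-! The number of invertible residue classes. -/

namespace Pool.Agent.P.MP_e94e4b_nt.LG

open Polynomial Finset
open Pool.Agent.P.MP_8be758_nt Pool.Agent.P.MP_8be758_nt.C2 Pool.Agent.P.MP_8be758_nt.L2
open scoped Classical

variable {k : Type} [Field k] [Finite k]

theorem phi_ind {r : k[X]} (hr : r ≠ 0) (b : k[X]) :
    (if IsCoprime b r then (1 : ℝ) else 0) =
      ∑ S ∈ (pf r).powerset, if pr S ∣ b then sg S else 0 := by
  have e : (pf r).powerset.filter (fun S => pr S ∣ b) =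
      ((pf r).filter (fun P => P ∣ b)).powerset := by
    ext S
    rw [mem_filter, mem_powerset, mem_powerset]
    refine ⟨fun h P hP => mem_filter.2 ⟨h.1 hP, (dvd_prod_of_mem _ hP).trans h.2⟩, fun h => ?_⟩
    have h1 : S ⊆ pf r := h.trans (filter_subset _ _)
    exact ⟨h1, (pr_dvd_iff (fun P hP => isPr_of_mem_pf (h1 hP)) b).2
      fun P hP => (mem_filter.1 (h hP)).2⟩
  rw [← sum_filter, e, sum_sg_powerset]
  refine if_congr ⟨fun h => filter_eq_empty_iff.2 fun P hP hb => ?_, fun h => ?_⟩ rfl rfl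
  · obtain ⟨h1, h2⟩ := (mem_pf hr).1 hP
    exact h1.2.not_isUnit (h.isUnit_of_dvd' hb h2)
  · refine EuclideanDomain.isCoprime_of_dvd (fun h0 => hr h0.2) fun z hz h0 hb hd => ?_
    obtain ⟨P, p1, p2⟩ := exists_isPr_dvd hz h0
    exact filter_eq_empty_iff.1 h ((mem_pf hr).2 ⟨p1, p2.trans hd⟩) (p2.trans hb)

theorem phi_eq {r : k[X]} (hr : r ≠ 0) :
    (((low k r.natDegree).filter (fun b => IsCoprime b r)).card : ℝ) * eu (-1) (pf r) =
      qq k ^ r.natDegree := by
  have hq := qq_pos (k := k)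
  have e1 : (((low k r.natDegree).filter (fun b => IsCoprime b r)).card : ℝ) =
      qq k ^ r.natDegree * ∏ P ∈ pf r, (1 + -1 / qq k ^ P.natDegree) := by
    rw [← sum_boole, sum_congr rfl fun b _ => phi_ind hr b, sum_comm, prod_one_add, mul_sum]
    refine sum_congr rfl fun S hS => ?_
    have h1 : ∀ P ∈ S, IsPr P := fun P hP => isPr_of_mem_pf (mem_powerset.1 hS hP)
    have h2 : dg S ≤ r.natDegree := (dg_mono (mem_powerset.1 hS)).trans (dg_pf_le hr)
    rw [← sum_filter, sum_const, nsmul_eq_mul, card_low_dvd (monic_pr h1).ne_zero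
      (by rwa [natDegree_pr h1]), natDegree_pr h1, prod_div_distrib, prod_const,
      prod_pow_eq_pow_sum, pow_sub₀ _ hq.ne' h2, sg, dg]
    ring
  rw [e1, eu, mul_assoc, ← prod_mul_distrib, prod_eq_one, mul_one]
  intro P hP
  have h : 2 ≤ qq k ^ P.natDegree :=
    two_le_qq.trans (le_self_pow₀ one_le_qq (Nat.one_le_iff_ne_zero.1 (isPr_of_mem_pf hP).pos))
  refine mul_inv_cancel₀ (ne_of_gt ?_)
  have : 1 / qq k ^ P.natDegree ≤ 1 / 2 := one_div_le_one_div_of_le (by norm_num) h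
  rw [neg_div]
  linarith

end Pool.Agent.P.MP_e94e4b_nt.LG
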