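import Pool.Agent.P.MP_e94e4b_nt.LG.Defs

/-! Even and odd parts. -/

namespace Pool.Agent.P.MP_e94e4b_nt.LG

open Polynomial Finset
open Pool.Agent.P.MP_8be758_nt Pool.Agent.P.MP_8be758_nt.C2 Pool.Agent.P.MP_8be758_nt.L2
open scoped Classical ComplexConjugate

namespace H8

variable {k : Type} [Field k]

theorem eo_mul (U V U' V' : k[X]) :
    eo U V * eo U' V' = eo (U * U' + X * (V * V')) (U * V' + V * U') := by
  simp only [eo, map_add, map_mul, expand_X]; ring

theorem odp_mul (f g : k[X]) : odp (f * g) = evp f * odp g + odp f * evp g := by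
  conv_lhs => rw [← eo_evp_odp f, ← eo_evp_odp g, eo_mul, odp_eo]

theorem odp_add (f g : k[X]) : odp (f + g) = odp f + odp g := by
  have e : f + g = eo (evp f + evp g) (odp f + odp g) := by
    conv_lhs => rw [← eo_evp_odp f, ← eo_evp_odp g]
    simp only [eo, map_add]; ring
  conv_lhs => rw [e, odp_eo]

section two
variable [CharP k 2]

theorem odp_mul_sq (f z : k[X]) : odp (f * z ^ 2) = odp f * fr z := by
  have e : z ^ 2 = eo (fr z) 0 := by simp [eo, expand_fr]
  rw [odp_mul, e, odp_eo, evp_eo, mul_zero, zero_add]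

theorem fr_mul (f g : k[X]) : fr (f * g) = fr f * fr g := Polynomial.map_mul _

theorem fr_eq (f : k[X]) : fr f = evp f ^ 2 + X * odp f ^ 2 := by
  have h2 : (2 : k[X]) = 0 := CharTwo.two_eq_zero
  refine expand_injective (n := 2) (by norm_num) ?_
  rw [expand_fr]
  conv_lhs => rw [← eo_evp_odp f]
  simp only [eo, map_add, map_mul, map_pow, expand_X]
  linear_combination (expand k 2 (evp f) * X * expand k 2 (odp f)) * h2

theorem sq_add_eq_eo (A B : k[X]) : A ^ 2 + X * B ^ 2 = eo (fr A) (fr B) := by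
  rw [eo, expand_fr, expand_fr]

theorem fr_surj [Finite k] (p : k[X]) : ∃ r : k[X], fr r = p :=
  map_surjective (frobenius k 2) (fun y => by
    obtain ⟨z, hz⟩ := exists_sqrt y
    exact ⟨z, by rw [frobenius_def, hz]⟩) p

/-- the odd part of `x * B` vanishes only for `x = B * t ^ 2` -/
theorem of_odp_eq_zero [Finite k] {B x : k[X]} (hB : IsPr B) (h : odp (x * B) = 0) :
    ∃ t, x = B * t ^ 2 := by
  obtain ⟨z, hz⟩ := fr_surj (evp (x * B))
  have e : x * B = z ^ 2 := by
    rw [← eo_evp_odp (x * B), h, ← hz, eo, expand_fr]; simp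
  obtain ⟨t, rfl⟩ := hB.prime.dvd_of_dvd_pow (n := 2) ⟨x, by rw [← e, mul_comm]⟩
  exact ⟨t, mul_right_cancel₀ hB.ne_zero (by rw [e]; ring)⟩

end two

variable [Finite k]

/-- cancelling a factor -/
theorem mem_low_of_mul {g y : k[X]} {j : ℕ} (hg : g ≠ 0) (h : g * y ∈ low k j) :
    y ∈ low k (j - g.natDegree) := by
  by_cases hy : y = 0
  · rw [hy]; exact zero_mem_low _
  · have := natDegree_lt_of_mem_low h (mul_ne_zero hg hy)
    rw [natDegree_mul hg hy] at this
    exact mem_low_of_natDegree_lt (by omega)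

/-- a set on which `g * x` stays in one coset of `low j` -/
theorem card_le_of_mul_sub {g : k[X]} (hg : g ≠ 0) {j : ℕ} (S : Finset k[X])
    (h : ∀ x ∈ S, ∀ y ∈ S, g * (x - y) ∈ low k j) :
    S.card ≤ Nat.card k ^ (j - g.natDegree) := by
  rcases S.eq_empty_or_nonempty with rfl | ⟨y, hy⟩
  · simp
  rw [← card_low]
  refine card_le_card_of_injOn (fun x => x - y) (fun x hx => ?_) (fun a _ b _ e => ?_)
  · exact mem_coe.2 (mem_low_of_mul hg (h x (mem_coe.1 hx) y hy))
  · simpa using e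

theorem mem_low_iff {L : ℕ} {p : k[X]} : p ∈ low k L ↔ ∀ i, L ≤ i → p.coeff i = 0 := by
  rw [mem_low, degree_lt_iff_coeff_zero]

theorem evp_mem_low {n : ℕ} {f : k[X]} (h : f ∈ low k n) : evp f ∈ low k ((n + 1) / 2) := by
  rw [mem_low_iff] at *
  intro i hi
  rw [← coeff_eo_even (evp f) (odp f), eo_evp_odp]
  exact h _ (by omega)

theorem odp_mem_low {n : ℕ} {f : k[X]} (h : f ∈ low k n) : odp f ∈ low k (n / 2) := by
  rw [mem_low_iff] at *
  intro i hi
  rw [← coeff_eo_odd (evp f) (odp f), eo_evp_odp]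
  exact h _ (by omega)

variable [CharP k 2]

theorem mem_low_of_fr {n : ℕ} {f : k[X]} (h : fr f ∈ low k n) : f ∈ low k n := by
  rw [mem_low] at *
  rwa [fr, degree_map] at h

/-- even and odd degrees do not cancel -/
theorem low_of_sq_add {R : ℕ} {A B : k[X]} (h : A ^ 2 + X * B ^ 2 ∈ low k R) :
    A ∈ low k ((R + 1) / 2) ∧ B ∈ low k (R / 2) := by
  rw [sq_add_eq_eo] at h
  have h1 := evp_mem_low h
  have h2 := odp_mem_low h
  rw [evp_eo] at h1
  rw [odp_eo] at h2
  exact ⟨mem_low_of_fr h1, mem_low_of_fr h2⟩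

end H8

end Pool.Agent.P.MP_e94e4b_nt.LG
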