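import Pool.Agent.P.MP_e94e4b_nt.LG.If
import Pool.Agent.P.MP_e94e4b_nt.LG.Basic8

/-! Step PP. -/

namespace Pool.Agent.P.MP_e94e4b_nt.LG

open Polynomial Finset
open Pool.Agent.P.MP_8be758_nt Pool.Agent.P.MP_8be758_nt.C2 Pool.Agent.P.MP_8be758_nt.L2
open scoped Classical ComplexConjugate

theorem PP_odp_sq {k : Type} [Field k] [CharP k 2] (z : k[X]) : odp (z ^ 2) = 0 := by
  have e : z ^ 2 = eo (fr z) 0 := by simp [eo, expand_fr]
  rw [e, odp_eo]

theorem PP_pow {k : Type} [Field k] [Finite k] {f : k[X]} (hf : f.Monic)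
    (h : (pf f).card = 1) : ∃ (P : k[X]) (j : ℕ), IsPr P ∧ f = P ^ j := by
  obtain ⟨P, hP⟩ := card_eq_one.1 h
  have hm : P ∈ pf f := by rw [hP]; exact mem_singleton_self _
  have hp := isPr_of_mem_pf hm
  obtain ⟨j, g, hg, e⟩ := WfDvdMonoid.max_power_factor hf.ne_zero hp.2
  have g0 : g ≠ 0 := by rintro rfl; exact hf.ne_zero (by rw [e, mul_zero])
  have hu : IsUnit g := by
    by_contra hu
    obtain ⟨Q, h1, h2⟩ := exists_isPr_dvd hu g0
    have : Q ∈ pf f := (mem_pf hf.ne_zero).2 ⟨h1, by rw [e]; exact h2.mul_left _⟩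
    rw [hP, mem_singleton] at this
    exact hg (this ▸ h2)
  have gm : g.Monic := (hp.1.pow j).of_mul_monic_left (e ▸ hf)
  exact ⟨P, j, hp, by rw [e, gm.eq_one_of_isUnit hu, mul_one]⟩

theorem PP_odp {k : Type} [Field k] [Finite k] [CharP k 2] {N x : k[X]} {m : ℕ} (hN : N.Monic)
    (h1 : 1 ≤ N.natDegree) (hm : 3 * m ≤ 4 * N.natDegree) (hx : x ∈ low k m)
    (hc : (pf (N ^ 2 + x)).card = 1) (hi : ¬ Irreducible (N ^ 2 + x)) : odp x = 0 := by
  have d2 : (N ^ 2).natDegree = 2 * N.natDegree := natDegree_pow _ _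
  have dx : x.natDegree < (N ^ 2).natDegree := by
    have := natDegree_le_of_mem_low hx
    omega
  have fm : (N ^ 2 + x).Monic := (hN.pow 2).add_of_left (degree_lt_degree dx)
  have fd : (N ^ 2 + x).natDegree = 2 * N.natDegree := by
    rw [natDegree_add_eq_left_of_natDegree_lt dx, d2]
  have eo' : odp (N ^ 2 + x) = odp x := by rw [H8.odp_add, PP_odp_sq, zero_add]
  obtain ⟨P, j, hP, e⟩ := PP_pow fm hc
  obtain ⟨i, rfl | rfl⟩ := Nat.even_or_odd' j
  · rw [← eo', e, mul_comm, pow_mul, PP_odp_sq]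
  · have i1 : 1 ≤ i := by
      rcases Nat.eq_zero_or_pos i with rfl | h
      · exact absurd (by rw [e]; simpa using hP.2) hi
      · exact h
    have e2 : N ^ 2 + x = P * (P ^ i) ^ 2 := by rw [e]; ring
    have e3 : odp x = odp P * fr (P ^ i) := by rw [← eo', e2, H8.odp_mul_sq]
    refine eq_zero_of_mem_low (H8.odp_mem_low hx) (P := fr (P ^ i)) ⟨odp P, by rw [e3, mul_comm]⟩ ?_
    rw [natDegree_fr, natDegree_pow]
    rw [e, natDegree_pow] at fd
    have : P.natDegree ≤ i * P.natDegree := Nat.le_mul_of_pos_left _ i1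
    have e4 : (2 * i + 1) * P.natDegree = 2 * (i * P.natDegree) + P.natDegree := by ring
    omega

theorem p_PP :
    S_PP := by
  intro k _ _ _ N m hN h1 hm
  rw [← card_low']
  have : ((low k m).filter (fun x => (pf (N ^ 2 + x)).card = 1 ∧
      ¬ Irreducible (N ^ 2 + x))).card ≤ (low k ((m + 1) / 2)).card := by
    refine card_le_card_of_injOn evp (fun x hx => ?_) (fun x hx y hy e => ?_)
    · exact mem_coe.2 (H8.evp_mem_low (mem_filter.1 (mem_coe.1 hx)).1)
    · obtain ⟨a1, a2, a3⟩ := mem_filter.1 (mem_coe.1 hx)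
      obtain ⟨b1, b2, b3⟩ := mem_filter.1 (mem_coe.1 hy)
      rw [← eo_evp_odp x, ← eo_evp_odp y, e, PP_odp hN h1 hm a1 a2 a3, PP_odp hN h1 hm b1 b2 b3]
  exact_mod_cast this

end Pool.Agent.P.MP_e94e4b_nt.LG
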