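import Pool.Agent.P.MP_e94e4b_nt.LG.APa

/-! Primes near a square in a progression: the asymptotic formula. -/

namespace Pool.Agent.P.MP_e94e4b_nt.LG

open Polynomial Finset
open Pool.Agent.P.MP_8be758_nt Pool.Agent.P.MP_8be758_nt.C2 Pool.Agent.P.MP_8be758_nt.L2
open scoped Classical

/-- the Moebius sums with a phase -/
def S_APM : Prop :=
  ∃ κ5 D0 : ℕ, 1 ≤ κ5 ∧ ∀ (k : Type) [Field k] [Finite k] [CharP k 2] (A r g : k[X]) (D : ℕ),
    r ≠ 0 → D0 ≤ D → 100 * A.natDegree ≤ 201 * D + 100 * r.natDegree →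
    |∑ d ∈ Mo k D, mu d * (psi (res (r * d) A) * psi (res r (g * d)))| * qq k ^ (D / κ5) ≤ qq k ^ D

/-- the Moebius sums over the cofactors, twisted by an additive character -/
def S_APK : Prop :=
  ∃ κ0 : ℕ, ∀ κ : ℕ, κ0 ≤ κ → ∃ κ2 ν0 : ℕ, 1 ≤ κ2 ∧
    ∀ (k : Type) [Field k] [Finite k] [CharP k 2] (N r g : k[X]) (m ε : ℕ), ν0 ≤ N.natDegree →
      Win N m (N.natDegree / κ) → ε + N.natDegree / κ ≤ m → m + ε ≤ 2 * N.natDegree →
      (∑ e ∈ Mo k ε, |∑ y ∈ low k (m - ε), mu (N ^ 2 /ₘ e + y) *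
        psi (res r (g * ((N ^ 2 /ₘ e + y) * e)))|) * qq k ^ (N.natDegree / κ2) ≤ qq k ^ m

/-- primes in the window and in a progression -/
def S_APFIN : Prop :=
  ∃ κ δ ν0 : ℕ, 1 ≤ κ ∧ 1 ≤ δ ∧
    ∀ (k : Type) [Field k] [Finite k] [CharP k 2] (N r a : k[X]) (m : ℕ), ν0 ≤ N.natDegree →
      Win N m (N.natDegree / κ) → r ≠ 0 → IsCoprime a r → δ * r.natDegree ≤ N.natDegree →
      |2 * (N.natDegree : ℝ) *
          ((low k m).filter fun x => Irreducible (N ^ 2 + x) ∧ r ∣ N ^ 2 + x - a).card -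
        qq k ^ m / qq k ^ r.natDegree * eu (-1) (pf r)| * qq k ^ (N.natDegree / δ) ≤ qq k ^ m

theorem AP_ch {k : Type} [Field k] [Finite k] [CharP k 2] (M A : k[X]) :
    IsCh fun z => psi (res M (A * z ^ 4)) := ⟨fun z z' => by
  have : (z + z') ^ 4 = z ^ 4 + z' ^ 4 := add_pow_char_pow z z' 2 2
  dsimp only
  rw [this, mul_add, res_add, psi_add], fun z => psi_eq _⟩

theorem p_APM (hGEN : S_GEN) (hLIN : S_LIN) (hAZ : S_AZ) : S_APM := by
  obtain ⟨κ4, b0, h4, H⟩ := hGEN 10 1000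
  refine ⟨1000 * κ4, 100000 + 1000 * b0, by omega, fun k _ _ _ A r g D hr hD hA => ?_⟩
  obtain ⟨b, hb⟩ : ∃ b, b = D / 1000 := ⟨_, rfl⟩
  obtain ⟨β, hβ⟩ : ∃ β, β = b + (D + b) % 2 := ⟨_, rfl⟩
  obtain ⟨s, hs⟩ : ∃ s, s = (D + b + 1) / 2 := ⟨_, rfl⟩
  obtain ⟨L, hL⟩ : ∃ L, L = 122 * D / 1000 := ⟨_, rfl⟩
  obtain ⟨a, ha⟩ : ∃ a, a = 29 * D / 1000 := ⟨_, rfl⟩
  have h1 : ∀ f : k[X], |psi (res (r * f) A) * psi (res r (g * f))| ≤ 1 := fun f => by
    rw [abs_mul, abs_psi, abs_psi, one_mul]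
  have := H k {0} (fun _ => X ^ D) (fun d => psi (res (r * d) A) * psi (res r (g * d))) D D b β s
    (9 * a) L a 9 (by omega) (by omega) (by constructor <;> omega)
    (fun _ _ => ⟨monic_X_pow D, natDegree_X_pow D⟩) (fun _ _ B hB => ⟨h1, fun x hx => ?_⟩) h1
    (fun B Δ _ h1 h2 => by
      have e : ∀ V, A0 a 9 (s - β) (9 * a) Δ V = 0 := fun V => by
        rw [A0, hAZ k Δ V a 9 (9 * a) h1.ne_zero (by omega) le_rfl, ite_self]
      have := qq_pos (k := k)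
      simp only [e, abs_zero, sum_const_zero, zero_mul]
      positivity)
  · rw [sum_singleton, card_singleton, Nat.cast_one, one_mul, hb, Nat.div_div_eq_div_mul] at this
    rw [sum_Mo_eq]
    exact this
  obtain ⟨m1, m2⟩ := monic_add_low (monic_X_pow D) hx (by simp)
  rw [natDegree_X_pow] at m2
  have c1 := AP_ch (r * (X ^ D + x) ^ 2) (A * B)
  have c2 := AP_ch r (g * B)
  refine ⟨fun z => psi (res (r * (X ^ D + x) ^ 2) (A * B * z ^ 4)) * psi (res r (g * B * z ^ 4)),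
    ⟨fun z z' => by have := c1.1 z z'; have := c2.1 z z'; simp only [*]; ring, fun z => by
      rcases c1.2 z with h | h <;> rcases c2.2 z with h' | h' <;> simp only at h h' <;>
        simp [h, h']⟩, fun z hz => ?_⟩
  have hu : B * z ^ 4 ∈ low k ((X ^ D + x).natDegree - (101 * D / 200 + 1)) := by
    apply mem_low_of_natDegree_lt
    have a1 := natDegree_mul_le (p := B) (q := z ^ 4)
    have a2 := natDegree_pow_le (p := z) (n := 4)
    have a3 := natDegree_le_of_mem_low hz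
    have a4 := (mem_Pd.1 hB).2
    omega
  dsimp only
  rw [hLIN k r A (X ^ D + x) (B * z ^ 4) _ hr m1.ne_zero hu (by omega), mul_add g, res_add, psi_add,
    psi_add, mul_assoc A, mul_assoc g]
  ring

theorem p_APK (hPARM : S_PARM) (hCON12 : S_CON12) (hCON3 : S_CON3) (hYM1 : S_YM1) (hYM2 : S_YM2)
    (hGEN : S_GEN) : S_APK := by
  obtain ⟨κ0, hY2⟩ := hYM2
  refine ⟨max 2000 κ0, fun κ hκ => ?_⟩
  obtain ⟨K, hK⟩ := hPARM κ ((le_max_left _ _).trans hκ)
  obtain ⟨κ1, hY1⟩ := hYM1 K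
  set κ3 := max (1000 * κ) κ1 with hκ3
  have p3 : 1 ≤ κ3 := le_trans (by omega) (le_max_left _ _)
  obtain ⟨ν0, hP⟩ := hK κ3 (le_max_left _ _)
  obtain ⟨κ4, b0, p4, hG⟩ := hGEN K (4 * κ3)
  refine ⟨κ3 * κ4, max ν0 (b0 * κ3), Nat.mul_pos p3 p4, fun k _ _ _ N R g m ε hν hW hε hm => ?_⟩
  obtain ⟨hN, w1, w2⟩ := hW
  obtain ⟨β, s, σ, L, a, r, w, hp⟩ := hP _ m ε ((le_max_left _ _).trans hν) w1 w2 hε
  have hC : CN N m ε β s σ a r := by
    rcases le_total (40 * ε) N.natDegree with c | c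
    · exact hCON3 k N m ε _ _ β s σ L a r w K hN hp c
    refine hCON12 k N m ε _ _ β s σ L a r w K hN hp ?_
    rcases le_total (N.natDegree - m / 2) ε with c' | c'
    · exact hY1 k _ m ε _ _ β s σ L a r w hp
        ((Nat.mul_le_mul_right _ (le_max_right _ _)).trans (Nat.mul_div_le _ _)) c'
    · exact hY2 k _ m ε _ _ β s σ L a r w K hp
        ((Nat.mul_le_mul_right _ ((le_max_right _ _).trans hκ)).trans (Nat.mul_div_le _ _)) c' c
  have q1 : ε ≤ m := by omega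
  have e1 : ((Mo k ε).card : ℝ) * qq k ^ (m - ε) = qq k ^ m := by
    rw [card_Mo, ← pow_add, Nat.add_sub_cancel' q1]
  have hc : ∀ e ∈ Mo k ε, (N ^ 2 /ₘ e).Monic ∧ (N ^ 2 /ₘ e).natDegree = 2 * N.natDegree - ε :=
    fun e he => by
      have := monic_cen hN (mem_Mo.1 he).1 (by rw [(mem_Mo.1 he).2]; omega)
      rwa [(mem_Mo.1 he).2] at this
  have e2 : ∀ e ∈ Mo k ε, ∀ y ∈ low k (m - ε), N ^ 2 /ₘ (N ^ 2 /ₘ e + y) = e := fun e he y hy => by
    obtain ⟨he1, he2⟩ := mem_Mo.1 he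
    obtain ⟨c1, c2⟩ := monic_add_low (hc e he).1 hy (by rw [(hc e he).2]; omega)
    refine (div_modByMonic_unique e (N ^ 2 %ₘ e - e * y) c1 ⟨by
      linear_combination modByMonic_add_div (N ^ 2) e, ?_⟩).1
    rw [degree_eq_natDegree c1.ne_zero, c2, (hc e he).2]
    exact mem_low.1 (sub_mem_low (low_mono (by omega) (modByMonic_mem_low he1 _))
      (mul_mem_low hy (by omega)))
  have := hG k (Mo k ε) (fun e => N ^ 2 /ₘ e) (fun d => psi (res R (g * (d * (N ^ 2 /ₘ d))))) _ _ _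
    β s σ L a r ((Nat.le_div_iff_mul_le p3).2 ((le_max_right _ _).trans hν)) ?_ hp.pg
    hc ?_ (fun _ => (abs_psi _).le) ?_
  · rw [e1, Nat.div_div_eq_div_mul] at this
    rwa [sum_congr rfl fun e he => congrArg _ (sum_congr rfl fun y hy => by
      rw [e2 e he y hy])] at this
  · have a1 := Nat.lt_mul_div_succ N.natDegree p3
    have a2 := hp.h4
    have a3 := hp.h6
    have a4 := hp.h21
    generalize N.natDegree / κ3 = b at *
    nlinarith
  · refine fun e he B hB => ⟨fun _ => (abs_psi _).le, fun x hx => ⟨_, AP_ch R (g * e * B),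
      fun z hz => ?_⟩⟩
    have hu : B * z ^ 4 ∈ low k (m - ε) := by
      apply mem_low_of_natDegree_lt
      have a1 := natDegree_mul_le (p := B) (q := z ^ 4)
      have a2 := natDegree_pow_le (p := z) (n := 4)
      have a3 := natDegree_le_of_mem_low hz
      have a4 := (mem_Pd.1 hB).2
      have a5 := hp.h9
      have a6 := hp.h21
      omega
    dsimp only
    rw [e2 e he x hx, ← psi_add, ← res_add, add_assoc, e2 e he _ (add_mem_low hx hu)]
    congr 2; ring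
  · intro B Δ hB hΔ hd
    rw [pow_add, ← mul_assoc, e1, ← pow_add]
    exact hC B Δ hB hΔ hd

theorem p_APFIN (hID0 : S_ID0) (hPP : S_PP) (hO : S_ORTH) (hBIJ : S_BIJ) (hXC : S_XC)
    (hAPM : S_APM) (hAPK : S_APK) : S_APFIN := by
  obtain ⟨κ5, D0, h5, hM⟩ := hAPM
  obtain ⟨κ0, hK⟩ := hAPK
  obtain ⟨κ, c0, c1, c2⟩ : ∃ κ, κ0 ≤ κ ∧ 16 * κ5 ≤ κ ∧ 2000 ≤ κ :=
    ⟨κ0 + 16 * κ5 + 2000, by omega, by omega, by omega⟩
  obtain ⟨κ2, ν0, h2, hK⟩ := hK κ c0
  obtain ⟨n0, hn0⟩ := NEG 2 (2 * (κ + κ2)) 4 1 (by omega) one_pos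
  refine ⟨κ, 2 * (κ + κ2), ν0 + n0 + 2 * D0 + 10, by omega, by omega, ?_⟩
  intro k _ _ _ N r a m hν hW hr ha hρ
  obtain ⟨ν, hνe⟩ : ∃ ν, ν = N.natDegree := ⟨_, rfl⟩
  have hK' := fun g ε h => hK k N r g m ε (by omega) hW h
  obtain ⟨hN, w1, w2⟩ := hW
  have hI := fun a1 a2 => AP_id hID0 hPP (m := m) (w := ind r a) hN a1 a2 fun f => by
    rw [ind]; split_ifs <;> simp
  have h3 := fun D ε => AP_t3 (m := m) (D := D) (ε := ε) (ind r a) hN
  rw [← hνe] at hK' w1 w2 hI h3 hν hρ ⊢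
  obtain ⟨E, hE⟩ : ∃ E, E = ν / κ := ⟨_, rfl⟩
  obtain ⟨G, hG⟩ : ∃ G, G = ν / (κ + κ2) := ⟨_, rfl⟩
  obtain ⟨H, hH⟩ : ∃ H, H = ν / (2 * (κ + κ2)) := ⟨_, rfl⟩
  have e0 : E * κ ≤ ν := hE ▸ Nat.div_mul_le_self _ _
  have e1 : E * 2000 ≤ ν := (Nat.mul_le_mul_left E c2).trans e0
  have e2 : E * (16 * κ5) ≤ ν := (Nat.mul_le_mul_left E c1).trans e0
  have e3 : G ≤ E := by rw [hG, hE]; exact Nat.div_le_div_left (by omega) (by omega)
  have e4 : G ≤ ν / κ2 := by rw [hG]; exact Nat.div_le_div_left (by omega) (by omega)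
  have e5 : H + H ≤ G := by
    rw [hH, hG, mul_comm 2, ← Nat.div_div_eq_div_mul]; omega
  have e6 : r.natDegree ≤ H := by
    rw [hH, Nat.le_div_iff_mul_le (by omega), mul_comm]; exact hρ
  have hneg := hn0 ν (by omega)
  rw [← hE] at hK' w1 w2
  rw [← hH] at hneg ⊢
  have q0 : (0 : ℝ) < qq k := qq_pos
  have qG : (0 : ℝ) < qq k ^ G := pow_pos q0 G
  have term : ∀ D, m < D + r.natDegree → D ≤ 2 * ν →
      |MW N m (ind r a) D| ≤ qq k ^ m / qq k ^ G := by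
    intro D d1 d2
    by_cases c : 2 * ν - D + E ≤ m ∧ m ≤ D
    · rw [h3 D (2 * ν - D) (by omega) (by omega) (by omega), sum_sigma']
      refine AP_avg hO hr a _ _ _ fun g => ?_
      rw [← sum_sigma' _ _ fun e y => mu (N ^ 2 /ₘ e + y) *
        psi (res r (g * ((N ^ 2 /ₘ e + y) * e))), le_div_iff₀ qG]
      refine le_trans ?_ (hK' g _ c.1 (by omega))
      exact mul_le_mul (abs_sum_le_sum_abs _ _) (qq_pow_mono e4) qG.le
        (sum_nonneg fun _ _ => abs_nonneg _)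
    · have a5 : (0 : ℝ) < qq k ^ (D / κ5) := pow_pos q0 _
      refine (AP_mid hO (Z := qq k ^ D / qq k ^ (D / κ5)) hr ha (by omega) fun h hh g => ?_).trans ?_
      · have a1 := natDegree_le_of_mem_low hh
        have a2 : (h * N ^ 2).natDegree ≤ h.natDegree + 2 * ν := by
          refine natDegree_mul_le.trans (Nat.add_le_add_left ?_ _)
          rw [hνe]; exact natDegree_pow_le
        exact (le_div_iff₀ a5).2 (hM k (h * N ^ 2) r g D hr (by omega) (by omega))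
      have a4 : 6 * E ≤ D / κ5 := by
        rw [Nat.le_div_iff_mul_le (by omega)]
        have : 3 * (E * (16 * κ5)) = 8 * (6 * E * κ5) := by ring
        omega
      rw [← mul_div_assoc, div_le_div_iff₀ a5 qG, ← pow_add, ← pow_add, ← pow_add]
      exact qq_pow_mono (by omega)
  have hI' := hI (by omega) (by omega)
  obtain ⟨Y, hY⟩ : ∃ Y, Y + r.natDegree = m := ⟨m - r.natDegree, by omega⟩
  have hs := sum_range_add_sum_Ico (fun D : ℕ => (2 * (ν : ℝ) - D) * MW N m (ind r a) D)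
    (show Y + 1 ≤ 2 * ν + 1 by omega)
  have z0 : 0 ≤ qq k ^ m / qq k ^ G := by positivity
  have ν0' : (0 : ℝ) ≤ ν := Nat.cast_nonneg ν
  have b0 : |∑ D ∈ range (Y + 1), (2 * (ν : ℝ) - D) * MW N m (ind r a) D -
      qq k ^ m / qq k ^ r.natDegree * eu (-1) (pf r)| ≤ (2 * ν + 1) * (qq k ^ m / qq k ^ G) := by
    have x1 := hXC k (pf r) Y (2 * ν) (fun _ => isPr_of_mem_pf) (by omega)
    rw [sum_congr rfl (g := fun D => qq k ^ m / qq k ^ r.natDegree * (xs (-1) (pf r) D *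
      (((2 * ν : ℕ) : ℝ) - D))) fun D hD => by
        rw [AP_low hBIJ hr ha (by have := mem_range.1 hD; omega)]; push_cast; ring, ← mul_sum,
      ← mul_sub, abs_mul, abs_of_pos (by positivity), mul_comm, ← mul_div_assoc, ← mul_div_assoc,
      div_le_div_iff₀ (by positivity) qG, mul_right_comm, mul_right_comm (2 * (ν : ℝ) + 1)]
    refine mul_le_mul_of_nonneg_right ((mul_le_mul_of_nonneg_right x1 qG.le).trans ?_)
      (by positivity)
    have x2 : (4 : ℝ) ^ (pf r).card ≤ qq k ^ (2 * r.natDegree) := by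
      rw [show (4 : ℝ) = 2 ^ 2 by norm_num, ← pow_mul]
      exact (two_pow_le_qq (k := k) _).trans (qq_pow_mono (Nat.mul_le_mul_left _
        ((card_le_dg fun _ => isPr_of_mem_pf).trans (dg_pf_le hr))))
    have x3 : qq k ^ (r.natDegree + G) ≤ √(qq k) ^ Y := by
      rw [← Real.sq_sqrt q0.le, ← pow_mul, Real.sqrt_sq (Real.sqrt_nonneg _)]
      exact pow_le_pow_right₀ (Real.one_le_sqrt.2 one_le_qq) (by omega)
    have x4 : (0 : ℝ) ≤ Y := Nat.cast_nonneg Y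
    have x5 : (Y : ℝ) ≤ 2 * ν := by exact_mod_cast (show Y ≤ 2 * ν by omega)
    push_cast
    calc _ ≤ (2 * ν + 1) * qq k ^ (2 * r.natDegree) / qq k ^ (r.natDegree + G) * qq k ^ G := by
          gcongr; linarith
      _ = _ := by rw [pow_add, two_mul r.natDegree, pow_add]; field_simp
  have b1 : |∑ D ∈ Ico (Y + 1) (2 * ν + 1), (2 * (ν : ℝ) - D) * MW N m (ind r a) D| ≤
      2 * ν * (2 * ν * (qq k ^ m / qq k ^ G)) := by
    refine (abs_sum_le_sum_abs _ _).trans ((sum_le_card_nsmul _ _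
      (2 * ν * (qq k ^ m / qq k ^ G)) fun D hD => ?_).trans ?_)
    · rw [mem_Ico] at hD
      rw [abs_mul]
      refine mul_le_mul ?_ (term D (by omega) (by omega)) (abs_nonneg _) (by positivity)
      have d1 : (D : ℝ) ≤ 2 * ν := by exact_mod_cast (show D ≤ 2 * ν by omega)
      have d2 : (0 : ℝ) ≤ D := Nat.cast_nonneg D
      rw [abs_le]; constructor <;> linarith
    · rw [nsmul_eq_mul, Nat.card_Ico]
      refine mul_le_mul_of_nonneg_right ?_ (by positivity)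
      exact_mod_cast (show 2 * ν + 1 - (Y + 1) ≤ 2 * ν by omega)
  have b2 : qq k ^ ((m + 1) / 2) ≤ qq k ^ m / qq k ^ G := by
    rw [le_div_iff₀ qG, ← pow_add]; exact qq_pow_mono (by omega)
  simp only [ind, sum_boole, filter_filter] at hI'
  have b3 : |2 * (ν : ℝ) * ((low k m).filter fun x => Irreducible (N ^ 2 + x) ∧
      r ∣ N ^ 2 + x - a).card - qq k ^ m / qq k ^ r.natDegree * eu (-1) (pf r)| ≤
      4 * (ν + 1) ^ 2 * (qq k ^ m / qq k ^ G) := by
    rw [← hs] at hI'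
    have b4 := mul_le_mul_of_nonneg_left b2 (show (0 : ℝ) ≤ 2 * ν by positivity)
    have b5 := mul_nonneg ν0' z0
    rw [abs_le] at hI' b0 b1 ⊢
    constructor <;> nlinarith [hI'.1, hI'.2, b1.1, b1.2, b0.1, b0.2]
  have b6 : 4 * ((ν : ℝ) + 1) ^ 2 ≤ qq k ^ H := by
    have := two_pow_le_qq (k := k) H
    linarith
  have qH : (0 : ℝ) < qq k ^ H := pow_pos q0 H
  calc _ ≤ qq k ^ H * (qq k ^ m / qq k ^ G) * qq k ^ H :=
        mul_le_mul_of_nonneg_right (b3.trans (mul_le_mul_of_nonneg_right b6 z0)) qH.le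
    _ = qq k ^ m * (qq k ^ (H + H) / qq k ^ G) := by rw [pow_add]; ring
    _ ≤ qq k ^ m * 1 := mul_le_mul_of_nonneg_left ((div_le_one qG).2 (qq_pow_mono e5))
        (pow_pos q0 m).le
    _ = _ := mul_one _

end Pool.Agent.P.MP_e94e4b_nt.LG
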