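import Pool.Agent.P.MP_e94e4b_nt.LG.If

/-! Step AZ. -/

namespace Pool.Agent.P.MP_e94e4b_nt.LG

open Polynomial Finset
open Pool.Agent.P.MP_8be758_nt Pool.Agent.P.MP_8be758_nt.C2 Pool.Agent.P.MP_8be758_nt.L2
open scoped Classical ComplexConjugate

theorem AZ_mem {k : Type} [Field k] [Finite k] {a r : ℕ} {S : Finset k[X]} (hS : S ∈ WW k a r) :
    (∀ P ∈ S, IsPr P ∧ P.natDegree = a) ∧ S.card = r := by
  obtain ⟨h1, h2⟩ := mem_powersetCard.1 hS
  exact ⟨fun P hP => mem_Pd.1 (h1 hP), h2⟩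

theorem AZ_deg {k : Type} [Field k] [Finite k] {a r : ℕ} {S : Finset k[X]} (hS : S ∈ WW k a r) :
    (pr S).natDegree = r * a := by
  obtain ⟨h1, h2⟩ := AZ_mem hS
  rw [natDegree_pr (fun P hP => (h1 P hP).1), dg, sum_congr rfl (fun P hP => (h1 P hP).2),
    sum_const, h2, smul_eq_mul]

theorem AZ_cop {k : Type} [Field k] [Finite k] {a r : ℕ} {S : Finset k[X]} (hS : S ∈ WW k a r)
    {Δ : k[X]} (h0 : Δ ≠ 0) (hd : Δ.natDegree < a) : IsCoprime (pr S) Δ := by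
  obtain ⟨h1, -⟩ := AZ_mem hS
  refine IsCoprime.prod_left fun P hP => ?_
  refine ((h1 P hP).1.2.coprime_iff_not_dvd).2 fun h => ?_
  have := natDegree_le_of_dvd h h0
  rw [(h1 P hP).2] at this
  omega

theorem AZ_swap {k : Type} [Field k] [Finite k] (a r σ : ℕ) (Δ V : k[X]) :
    ∑ t ∈ low k σ, GW a r (V + Δ * t) = ∑ S ∈ WW k a r, ct σ Δ V (pr S) := by
  simp only [GW, ct, card_filter, Nat.cast_sum]
  exact sum_comm

theorem p_AZ (hPOI : S_POI) :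
    S_AZ := by
  intro k _ _ _ Δ V a r σ h0 hd hσ
  have e : ∀ S ∈ WW k a r, ct σ Δ V (pr S) = qq k ^ σ / qq k ^ (r * a) := fun S hS => by
    have h := (hPOI k (pr S) Δ V 0 σ (monic_pr (fun P hP => ((AZ_mem hS).1 P hP).1)).ne_zero h0
      (AZ_cop hS h0 hd)).1 (by rw [AZ_deg hS]; exact hσ)
    rwa [AZ_deg hS] at h
  rw [AA, sum_sub_distrib, AZ_swap, sum_congr rfl e, sum_const, sum_const, nsmul_eq_mul,
    nsmul_eq_mul, card_low', Gb]
  ring

end Pool.Agent.P.MP_e94e4b_nt.LG
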