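import Pool.Agent.P.MP_e94e4b_nt.LG.If

/-! Step BIL. -/

namespace Pool.Agent.P.MP_e94e4b_nt.LG

open Polynomial Finset
open Pool.Agent.P.MP_8be758_nt Pool.Agent.P.MP_8be758_nt.C2 Pool.Agent.P.MP_8be758_nt.L2
open scoped Classical ComplexConjugate

theorem BIL_dc {α : Type} [DecidableEq α] (A : Finset α) (r : ℕ) (G : Finset α → ℝ) :
    ∑ S ∈ A.powersetCard (r + 1), ∑ _P ∈ S, G S =
      ∑ T ∈ A.powersetCard r, ∑ P ∈ A \ T, G (insert P T) := by
  rw [sum_sigma', sum_sigma']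
  refine sum_nbij' (fun x => ⟨x.1.erase x.2, x.2⟩) (fun y => ⟨insert y.2 y.1, y.2⟩) ?_ ?_ ?_ ?_ ?_
  · rintro ⟨S, P⟩ h
    simp only [mem_sigma, mem_powersetCard, mem_sdiff] at h ⊢
    exact ⟨⟨(erase_subset _ _).trans h.1.1, by rw [card_erase_of_mem h.2, h.1.2]; rfl⟩,
      h.1.1 h.2, notMem_erase _ _⟩
  · rintro ⟨T, P⟩ h
    simp only [mem_sigma, mem_powersetCard, mem_sdiff] at h ⊢
    exact ⟨⟨insert_subset h.2.1 h.1.1, by rw [card_insert_of_notMem h.2.2, h.1.2]⟩,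
      mem_insert_self _ _⟩
  · rintro ⟨S, P⟩ h
    simp only [mem_sigma] at h
    simp only [insert_erase h.2]
  · rintro ⟨T, P⟩ h
    simp only [mem_sigma, mem_sdiff] at h
    simp only [erase_insert h.2.2]
  · rintro ⟨S, P⟩ h
    simp only [mem_sigma] at h
    simp only [insert_erase h.2]

theorem p_BIL :
    S_BIL := by
  intro k _ _ a r F hF
  have hW : ∀ T ∈ WW k a r, T ⊆ Pd k a ∧ T.card = r := fun T hT => mem_powersetCard.1 hT
  have hP : ∀ T ∈ WW k a r, ∀ P ∈ T, IsPr P := fun T hT P h => (mem_Pd.1 ((hW T hT).1 h)).1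
  have h1 := BIL_dc (Pd k a) r (fun S => F (pr S))
  have h2 : ∑ S ∈ (Pd k a).powersetCard (r + 1), ∑ _P ∈ S, F (pr S) =
      (r + 1 : ℝ) * ∑ S ∈ WW k a (r + 1), F (pr S) := by
    rw [mul_sum]
    refine sum_congr rfl fun S hS => ?_
    rw [sum_const, (mem_powersetCard.1 hS).2, nsmul_eq_mul]
    push_cast
    rfl
  have h3 : ∀ T ∈ WW k a r, |∑ P ∈ Pd k a \ T, F (pr (insert P T))| ≤
      |∑ P ∈ Pd k a, F (pr T * P)| + r := by
    intro T hT
    have e1 : ∑ P ∈ Pd k a \ T, F (pr (insert P T)) = ∑ P ∈ Pd k a \ T, F (pr T * P) :=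
      sum_congr rfl fun P h => by rw [pr_insert (mem_sdiff.1 h).2, mul_comm]
    rw [e1, sum_sdiff_eq_sub (hW T hT).1]
    have e2 : |∑ P ∈ T, F (pr T * P)| ≤ r := by
      refine (abs_sum_le_sum_abs _ _).trans ((sum_le_sum fun P _ => hF _).trans ?_)
      simp [(hW T hT).2]
    exact (abs_sub _ _).trans (by linarith)
  have hm : ∀ T ∈ WW k a r, pr T ∈ Mo k (r * a) := by
    intro T hT
    refine mem_Mo.2 ⟨monic_pr (hP T hT), ?_⟩
    rw [natDegree_pr (hP T hT), dg, sum_congr rfl fun P h => (mem_Pd.1 ((hW T hT).1 h)).2,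
      sum_const, (hW T hT).2, smul_eq_mul]
  have hi : Set.InjOn (fun T : Finset k[X] => pr T) (WW k a r) := by
    intro S hS T hT e
    rw [← pf_pr (hP S hS), ← pf_pr (hP T hT)]
    exact congrArg pf e
  have h4 : ∑ T ∈ WW k a r, |∑ P ∈ Pd k a, F (pr T * P)| ≤
      ∑ W ∈ Mo k (r * a), |∑ P ∈ Pd k a, F (W * P)| := by
    rw [← sum_image (f := fun W => |∑ P ∈ Pd k a, F (W * P)|) hi]
    refine sum_le_sum_of_subset_of_nonneg ?_ fun _ _ _ => abs_nonneg _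
    intro W h
    obtain ⟨T, hT, rfl⟩ := mem_image.1 h
    exact hm T hT
  have h5 : ((WW k a r).card : ℝ) ≤ qq k ^ (r * a) := by
    have := (card_le_card_of_injOn _ hm hi).trans (card_Gs_le (1 : k[X]) 0 (r * a))
    unfold qq
    exact_mod_cast this
  have h6 : |(r + 1 : ℝ) * ∑ S ∈ WW k a (r + 1), F (pr S)| ≤
      ∑ T ∈ WW k a r, (|∑ P ∈ Pd k a, F (pr T * P)| + r) := by
    rw [← h2, h1]
    exact (abs_sum_le_sum_abs _ _).trans (sum_le_sum h3)
  rw [abs_mul, abs_of_nonneg (by positivity), sum_add_distrib, sum_const, nsmul_eq_mul] at h6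
  have h7 : (0 : ℝ) ≤ r := Nat.cast_nonneg r
  nlinarith [abs_nonneg (∑ S ∈ WW k a (r + 1), F (pr S)), mul_le_mul_of_nonneg_right h5 h7,
    mul_nonneg h7 (abs_nonneg (∑ S ∈ WW k a (r + 1), F (pr S)))]

end Pool.Agent.P.MP_e94e4b_nt.LG
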