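import Pool.Agent.P.MP_e94e4b_nt.LG.CWc

/-! Short sums of characters at infinity in characteristic two. -/

namespace Pool.Agent.P.MP_e94e4b_nt.LG.CW

open Polynomial Finset
open Pool.Agent.P.MP_8be758_nt.C2 Pool.Agent.P.MP_8be758_nt.L2
open scoped Classical ComplexConjugate

variable {k : Type} [Field k] [Finite k] [CharP k 2]

theorem Ch.zero {c : ℕ} {χ : k[X] → ℂ} (hχ : Ch c χ) (hc : 1 ≤ c)
    (hex : ∃ z, χ (X ^ c + C z) ≠ 1) {Dl : k[X]} {la : ℕ} (hD : Dl ≠ 0)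
    (h : Dl.natDegree + c ≤ la) (y0 : k[X]) : ∑ y ∈ Gs Dl y0 la, χ y = 0 := by
  obtain ⟨z, hz⟩ := hex
  have z0 : z ≠ 0 := by
    rintro rfl
    exact hz (by rw [map_zero, add_zero, hχ.X_pow])
  obtain ⟨e, he⟩ : ∃ e, Dl.natDegree + e + c = la := ⟨la - (Dl.natDegree + c), by omega⟩
  have lD := leadingCoeff_ne_zero.2 hD
  set z' := z / Dl.leadingCoeff with hz'
  have z1 : z' ≠ 0 := div_ne_zero z0 lD
  set ξ : k[X] := Dl * (C z' * X ^ e) with hξ
  have x0 : (C z' * X ^ e : k[X]) ≠ 0 := mul_ne_zero (C_ne_zero.2 z1) (pow_ne_zero _ X_ne_zero)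
  have x2 : ξ.natDegree = Dl.natDegree + e := by
    rw [hξ, natDegree_mul hD x0, natDegree_C_mul_X_pow _ _ z1]
  have x3 : ξ.leadingCoeff = z := by
    rw [hξ, leadingCoeff_mul, leadingCoeff_C_mul_X_pow, hz']; field_simp
  refine zeroC _ ξ (fun g hg => add_mem_Gs hg (mem_low_of_natDegree_lt (by omega))
    (dvd_mul_right _ _)) _ _ hz fun y hy => ?_
  obtain ⟨y1, y2, -⟩ := mem_Gs.1 hy
  have k3 : ξ.coeff (y.natDegree - c) = z := by
    rw [← x3, leadingCoeff]; congr 1; omega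
  rw [hχ.chk hc y1 (M := ξ) (by omega), k3, mul_comm]

theorem Ch.chw {c : ℕ} {χ : k[X] → ℂ} (hχ : Ch c χ) (hc : 1 ≤ c)
    (hex : ∃ z, χ (X ^ c + C z) ≠ 1) {Dl : k[X]} {la u : ℕ} (hD : Dl ≠ 0)
    (h8 : 8 * Dl.natDegree ≤ la) (hu : 4 * c + la ≤ 2 ^ u * la) (y0 : k[X]) :
    ‖∑ y ∈ Gs Dl y0 la, χ y‖ * qq k ^ (la / (8 * 4 ^ u)) ≤ 4 * qq k ^ (la - Dl.natDegree) := by
  have q0 := qq_pos (k := k)
  have q1 := one_le_qq (k := k)
  by_cases hz : Dl.natDegree + c ≤ la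
  · rw [hχ.zero hc hex hD hz, norm_zero, zero_mul]; positivity
  have cG := card_Gs hD y0 (n := la) (by omega)
  rw [div_eq_mul_inv, ← pow_sub₀ _ q0.ne' (by omega)] at cG
  set s := la / (8 * 4 ^ u) with hs
  by_cases hq : qq k ^ s < 2
  · have := norm_sum_le_card (Gs Dl y0 la) χ fun y hy => (hχ.nrm _ (mem_Gs.1 hy).1).le
    rw [cG] at this
    have h0 : 0 ≤ qq k ^ (la - Dl.natDegree) := by positivity
    nlinarith [norm_nonneg (∑ y ∈ Gs Dl y0 la, χ y), pow_pos q0 s]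
  have s1 : 1 ≤ s := by
    rcases Nat.eq_zero_or_pos s with h | h
    · rw [h] at hq; norm_num at hq
    · exact h
  have u1 : 1 ≤ u := by
    rcases Nat.eq_zero_or_pos u with rfl | h
    · omega
    · exact h
  obtain ⟨p, hp⟩ : ∃ p, 2 ^ u = p + 1 := ⟨2 ^ u - 1, by
    have : 0 < 2 ^ u := by positivity
    omega⟩
  have p1 : 1 ≤ p := by
    have := Nat.pow_le_pow_right (show 0 < 2 by norm_num) u1
    omega
  set t := s * 2 ^ u with ht
  have t1 : 8 * (2 ^ u * t) ≤ la := by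
    have := Nat.div_mul_le_self la (8 * 4 ^ u)
    have e : (4 : ℕ) ^ u = 2 ^ u * 2 ^ u := by rw [← mul_pow]; norm_num
    calc _ = s * (8 * 4 ^ u) := by rw [ht, e]; ring
      _ ≤ _ := this
  have t2 : 1 ≤ t := Nat.mul_pos s1 (by positivity)
  have t3 : t ≤ 2 ^ u * t := Nat.le_mul_of_pos_left _ (by positivity)
  set g := (Dl.natDegree + c - la - 1) / p with hg
  have g1 : p * g ≤ Dl.natDegree + c - la - 1 := Nat.mul_div_le _ _
  have g2 : Dl.natDegree + c - la - 1 < p * (g + 1) := Nat.lt_mul_div_succ _ p1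
  have g3 : 4 * g < la := by
    refine Nat.lt_of_mul_lt_mul_left (a := p) ?_
    have e1 : p * (4 * g) = 4 * (p * g) := by ring
    have e2 : 2 ^ u * la = p * la + la := by rw [hp]; ring
    omega
  obtain ⟨a, ha⟩ : ∃ a, a + t + g = la := ⟨la - (t + g), by omega⟩
  obtain ⟨b, hb⟩ : ∃ b, b + 1 + g = la := ⟨la - (1 + g), by omega⟩
  obtain ⟨W, hW⟩ : ∃ W, Dl.natDegree + W + g = la := ⟨la - (Dl.natDegree + g), by omega⟩
  have f1 : 2 ^ u * la = 2 ^ u * b + p * (g + 1) + g + 1 := by rw [← hb, hp]; ring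
  have f2 : 2 ^ u * la = 2 ^ u * a + 2 ^ u * t + p * g + g := by rw [← ha, hp]; ring
  have hqs : 0 < qq k ^ s := by positivity
  have key := hχ.bound hc hex (la := la) (a := a) (b := b) (W := W) (t := t)
    (J := Dl.natDegree + 2 ^ u * t) (u := u) hD (by omega) (by omega) (by omega) (by omega)
    (by omega) (by omega) (by omega) u1 (by omega) (by omega)
    (fun i hi => by
      have e1 : 2 ^ i * b + 2 ^ i = 2 ^ i * a + 2 ^ i * t := by
        rw [← mul_add, show a + t = b + 1 by omega]; ring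
      have e2 : 2 ^ i * t ≤ 2 ^ u * t :=
        Nat.mul_le_mul_right _ (Nat.pow_le_pow_right (by norm_num) hi.le)
      have e3 : 0 < 2 ^ i := by positivity
      omega)
    (η := 2 / qq k ^ s) (by positivity) ((div_le_one hqs).2 (not_lt.1 hq))
    (by
      rw [div_pow, ← pow_mul, ← ht, div_mul_eq_mul_div, le_div_iff₀ (by positivity), mul_assoc,
        ← pow_add, Nat.sub_add_cancel (by omega)]
      gcongr
      · norm_num
      · exact Nat.lt_two_pow_self.le) y0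
  rw [cG] at key
  calc _ ≤ 2 * (2 / qq k ^ s) * qq k ^ (la - Dl.natDegree) * qq k ^ s := by gcongr
    _ = _ := by field_simp; ring

omit [CharP k 2] in
theorem Ch.cnd {ta : ℕ} {χ : k[X] → ℂ} (hχ : Ch ta χ) (hne : ∃ f : k[X], f.Monic ∧ χ f ≠ 1) :
    ∃ c, 1 ≤ c ∧ c ≤ ta ∧ Ch c χ ∧ ∃ z, χ (X ^ c + C z) ≠ 1 := by
  induction ta with
  | zero =>
    obtain ⟨f, hf, h⟩ := hne
    refine (h ?_).elim
    rw [← hχ.X_pow f.natDegree]
    refine hχ.lev _ _ hf (monic_X_pow _) (natDegree_X_pow _).symm ?_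
    rw [Nat.sub_zero, mem_low, ← degree_eq_natDegree hf.ne_zero]
    exact degree_sub_lt_left (by rw [degree_X_pow, degree_eq_natDegree hf.ne_zero]) hf.ne_zero
      (by rw [hf.leadingCoeff, leadingCoeff_X_pow])
  | succ c ih =>
    by_cases hex : ∃ z, χ (X ^ (c + 1) + C z) ≠ 1
    · exact ⟨c + 1, by omega, le_rfl, hχ, hex⟩
    push Not at hex
    obtain ⟨c', h1, h2, h3⟩ := ih ⟨hχ.mul, hχ.nrm, hχ.one, fun f g hf hg hd hl => by
      by_cases hn : f.natDegree ≤ c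
      · rw [show f.natDegree - c = 0 by omega, mem_low] at hl
        have : f - g = 0 := by simpa using hl
        rw [sub_eq_zero.1 this]
      · have := natDegree_le_of_mem_low hl
        have e := hχ.chk (by omega) hg (M := f - g) (by omega)
        rwa [hex, mul_one, add_sub_cancel] at e⟩
    exact ⟨c', h1, by omega, h3⟩

end Pool.Agent.P.MP_e94e4b_nt.LG.CW
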