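import Pool.Agent.P.MP_e94e4b_nt.LG.If
import Pool.Agent.P.MP_e94e4b_nt.LG.CWd

/-! Step CHK. -/

namespace Pool.Agent.P.MP_e94e4b_nt.LG

open Polynomial Finset
open Pool.Agent.P.MP_8be758_nt Pool.Agent.P.MP_8be758_nt.C2 Pool.Agent.P.MP_8be758_nt.L2
open scoped Classical ComplexConjugate

theorem p_CHK :
    S_CHK := by
  intro k _ _ c χ h
  have hχ : CW.Ch c χ := ⟨h.1, h.2.1, h.2.2.1, h.2.2.2⟩
  refine ⟨by simpa using hχ.X_pow 0, hχ.X_pow, fun Z u ζ hc hZ hd hu => ?_⟩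
  have h1 := mem_low.1 hu
  rw [degree_lt_iff_coeff_zero] at h1
  have h2 : u.coeff (Z.natDegree - c) = ζ := by
    have := h1 _ le_rfl
    rwa [coeff_sub, coeff_C_mul_X_pow, if_pos rfl, sub_eq_zero] at this
  have h3 : u.natDegree ≤ Z.natDegree - c := by
    rw [natDegree_le_iff_coeff_eq_zero]
    intro m hm
    have := h1 m hm.le
    rwa [coeff_sub, coeff_C_mul_X_pow, if_neg hm.ne', sub_zero] at this
  rw [hχ.chk hc hZ (by omega), h2]

end Pool.Agent.P.MP_e94e4b_nt.LG
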