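import Pool.Agent.P.MP_e94e4b_nt.LG.If
import Pool.Agent.P.MP_e94e4b_nt.LG.CWd

/-! Step CHW. -/

namespace Pool.Agent.P.MP_e94e4b_nt.LG

open Polynomial Finset
open Pool.Agent.P.MP_8be758_nt Pool.Agent.P.MP_8be758_nt.C2 Pool.Agent.P.MP_8be758_nt.L2
open scoped Classical ComplexConjugate

theorem p_CHW :
    S_CHW := by
  intro K
  refine ⟨8 * 4 ^ (4 * K) * 2, 8 * 4 ^ (4 * K), Nat.succ_le_of_lt (by positivity), ?_⟩
  intro k _ _ _ c l χ Δ y0 hl ⟨hc, h, hex⟩ hD h8 hK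
  have hχ : CW.Ch c χ := ⟨h.1, h.2.1, h.2.2.1, h.2.2.2⟩
  have h1 : 4 * K + 1 ≤ 2 ^ (4 * K) := Nat.lt_two_pow_self
  have h2 := hχ.chw hc hex (la := l) (u := 4 * K) hD h8 (by nlinarith) y0
  have h3 : 1 ≤ l / (8 * 4 ^ (4 * K)) := (Nat.le_div_iff_mul_le (by positivity)).2 (by omega)
  rw [← Nat.div_div_eq_div_mul]
  set s := l / (8 * 4 ^ (4 * K))
  have q0 := qq_pos (k := k)
  have q2 := two_le_qq (k := k)
  have h4 : qq k ^ (s / 2) * 2 ≤ qq k ^ s :=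
    calc _ ≤ qq k ^ (s / 2) * qq k := by gcongr
      _ = qq k ^ (s / 2 + 1) := (pow_succ _ _).symm
      _ ≤ _ := qq_pow_mono (by omega)
  have h5 : qq k ^ l = qq k ^ (l - Δ.natDegree) * qq k ^ Δ.natDegree := by
    rw [← pow_add, Nat.sub_add_cancel (by omega)]
  have h6 : ‖YY χ Δ y0 l‖ * qq k ^ (s / 2) ≤ 2 * qq k ^ (l - Δ.natDegree) := by
    have := mul_le_mul_of_nonneg_left h4 (norm_nonneg (YY χ Δ y0 l))
    unfold YY at this ⊢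
    linarith
  rw [h5, pow_add]
  calc _ = ‖YY χ Δ y0 l‖ * qq k ^ (s / 2) * qq k ^ Δ.natDegree := by ring
    _ ≤ 2 * qq k ^ (l - Δ.natDegree) * qq k ^ Δ.natDegree := by gcongr
    _ = _ := by ring

end Pool.Agent.P.MP_e94e4b_nt.LG
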