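import Pool.Agent.P.MP_e94e4b_nt.LG.If

/-! Step CLS. -/

namespace Pool.Agent.P.MP_e94e4b_nt.LG

open Polynomial Finset
open Pool.Agent.P.MP_8be758_nt Pool.Agent.P.MP_8be758_nt.C2 Pool.Agent.P.MP_8be758_nt.L2
open scoped Classical ComplexConjugate

theorem CLS_bij {k : Type} [Field k] [Finite k] {c n : ℕ} {χ : k[X] → ℂ} (h : IsChar c χ)
    (hp : ∀ n, χ (X ^ n) = 1) (hn : c ≤ n) {g : k[X]} (hg : g.Monic) (F G : k[X] → ℂ)
    (hF : ∀ u w : k[X], g * u - X ^ g.natDegree * w ∈ low k g.natDegree → F u = G w) :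
    χ g * ∑ u ∈ Mo k n, χ u * F u = ∑ w ∈ Mo k n, χ w * G w := by
  set j := g.natDegree with hj
  have hX := monic_X_pow (R := k) j
  have hr : ∀ u : k[X], g * u - X ^ j * ((g * u) /ₘ X ^ j) ∈ low k j := fun u => by
    rw [← modByMonic_eq_sub_mul_div, mem_low, ← degree_X_pow (R := k) j]
    exact degree_modByMonic_lt _ hX
  have hw : ∀ u ∈ Mo k n, (g * u) /ₘ X ^ j ∈ Mo k n := fun u hu => by
    obtain ⟨a1, a2⟩ := mem_Mo.1 hu
    have d : (g * u).natDegree = j + n := by rw [hg.natDegree_mul a1, a2]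
    refine mem_Mo.2 ⟨?_, by rw [natDegree_divByMonic _ hX, d, natDegree_X_pow]; omega⟩
    rw [Monic, leadingCoeff_divByMonic_of_monic hX (by
      rw [degree_X_pow, degree_eq_natDegree (hg.mul a1).ne_zero, d]
      exact_mod_cast Nat.le_add_right _ _)]
    exact hg.mul a1
  have hi : ∀ u ∈ Mo k n, ∀ v ∈ Mo k n, (g * u) /ₘ X ^ j = (g * v) /ₘ X ^ j → u = v := by
    intro u _ v _ e
    have h1 := sub_mem_low (hr u) (hr v)
    rw [e, sub_sub_sub_cancel_right, ← mul_sub] at h1
    exact sub_eq_zero.1 ((mul_eq_zero.1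
      (eq_zero_of_mem_low h1 (dvd_mul_right _ _) le_rfl)).resolve_left hg.ne_zero)
  rw [mul_sum]
  refine sum_bij (fun u _ => (g * u) /ₘ X ^ j) hw (fun u hu v hv => hi u hu v hv)
    (fun w hw' => ?_) fun u hu => ?_
  · obtain ⟨u, hu, e⟩ := surj_on_of_inj_on_of_card_le (fun u _ => (g * u) /ₘ X ^ j) hw
      (fun u v hu hv => hi u hu v hv) le_rfl w hw'
    exact ⟨u, hu, e.symm⟩
  · obtain ⟨a1, a2⟩ := mem_Mo.1 hu
    obtain ⟨b1, b2⟩ := mem_Mo.1 (hw u hu)
    have d : (g * u).natDegree = j + n := by rw [hg.natDegree_mul a1, a2]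
    rw [← mul_assoc, ← h.1 _ _ hg a1, hF u _ (hr u), h.2.2.2 _ _ (hg.mul a1) (hX.mul b1) (by
      rw [d, hX.natDegree_mul b1, b2, natDegree_X_pow]) (by
      rw [d]; exact low_mono (by omega) (hr u)), h.1 _ _ hX b1, hp, one_mul]

theorem CLS_res {k : Type} [Field k] [Finite k] {M p : k[X]} {j : ℕ} (h : p ∈ low k j)
    (hj : j + 1 ≤ M.natDegree) : res M p = 0 := by
  by_cases h0 : p = 0
  · rw [h0, res_zero]
  · have := natDegree_lt_of_mem_low h h0
    exact res_eq_zero (by omega)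

theorem p_CLS (hCHK : S_CHK) :
    S_CLS := by
  intro k _ _ _ c n i χ g M γ h hn hg hM hd
  have hp := (hCHK k c χ h).2.1
  have e1 := CLS_bij h hp hn hg (fun u => (psi (res M (C γ * g * u)) : ℝ))
    (fun w => (psi (res M (C γ * X ^ g.natDegree * w)) : ℝ)) fun u w huw => by
      have := CLS_res (M := M) (j := g.natDegree) (mul_mem_low (c := C γ) huw (by simp))
        (by omega)
      rw [show C γ * g * u = C γ * X ^ g.natDegree * w + C γ * (g * u - X ^ g.natDegree * w) by
        ring, res_add, this, add_zero]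
  have e2 := CLS_bij h hp hn hM (fun u => (psi (γ * u.coeff i) : ℝ))
    (fun w => (psi (res M (C γ * X ^ g.natDegree * w)) : ℝ)) fun u w huw => by
      have hX := pow_ne_zero M.natDegree (X_ne_zero (R := k))
      have a := CLS_res (M := M * X ^ M.natDegree) (mul_mem_low (c := X ^ g.natDegree) huw le_rfl)
        (by rw [natDegree_mul_X_pow _ hM.ne_zero, natDegree_X_pow]; omega)
      have b : res (X ^ M.natDegree) (X ^ g.natDegree * u) = u.coeff i := by
        rw [res, leadingCoeff_X_pow, div_one, natDegree_X_pow,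
          ← modByMonic_eq_mod _ (monic_X_pow _), modByMonic_eq_sub_mul_div, coeff_sub,
          coeff_X_pow_mul' _ M.natDegree, if_neg (by omega), sub_zero,
          show M.natDegree - 1 = i + g.natDegree by omega, coeff_X_pow_mul]
      rw [mul_assoc, res_C_mul, ← b, ← res_mul_mul M _ hX, ← res_mul_mul _ _ hM.ne_zero,
        mul_comm (X ^ M.natDegree) M, show X ^ g.natDegree * u * M = X ^ g.natDegree * w *
          X ^ M.natDegree + X ^ g.natDegree * (M * u - X ^ M.natDegree * w) by ring, res_add, a,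
        add_zero]
  have e3 : conj (χ g) * χ g = 1 := by rw [Complex.conj_mul', h.2.1 g hg]; simp
  unfold GS
  linear_combination conj (χ g) * e1 - conj (χ g) * e2 -
    (∑ u ∈ Mo k n, χ u * (psi (res M (C γ * g * u)) : ℂ)) * e3

end Pool.Agent.P.MP_e94e4b_nt.LG
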