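import Pool.Agent.P.MP_e94e4b_nt.LG.If

/-! Step CND. -/

namespace Pool.Agent.P.MP_e94e4b_nt.LG

open Polynomial Finset
open Pool.Agent.P.MP_8be758_nt Pool.Agent.P.MP_8be758_nt.C2 Pool.Agent.P.MP_8be758_nt.L2
open scoped Classical ComplexConjugate

theorem CND_top {k : Type} [Field k] [Finite k] {u : k[X]} {j : ℕ} (h : u ∈ low k (j + 1)) :
    u - C (u.coeff j) * X ^ j ∈ low k j := by
  rw [mem_low] at h ⊢
  rw [degree_lt_iff_coeff_zero] at h ⊢
  intro m hm
  rw [coeff_sub, coeff_C_mul_X_pow]
  rcases Nat.eq_or_lt_of_le hm with e | e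
  · subst e; simp
  · rw [if_neg (by omega), h m (by omega)]; simp

theorem p_CND (hCHK : S_CHK) :
    S_CND := by
  intro k _ _ τ χ
  induction τ with
  | zero =>
    intro h hN
    exfalso
    obtain ⟨f, hf, hne⟩ := hN
    apply hne
    rw [← (hCHK k 0 χ h).2.1 f.natDegree]
    refine h.2.2.2 f _ hf (monic_X_pow _) (by simp) ?_
    rw [mem_low, Nat.sub_zero]
    have := degree_sub_lt (p := f) (q := X ^ f.natDegree)
      (by rw [degree_X_pow, degree_eq_natDegree hf.ne_zero]) hf.ne_zero
      (by rw [hf.leadingCoeff, (monic_X_pow _).leadingCoeff])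
    rwa [degree_eq_natDegree hf.ne_zero] at this
  | succ c ih =>
    intro h hN
    by_cases hz : ∃ ζ : k, χ (X ^ (c + 1) + C ζ) ≠ 1
    · exact ⟨c + 1, le_rfl, by omega, h, hz⟩
    · push Not at hz
      have h' : IsChar c χ := by
        refine ⟨h.1, h.2.1, h.2.2.1, fun f g hf hg hd hfg => ?_⟩
        by_cases hn : f.natDegree ≤ c
        · refine h.2.2.2 f g hf hg hd ?_
          have e : f.natDegree - (c + 1) = f.natDegree - c := by omega
          rw [e]; exact hfg
        · have e : f.natDegree - c = g.natDegree - (c + 1) + 1 := by omega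
          rw [e] at hfg
          have := (hCHK k (c + 1) χ h).2.2 g (f - g) _ (by omega) hg (by omega) (CND_top hfg)
          rw [hz, mul_one] at this
          rw [← this]; congr 1; ring
      obtain ⟨c', h1, h2⟩ := ih h' hN
      exact ⟨c', by omega, h2⟩

end Pool.Agent.P.MP_e94e4b_nt.LG
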