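import Pool.Agent.P.MP_e94e4b_nt.LG.If

/-! Step CON12. -/

namespace Pool.Agent.P.MP_e94e4b_nt.LG

open Polynomial Finset
open Pool.Agent.P.MP_8be758_nt Pool.Agent.P.MP_8be758_nt.C2 Pool.Agent.P.MP_8be758_nt.L2
open scoped Classical ComplexConjugate

theorem CON12_odp_mem {k : Type} [Field k] [Finite k] {f : k[X]} {s : ℕ}
    (h : f.natDegree ≤ 2 * s) : odp f ∈ low k s := by
  rw [mem_low, degree_lt_iff_coeff_zero]
  intro j hj
  rw [odp, coeff_contract (by norm_num), coeff_divX]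
  apply coeff_eq_zero_of_natDegree_lt
  omega

theorem CON12_exp {ν m ε E β s σ σ1 h j T : ℕ} (h2 : m ≤ ν + E) (h3 : ε + E ≤ m)
    (h4 : 2 * ν + β = 2 * s + ε) (h8 : ε + β + 2 * σ ≤ m + 1) (h18 : E ≤ ν) (hβ : 20 ≤ β)
    (e1 : σ1 = (m - ε + β) / 2) (e2 : h = (ε + β) / 2 + 1) (e3 : j = 2 * ε + σ1 + β - ν)
    (e4 : T = ν - m / 2) :
    2 * β + (2 * σ + σ1) + (h + max h j + 4) + 2 * β + (3 * β + 2 * σ + s + ε) ≤
      2 * (m + σ) + 10 * β + max ε T := by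
  have a1 : 2 * σ1 + ε ≤ m + β := by omega
  have a2 : 2 * h ≤ ε + β + 2 := by omega
  have a3 : 2 * ν ≤ 2 * T + m := by omega
  have a4 : ε ≤ max ε T := le_max_left _ _
  have a5 : T ≤ max ε T := le_max_right _ _
  generalize max ε T = M at a4 a5 ⊢
  rcases le_total j h with hj | hj
  · rw [max_eq_left hj]
    clear e1 e2 e3 e4
    omega
  · rw [max_eq_right hj]
    have a6 : j + ν = 2 * ε + σ1 + β := by
      clear e1 e4 a1 a3 a4 a5 h4 h8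
      omega
    clear e1 e2 e3 e4
    omega

theorem CON12_poly {ν b β h : ℕ} (hb : b ≤ β) (h1 : 20 * β ≤ ν) (h2 : h + 1 ≤ ν)
    (h22 : ν ^ 8 ≤ 2 ^ b) : (β : ℝ) * (20 * ((h : ℝ) + 1) ^ 3) ≤ 2 ^ (2 * β) := by
  have hν : 1 ≤ ν := by omega
  have a1 : β * (20 * (h + 1) ^ 3) ≤ 2 ^ (2 * β) := by
    calc β * (20 * (h + 1) ^ 3) = (20 * β) * (h + 1) ^ 3 := by ring
      _ ≤ ν * ν ^ 3 := Nat.mul_le_mul h1 (Nat.pow_le_pow_left h2 3)
      _ = ν ^ 4 := by ring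
      _ ≤ ν ^ 8 := Nat.pow_le_pow_right hν (by norm_num)
      _ ≤ 2 ^ b := h22
      _ ≤ 2 ^ (2 * β) := Nat.pow_le_pow_right (by norm_num) (by omega)
  exact_mod_cast a1

theorem CON12_one (hVAR : S_VAR) {k : Type} [Field k] [Finite k] [CharP k 2] {Δ : k[X]}
    {ν m ε β s σ a r s' : ℕ} (hY : YM k ν m ε β s σ (r * a)) (hΔ : Δ.Monic)
    (hd : Δ.natDegree < β) (ha : β ≤ a) (hr : 1 ≤ r) (hs1 : s ≤ s' + β) (hs2 : s' < s)
    (c1 : σ + β ≤ s') (c2 : r * a + β ≤ s') (c3 : s ≤ r * a + σ) :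
    (∑ V ∈ (low k (s' + 1)).filter (fun V => V.natDegree = s'), AA a r σ Δ V ^ 2) *
      (qq k ^ (10 * β) * qq k ^ max ε (ν - m / 2)) ≤ qq k ^ (3 * β + 2 * σ + s + ε) := by
  have hq := qq_pos (k := k)
  obtain ⟨τ, hτ⟩ : ∃ τ, τ + σ + Δ.natDegree = s' := ⟨s' - σ - Δ.natDegree, by omega⟩
  obtain ⟨l, hl⟩ : ∃ l, l + r * a = s' := ⟨s' - r * a, by omega⟩
  have hD : 0 < qq k ^ (10 * β) * (qq k ^ ε + qq k ^ (ν - m / 2)) := by positivity
  have h1 := hVAR k Δ a r τ σ l s'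
    (qq k ^ (2 * l) * qq k ^ ε / (qq k ^ (10 * β) * (qq k ^ ε + qq k ^ (ν - m / 2)))) hΔ
    (by omega) hr hτ hl (by omega) (by omega) (by positivity) (fun χ y0 hχ hn => by
      rw [le_div_iff₀ hD, ← mul_assoc]
      exact hY Δ y0 s' τ l χ hΔ hd hs1 hs2 hτ hl hχ hn)
  have h0 : 0 ≤ ∑ V ∈ (low k (s' + 1)).filter (fun V => V.natDegree = s'), AA a r σ Δ V ^ 2 :=
    sum_nonneg fun _ _ => sq_nonneg _
  generalize ∑ V ∈ (low k (s' + 1)).filter (fun V => V.natDegree = s'), AA a r σ Δ V ^ 2 = S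
    at h0 h1 ⊢
  rw [← mul_div_assoc, le_div_iff₀ hD] at h1
  have hm : qq k ^ max ε (ν - m / 2) ≤ qq k ^ ε + qq k ^ (ν - m / 2) := by
    rcases le_total ε (ν - m / 2) with h | h
    · rw [max_eq_right h]
      have : 0 < qq k ^ ε := by positivity
      linarith
    · rw [max_eq_left h]
      have : 0 < qq k ^ (ν - m / 2) := by positivity
      linarith
  have hτ0 : 0 < qq k ^ τ := by positivity
  refine le_of_mul_le_mul_right ?_ hτ0
  calc S * (qq k ^ (10 * β) * qq k ^ max ε (ν - m / 2)) * qq k ^ τ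
      = S * qq k ^ τ * (qq k ^ (10 * β) * qq k ^ max ε (ν - m / 2)) := by ring
    _ ≤ S * qq k ^ τ * (qq k ^ (10 * β) * (qq k ^ ε + qq k ^ (ν - m / 2))) := by
        gcongr
    _ ≤ qq k ^ (1 + 2 * Δ.natDegree + σ + 2 * (r * a)) * (qq k ^ (2 * l) * qq k ^ ε) := h1
    _ = qq k ^ (1 + 2 * Δ.natDegree + σ + 2 * (r * a) + (2 * l + ε)) := by
        rw [← pow_add, ← pow_add]
    _ ≤ qq k ^ (3 * β + 2 * σ + s + ε + τ) := by
        apply qq_pow_mono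
        generalize r * a = w at *
        omega
    _ = qq k ^ (3 * β + 2 * σ + s + ε) * qq k ^ τ := by rw [← pow_add]

theorem CON12_split {k : Type} [Field k] [Finite k] (Δ : k[X]) (a r σ s β : ℕ) (hs : β < s) :
    ∑ V ∈ low k s, A0 a r (s - β) σ Δ V ^ 2 ≤
      ∑ s' ∈ Ico (s - β) s,
        ∑ V ∈ (low k (s' + 1)).filter (fun V => V.natDegree = s'), AA a r σ Δ V ^ 2 := by
  have e1 : ∑ V ∈ low k s, A0 a r (s - β) σ Δ V ^ 2 =
      ∑ V ∈ (low k s).filter (fun V => s - β ≤ V.natDegree), AA a r σ Δ V ^ 2 := by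
    rw [sum_filter]
    refine sum_congr rfl fun V _ => ?_
    unfold A0
    split_ifs <;> simp
  rw [e1, ← sum_fiberwise_of_maps_to (s := (low k s).filter (fun V => s - β ≤ V.natDegree))
    (t := Ico (s - β) s) (g := fun V => V.natDegree) ?_]
  · refine sum_le_sum fun s' _ => ?_
    refine sum_le_sum_of_subset_of_nonneg ?_ (fun _ _ _ => sq_nonneg _)
    intro V hV
    rw [mem_filter] at hV ⊢
    exact ⟨mem_low_of_natDegree_lt (by omega), hV.2⟩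
  · intro V hV
    rw [mem_filter] at hV
    have := natDegree_le_of_mem_low hV.1
    rw [mem_Ico]
    omega

theorem p_CON12 (hFIB : S_FIB) (hE2 : S_E2) (hEE : S_EE) (hVAR : S_VAR) :
    S_CON12 := by
  intro k _ _ _ N m ε E b β s σ L a r w K hN hP hY B Δ hB hΔ hd
  have hq := qq_pos (k := k)
  obtain ⟨h1, h2, h3, h4, h5, h6, h7, h8, h9, h10, hw, h11, h12, h13, h14, h15, h16, h17, h18,
    h19, h20, h21, h22⟩ := hP
  clear h17
  subst hw
  set ν := N.natDegree with hν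
  generalize hw : r * a = w at h11 h12
  have b1 : E ≤ ν := by omega
  have b2 : 20 ≤ β := by omega
  have b3 : 200 * b ≤ L := by
    clear h11 h12 h13 h14 h9 h8 h7 h4 h1 h2 h18 hd
    omega
  have b4 : 2 * L ≤ σ := by
    clear h11 h12 h13 h14 h10 h8 h4 h1 h2 h18 hd
    omega
  have b5 : β ≤ a := by
    clear h11 h12 h13 h10 h9 h8 h7 h4 h1 h2 h18 hd
    omega
  have b6 : σ + 2 * β ≤ s := by
    clear h11 h12 h13 h14 h10 h9 h7 h1 hd b3 b4 b5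
    omega
  have b7 : w + 2 * β ≤ s := by
    clear h11 h13 h14 h10 h9 h8 h7 h4 h1 h2 h18 hd b4 b5 b6
    omega
  have b8 : s ≤ w + σ := by
    clear h12 h13 h14 h10 h9 h8 h7 h4 h1 h2 h18 hd b3 b5 b6 b7
    omega
  have b9 : 20 * β ≤ ν := by
    clear h11 h12 h13 h14 h10 h9 h8 h7 h4 h1 h2 hd b3 b4 b5 b6 b7 b8
    omega
  have b10 : (ε + β) / 2 + 1 + 1 ≤ ν := by
    clear h11 h12 h13 h14 h10 h9 h8 h7 h4 h1 hd b3 b4 b5 b6 b7 b8
    omega
  have b11 : (m - ε + β) / 2 ≤ s := by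
    clear h11 h12 h13 h14 h10 h9 h8 h7 h1 hd b3 b4 b5 b6 b7 b8 b9 b10
    omega
  have b12 : β ≤ 2 * ((m - ε + β) / 2) := by
    clear h11 h12 h13 h14 h10 h9 h8 h7 h4 h1 h2 h18 hd b3 b4 b5 b6 b7 b8 b9 b10 b11
    omega
  have b13 : m - ε ≤ 2 * σ + β := by
    clear h11 h12 h13 h14 h10 h9 h8 h4 h1 h2 h18 hd b3 b4 b5 b6 b7 b8 b9 b10 b11 b12
    omega
  have b14 : ε ≤ 2 * ν := by
    clear h11 h12 h13 h14 h10 h9 h8 h7 h4 h1 hd b3 b4 b5 b6 b7 b8 b9 b10 b11 b12 b13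
    omega
  have hexp := CON12_exp h2 h3 h4 h8 b1 b2 rfl rfl rfl rfl
  have hpoly := CON12_poly h5 b9 b10 h22
  clear h1 h2 h3 h5 h6 h7 h8 h9 h10 h11 h12 h13 h14 h16 h18 h19 h20 h21 h22 b3 b4 b9 b10 b1
  subst hw
  have hBd : B.natDegree = β := (mem_Pd.1 hB).2
  have hF := hFIB k (Mo k ε) (fun e => N ^ 2 /ₘ e) B (A0 a r (s - β) σ Δ) (m - ε) β σ
    ((m - ε + β) / 2) s hB b13 (by omega) b11 (fun e he => by
      obtain ⟨e1, e2⟩ := mem_Mo.1 he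
      apply CON12_odp_mem
      have g1 := natDegree_mul_le (p := N ^ 2 /ₘ e) (q := B)
      rw [natDegree_divByMonic _ e1, hN.natDegree_pow, e2, hBd, ← hν] at g1
      omega)
  have hE := (hE2 k N B ε β ((m - ε + β) / 2) hN hB b12).trans (hEE k _ _)
  rw [← hν] at hE
  have hS : (∑ V ∈ low k s, A0 a r (s - β) σ Δ V ^ 2) *
      (qq k ^ (10 * β) * qq k ^ max ε (ν - m / 2)) ≤ β * qq k ^ (3 * β + 2 * σ + s + ε) := by
    refine (mul_le_mul_of_nonneg_right (CON12_split Δ a r σ s β (by omega))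
      (by positivity)).trans ?_
    rw [sum_mul]
    refine (sum_le_card_nsmul _ _ (qq k ^ (3 * β + 2 * σ + s + ε)) fun s' hs' => ?_).trans ?_
    · rw [mem_Ico] at hs'
      exact CON12_one hVAR hY hΔ hd b5 h15 (by omega) hs'.2 (by omega) (by omega) b8
    · rw [Nat.card_Ico, nsmul_eq_mul]
      have : s - (s - β) = β := by omega
      rw [this]
  have hA0 : 0 ≤ ∑ V ∈ low k s, A0 a r (s - β) σ Δ V ^ 2 := sum_nonneg fun _ _ => sq_nonneg _
  have hS0 : 0 ≤ ∑ e ∈ Mo k ε, ∑ x ∈ low k (m - ε),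
      |A0 a r (s - β) σ Δ (odp ((N ^ 2 /ₘ e + x) * B))| :=
    sum_nonneg fun _ _ => sum_nonneg fun _ _ => abs_nonneg _
  generalize ∑ V ∈ low k s, A0 a r (s - β) σ Δ V ^ 2 = A at hA0 hS hF
  generalize ∑ e ∈ Mo k ε, ∑ x ∈ low k (m - ε),
      |A0 a r (s - β) σ Δ (odp ((N ^ 2 /ₘ e + x) * B))| = S at hS0 hF ⊢
  generalize ((((Mo k ε ×ˢ Mo k ε).filter (fun p =>
      odp (N ^ 2 /ₘ p.1 * B) + odp (N ^ 2 /ₘ p.2 * B) ∈ low k ((m - ε + β) / 2))).card : ℕ) : ℝ)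
      = C at hE hF
  generalize (m - ε + β) / 2 = σ1 at *
  generalize (ε + β) / 2 + 1 = h at *
  generalize 2 * ε + σ1 + β - ν = j at *
  generalize max ε (ν - m / 2) = M at *
  have hpoly' : (β : ℝ) * (20 * ((h : ℝ) + 1) ^ 3) ≤ qq k ^ (2 * β) :=
    hpoly.trans (two_pow_le_qq _)
  have hD : 0 < qq k ^ (10 * β) * qq k ^ M := by positivity
  refine le_of_sq_le_sq ?_ (by positivity)
  refine le_of_mul_le_mul_right ?_ hD
  calc (S * qq k ^ β) ^ 2 * (qq k ^ (10 * β) * qq k ^ M)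
      = S ^ 2 * (qq k ^ (2 * β) * (qq k ^ (10 * β) * qq k ^ M)) := by ring
    _ ≤ (qq k ^ (2 * σ + σ1) * C * A) * (qq k ^ (2 * β) * (qq k ^ (10 * β) * qq k ^ M)) :=
        mul_le_mul_of_nonneg_right hF (by positivity)
    _ = qq k ^ (2 * β) * qq k ^ (2 * σ + σ1) * (A * (qq k ^ (10 * β) * qq k ^ M)) * C := by ring
    _ ≤ qq k ^ (2 * β) * qq k ^ (2 * σ + σ1) * (A * (qq k ^ (10 * β) * qq k ^ M)) *
          (20 * ((h : ℝ) + 1) ^ 3 * qq k ^ (h + max h j + 4)) :=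
        mul_le_mul_of_nonneg_left hE (by positivity)
    _ ≤ qq k ^ (2 * β) * qq k ^ (2 * σ + σ1) * (β * qq k ^ (3 * β + 2 * σ + s + ε)) *
          (20 * ((h : ℝ) + 1) ^ 3 * qq k ^ (h + max h j + 4)) := by
        gcongr
    _ = qq k ^ (2 * β) * qq k ^ (2 * σ + σ1) * qq k ^ (h + max h j + 4) *
          (β * (20 * ((h : ℝ) + 1) ^ 3)) * qq k ^ (3 * β + 2 * σ + s + ε) := by ring
    _ ≤ qq k ^ (2 * β) * qq k ^ (2 * σ + σ1) * qq k ^ (h + max h j + 4) *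
          qq k ^ (2 * β) * qq k ^ (3 * β + 2 * σ + s + ε) := by
        gcongr
    _ = qq k ^ (2 * β + (2 * σ + σ1) + (h + max h j + 4) + 2 * β +
          (3 * β + 2 * σ + s + ε)) := by
        simp only [← pow_add]
    _ ≤ qq k ^ (2 * (m + σ) + 10 * β + M) := qq_pow_mono hexp
    _ = (qq k ^ (m + σ)) ^ 2 * (qq k ^ (10 * β) * qq k ^ M) := by ring

end Pool.Agent.P.MP_e94e4b_nt.LG
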