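import Pool.Agent.P.MP_e94e4b_nt.LG.If

/-! Step CON3. -/

namespace Pool.Agent.P.MP_e94e4b_nt.LG

open Polynomial Finset
open Pool.Agent.P.MP_8be758_nt Pool.Agent.P.MP_8be758_nt.C2 Pool.Agent.P.MP_8be758_nt.L2
open scoped Classical ComplexConjugate

theorem CON3_deg {k : Type} [Field k] {f : k[X]} {s : ℕ} (h : f.natDegree ≤ 2 * s) :
    (odp f).natDegree ≤ s := natDegree_le_iff_coeff_eq_zero.2 fun i hi => by
  rw [← coeff_eo_odd (evp f) (odp f), eo_evp_odp]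
  exact coeff_eq_zero_of_natDegree_lt (by omega)

theorem CON3_num {q : ℝ} (hq : 2 ≤ q) {r x y z b β σ : ℕ} (h0 : r + 1 ≤ b) (h1 : x + β + b ≤ σ)
    (h2 : x + y + 2 * β + 3 ≤ 2 * σ) (h3 : x + z + 2 * β + 3 ≤ 2 * σ) :
    (r * q ^ x + √(q ^ x * (q ^ y + q ^ z))) * q ^ β ≤ q ^ σ := by
  have q1 : 1 ≤ q := by linarith
  have a1 : 2 * (r : ℝ) ≤ q ^ b := by
    have : (r : ℝ) ≤ 2 ^ r := by exact_mod_cast r.lt_two_pow_self.le
    calc 2 * (r : ℝ) ≤ 2 ^ (r + 1) := by rw [pow_succ]; linarith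
      _ ≤ q ^ (r + 1) := by gcongr
      _ ≤ _ := pow_le_pow_right₀ q1 h0
  have a2 := mul_le_mul_of_nonneg_left a1 (show 0 ≤ q ^ x * q ^ β by positivity)
  have a3 := pow_le_pow_right₀ q1 h1
  have a4 : ∀ t, x + t + 2 * β + 3 ≤ 2 * σ → q ^ x * q ^ t * (q ^ β) ^ 2 * 8 ≤ (q ^ σ) ^ 2 :=
    fun t h => calc
      _ ≤ q ^ x * q ^ t * (q ^ β) ^ 2 * q ^ 3 := by
        gcongr; exact le_trans (by norm_num) (pow_le_pow_left₀ zero_le_two hq 3)
      _ = q ^ (x + t + 2 * β + 3) := by ring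
      _ ≤ q ^ (2 * σ) := pow_le_pow_right₀ q1 h
      _ = _ := by ring
  have a5 : √(q ^ x * (q ^ y + q ^ z)) * q ^ β ≤ q ^ σ / 2 := by
    refine (pow_le_pow_iff_left₀ (by positivity) (by positivity) two_ne_zero).1 ?_
    rw [mul_pow, Real.sq_sqrt (by positivity)]
    linarith [a4 y h2, a4 z h3]
  rw [pow_add, pow_add] at a3
  linarith

theorem p_CON3 (hT2P : S_T2P) :
    S_CON3 := by
  intro k _ _ _ N m ε E b β s σ L a r w K hN P hε B Δ hB hΔ hd
  obtain ⟨h1, h2, h3, h4, h5, h6, h7, h8, h9, h10, hw, h11, h12, h13, h14, h15, h16, -, h18, h19,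
    h20, h21, -⟩ := P
  obtain ⟨r, rfl⟩ := Nat.exists_eq_add_of_le' h15
  rw [add_mul, one_mul] at hw
  subst hw
  obtain ⟨c, rfl⟩ := Nat.exists_eq_add_of_le (show σ ≤ s by linarith)
  have b1 : 2 * (c / 2) ≤ c := by omega
  have b2 : 4 * (c - c / 4) ≤ 3 * c + 3 := by omega
  have key : ∀ V : k[X], V.natDegree ≤ σ + c →
      |A0 a (r + 1) (σ + c - β) σ Δ V| * qq k ^ β ≤ qq k ^ σ := fun V hV => by
    rw [A0]
    split_ifs with h
    · rw [tsub_le_iff_right] at h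
      refine (mul_le_mul_of_nonneg_right (hT2P k Δ V a r σ c hΔ ?_ (by linarith) (by linarith) hV
        (by linarith)) (pow_pos qq_pos _).le).trans
        (CON3_num (b := b) two_le_qq (by linarith) (by linarith) (by linarith) (by linarith))
      rintro rfl
      rw [natDegree_zero] at h
      linarith
    · simpa using (pow_pos qq_pos _).le
  rw [sum_mul]
  refine (sum_le_card_nsmul _ _ (qq k ^ (m - ε) * qq k ^ σ) fun e he => ?_).trans (le_of_eq ?_)
  · rw [sum_mul, ← card_low' (m - ε), ← nsmul_eq_mul]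
    refine sum_le_card_nsmul _ _ _ fun x hx => key _ (CON3_deg (natDegree_mul_le.trans ?_))
    have c1 : (N ^ 2 /ₘ e).natDegree = 2 * N.natDegree - ε := by
      rw [natDegree_divByMonic _ (mem_Mo.1 he).1, natDegree_pow, (mem_Mo.1 he).2]
    have c2 : x.natDegree ≤ m - ε := natDegree_le_of_degree_le (mem_low.1 hx).le
    have c3 := natDegree_add_le (N ^ 2 /ₘ e) x
    rw [(mem_Pd.1 hB).2]
    clear key
    omega
  · rw [nsmul_eq_mul, card_Mo, ← mul_assoc, ← pow_add, ← pow_add, Nat.add_sub_cancel' (by omega)]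

end Pool.Agent.P.MP_e94e4b_nt.LG
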