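import Pool.Agent.P.MP_e94e4b_nt.LG.If
import Pool.Agent.P.MP_e94e4b_nt.LG.Basic8

/-! Step DET. -/

namespace Pool.Agent.P.MP_e94e4b_nt.LG

open Polynomial Finset
open Pool.Agent.P.MP_8be758_nt Pool.Agent.P.MP_8be758_nt.C2 Pool.Agent.P.MP_8be758_nt.L2
open scoped Classical ComplexConjugate

namespace H8

variable {k : Type} [Field k] [Finite k]

/-- the solutions of a linear equation with coprime coefficients -/
theorem card_lin {u v : k[X]} (hu : u ≠ 0) (huv : IsCoprime u v) (h : ℕ) (r : k[X]) :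
    ((low k h ×ˢ low k h).filter (fun p => u * p.2 + v * p.1 = r)).card ≤
      Nat.card k ^ (h - u.natDegree) := by
  rcases ((low k h ×ˢ low k h).filter
    (fun p => u * p.2 + v * p.1 = r)).eq_empty_or_nonempty with e | ⟨y, hy⟩
  · rw [e]; simp
  obtain ⟨hy1, hy2⟩ := mem_filter.1 hy
  have key : ∀ p ∈ (low k h ×ˢ low k h).filter (fun p => u * p.2 + v * p.1 = r),
      u * ((p.1 - y.1) / u) = p.1 - y.1 := by
    intro p hp
    obtain ⟨-, h2⟩ := mem_filter.1 hp
    refine EuclideanDomain.mul_div_cancel' hu (huv.dvd_of_dvd_mul_left ⟨y.2 - p.2, ?_⟩)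
    linear_combination h2 - hy2
  rw [← card_low]
  refine card_le_card_of_injOn (fun p => (p.1 - y.1) / u) (fun p hp => ?_) (fun a ha b hb e => ?_)
  · refine mem_coe.2 (mem_low_of_mul hu ?_)
    rw [key p (mem_coe.1 hp)]
    exact sub_mem_low (mem_product.1 (mem_filter.1 (mem_coe.1 hp)).1).1 (mem_product.1 hy1).1
  · have e1 : a.1 = b.1 := by
      have h1 := key a (mem_coe.1 ha)
      have h2 := key b (mem_coe.1 hb)
      simp only at e
      rw [e] at h1
      linear_combination h2 - h1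
    have h1 := (mem_filter.1 (mem_coe.1 ha)).2
    have h2 := (mem_filter.1 (mem_coe.1 hb)).2
    refine Prod.ext e1 (mul_left_cancel₀ hu ?_)
    rw [e1] at h1
    linear_combination h1 - h2

theorem card_lin2 {g u v : k[X]} (hg : g ≠ 0) (hu : u ≠ 0) (huv : IsCoprime u v) (h j : ℕ) :
    ((low k h ×ˢ low k h).filter (fun p => g * u * p.2 + g * v * p.1 ∈ low k j)).card ≤
      Nat.card k ^ (h - u.natDegree) * Nat.card k ^ (j - g.natDegree) := by
  rw [← card_low (j - g.natDegree)]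
  refine card_le_mul_card_image_of_maps_to (f := fun p => u * p.2 + v * p.1) (fun p hp => ?_) _
    (fun r _ => ?_)
  · refine mem_low_of_mul hg ?_
    rw [mul_add, ← mul_assoc, ← mul_assoc]
    exact (mem_filter.1 hp).2
  · refine le_trans (card_le_card fun p hp => ?_) (card_lin hu huv h r)
    obtain ⟨h1, h2⟩ := mem_filter.1 hp
    exact mem_filter.2 ⟨(mem_filter.1 h1).1, h2⟩

/-- the number of solutions for fixed coefficients -/
noncomputable def nl (h j : ℕ) (a : k[X] × k[X]) : ℕ :=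
  ((low k h ×ˢ low k h).filter (fun p => a.1 * p.2 + a.2 * p.1 ∈ low k j)).card

theorem card_Mo_le (n : ℕ) : (Mo k n).card ≤ Nat.card k ^ n := card_Gs_le _ _ _

theorem sum_cover {ι α : Type} [DecidableEq α] (I : Finset ι) (t : ι → Finset α) (f : α → ℕ) :
    ∑ a ∈ I.biUnion t, f a ≤ ∑ i ∈ I, ∑ a ∈ t i, f a := by
  induction I using Finset.induction_on with
  | empty => simp
  | insert i I hi ih =>
    rw [biUnion_insert, sum_insert hi]
    have := sum_union_inter (s₁ := t i) (s₂ := I.biUnion t) (f := f)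
    omega

/-- the triples (common factor, cofactor, cofactor) of given degrees -/
noncomputable def tri (k : Type) [Field k] [Finite k] (c : ℕ × ℕ) : Finset (k[X] × k[X]) :=
  ((Mo k c.1 ×ˢ low k (c.2 + 1) ×ˢ low k (c.2 + 1)).filter
    (fun x => x.2.1 ≠ 0 ∧ x.2.1.natDegree = c.2 ∧ IsCoprime x.2.1 x.2.2)).image
      (fun x => (x.1 * x.2.1, x.1 * x.2.2))

theorem exists_tri {a b : k[X]} (h0 : a ≠ 0) (hd : b.natDegree ≤ a.natDegree) :
    ∃ c : ℕ × ℕ, c.1 + c.2 = a.natDegree ∧ (a, b) ∈ tri k c := by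
  have hg0 : gcd a b ≠ 0 := fun e => h0 ((gcd_eq_zero_iff _ _).1 e).1
  have hm : (gcd a b).Monic := by
    rw [← _root_.normalize_gcd]; exact monic_normalize hg0
  have e1 : gcd a b * (a / gcd a b) = a :=
    EuclideanDomain.mul_div_cancel' hg0 (gcd_dvd_left _ _)
  have e2 : gcd a b * (b / gcd a b) = b :=
    EuclideanDomain.mul_div_cancel' hg0 (gcd_dvd_right _ _)
  have hc : IsCoprime (a / gcd a b) (b / gcd a b) :=
    isCoprime_div_gcd_div_gcd_of_gcd_ne_zero hg0
  generalize gcd a b = g at hg0 hm e1 e2 hc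
  generalize a / g = u at e1 hc
  generalize b / g = v at e2 hc
  have hu : u ≠ 0 := fun e => h0 (by rw [← e1, e, mul_zero])
  have d1 : a.natDegree = g.natDegree + u.natDegree := by rw [← e1, natDegree_mul hg0 hu]
  have d2 : v.natDegree ≤ u.natDegree := by
    by_cases hv : v = 0
    · simp [hv]
    · have : b.natDegree = g.natDegree + v.natDegree := by rw [← e2, natDegree_mul hg0 hv]
      omega
  refine ⟨(g.natDegree, u.natDegree), d1.symm, mem_image.2 ⟨(g, u, v), mem_filter.2 ⟨?_, hu, rfl,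
    hc⟩, Prod.ext e1 e2⟩⟩
  exact mem_product.2 ⟨mem_Mo.2 ⟨hm, rfl⟩, mem_product.2 ⟨mem_low_of_natDegree_lt (Nat.lt_succ_self _),
    mem_low_of_natDegree_lt (Nat.lt_succ_of_le d2)⟩⟩

theorem sum_tri (h j : ℕ) {c : ℕ × ℕ} (hc : c.1 + c.2 < h) :
    ∑ a ∈ tri k c, nl h j a ≤ Nat.card k ^ (2 * h + j + 1) := by
  have hq : 1 ≤ Nat.card k := le_trans (by norm_num) (two_le_card (k := k))
  have b1 : ∀ a ∈ tri k c, nl h j a ≤ Nat.card k ^ (h - c.2) * Nat.card k ^ (j - c.1) := by
    intro a ha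
    obtain ⟨x, hx, rfl⟩ := mem_image.1 ha
    obtain ⟨hx1, hx2, hx3, hx4⟩ := mem_filter.1 hx
    obtain ⟨hm, hd⟩ := mem_Mo.1 (mem_product.1 hx1).1
    rw [← hx3, ← hd]
    exact card_lin2 hm.ne_zero hx2 hx4 h j
  have b2 : (tri k c).card ≤
      Nat.card k ^ c.1 * (Nat.card k ^ (c.2 + 1) * Nat.card k ^ (c.2 + 1)) := by
    refine card_image_le.trans ((card_filter_le _ _).trans ?_)
    rw [card_product, card_product, card_low]
    exact Nat.mul_le_mul_right _ (card_Mo_le _)
  refine (sum_le_card_nsmul _ _ _ b1).trans ?_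
  rw [smul_eq_mul]
  refine (Nat.mul_le_mul_right _ b2).trans ?_
  rw [← pow_add, ← pow_add, ← pow_add, ← pow_add]
  exact Nat.pow_le_pow_right hq (by omega)

theorem det_half (h j : ℕ) :
    ∑ a ∈ (low k h ×ˢ low k h).filter (fun a => a.1 ≠ 0 ∧ a.2.natDegree ≤ a.1.natDegree),
      nl h j a ≤ h ^ 2 * Nat.card k ^ (2 * h + j + 1) := by
  have h1 : (low k h ×ˢ low k h).filter (fun a => a.1 ≠ 0 ∧ a.2.natDegree ≤ a.1.natDegree) ⊆
      ((range h ×ˢ range h).filter (fun c => c.1 + c.2 < h)).biUnion (tri k) := by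
    intro a ha
    obtain ⟨hl, h0, hd⟩ := mem_filter.1 ha
    have hlt := natDegree_lt_of_mem_low (mem_product.1 hl).1 h0
    obtain ⟨c, hc, hm⟩ := exists_tri h0 hd
    refine mem_biUnion.2 ⟨c, ?_, hm⟩
    simp only [mem_filter, mem_product, mem_range]; omega
  refine (sum_le_sum_of_subset h1).trans ((sum_cover _ _ _).trans ?_)
  refine (sum_le_card_nsmul _ _ _ fun c hc => sum_tri h j (mem_filter.1 hc).2).trans ?_
  rw [smul_eq_mul]
  refine Nat.mul_le_mul_right _ ((card_filter_le _ _).trans ?_)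
  rw [card_product, card_range, sq]

theorem nl_swap (h j : ℕ) (a : k[X] × k[X]) : nl h j a.swap = nl h j a := by
  unfold nl
  refine card_nbij' Prod.swap Prod.swap (fun p hp => ?_) (fun p hp => ?_) (fun p _ => rfl)
    (fun p _ => rfl)
  · simp only [mem_coe, mem_filter, mem_product, Prod.fst_swap, Prod.snd_swap] at hp ⊢
    exact ⟨⟨hp.1.2, hp.1.1⟩, by rw [add_comm]; exact hp.2⟩
  · simp only [mem_coe, mem_filter, mem_product, Prod.fst_swap, Prod.snd_swap] at hp ⊢
    exact ⟨⟨hp.1.2, hp.1.1⟩, by rw [add_comm]; exact hp.2⟩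

/-- a symmetric sum over pairs is controlled by its half -/
theorem sum_sym (h : ℕ) (f : k[X] × k[X] → ℕ) (hf : ∀ a, f a.swap = f a) :
    ∑ a ∈ low k h ×ˢ low k h, f a ≤ f (0, 0) + 2 *
      ∑ a ∈ (low k h ×ˢ low k h).filter (fun a => a.1 ≠ 0 ∧ a.2.natDegree ≤ a.1.natDegree),
        f a := by
  set A := (low k h ×ˢ low k h).filter (fun a => a.1 ≠ 0 ∧ a.2.natDegree ≤ a.1.natDegree)
    with hA
  have h1 : low k h ×ˢ low k h ⊆ {(0, 0)} ∪ (A ∪ A.image Prod.swap) := by
    intro a ha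
    by_cases c1 : a.1 ≠ 0 ∧ a.2.natDegree ≤ a.1.natDegree
    · exact mem_union_right _ (mem_union_left _ (mem_filter.2 ⟨ha, c1⟩))
    by_cases c2 : a.2 = 0
    · have : a.1 = 0 := by
        by_contra c3
        exact c1 ⟨c3, by simp [c2]⟩
      exact mem_union_left _ (mem_singleton.2 (Prod.ext this c2))
    refine mem_union_right _ (mem_union_right _ (mem_image.2 ⟨a.swap, mem_filter.2 ⟨?_, c2, ?_⟩,
      rfl⟩))
    · exact mem_product.2 ⟨(mem_product.1 ha).2, (mem_product.1 ha).1⟩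
    · by_cases c3 : a.1 = 0
      · simp [c3]
      · have : ¬ a.2.natDegree ≤ a.1.natDegree := fun e => c1 ⟨c3, e⟩
        simp only [Prod.fst_swap, Prod.snd_swap]; omega
  have h2 := sum_le_sum_of_subset (f := f) h1
  have h3 := sum_union_inter (s₁ := {(0, 0)}) (s₂ := A ∪ A.image Prod.swap) (f := f)
  have h4 := sum_union_inter (s₁ := A) (s₂ := A.image Prod.swap) (f := f)
  have h5 : ∑ a ∈ A.image Prod.swap, f a = ∑ a ∈ A, f a := by
    rw [sum_image (fun a _ b _ e => Prod.swap_injective e)]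
    exact sum_congr rfl fun a _ => hf a
  rw [sum_singleton] at h3
  omega

theorem det_sum (h j : ℕ) :
    ∑ a ∈ low k h ×ˢ low k h, nl h j a ≤ 2 * (h + 1) ^ 2 * Nat.card k ^ (2 * h + j + 1) := by
  have hq : 1 ≤ Nat.card k := le_trans (by norm_num) (two_le_card (k := k))
  have h1 := sum_sym h (nl (k := k) h j) (nl_swap h j)
  have h2 := det_half (k := k) h j
  have h3 : nl (k := k) h j (0, 0) ≤ Nat.card k ^ (2 * h + j + 1) := by
    refine (card_filter_le _ _).trans ?_
    rw [card_product, card_low, ← pow_add]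
    exact Nat.pow_le_pow_right hq (by omega)
  generalize Nat.card k ^ (2 * h + j + 1) = Q at *
  nlinarith [Nat.zero_le (h * Q), Nat.zero_le Q]

end H8

theorem p_DET :
    S_DET := by
  intro k _ _ h j
  have h1 : (((low k h ×ˢ low k h) ×ˢ (low k h ×ˢ low k h)).filter
      (fun p => p.1.1 * p.2.2 + p.1.2 * p.2.1 ∈ low k j)).card =
      ∑ a ∈ low k h ×ˢ low k h, H8.nl h j a := by
    unfold H8.nl
    simp only [card_filter]
    rw [sum_product]
  have h2 : ((∑ a ∈ low k h ×ˢ low k h, H8.nl h j a : ℕ) : ℝ) ≤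
      ((2 * (h + 1) ^ 2 * Nat.card k ^ (2 * h + j + 1) : ℕ) : ℝ) := by
    exact_mod_cast H8.det_sum h j
  have h3 : 0 ≤ ((h : ℝ) + 1) ^ 2 * qq k ^ (2 * h + j + 1) := by
    have := qq_pos (k := k); positivity
  rw [DC, h1]
  refine h2.trans ?_
  push_cast
  unfold qq at *
  linarith

end Pool.Agent.P.MP_e94e4b_nt.LG
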