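import Pool.Agent.P.MP_e94e4b_nt.LG.If
import Pool.Agent.P.MP_e94e4b_nt.LG.Basic8

/-! Step E2. -/

namespace Pool.Agent.P.MP_e94e4b_nt.LG

open Polynomial Finset
open Pool.Agent.P.MP_8be758_nt Pool.Agent.P.MP_8be758_nt.C2 Pool.Agent.P.MP_8be758_nt.L2
open scoped Classical ComplexConjugate

namespace H8

variable {k : Type} [Field k] [CharP k 2] [Finite k]

theorem e2_key {N B e1 e2 d1 d2 : k[X]} {ep s1 : ℕ} (hN : N ≠ 0)
    (h1 : e1.natDegree ≤ ep) (h2 : e2.natDegree ≤ ep)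
    (x1 : N ^ 2 - e1 * d1 ∈ low k ep) (x2 : N ^ 2 - e2 * d2 ∈ low k ep)
    (hs : B.natDegree ≤ 2 * s1) (h : odp (d1 * B) + odp (d2 * B) ∈ low k s1) :
    cf (evp (B * e1)) (odp (B * e1)) (evp (B * e2)) (odp (B * e2)) ∈
      low k (2 * ep + s1 + B.natDegree - N.natDegree) := by
  have a : ∀ {e e' x : k[X]}, e.natDegree ≤ ep → e'.natDegree ≤ ep → x ∈ low k ep →
      fr e' * odp (B * e * x) ∈ low k (2 * ep + s1) := by
    intro e e' x he he' hx
    have := natDegree_mul_le (p := B) (q := e)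
    refine mul_mem_low (odp_mem_low (mul_mem_low (L' := ep + B.natDegree + ep) hx (by omega))) ?_
    rw [natDegree_fr]; omega
  have b : fr e1 * fr e2 * (odp (d1 * B) + odp (d2 * B)) ∈ low k (2 * ep + s1) := by
    refine mul_mem_low h ?_
    have := natDegree_mul_le (p := fr e1) (q := fr e2)
    rw [natDegree_fr, natDegree_fr] at this
    omega
  have c : ∀ e d : k[X], odp (B * e) * fr N =
      odp (B * e * (N ^ 2 - e * d)) + odp (d * B) * fr e := by
    intro e d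
    rw [← odp_mul_sq, ← odp_mul_sq, ← odp_add]
    congr 1; ring
  have t := mul_mem_low (c := fr B) (L' := 2 * ep + s1 + B.natDegree)
    (add_mem_low (add_mem_low (a h1 h2 x1) (a h2 h1 x2)) b) (by rw [natDegree_fr]; omega)
  rw [← natDegree_fr N]
  refine mem_low_of_mul (fr_ne_zero hN) ?_
  have e : fr N * cf (evp (B * e1)) (odp (B * e1)) (evp (B * e2)) (odp (B * e2)) =
      fr B * (fr e2 * odp (B * e1 * (N ^ 2 - e1 * d1)) + fr e1 * odp (B * e2 * (N ^ 2 - e2 * d2)) +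
        fr e1 * fr e2 * (odp (d1 * B) + odp (d2 * B))) := by
    have f1 := fr_eq (B * e1)
    have f2 := fr_eq (B * e2)
    rw [fr_mul] at f1 f2
    unfold cf
    linear_combination fr B * fr e2 * c e1 d1 + fr B * fr e1 * c e2 d2 -
      fr N * odp (B * e2) * f1 - fr N * odp (B * e1) * f2
  rw [e]; exact t

end H8

theorem p_E2 :
    S_E2 := by
  intro k _ _ _ N B ε β σ1 hN hB hs
  obtain ⟨hP, rfl⟩ := mem_Pd.1 hB
  have hd : ∀ e ∈ Mo k ε, N ^ 2 - e * (N ^ 2 /ₘ e) ∈ low k ε := by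
    intro e he
    obtain ⟨h1, h2⟩ := mem_Mo.1 he
    rw [← modByMonic_eq_sub_mul_div, mem_low, ← h2, ← degree_eq_natDegree h1.ne_zero]
    exact degree_modByMonic_lt _ h1
  have hm : ∀ e ∈ Mo k ε, evp (B * e) ∈ low k ((ε + B.natDegree) / 2 + 1) ∧
      odp (B * e) ∈ low k ((ε + B.natDegree) / 2 + 1) := by
    intro e he
    have hl : B * e ∈ low k (ε + B.natDegree + 1) := mem_low_of_natDegree_lt (by
      have := natDegree_mul_le (p := B) (q := e)
      have := (mem_Mo.1 he).2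
      omega)
    exact ⟨low_mono (by omega) (H8.evp_mem_low hl), low_mono (by omega) (H8.odp_mem_low hl)⟩
  unfold EC EK
  rw [← Nat.cast_sum, Nat.cast_le, ← card_sigma]
  refine card_le_card_of_injOn
    (fun e => (⟨(odp (B * e.1), odp (B * e.2)), (evp (B * e.1), evp (B * e.2))⟩ :
      (_ : k[X] × k[X]) × (k[X] × k[X]))) (fun e he => ?_) (fun a _ b _ e => ?_)
  · obtain ⟨h1, h2⟩ := mem_filter.1 (mem_coe.1 he)
    obtain ⟨m1, m2⟩ := mem_product.1 h1
    exact mem_coe.2 (mem_sigma.2 ⟨mem_product.2 ⟨(hm _ m1).2, (hm _ m2).2⟩,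
      mem_filter.2 ⟨mem_product.2 ⟨(hm _ m1).1, (hm _ m2).1⟩,
        H8.e2_key hN.ne_zero (mem_Mo.1 m1).2.le (mem_Mo.1 m2).2.le (hd _ m1) (hd _ m2) hs h2⟩⟩)
  · simp only [Sigma.mk.injEq, heq_eq_eq, Prod.mk.injEq] at e
    refine Prod.ext (mul_left_cancel₀ hP.ne_zero ?_) (mul_left_cancel₀ hP.ne_zero ?_)
    · rw [← eo_evp_odp (B * a.1), e.1.1, e.2.1, eo_evp_odp]
    · rw [← eo_evp_odp (B * a.2), e.1.2, e.2.2, eo_evp_odp]

end Pool.Agent.P.MP_e94e4b_nt.LG
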