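import Pool.Agent.P.MP_e94e4b_nt.LG.If
import Pool.Agent.P.MP_e94e4b_nt.LG.Basic8

/-! Step EK. -/

namespace Pool.Agent.P.MP_e94e4b_nt.LG

open Polynomial Finset
open Pool.Agent.P.MP_8be758_nt Pool.Agent.P.MP_8be758_nt.C2 Pool.Agent.P.MP_8be758_nt.L2
open scoped Classical ComplexConjugate

namespace H8

variable {k : Type} [Field k] [Finite k] [CharP k 2]

/-- the number of solutions of the quadratic condition for fixed `a = (a1, b1)` -/
noncomputable def nk (h R : ℕ) (w : k[X]) (a : k[X] × k[X]) : ℕ :=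
  ((low k h ×ˢ low k h).filter (fun p => a.2 * p.1 ^ 2 + a.1 * p.2 ^ 2 + w ∈ low k R)).card

theorem nk_le {h R : ℕ} {w a1 b1 c0 c1 : k[X]} (ha : a1 ≠ 0)
    (hc : a1 * b1 = c0 ^ 2 + X * c1 ^ 2) {m : ℕ}
    (hm : ∀ S : Finset k[X], S ⊆ low k h →
      (∀ x ∈ S, ∀ y ∈ S, c1 * (x - y) ∈ low k ((a1.natDegree + R) / 2)) → S.card ≤ m) :
    nk h R w (a1, b1) ≤ Nat.card k ^ ((a1.natDegree + R + 1) / 2 - a1.natDegree) * m := by
  have h2 : (2 : k[X]) = 0 := CharTwo.two_eq_zero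
  unfold nk
  set S := (low k h ×ˢ low k h).filter
    (fun p => (a1, b1).2 * p.1 ^ 2 + (a1, b1).1 * p.2 ^ 2 + w ∈ low k R) with hS
  have key : ∀ p ∈ S, ∀ p' ∈ S, c0 * (p.1 - p'.1) + a1 * (p.2 - p'.2) ∈
      low k ((a1.natDegree + R + 1) / 2) ∧ c1 * (p.1 - p'.1) ∈ low k ((a1.natDegree + R) / 2) := by
    intro p hp p' hp'
    have := mul_mem_low (c := a1) (sub_mem_low (mem_filter.1 hp).2 (mem_filter.1 hp').2) le_rfl
    refine low_of_sq_add ?_
    have e : (c0 * (p.1 - p'.1) + a1 * (p.2 - p'.2)) ^ 2 + X * (c1 * (p.1 - p'.1)) ^ 2 =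
        a1 * (b1 * p.1 ^ 2 + a1 * p.2 ^ 2 + w - (b1 * p'.1 ^ 2 + a1 * p'.2 ^ 2 + w)) := by
      linear_combination (-(p.1 - p'.1) ^ 2) * hc +
        (c0 * (p.1 - p'.1) * a1 * (p.2 - p'.2) - a1 * b1 * p.1 * p'.1 + a1 * b1 * p'.1 ^ 2 -
          a1 ^ 2 * p.2 * p'.2 + a1 ^ 2 * p'.2 ^ 2) * h2
    rw [e]; exact this
  refine (card_le_mul_card_image (f := Prod.fst) S _ fun x _ => ?_).trans
    (Nat.mul_le_mul_left _ (hm _ ?_ ?_))
  · have inj : Set.InjOn Prod.snd (S.filter (fun p => p.1 = x) : Set (k[X] × k[X])) := by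
      intro p hp p' hp' e
      exact Prod.ext ((mem_filter.1 (mem_coe.1 hp)).2.trans (mem_filter.1 (mem_coe.1 hp')).2.symm) e
    rw [← card_image_of_injOn inj]
    refine card_le_of_mul_sub ha _ fun y hy y' hy' => ?_
    obtain ⟨p, hp, rfl⟩ := mem_image.1 hy
    obtain ⟨p', hp', rfl⟩ := mem_image.1 hy'
    have := (key p (mem_filter.1 hp).1 p' (mem_filter.1 hp').1).1
    rwa [(mem_filter.1 hp).2, (mem_filter.1 hp').2, sub_self, mul_zero, zero_add] at this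
  · intro y hy
    obtain ⟨p, hp, rfl⟩ := mem_image.1 hy
    exact (mem_product.1 (mem_filter.1 hp).1).1
  · intro y hy y' hy'
    obtain ⟨p, hp, rfl⟩ := mem_image.1 hy
    obtain ⟨p', hp', rfl⟩ := mem_image.1 hy'
    exact (key p hp p' hp').2

theorem nk_A {h R : ℕ} (hR : h ≤ R) {w a1 b1 : k[X]} (ha : a1 ≠ 0) (h1 : a1 ∈ low k h)
    (hd : b1.natDegree ≤ a1.natDegree) (h0 : odp (a1 * b1) ≠ 0) :
    (odp (a1 * b1)).natDegree < h ∧
      nk h R w (a1, b1) ≤ Nat.card k ^ (R - (odp (a1 * b1)).natDegree) := by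
  obtain ⟨c0, c1, hc⟩ := exists_sq_add (a1 * b1)
  have e : odp (a1 * b1) = fr c1 := by rw [hc, sq_add_eq_eo, odp_eo]
  have hlt := natDegree_lt_of_mem_low h1 ha
  have hl : a1 * b1 ∈ low k (2 * a1.natDegree + 1) :=
    mem_low_of_natDegree_lt (by have := natDegree_mul_le (p := a1) (q := b1); omega)
  have hj := natDegree_lt_of_mem_low (odp_mem_low hl) h0
  have hc1 : c1 ≠ 0 := fun z => h0 (by rw [e, z, fr, Polynomial.map_zero])
  rw [e, natDegree_fr] at hj ⊢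
  refine ⟨by omega, (nk_le ha hc fun S _ hS => card_le_of_mul_sub hc1 S hS).trans ?_⟩
  rw [← pow_add]
  exact le_of_eq (by congr 1; omega)

theorem nk_B {h R : ℕ} {w a1 b1 : k[X]} (ha : a1 ≠ 0) :
    nk h R w (a1, b1) ≤
      Nat.card k ^ ((a1.natDegree + R + 1) / 2 - a1.natDegree) * Nat.card k ^ h := by
  obtain ⟨c0, c1, hc⟩ := exists_sq_add (a1 * b1)
  exact nk_le ha hc fun S hS _ => (card_le_card hS).trans (card_low h).le

end H8

theorem p_EK :
    S_EK := by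
  intro k _ _ _ a1 b1 h j ha h1 hd hj
  have e : EK h j a1 b1 = (H8.nk h j (X * a1 * b1 * (a1 + b1)) (a1, b1) : ℝ) := rfl
  have hq : 1 ≤ Nat.card k := le_trans (by norm_num) (two_le_card (k := k))
  have hlt := natDegree_lt_of_mem_low h1 ha
  rw [e]
  unfold qq
  refine ⟨fun h0 => ?_, ?_⟩
  · obtain ⟨h2, h3⟩ := H8.nk_A (w := X * a1 * b1 * (a1 + b1)) hj ha h1 hd h0
    have := Nat.mul_le_mul_right (Nat.card k ^ (odp (a1 * b1)).natDegree) h3
    rw [← pow_add, Nat.sub_add_cancel (by omega)] at this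
    exact_mod_cast this
  · have h3 := H8.nk_B (h := h) (R := j) (w := X * a1 * b1 * (a1 + b1)) (b1 := b1) ha
    have := Nat.mul_le_mul_right (Nat.card k ^ a1.natDegree) (Nat.pow_le_pow_left h3 2)
    rw [← pow_add, ← pow_mul, ← pow_add] at this
    exact_mod_cast this.trans (Nat.pow_le_pow_right hq (by omega))

end Pool.Agent.P.MP_e94e4b_nt.LG
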