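import Pool.Agent.P.MP_e94e4b_nt.LG.TDET
import Pool.Agent.P.MP_e94e4b_nt.LG.TEK

/-! Step EE. -/

namespace Pool.Agent.P.MP_e94e4b_nt.LG

open Polynomial Finset
open Pool.Agent.P.MP_8be758_nt Pool.Agent.P.MP_8be758_nt.C2 Pool.Agent.P.MP_8be758_nt.L2
open scoped Classical ComplexConjugate

namespace H8

variable {k : Type} [Field k] [Finite k] [CharP k 2]

omit [CharP k 2] in
/-- pairs whose product has a small odd part -/
theorem card_np (i j : ℕ) :
    ((low k i ×ˢ low k i).filter (fun a => odp (a.1 * a.2) ∈ low k j)).card ≤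
      2 * ((i + 1) / 2 + 1) ^ 2 * Nat.card k ^ (2 * ((i + 1) / 2) + j + 1) := by
  refine le_trans ?_ (det_sum ((i + 1) / 2) j)
  have hm : ∀ f ∈ low k i, (evp f, odp f) ∈ low k ((i + 1) / 2) ×ˢ low k ((i + 1) / 2) :=
    fun f hf => mem_product.2 ⟨evp_mem_low hf, low_mono (by omega) (odp_mem_low hf)⟩
  unfold nl
  rw [← card_sigma]
  refine card_le_card_of_injOn
    (fun a => (⟨(evp a.1, odp a.1), (evp a.2, odp a.2)⟩ : (_ : k[X] × k[X]) × (k[X] × k[X])))
    (fun a ha => ?_) (fun a _ b _ e => ?_)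
  · obtain ⟨h1, h2⟩ := mem_filter.1 (mem_coe.1 ha)
    rw [odp_mul] at h2
    exact mem_coe.2 (mem_sigma.2 ⟨hm _ (mem_product.1 h1).1,
      mem_filter.2 ⟨hm _ (mem_product.1 h1).2, h2⟩⟩)
  · simp only [Sigma.mk.injEq, heq_eq_eq, Prod.mk.injEq] at e
    refine Prod.ext ?_ ?_
    · rw [← eo_evp_odp a.1, e.1.1, e.1.2, eo_evp_odp]
    · rw [← eo_evp_odp a.2, e.2.1, e.2.2, eo_evp_odp]

theorem sum_fib {α : Type} (A : Finset α) (g f : α → ℕ) (h B : ℕ) (hg : ∀ a ∈ A, g a < h)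
    (hB : ∀ j < h, ∑ a ∈ A.filter (fun a => g a = j), f a ≤ B) : ∑ a ∈ A, f a ≤ h * B := by
  rw [← sum_fiberwise_of_maps_to (t := range h) (g := g) (fun a ha => mem_range.2 (hg a ha))]
  exact (sum_le_card_nsmul _ _ B fun j hj => hB j (mem_range.1 hj)).trans
    (by rw [card_range, smul_eq_mul])

theorem ee_half {h R : ℕ} (hR : h ≤ R) (w : k[X] × k[X] → k[X]) :
    ∑ a ∈ (low k h ×ˢ low k h).filter (fun a => a.1 ≠ 0 ∧ a.2.natDegree ≤ a.1.natDegree),
      nk h R (w a) a ≤ 4 * h * (h + 1) ^ 2 * Nat.card k ^ (R + h + 3) := by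
  have hq : 1 ≤ Nat.card k := le_trans (by norm_num) (two_le_card (k := k))
  generalize hA : (low k h ×ˢ low k h).filter
    (fun a => a.1 ≠ 0 ∧ a.2.natDegree ≤ a.1.natDegree) = A
  have mA : ∀ a ∈ A, a.1 ∈ low k h ∧ a.2 ∈ low k h ∧ a.1 ≠ 0 ∧ a.2.natDegree ≤ a.1.natDegree := by
    intro a ha
    rw [← hA] at ha
    exact ⟨(mem_product.1 (mem_filter.1 ha).1).1, (mem_product.1 (mem_filter.1 ha).1).2,
      (mem_filter.1 ha).2⟩
  rw [← sum_filter_add_sum_filter_not A (fun a => odp (a.1 * a.2) = 0)]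
  have s1 : ∑ a ∈ A.filter (fun a => odp (a.1 * a.2) = 0), nk h R (w a) a ≤
      h * (2 * (h + 1) ^ 2 * Nat.card k ^ (R + h + 3)) := by
    refine sum_fib _ (fun a => a.1.natDegree) _ _ _ (fun a ha =>
      natDegree_lt_of_mem_low (mA a (mem_filter.1 ha).1).1 (mA a (mem_filter.1 ha).1).2.2.1)
      fun i hi => ?_
    refine (sum_le_card_nsmul _ _ (Nat.card k ^ ((i + R + 1) / 2 - i) * Nat.card k ^ h)
      fun a ha => ?_).trans ?_
    · obtain ⟨h1, h2⟩ := mem_filter.1 ha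
      rw [← h2]
      exact nk_B (mA a (mem_filter.1 h1).1).2.2.1
    · rw [smul_eq_mul]
      refine (Nat.mul_le_mul_right _ ((card_le_card fun a ha => ?_).trans
        (card_np (i + 1) 0))).trans ?_
      · obtain ⟨h1, h2⟩ := mem_filter.1 ha
        obtain ⟨h3, h4⟩ := mem_filter.1 h1
        have := (mA a h3).2.2.2
        exact mem_filter.2 ⟨mem_product.2 ⟨mem_low_of_natDegree_lt (by omega),
          mem_low_of_natDegree_lt (by omega)⟩, by rw [h4]; exact zero_mem_low _⟩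
      · rw [mul_assoc, ← pow_add, ← pow_add]
        exact Nat.mul_le_mul (Nat.mul_le_mul_left _ (Nat.pow_le_pow_left (by omega) _))
          (Nat.pow_le_pow_right hq (by omega))
  have s2 : ∑ a ∈ A.filter (fun a => ¬ odp (a.1 * a.2) = 0), nk h R (w a) a ≤
      h * (2 * (h + 1) ^ 2 * Nat.card k ^ (R + h + 3)) := by
    have hb : ∀ a ∈ A.filter (fun a => ¬ odp (a.1 * a.2) = 0), (odp (a.1 * a.2)).natDegree < h ∧
        nk h R (w a) a ≤ Nat.card k ^ (R - (odp (a.1 * a.2)).natDegree) := by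
      intro a ha
      obtain ⟨h1, h2⟩ := mem_filter.1 ha
      exact nk_A hR (mA a h1).2.2.1 (mA a h1).1 (mA a h1).2.2.2 h2
    refine sum_fib _ (fun a : k[X] × k[X] => (odp (a.1 * a.2)).natDegree) _ _ _
      (fun a ha => (hb a ha).1) fun j hj => ?_
    refine (sum_le_card_nsmul _ _ (Nat.card k ^ (R - j)) fun a ha => ?_).trans ?_
    · obtain ⟨h1, h2⟩ := mem_filter.1 ha
      rw [← h2]
      exact (hb a h1).2
    · rw [smul_eq_mul]
      refine (Nat.mul_le_mul_right _ ((card_le_card fun a ha => ?_).trans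
        (card_np h (j + 1)))).trans ?_
      · obtain ⟨h1, h2⟩ := mem_filter.1 ha
        have := mA a (mem_filter.1 h1).1
        exact mem_filter.2 ⟨mem_product.2 ⟨this.1, this.2.1⟩, mem_low_of_natDegree_lt (by omega)⟩
      · rw [mul_assoc, ← pow_add]
        exact Nat.mul_le_mul (Nat.mul_le_mul_left _ (Nat.pow_le_pow_left (by omega) _))
          (Nat.pow_le_pow_right hq (by omega))
  refine (Nat.add_le_add s1 s2).trans (le_of_eq ?_)
  ring

omit [CharP k 2] in
theorem nk_swap (h R : ℕ) (w : k[X]) (a : k[X] × k[X]) : nk h R w a.swap = nk h R w a := by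
  unfold nk
  refine card_nbij' Prod.swap Prod.swap (fun p hp => ?_) (fun p hp => ?_) (fun p _ => rfl)
    (fun p _ => rfl)
  · simp only [mem_coe, mem_filter, mem_product, Prod.fst_swap, Prod.snd_swap] at hp ⊢
    exact ⟨⟨hp.1.2, hp.1.1⟩, by rw [add_comm (a.2 * _)]; exact hp.2⟩
  · simp only [mem_coe, mem_filter, mem_product, Prod.fst_swap, Prod.snd_swap] at hp ⊢
    exact ⟨⟨hp.1.2, hp.1.1⟩, by rw [add_comm (a.1 * _)]; exact hp.2⟩

theorem ee_sum {h R : ℕ} (hR : h ≤ R) (w : k[X] × k[X] → k[X]) (hw : ∀ a, w a.swap = w a) :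
    ∑ a ∈ low k h ×ˢ low k h, nk h R (w a) a ≤ 8 * (h + 1) ^ 3 * Nat.card k ^ (R + h + 3) := by
  have hq : 1 ≤ Nat.card k := le_trans (by norm_num) (two_le_card (k := k))
  have h1 := sum_sym h (fun a => nk h R (w a) a) (fun a => by simp only [hw, nk_swap])
  have h2 := ee_half hR w
  have h3 : nk h R (w (0, 0)) (0, 0) ≤ Nat.card k ^ (R + h + 3) := by
    refine (card_filter_le _ _).trans ?_
    rw [card_product, card_low, ← pow_add]
    exact Nat.pow_le_pow_right hq (by omega)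
  generalize Nat.card k ^ (R + h + 3) = Q at *
  nlinarith [Nat.zero_le (h * Q), Nat.zero_le Q, Nat.zero_le (h * h * Q)]

end H8

theorem p_EE (_hDET : S_DET) (_hEK : S_EK) :
    S_EE := by
  intro k _ _ _ h j
  have h1 : ∑ a ∈ low k h ×ˢ low k h, H8.nk h j (X * a.1 * a.2 * (a.1 + a.2)) a ≤
      20 * (h + 1) ^ 3 * Nat.card k ^ (h + max h j + 4) := by
    have hq : 1 ≤ Nat.card k := le_trans (by norm_num) (two_le_card (k := k))
    refine le_trans (sum_le_sum fun a _ => card_le_card fun p hp => ?_)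
      ((H8.ee_sum (le_max_left h j) (fun a : k[X] × k[X] => X * a.1 * a.2 * (a.1 + a.2))
        fun a => ?_).trans ?_)
    · exact mem_filter.2 ⟨(mem_filter.1 hp).1, low_mono (le_max_right h j) (mem_filter.1 hp).2⟩
    · simp only [Prod.fst_swap, Prod.snd_swap]; ring
    · exact Nat.mul_le_mul (Nat.mul_le_mul_right _ (by norm_num))
        (Nat.pow_le_pow_right hq (by omega))
  have e : EC k h j = ((∑ a ∈ low k h ×ˢ low k h,
      H8.nk h j (X * a.1 * a.2 * (a.1 + a.2)) a : ℕ) : ℝ) := by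
    rw [Nat.cast_sum]; rfl
  rw [e]
  unfold qq
  exact_mod_cast h1

end Pool.Agent.P.MP_e94e4b_nt.LG
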