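import Pool.Agent.P.MP_e94e4b_nt.LG.If
import Pool.Agent.P.MP_e94e4b_nt.LG.Basic8

/-! Step FIB. -/

namespace Pool.Agent.P.MP_e94e4b_nt.LG

open Polynomial Finset
open Pool.Agent.P.MP_8be758_nt Pool.Agent.P.MP_8be758_nt.C2 Pool.Agent.P.MP_8be758_nt.L2
open scoped Classical ComplexConjugate

namespace H8

variable {k : Type} [Field k] [CharP k 2] [Finite k]

theorem fib_card {B : k[X]} (hB : IsPr B) {l σ : ℕ} (hl : l ≤ 2 * σ + B.natDegree) (w : k[X]) :
    ((low k l).filter (fun x => odp (x * B) = w)).card ≤ Nat.card k ^ σ := by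
  rcases ((low k l).filter (fun x => odp (x * B) = w)).eq_empty_or_nonempty with e | ⟨y, hy⟩
  · rw [e]; simp
  rw [← card_low]
  refine le_trans (card_le_card fun x hx => ?_)
    (card_image_le (s := low k σ) (f := fun t => y + B * t ^ 2))
  obtain ⟨x1, x2⟩ := mem_filter.1 hx
  obtain ⟨y1, y2⟩ := mem_filter.1 hy
  obtain ⟨t, ht⟩ := of_odp_eq_zero (x := x + y) hB (by rw [add_mul, odp_add, x2, y2, add_self'])
  refine mem_image.2 ⟨t, ?_, by rw [← ht, add_comm x, ← add_assoc, add_self', zero_add]⟩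
  by_cases h0 : t = 0
  · rw [h0]; exact zero_mem_low _
  · have h1 := add_mem_low x1 y1
    rw [ht] at h1
    have := natDegree_lt_of_mem_low h1 (mul_ne_zero hB.ne_zero (pow_ne_zero _ h0))
    rw [natDegree_mul hB.ne_zero (pow_ne_zero _ h0), natDegree_pow] at this
    exact mem_low_of_natDegree_lt (by omega)

theorem fib_one {B : k[X]} (hB : IsPr B) (A : k[X] → ℝ) {l σ σ1 s : ℕ}
    (hl : l ≤ 2 * σ + B.natDegree) (h1 : l + B.natDegree ≤ 2 * σ1 + 1) (h2 : σ1 ≤ s) {c : k[X]}
    (hc : odp (c * B) ∈ low k s) :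
    ∑ x ∈ low k l, |A (odp ((c + x) * B))| ≤
      qq k ^ σ * ∑ V ∈ low k s, |A V| * if V + odp (c * B) ∈ low k σ1 then 1 else 0 := by
  have hx : ∀ x ∈ low k l, odp (x * B) ∈ low k σ1 := fun x hx => by
    rw [mul_comm]
    exact low_mono (by omega) (odp_mem_low (mul_mem_low hx le_rfl))
  rw [← sum_fiberwise_of_maps_to (t := low k s) (g := fun x => odp ((c + x) * B)) (fun x h => by
    rw [add_mul, odp_add]; exact add_mem_low hc (low_mono h2 (hx x h))), mul_sum]
  refine sum_le_sum fun V _ => ?_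
  rw [sum_congr rfl (g := fun _ => |A V|) fun x h => by rw [(mem_filter.1 h).2], sum_const,
    nsmul_eq_mul, mul_comm |A V|, ← mul_assoc]
  refine mul_le_mul_of_nonneg_right ?_ (abs_nonneg _)
  have e : ∀ x, odp ((c + x) * B) = V → odp (x * B) = V + odp (c * B) := fun x h => by
    rw [← h, add_mul, odp_add, add_comm (odp (c * B)), add_assoc, add_self', add_zero]
  split_ifs with hV
  · rw [mul_one]
    unfold qq
    exact_mod_cast (card_le_card fun x h => mem_filter.2 ⟨(mem_filter.1 h).1,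
      e x (mem_filter.1 h).2⟩).trans (fib_card hB hl _)
  · rw [mul_zero, filter_eq_empty_iff.2 fun x h h' => hV (by rw [← e x h']; exact hx x h)]
    simp

theorem fib_two (u v : k[X]) (σ1 s : ℕ) :
    ∑ V ∈ low k s, (if V + u ∈ low k σ1 then (1 : ℝ) else 0) *
      (if V + v ∈ low k σ1 then 1 else 0) ≤
      qq k ^ σ1 * if u + v ∈ low k σ1 then 1 else 0 := by
  split_ifs with h
  · rw [mul_one, ← card_low']
    refine le_trans (sum_le_sum (g := fun V => if V + u ∈ low k σ1 then (1 : ℝ) else 0)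
      fun V _ => by split_ifs <;> simp) ?_
    rw [sum_boole, Nat.cast_le]
    exact card_le_card_of_injOn (fun V => V + u) (fun V hV => (mem_filter.1 (mem_coe.1 hV)).2)
      fun a _ b _ e => add_right_cancel e
  · rw [mul_zero]
    refine le_of_eq (sum_eq_zero fun V _ => ?_)
    split_ifs with a b
    · have := add_mem_low a b
      rw [add_add_add_comm, add_self', zero_add] at this
      exact absurd this h
    all_goals simp

end H8

theorem p_FIB :
    S_FIB := by
  intro k _ _ _ F cen B A l β σ σ1 s hB hl h1 h2 hc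
  obtain ⟨hP, rfl⟩ := mem_Pd.1 hB
  have hq := qq_pos (k := k)
  have a1 : ∑ e ∈ F, ∑ x ∈ low k l, |A (odp ((cen e + x) * B))| ≤ qq k ^ σ *
      ∑ V ∈ low k s, |A V| * ∑ e ∈ F, if V + odp (cen e * B) ∈ low k σ1 then 1 else 0 := by
    refine (sum_le_sum fun e he => H8.fib_one hP A hl h1 h2 (hc e he)).trans (le_of_eq ?_)
    rw [← mul_sum, sum_comm]
    simp only [mul_sum]
  have a2 : ∑ V ∈ low k s, (∑ e ∈ F, if V + odp (cen e * B) ∈ low k σ1 then (1 : ℝ) else 0) ^ 2 ≤
      qq k ^ σ1 * (((F ×ˢ F).filter (fun p =>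
        odp (cen p.1 * B) + odp (cen p.2 * B) ∈ low k σ1)).card : ℝ) := by
    rw [← sum_boole, mul_sum]
    refine le_trans (le_of_eq ?_) (sum_le_sum fun p _ =>
      H8.fib_two (odp (cen p.1 * B)) (odp (cen p.2 * B)) σ1 s)
    rw [sum_comm]
    exact sum_congr rfl fun V _ => by rw [sq, sum_mul_sum, sum_product]
  have a3 := sum_mul_sq_le_sq_mul_sq (low k s) (fun V => |A V|)
    (fun V => ∑ e ∈ F, if V + odp (cen e * B) ∈ low k σ1 then (1 : ℝ) else 0)
  simp only [sq_abs] at a3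
  have a4 : 0 ≤ ∑ V ∈ low k s, A V ^ 2 := sum_nonneg fun V _ => sq_nonneg _
  refine (pow_le_pow_left₀ (sum_nonneg fun e _ => sum_nonneg fun x _ => abs_nonneg _) a1 2).trans ?_
  rw [mul_pow, pow_add, ← pow_mul, mul_comm σ 2, mul_assoc, mul_assoc]
  refine mul_le_mul_of_nonneg_left (a3.trans ?_) (by positivity)
  rw [← mul_assoc, mul_comm]
  exact mul_le_mul_of_nonneg_right a2 a4

end Pool.Agent.P.MP_e94e4b_nt.LG
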