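import Pool.Agent.P.MP_e94e4b_nt.LG.If

/-! Step GEN. -/

namespace Pool.Agent.P.MP_e94e4b_nt.LG

open Polynomial Finset
open Pool.Agent.P.MP_8be758_nt Pool.Agent.P.MP_8be758_nt.C2 Pool.Agent.P.MP_8be758_nt.L2
open scoped Classical ComplexConjugate

theorem GEN_num (P G S N M c u Q Qb β s : ℝ) (hQ : Qb ≤ 2 * β * P) (h1 : u ^ 2 ≤ Q)
    (h2 : Q ≤ Qb) (hu : 1 ≤ u) (hG : 1 ≤ G * M) (hM : 0 ≤ M) (hS : 0 ≤ S) (hN : 0 ≤ N)
    (hc : 1 ≤ c) (hβ : 0 ≤ β) (hs : 0 ≤ s) (hP : 0 ≤ P)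
    (h : P * G * S ≤ N * (P * c * (2 * (1 / u) + (s + 3) / Q) + 1 +
      √(P * c ^ 2 + P ^ 2 * c / Qb))) :
    S * u ≤ N * (M * (c * (s + 4 * β + 6))) := by
  have u0 : 0 < u := by linarith
  have uu : u ≤ u ^ 2 := by nlinarith
  have hP0 : 0 < P := by
    rcases hP.lt_or_eq with a | a
    · exact a
    · rw [← a] at hQ; nlinarith
  have a1 : (s + 3) / Q ≤ (s + 3) / u := div_le_div_of_nonneg_left (by linarith) u0 (by linarith)
  have a2 : (1 : ℝ) ≤ P * c * (2 * β) / u := by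
    rw [le_div_iff₀ u0]
    have : P * (2 * β) ≤ P * c * (2 * β) := by
      have : 0 ≤ P * (2 * β) := by positivity
      nlinarith
    linarith
  have a3 : √(P * c ^ 2 + P ^ 2 * c / Qb) ≤ P * c * (2 * β + 1) / u := by
    refine Real.sqrt_le_iff.2 ⟨by positivity, ?_⟩
    have b1 : P ^ 2 * c / Qb ≤ P ^ 2 * c ^ 2 / u ^ 2 :=
      div_le_div₀ (by positivity) (by gcongr; nlinarith) (by positivity) (by linarith)
    have b2 : P * c ^ 2 ≤ P ^ 2 * c ^ 2 * (2 * β) / u ^ 2 := by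
      rw [le_div_iff₀ (by positivity)]
      have : P * c ^ 2 * u ^ 2 ≤ P * c ^ 2 * (2 * β * P) := by gcongr; linarith
      linarith
    have b3 : P ^ 2 * c ^ 2 * (2 * β + 1) / u ^ 2 ≤ P ^ 2 * c ^ 2 * (2 * β + 1) ^ 2 / u ^ 2 := by
      gcongr; nlinarith
    rw [div_pow, mul_pow, mul_pow]
    refine le_trans ?_ b3
    rw [mul_add, add_div, mul_one]
    linarith
  have a4 : P * c * (2 * (1 / u) + (s + 3) / Q) + 1 + √(P * c ^ 2 + P ^ 2 * c / Qb) ≤
      P * (c * (s + 4 * β + 6)) / u := by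
    have : P * c * (2 * (1 / u) + (s + 3) / Q) ≤ P * c * (2 * (1 / u) + (s + 3) / u) := by gcongr
    have e : P * (c * (s + 4 * β + 6)) / u = P * c * (2 * (1 / u) + (s + 3) / u) +
        P * c * (2 * β) / u + P * c * (2 * β + 1) / u := by ring
    linarith
  have a5 : P * (G * S * u) ≤ P * (N * (c * (s + 4 * β + 6))) := by
    have := h.trans (mul_le_mul_of_nonneg_left a4 hN)
    rw [← mul_div_assoc, le_div_iff₀ u0] at this
    linarith
  have a6 := le_of_mul_le_mul_left a5 hP0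
  have a7 : 0 ≤ S * u := by positivity
  calc S * u ≤ G * M * (S * u) := le_mul_of_one_le_left a7 hG
    _ = M * (G * S * u) := by ring
    _ ≤ M * (N * (c * (s + 4 * β + 6))) := by gcongr
    _ = _ := by ring

theorem p_GEN (hGEN0 : S_GEN0) (hGM : S_GM) (hGAUSS : L2.S_GAUSS) :
    S_GEN := by
  intro K K'
  have hκ : 1 ≤ 2 ^ (K + 3) := Nat.one_le_two_pow
  obtain ⟨n1, hn1⟩ := NEG 1 1 (2 * K) 1 le_rfl one_pos
  obtain ⟨n2, hn2⟩ := NEG (K + 1) (2 ^ (K + 3)) ((2 * K' * K) ^ K * (8 ^ K * (K' + 10))) 1 hκ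
    one_pos
  refine ⟨2 ^ (K + 3), n1 + n2 + (4 * K + 8), hκ, ?_⟩
  intro k _ _ _ F cen φ D l b β s σ L a r hb hs hg hcen hlin hφ hA
  have q1 : (1 : ℝ) ≤ qq k := one_le_qq
  have q0 : (0 : ℝ) < qq k := qq_pos
  obtain ⟨i, hi⟩ : ∃ i, i = b / 2 ^ (K + 3) := ⟨_, rfl⟩
  have hib : 8 * (i * 2 ^ K) ≤ b := by
    have := Nat.div_mul_le_self b (2 ^ (K + 3))
    rw [← hi, pow_add] at this
    linarith
  have hi1 : i ≤ i * 2 ^ K := Nat.le_mul_of_pos_right i (by positivity)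
  have hu : (1 : ℝ) ≤ qq k ^ (2 * i) := one_le_pow₀ q1
  have h0 := hGEN0 k F cen φ D l b β s σ L a r K (1 / qq k ^ (2 * i)) hg hcen hlin hφ hA
    (by positivity) (by rw [div_le_one (by positivity)]; exact hu) (by
      rw [div_pow, one_pow, ← pow_mul, div_mul_eq_mul_div, one_mul, le_div_iff₀ (by positivity)]
      have e : (16 : ℝ) * 4 ^ K = 2 ^ (2 * K + 4) := by
        rw [pow_add, pow_mul]; norm_num [mul_comm]
      calc (16 : ℝ) * 4 ^ K * qq k ^ (2 * i * 2 ^ K) ≤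
            qq k ^ (2 * K + 4) * qq k ^ (2 * i * 2 ^ K) := by
            rw [e]; gcongr; exact two_le_qq
        _ = qq k ^ (2 * K + 4 + 2 * (i * 2 ^ K)) := by rw [← pow_add, mul_assoc]
        _ ≤ _ := qq_pow_mono (by omega))
  obtain ⟨g1, g2, g3, g4, g5, g6, g7, g8, g9, g10, g11, g12, g13, g14, g15, g16⟩ := hg
  have har : 2 * a * r ≤ 2 ^ a := by
    have := hn1 a (by omega)
    rw [pow_one, one_mul, Nat.div_one] at this
    have h2 : 2 * K * (a + 1) ≤ 2 ^ a := by exact_mod_cast this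
    calc 2 * a * r ≤ 2 * (a + 1) * K := by gcongr; omega
      _ = 2 * K * (a + 1) := by ring
      _ ≤ _ := h2
  have hG := (hGM k a r).2.2.2.2 (by omega) har
  have hP := (hGAUSS k β (by omega)).2 (by omega)
  rw [show (64 : ℝ) ^ K = (8 ^ K) ^ 2 by rw [← pow_mul, mul_comm, pow_mul]; norm_num] at h0
  have h8 : (1 : ℝ) ≤ 8 ^ K := one_le_pow₀ (by norm_num)
  have h1 := GEN_num _ _ _ _ _ _ _ _ _ _ _ hP (by rw [← pow_mul]; exact qq_pow_mono (by omega))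
    (qq_pow_mono g3) hu hG (by positivity) (sum_nonneg fun _ _ => abs_nonneg _) (by positivity) h8
    (by positivity) (by positivity) (by positivity) h0
  have hM : (2 * a * r : ℝ) ^ r ≤ (2 * K' * K) ^ K * ((b : ℝ) + 1) ^ K := by
    have b1 : 1 ≤ 2 * a * r := Nat.mul_pos (by omega) g11
    have b2 : 2 * a * r ≤ 2 * K' * K * (b + 1) := by
      have : a ≤ K' * (b + 1) := by rw [mul_add]; omega
      calc 2 * a * r ≤ 2 * (K' * (b + 1)) * K := by gcongr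
        _ = _ := by ring
    rw [← mul_pow]
    calc (2 * a * r : ℝ) ^ r ≤ (2 * a * r : ℝ) ^ K :=
          pow_le_pow_right₀ (by exact_mod_cast b1) g12
      _ ≤ _ := pow_le_pow_left₀ (by positivity) (by exact_mod_cast b2) K
  have hT : (s + 4 * β + 6 : ℝ) ≤ (K' + 10) * ((b : ℝ) + 1) := by
    have : s + 4 * β + 6 ≤ (K' + 10) * (b + 1) := by
      rw [add_mul, mul_add K']; omega
    exact_mod_cast this
  have h2 := hn2 b (by omega)
  rw [one_mul, ← hi] at h2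
  have h3 : (2 * a * r : ℝ) ^ r * (8 ^ K * (s + 4 * β + 6)) ≤ qq k ^ i :=
    calc (2 * a * r : ℝ) ^ r * (8 ^ K * (s + 4 * β + 6)) ≤
          (2 * K' * K) ^ K * ((b : ℝ) + 1) ^ K * (8 ^ K * ((K' + 10) * ((b : ℝ) + 1))) := by gcongr
      _ = (2 * K' * K) ^ K * (8 ^ K * (K' + 10)) * ((b : ℝ) + 1) ^ (K + 1) := by ring
      _ ≤ 2 ^ i := h2
      _ ≤ _ := two_pow_le_qq i
  rw [← hi]
  refine le_of_mul_le_mul_right ?_ (pow_pos q0 i)
  rw [mul_assoc, ← pow_add, ← two_mul]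
  exact h1.trans (by gcongr)

end Pool.Agent.P.MP_e94e4b_nt.LG
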