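import Pool.Agent.P.MP_e94e4b_nt.LG.If

/-! Step GEN0. -/

namespace Pool.Agent.P.MP_e94e4b_nt.LG

open Polynomial Finset
open Pool.Agent.P.MP_8be758_nt Pool.Agent.P.MP_8be758_nt.C2 Pool.Agent.P.MP_8be758_nt.L2
open scoped Classical ComplexConjugate

theorem p_GEN0 (hP1 : S_P1) (hGM : S_GM) (hK0 : S_K0) (hP2 : S_P2) :
    S_GEN0 := by
  intro k _ _ _ F cen φ D l b β s σ L a r K η hp hc hL hφ hA h0 h1 hη
  obtain ⟨g1, g2, g3, g4, g5, g6, g7, g8, g9, g10, g11, g12, g13, g14, g15, g16⟩ := hp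
  obtain ⟨m1, -, m3, m4, -⟩ := hGM k a r
  have hq := qq_pos (k := k)
  have a1 : 1 ≤ a := by omega
  have e8 : (2 : ℝ) ^ (3 * K) = 8 ^ K := by rw [pow_mul]; norm_num
  have one8 : (1 : ℝ) ≤ 8 ^ K := one_le_pow₀ (by norm_num)
  have hW : ∀ V ∈ low k s, s - β ≤ V.natDegree → 0 ≤ GW a r V ∧ GW a r V ≤ 8 ^ K := by
    intro V hV h
    have v0 : V ≠ 0 := fun e => by rw [e, natDegree_zero] at h; omega
    have := natDegree_lt_of_mem_low hV v0
    have := Nat.mul_le_mul_left K g8
    exact ⟨Nat.cast_nonneg _, e8 ▸ m1 V (3 * K) a1 v0 (by nlinarith)⟩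
  have hV : ∀ e ∈ F, ∀ x ∈ low k l, ∀ B ∈ Pd k β, odp ((cen e + x) * B) ∈ low k s := by
    intro e he x hx B hB
    refine odp_mem_low_of_natDegree (natDegree_mul_le.trans ?_)
    have := natDegree_add_le (cen e) x
    have := natDegree_le_of_mem_low hx
    have := (hc e he).2
    have := (mem_Pd.1 hB).2
    omega
  have p1 : ∀ e ∈ F, ∀ B ∈ Pd k β,
      |∑ x ∈ low k l, mu (cen e + x) * φ (cen e + x) * G1 a r (s - β) (odp ((cen e + x) * B))| ≤
        8 ^ K * qq k ^ l * (2 * η + (s + 3) / qq k ^ b) := by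
    intro e he B hB
    obtain ⟨b1, b2⟩ := mem_Pd.1 hB
    obtain ⟨c1, c2⟩ := hc e he
    refine (hP1 k (cen e) B φ (G1 a r (s - β)) l s L b a β K (8 ^ K) η c1 b1 (by omega) (by omega)
      (fun V hV => ?_) (fun V hV => ?_) hφ (hL e he B hB).2 (by omega) (by omega) (by omega) g7
      (by omega) (by omega) g10 h0 h1 hη).trans (mul_le_mul_of_nonneg_left ?_ (by positivity))
    · unfold G1
      split_ifs with h
      · rw [abs_of_nonneg (hW V hV h).1]; exact (hW V hV h).2
      · simp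
    · unfold G1 at hV
      split_ifs at hV with h
      · obtain ⟨T, hT⟩ := card_ne_zero.1 (Nat.cast_ne_zero.1 hV)
        obtain ⟨t1, t2⟩ := mem_filter.1 hT
        obtain ⟨t3, t4⟩ := mem_powersetCard.1 t1
        refine ⟨fun e => by rw [e, natDegree_zero] at h; omega, by omega, T,
          card_pos.1 (by omega), fun P hP => mem_Pd.1 (t3 hP), t2, ?_⟩
        rw [dg, sum_congr rfl fun P hP => (mem_Pd.1 (t3 hP)).2, sum_const, smul_eq_mul, t4]
        exact g13
      · exact absurd rfl hV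
    · have u1 : 1 / qq k ^ B.natDegree ≤ 1 / qq k ^ b :=
        div_le_div_of_nonneg_left zero_le_one (by positivity) (qq_pow_mono (by omega))
      have u2 : 2 / qq k ^ a ≤ 2 / qq k ^ b :=
        div_le_div_of_nonneg_left zero_le_two (by positivity) (qq_pow_mono (by omega))
      have : ((s : ℝ) + 3) / qq k ^ b = 1 / qq k ^ b + 2 / qq k ^ b + s / qq k ^ b := by ring
      linarith
  have p2 := hP2 k F cen l β σ (s - β) a r (8 ^ K) (F.card * qq k ^ l / qq k ^ β) g14 (by omega)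
    (by positivity) (by positivity) (fun e he x hx B hB => by
      unfold G0
      split_ifs with h
      · obtain ⟨u, v⟩ := hW _ (hV e he x hx B hB) h
        exact abs_le.2 ⟨by linarith [m4 a1], by linarith⟩
      · simp) fun B Δ hB d1 d2 => by
      rw [div_mul_eq_mul_div, le_div_iff₀ (by positivity), mul_assoc, ← pow_add]
      exact hA B Δ hB d1 d2
  rw [mul_sum]
  refine (sum_le_sum fun e he => hK0 k (cen e) φ l β s (s - β) a r (hc e he).1
    (by have := (hc e he).2; omega) (by have := (hc e he).2; omega) (by omega) a1 hφ).trans ?_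
  rw [sum_add_distrib, sum_add_distrib, sum_const, nsmul_eq_mul, mul_add, mul_add, mul_one]
  refine add_le_add (add_le_add ?_ le_rfl) ?_
  · refine (sum_le_card_nsmul _ _ _ fun e he => sum_le_card_nsmul _ _ _ (p1 e he)).trans ?_
    rw [nsmul_eq_mul, nsmul_eq_mul]
    exact le_of_eq (by ring)
  · rw [← Real.sqrt_sq (show (0 : ℝ) ≤ F.card * qq k ^ l by positivity),
      ← Real.sqrt_mul (by positivity)]
    refine Real.le_sqrt_of_sq_le (p2.trans (le_of_eq ?_))
    rw [show (64 : ℝ) ^ K = (8 ^ K) ^ 2 by rw [← pow_mul, mul_comm, pow_mul]; norm_num]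
    ring

end Pool.Agent.P.MP_e94e4b_nt.LG
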