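import Pool.Agent.P.MP_e94e4b_nt.LG.If

/-! Step GM. -/

namespace Pool.Agent.P.MP_e94e4b_nt.LG

open Polynomial Finset
open Pool.Agent.P.MP_8be758_nt Pool.Agent.P.MP_8be758_nt.C2 Pool.Agent.P.MP_8be758_nt.L2
open scoped Classical ComplexConjugate

theorem GM_choose : ∀ (r n : ℕ), r ≤ n → n ^ r ≤ n.choose r * r ^ r
  | 0, n, _ => by simp
  | r + 1, 0, h => by omega
  | r + 1, n + 1, h => by
    have ih := GM_choose r n (by omega)
    have e := Nat.add_one_mul_choose_eq n r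
    have p : 0 < r ^ r := by
      rcases r with _ | r
      · simp
      · positivity
    have h1 : (n + 1) ^ r * r ^ r ≤ n ^ r * (r + 1) ^ r := by
      rw [← mul_pow, ← mul_pow]
      exact Nat.pow_le_pow_left (by nlinarith) r
    have h2 : (n + 1) ^ r ≤ n.choose r * (r + 1) ^ r := by
      refine Nat.le_of_mul_le_mul_right (c := r ^ r) (h1.trans ?_) p
      calc n ^ r * (r + 1) ^ r ≤ n.choose r * r ^ r * (r + 1) ^ r := Nat.mul_le_mul_right _ ih
        _ = _ := by ring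
    calc (n + 1) ^ (r + 1) = (n + 1) * (n + 1) ^ r := by ring
      _ ≤ (n + 1) * (n.choose r * (r + 1) ^ r) := Nat.mul_le_mul_left _ h2
      _ = (n + 1) * n.choose r * (r + 1) ^ r := by ring
      _ = _ := by rw [e]; ring

theorem GM_card {k : Type} [Field k] [Finite k] (a r : ℕ) :
    ((WW k a r).card : ℝ) ≤ qq k ^ (r * a) := by
  rw [← card_Mo]
  exact_mod_cast card_le_card_of_injOn pr (fun S hS => pr_WW hS) fun S hS T hT h =>
    pr_inj (fun P hP => ((mem_WW.1 hS).1 P hP).1) (fun P hP => ((mem_WW.1 hT).1 P hP).1) h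

theorem GM_GW {k : Type} [Field k] [Finite k] (a r : ℕ) (V : k[X]) (K : ℕ) (ha : 1 ≤ a)
    (hV : V ≠ 0) (hK : V.natDegree ≤ K * a) : GW a r V ≤ 2 ^ K := by
  set T := (Pd k a).filter (fun P => P ∣ V) with hT
  have hp : ∀ P ∈ T, IsPr P := fun P hP => (mem_Pd.1 (mem_filter.1 hP).1).1
  have h1 : dg T = T.card * a := by
    rw [dg, sum_congr rfl fun P hP => (mem_Pd.1 (mem_filter.1 hP).1).2, sum_const, smul_eq_mul]
  have h2 : dg T ≤ V.natDegree := by
    rw [← natDegree_pr hp]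
    exact natDegree_le_of_dvd ((pr_dvd_iff hp V).2 fun P hP => (mem_filter.1 hP).2) hV
  have h3 : T.card ≤ K := Nat.le_of_mul_le_mul_right (c := a) (by omega) ha
  have h4 : ((WW k a r).filter (fun S => pr S ∣ V)).card ≤ T.powerset.card := by
    refine card_le_card fun S hS => mem_powerset.2 fun P hP => ?_
    obtain ⟨u, v⟩ := mem_filter.1 hS
    exact mem_filter.2 ⟨mem_Pd.2 ((mem_WW.1 u).1 P hP), (dvd_prod_of_mem _ hP).trans v⟩
  rw [card_powerset] at h4
  have h5 := h4.trans (Nat.pow_le_pow_right (by norm_num) h3)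
  unfold GW
  exact_mod_cast h5

theorem p_GM (hGAUSS : L2.S_GAUSS) :
    S_GM := by
  intro k _ _ a r
  have hq : (0 : ℝ) < qq k ^ (r * a) := pow_pos qq_pos _
  refine ⟨GM_GW a r, fun _ => GM_card a r, div_nonneg (Nat.cast_nonneg _) hq.le,
    fun _ => (div_le_one hq).2 (GM_card a r), fun ha hr => ?_⟩
  have h1 := (hGAUSS k a (by omega)).2 ha
  have ap : (0 : ℝ) < 2 * a := by have : (4 : ℝ) ≤ a := by exact_mod_cast ha
                                  linarith
  have h2 : (2 * a * r : ℝ) ≤ 2 ^ a := by exact_mod_cast hr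
  have h3 : r ≤ (Pd k a).card := by
    have : (r : ℝ) ≤ (Pd k a).card :=
      le_of_mul_le_mul_left ((h2.trans (two_pow_le_qq (k := k) a)).trans h1) ap
    exact_mod_cast this
  have h4 : (((Pd k a).card : ℝ)) ^ r ≤ ((WW k a r).card : ℝ) * (r : ℝ) ^ r := by
    rw [WW, card_powersetCard]
    exact_mod_cast GM_choose r _ h3
  rw [Gb, div_mul_eq_mul_div, one_le_div hq]
  calc qq k ^ (r * a) = (qq k ^ a) ^ r := by rw [← pow_mul, mul_comm]
    _ ≤ (2 * a * (Pd k a).card) ^ r := pow_le_pow_left₀ (pow_pos qq_pos _).le h1 r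
    _ = (2 * a) ^ r * ((Pd k a).card : ℝ) ^ r := mul_pow _ _ _
    _ ≤ (2 * a) ^ r * (((WW k a r).card : ℝ) * (r : ℝ) ^ r) :=
      mul_le_mul_of_nonneg_left h4 (pow_pos ap _).le
    _ = _ := by rw [mul_pow (2 * a : ℝ)]; ring

end Pool.Agent.P.MP_e94e4b_nt.LG
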