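import Pool.Agent.P.MP_e94e4b_nt.LG.Basic

/-! Small facts on monic polynomials of given degree. -/

namespace Pool.Agent.P.MP_e94e4b_nt.LG

open Polynomial Finset
open Pool.Agent.P.MP_8be758_nt Pool.Agent.P.MP_8be758_nt.C2 Pool.Agent.P.MP_8be758_nt.L2
open scoped Classical ComplexConjugate

variable {k : Type} [Field k]

theorem H22_shift [CharP k 2] (G : Finset k[X]) (v : k[X]) (hG : ∀ g ∈ G, g + v ∈ G)
    (f : k[X] → ℂ) : ∑ g ∈ G, f (g + v) = ∑ g ∈ G, f g := by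
  refine sum_nbij' (fun g => g + v) (fun g => g + v) hG hG ?_ ?_ (fun _ _ => rfl)
  · intro g _; simp [add_assoc, add_self']
  · intro g _; simp [add_assoc, add_self']

variable [Finite k]

theorem H22_add {n : ℕ} {u v : k[X]} (hu : u ∈ Mo k n) (hv : v ∈ low k n) : u + v ∈ Mo k n :=
  add_mem_Gs hu hv (one_dvd _)

theorem H22_sub {n : ℕ} {u v : k[X]} (hu : u ∈ Mo k n) (hv : v ∈ Mo k n) : u - v ∈ low k n := by
  obtain ⟨a1, a2⟩ := mem_Mo.1 hu
  obtain ⟨b1, b2⟩ := mem_Mo.1 hv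
  rw [mem_low, ← a2, ← degree_eq_natDegree a1.ne_zero]
  exact degree_sub_lt_left (by rw [degree_eq_natDegree a1.ne_zero, degree_eq_natDegree b1.ne_zero,
    a2, b2]) a1.ne_zero (by rw [a1.leadingCoeff, b1.leadingCoeff])

theorem H22_CX (z : k) {e n : ℕ} (h : e < n) : C z * X ^ e ∈ low k n :=
  mem_low_of_natDegree_lt (lt_of_le_of_lt (natDegree_C_mul_X_pow_le _ _) h)

theorem H22_cls {Dl r : k[X]} (hD : Dl ≠ 0) (j : ℕ) (hr : r ∈ low k Dl.natDegree) :
    (Mo k j).filter (fun g => g % Dl = r) = Gs Dl r j := by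
  ext g
  rw [mem_filter, mem_Mo, mem_Gs, and_assoc]
  refine and_congr_right fun _ => and_congr_right fun _ => ⟨fun h => ?_, fun h => ?_⟩
  · rw [← h]; exact ⟨g / Dl, by linear_combination (EuclideanDomain.div_add_mod g Dl).symm⟩
  · have := eq_zero_of_mem_low (sub_mem_low (mod_mem_low hD g) hr) (P := Dl) (by
      obtain ⟨w, hw⟩ := h
      exact ⟨w - g / Dl, by linear_combination hw + EuclideanDomain.div_add_mod g Dl⟩) le_rfl
    exact sub_eq_zero.1 this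

theorem H22_pr {a r : ℕ} {S : Finset k[X]} (h : S ∈ WW k a r) :
    (∀ P ∈ S, IsPr P ∧ P.natDegree = a) ∧ pr S ∈ Mo k (r * a) := by
  obtain ⟨h1, h2⟩ := mem_powersetCard.1 h
  have h3 : ∀ P ∈ S, IsPr P := fun P hP => (mem_Pd.1 (h1 hP)).1
  refine ⟨fun P hP => mem_Pd.1 (h1 hP), mem_Mo.2 ⟨monic_pr h3, ?_⟩⟩
  rw [natDegree_pr h3, dg, sum_congr rfl fun P hP => (mem_Pd.1 (h1 hP)).2, sum_const, h2,
    smul_eq_mul]

theorem H22_cop {a r : ℕ} {S : Finset k[X]} (h : S ∈ WW k a r) {Dl : k[X]} (hD : Dl ≠ 0)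
    (ha : Dl.natDegree < a) : IsCoprime (pr S) Dl :=
  (coprime_pr_iff hD fun P hP => ((H22_pr h).1 P hP).1).2 (disjoint_left.2 fun P hP hP' => by
    have := natDegree_le_of_dvd ((mem_pf hD).1 hP').2 hD
    rw [((H22_pr h).1 P hP).2] at this
    omega)

theorem H22_AA (a r σ : ℕ) (Δ V : k[X]) :
    AA a r σ Δ V = ∑ S ∈ WW k a r, (ct σ Δ V (pr S) - qq k ^ σ / qq k ^ (r * a)) := by
  simp only [AA, GW, Gb, ct, sum_sub_distrib, sum_const, nsmul_eq_mul, card_low', card_filter,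
    Nat.cast_sum]
  rw [sum_comm]
  ring

end Pool.Agent.P.MP_e94e4b_nt.LG
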