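import Pool.Agent.P.MP_e94e4b_nt.LG.If
import Pool.Agent.P.MP_e94e4b_nt.LG.H22

/-! Step GSB. -/

namespace Pool.Agent.P.MP_e94e4b_nt.LG

open Polynomial Finset
open Pool.Agent.P.MP_8be758_nt Pool.Agent.P.MP_8be758_nt.C2 Pool.Agent.P.MP_8be758_nt.L2
open scoped Classical ComplexConjugate

theorem p_GSB (hCLS : S_CLS) (hORTH : L2.S_ORTH) :
    S_GSB := by
  intro k _ _ _ c n i χ γ h hc hn g0
  have hq := qq_pos (k := k)
  have hM := monic_X_pow (R := k) n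
  have dM : (X ^ n : k[X]).natDegree = n := natDegree_X_pow n
  set S : k[X] → ℂ := fun g => ∑ u ∈ Mo k n, χ u * (psi (res (X ^ n) (g * u)) : ℝ) with hS
  have e1 : ∀ g, ((‖S g‖ ^ 2 : ℝ) : ℂ) = ∑ u ∈ Mo k n, ∑ v ∈ Mo k n,
      χ u * conj (χ v) * (psi (res (X ^ n) (g * (u - v))) : ℝ) := fun g => by
    rw [Complex.ofReal_pow, ← Complex.mul_conj', hS, map_sum, sum_mul_sum]
    refine sum_congr rfl fun u _ => sum_congr rfl fun v _ => ?_
    rw [CharTwo.sub_eq_add, mul_add, res_add, psi_add, map_mul, Complex.conj_ofReal]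
    push_cast; ring
  have o : ∀ u ∈ Mo k n, ∀ v ∈ Mo k n, ∑ g ∈ low k n, psi (res (X ^ n) (g * (u - v))) =
      if u - v ∈ low k 0 then qq k ^ n else 0 := fun u hu v hv => by
    have := hORTH k (X ^ n) (u - v) n hM.ne_zero dM.ge (by rw [dM]; exact H22_sub hu hv)
    rwa [dM, Nat.sub_self] at this
  have e2 : ∀ u ∈ Mo k n, ∑ g ∈ low k n, ∑ v ∈ Mo k n,
      χ u * conj (χ v) * (psi (res (X ^ n) (g * (u - v))) : ℝ) = ((qq k ^ n : ℝ) : ℂ) :=
    fun u hu => by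
      rw [sum_comm, sum_eq_single_of_mem u hu fun v hv hne => ?_]
      · rw [← mul_sum, ← Complex.ofReal_sum, o u hu u hu, sub_self, if_pos (zero_mem_low _),
          Complex.mul_conj', h.2.1 u (mem_Mo.1 hu).1]
        simp
      · rw [← mul_sum, ← Complex.ofReal_sum, o u hu v hv, if_neg fun h0 =>
          hne (sub_eq_zero.1 (eq_zero_of_mem_low h0 (one_dvd _) (by simp))).symm]
        simp
  have e3 : ∑ g ∈ low k n, ‖S g‖ ^ 2 = qq k ^ (2 * n) := by
    have : ((∑ g ∈ low k n, ‖S g‖ ^ 2 : ℝ) : ℂ) = ((qq k ^ (2 * n) : ℝ) : ℂ) := by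
      rw [Complex.ofReal_sum, sum_congr rfl fun g _ => e1 g, sum_comm, sum_congr rfl e2, sum_const,
        nsmul_eq_mul, ← Complex.ofReal_natCast, card_Mo, ← Complex.ofReal_mul, ← pow_add, two_mul]
    exact_mod_cast this
  obtain ⟨c, rfl⟩ : ∃ c', c = c' + 1 := ⟨c - 1, by omega⟩
  rw [pow_succ _ c, pow_succ _ (2 * n), ← mul_assoc, ← e3, ← card_Mo, mul_comm _ (_ : ℝ),
    mul_comm _ (qq k)]
  refine mul_le_mul_of_nonneg_left ?_ hq.le
  have hi : Set.InjOn (fun g : k[X] => C γ * g) (Mo k c) := fun a _ b _ e =>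
    mul_left_cancel₀ (C_ne_zero.2 g0) e
  rw [mul_comm, ← nsmul_eq_mul, ← sum_const, sum_congr rfl (g := fun g => ‖S (C γ * g)‖ ^ 2)
    fun g hg => by
      obtain ⟨a1, a2⟩ := mem_Mo.1 hg
      rw [hS]
      simp only []
      rw [hCLS k _ n i χ g _ γ h (by omega) a1 hM (by omega), norm_mul, norm_mul,
        Complex.norm_conj, h.2.1 g a1, h.2.1 _ hM, one_mul, one_mul],
    ← sum_image (f := fun g => ‖S g‖ ^ 2) hi]
  refine sum_le_sum_of_subset_of_nonneg (fun g hg => ?_) fun _ _ _ => by positivity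
  obtain ⟨g', hg', rfl⟩ := mem_image.1 hg
  refine mem_low_of_natDegree_lt (lt_of_le_of_lt (natDegree_C_mul_le _ _) ?_)
  rw [(mem_Mo.1 hg').2]; omega

end Pool.Agent.P.MP_e94e4b_nt.LG
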