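import Pool.Agent.P.MP_e94e4b_nt.LG.If

/-! Step ID0. -/

namespace Pool.Agent.P.MP_e94e4b_nt.LG

open Polynomial Finset
open Pool.Agent.P.MP_8be758_nt Pool.Agent.P.MP_8be758_nt.C2 Pool.Agent.P.MP_8be758_nt.L2
open scoped Classical ComplexConjugate

theorem ID0_sum {k : Type} [Field k] {A : Finset k[X]} (hA : A ≠ ∅) (n : ℝ) :
    ∑ d ∈ A.powerset, (n - dg d) * sg d = if A.card = 1 then (dg A : ℝ) else 0 := by
  obtain ⟨P, hP⟩ := nonempty_iff_ne_empty.2 hA
  obtain ⟨B, hB, rfl⟩ : ∃ B, P ∉ B ∧ A = insert P B :=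
    ⟨A.erase P, notMem_erase _ _, (insert_erase hP).symm⟩
  rw [sum_powerset_insert hB, ← sum_add_distrib]
  have : ∀ d ∈ B.powerset, (n - dg d) * sg d + (n - dg (insert P d)) * sg (insert P d) =
      P.natDegree * sg d := fun d hd => by
    have h : P ∉ d := fun h => hB (mem_powerset.1 hd h)
    rw [dg_insert h, sg_insert h]; push_cast; ring
  rw [sum_congr rfl this, ← mul_sum, sum_sg_powerset, card_insert_of_notMem hB]
  by_cases h : B = ∅
  · subst h; simp [dg]
  · rw [if_neg h, if_neg (by have := card_pos.2 (nonempty_iff_ne_empty.2 h); omega), mul_zero]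

theorem ID0_mu {k : Type} [Field k] {S : Finset k[X]} (h : ∀ P ∈ S, IsPr P) :
    mu (pr S) = sg S := by
  induction S using Finset.induction_on with
  | empty => simp [mu, pr, sg]
  | insert P S hP ih =>
    have h1 := h P (mem_insert_self _ _)
    have h2 : ∀ Q ∈ S, IsPr Q := fun Q hQ => h Q (mem_insert_of_mem hQ)
    have h3 : IsRelPrime P (pr S) :=
      h1.2.isRelPrime_iff_not_dvd.2 fun e => hP ((dvd_pr_iff h2 h1).1 e)
    rw [pr_insert hP, sg_insert hP, ← ih h2, mu, mu, h3.moebius_mul, h1.2.moebius_eq]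
    simp

theorem p_ID0 (hBIJ : L2.S_BIJ) :
    S_ID0 := by
  intro k _ _ f hf hd
  have f0 := hf.ne_zero
  have hne : pf f ≠ ∅ := by
    obtain ⟨P, h1, h2⟩ := exists_isPr_dvd (f := f)
      (fun h => by have := natDegree_eq_zero_of_isUnit h; omega) f0
    exact ne_empty_of_mem ((mem_pf f0).2 ⟨h1, h2⟩)
  have hle := dg_pf_le f0
  rw [← ID0_sum hne f.natDegree, ← sum_fiberwise_of_maps_to (s := (pf f).powerset) (g := dg)
    (t := range (f.natDegree + 1)) (fun d hd => mem_range.2 (by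
      have := dg_mono (mem_powerset.1 hd); omega))]
  refine sum_congr rfl fun D _ => ?_
  have e1 : ∑ d ∈ (Mo k D).filter (fun d => d ∣ f), mu d =
      ∑ M ∈ (Mo k D).filter Squarefree, if M ∣ f then mu M else 0 := by
    rw [sum_filter, sum_filter]
    refine sum_congr rfl fun M _ => ?_
    by_cases h : Squarefree M
    · rw [if_pos h]
    · simp [h, mu]
  have e2 : (pf f).powerset.filter (fun d => dg d = D) =
      (Sc (∅ : Finset k[X]) D).filter fun S => pr S ∣ f := by
    ext S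
    rw [mem_filter, mem_filter, mem_powerset, mem_Sc]
    constructor
    · rintro ⟨h1, h2⟩
      have h : ∀ P ∈ S, IsPr P := fun P hP => isPr_of_mem_pf (h1 hP)
      exact ⟨⟨h, h2, disjoint_empty_right _⟩, (subset_pf_iff f0 h).1 h1⟩
    · rintro ⟨⟨h, h2, -⟩, h1⟩
      exact ⟨(subset_pf_iff f0 h).2 h1, h2⟩
  rw [e1, ← hBIJ k D, ← sum_filter, e2, mul_sum]
  refine sum_congr rfl fun S hS => ?_
  obtain ⟨h, h2, -⟩ := mem_Sc.1 (mem_filter.1 hS).1
  rw [ID0_mu h, h2]

end Pool.Agent.P.MP_e94e4b_nt.LG
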