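import Pool.Agent.P.MP_e94e4b_nt.LG.If

/-! Step K0. -/

namespace Pool.Agent.P.MP_e94e4b_nt.LG

open Polynomial Finset
open Pool.Agent.P.MP_8be758_nt Pool.Agent.P.MP_8be758_nt.C2 Pool.Agent.P.MP_8be758_nt.L2
open scoped Classical ComplexConjugate

theorem p_K0 (hCUT : S_CUT) (hGM : S_GM) :
    S_K0 := by
  intro k _ _ _ d0 φ l β s s0 a r hd hD hl hs ha hφ
  obtain ⟨-, -, g0, g1, -⟩ := hGM k a r
  have g1 := g1 ha
  set w : k[X] → ℝ := fun x => mu (d0 + x) * φ (d0 + x) with hw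
  have hw1 : ∀ x, |w x| ≤ 1 := fun x => by
    simp only [hw, abs_mul]
    exact mul_le_one₀ (abs_mu_le _) (abs_nonneg _) (hφ _)
  set c : k[X] → ℝ := fun x => Gb k a r *
    (((Pd k β).filter (fun B => ¬ s0 ≤ (odp ((d0 + x) * B)).natDegree)).card : ℝ) with hc
  have hc1 : ∀ x ∈ low k l, |c x| ≤ 1 := fun x hx => by
    have hlt : x.degree < d0.degree := by
      rw [degree_eq_natDegree hd.ne_zero]
      exact (mem_low.1 hx).trans_le (by exact_mod_cast hl)
    have h1 : ((Pd k β).filter (fun B => ¬ s0 ≤ (odp ((d0 + x) * B)).natDegree)).card ≤ 1 := by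
      refine card_le_one.2 fun B1 h1 B2 h2 => ?_
      rw [mem_filter, not_le] at h1 h2
      exact hCUT k (d0 + x) B1 B2 β s s0 (hd.add_of_left hlt) h1.1 h2.1
        (by rw [natDegree_add_eq_left_of_degree_lt hlt]; exact hD) hs h1.2 h2.2
    have h2 : ((((Pd k β).filter
      (fun B => ¬ s0 ≤ (odp ((d0 + x) * B)).natDegree)).card : ℕ) : ℝ) ≤ 1 := by exact_mod_cast h1
    simp only [hc]
    rw [abs_of_nonneg (mul_nonneg g0 (Nat.cast_nonneg _))]
    exact mul_le_one₀ g1 (Nat.cast_nonneg _) h2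
  have key : ∀ x, ((Pd k β).card : ℝ) * Gb k a r =
      ∑ B ∈ Pd k β, G1 a r s0 (odp ((d0 + x) * B)) + c x -
        ∑ B ∈ Pd k β, G0 a r s0 (odp ((d0 + x) * B)) := fun x => by
    simp only [hc]
    rw [card_filter, Nat.cast_sum, mul_sum, ← sum_add_distrib, ← sum_sub_distrib, ← nsmul_eq_mul,
      ← sum_const]
    refine sum_congr rfl fun B _ => ?_
    simp only [G1, G0]
    split_ifs <;> simp
  have e : ((Pd k β).card : ℝ) * Gb k a r * ∑ x ∈ low k l, w x =
      ∑ B ∈ Pd k β, ∑ x ∈ low k l, w x * G1 a r s0 (odp ((d0 + x) * B)) +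
        ∑ x ∈ low k l, w x * c x -
        ∑ x ∈ low k l, w x * ∑ B ∈ Pd k β, G0 a r s0 (odp ((d0 + x) * B)) := by
    rw [sum_comm, mul_sum, ← sum_add_distrib, ← sum_sub_distrib]
    refine sum_congr rfl fun x _ => ?_
    rw [key x, ← mul_sum]
    ring
  have h0 : 0 ≤ ((Pd k β).card : ℝ) * Gb k a r := mul_nonneg (Nat.cast_nonneg _) g0
  rw [← abs_of_nonneg h0, ← abs_mul]
  refine (congrArg abs e).trans_le ((abs_sub _ _).trans (add_le_add ((abs_add_le _ _).trans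
    (add_le_add (abs_sum_le_sum_abs _ _) ?_)) ?_))
  · rw [← card_low', ← mul_one ((low k l).card : ℝ), ← nsmul_eq_mul, ← sum_const]
    refine (abs_sum_le_sum_abs _ _).trans (sum_le_sum fun x hx => ?_)
    rw [abs_mul]
    exact mul_le_one₀ (hw1 x) (abs_nonneg _) (hc1 x hx)
  · refine (abs_sum_le_sum_abs _ _).trans (sum_le_sum fun x _ => ?_)
    rw [abs_mul]
    exact mul_le_of_le_one_left (abs_nonneg _) (hw1 x)

end Pool.Agent.P.MP_e94e4b_nt.LG
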