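import Pool.Agent.P.MP_e94e4b_nt.LG.If

/-! Step LIN. -/

namespace Pool.Agent.P.MP_e94e4b_nt.LG

open Polynomial Finset
open Pool.Agent.P.MP_8be758_nt Pool.Agent.P.MP_8be758_nt.C2 Pool.Agent.P.MP_8be758_nt.L2
open scoped Classical ComplexConjugate

theorem p_LIN :
    S_LIN := by
  intro k _ _ _ M A y u j hM y0 hu hA
  by_cases u0 : u = 0
  · simp [u0, res_zero]
  have h2 : (2 : k[X]) = 0 := CharTwo.two_eq_zero
  have hl := natDegree_lt_of_mem_low hu u0
  have hd : (y + u).natDegree = y.natDegree := natDegree_add_eq_left_of_natDegree_lt (by omega)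
  have hm : y + u ≠ 0 := fun h => by rw [h, natDegree_zero] at hd; omega
  have e : res (M * y ^ 2 * (y + u)) (A * u ^ 2) = 0 := by
    refine res_eq_zero ?_
    have a := natDegree_mul_le (p := A) (q := u ^ 2)
    rw [natDegree_mul (mul_ne_zero hM (pow_ne_zero 2 y0)) hm,
      natDegree_mul hM (pow_ne_zero 2 y0), natDegree_pow, hd]
    rw [natDegree_pow] at a
    omega
  rw [← res_mul_mul (M * (y + u)) A (pow_ne_zero 2 y0),
    ← res_mul_mul (M * y) A (mul_ne_zero y0 hm), ← res_mul_mul (M * y ^ 2) (A * u) hm,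
    show M * (y + u) * y ^ 2 = M * y ^ 2 * (y + u) by ring,
    show M * y * (y * (y + u)) = M * y ^ 2 * (y + u) by ring, ← res_add, ← add_zero (res _ (_ + _)),
    ← e, ← res_add]
  congr 1
  linear_combination (-(A * y * u) - A * u ^ 2) * h2

end Pool.Agent.P.MP_e94e4b_nt.LG
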