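import Pool.Agent.P.MP_e94e4b_nt.LG.P1b

/-! The exceptional sets and the sum over an interval. -/

namespace Pool.Agent.P.MP_e94e4b_nt.LG

open Polynomial Finset Pool.Agent.P.MP_8be758_nt.C2 Pool.Agent.P.MP_8be758_nt.L2
open scoped Classical

variable {k : Type} [Field k] [Finite k] [CharP k 2]

theorem P1_share {l n : ℕ} (bad : k[X] → Prop) (v : k[X] → k[X]) (K : ℝ)
    (hv : ∀ t ∈ low k n, v t ∈ low k l)
    (hK : ∀ x ∈ low k l, (((low k n).filter fun t => bad (x + v t)).card : ℝ) ≤ K) :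
    (((low k l).filter bad).card : ℝ) ≤ qq k ^ l * (K / qq k ^ n) := by
  have hq := pow_pos (qq_pos (k := k)) n
  have h1 := sum_avg (low k l) (low k n) v (fun t ht g hg => add_mem_low hg (hv t ht))
    fun g => if bad g then 1 else 0
  rw [sum_boole, card_low', sum_congr rfl fun g _ => sum_boole (fun x => bad (g + v x)) _] at h1
  have h2 := sum_le_card_nsmul _ _ _ hK
  rw [← h1, nsmul_eq_mul, card_low'] at h2
  rw [← mul_div_assoc, le_div_iff₀' hq]
  exact h2

omit [CharP k 2] in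
theorem P1_cls {M : k[X]} (hM : M ≠ 0) (V : k[X]) {n : ℕ} (h : M.natDegree ≤ n) :
    (((low k n).filter fun t => M ∣ V + t).card : ℝ) ≤ qq k ^ (n - M.natDegree) := by
  rcases ((low k n).filter fun t => M ∣ V + t).eq_empty_or_nonempty with e | ⟨t0, h0⟩
  · rw [e, card_empty, Nat.cast_zero]; exact (pow_pos qq_pos _).le
  rw [← card_low_dvd hM h, Nat.cast_le]
  refine card_le_card_of_injOn (· - t0) (fun t ht => ?_) fun _ _ _ _ e => sub_left_injective e
  have a := mem_filter.1 (mem_coe.1 ht)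
  have b := mem_filter.1 h0
  exact mem_coe.2 (mem_filter.2 ⟨sub_mem_low a.1 b.1, by simpa using dvd_sub a.2 b.2⟩)

omit [CharP k 2] in
theorem P1_sq (V : k[X]) (a L : ℕ) :
    (((low k (2 * L)).filter fun t => ∃ R : k[X], R.Monic ∧ a ≤ R.natDegree ∧ R.natDegree ≤ L ∧
      R ^ 2 ∣ V + t).card : ℝ) ≤ 2 / qq k ^ a * qq k ^ (2 * L) := by
  have hq := qq_pos (k := k)
  have h1 : ((low k (2 * L)).filter fun t => ∃ R : k[X], R.Monic ∧ a ≤ R.natDegree ∧
      R.natDegree ≤ L ∧ R ^ 2 ∣ V + t) ⊆ (Ico a (L + 1)).biUnion fun j => (Mo k j).biUnion fun R =>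
        (low k (2 * L)).filter fun t => R ^ 2 ∣ V + t := fun t ht => by
    obtain ⟨h, R, r1, r2, r3, r4⟩ := mem_filter.1 ht
    exact mem_biUnion.2 ⟨_, mem_Ico.2 ⟨r2, by omega⟩, mem_biUnion.2 ⟨R, mem_Mo.2 ⟨r1, rfl⟩,
      mem_filter.2 ⟨h, r4⟩⟩⟩
  have h2 := (card_le_card h1).trans (card_biUnion_le.trans (sum_le_sum fun _ _ => card_biUnion_le))
  refine ((Nat.cast_le (α := ℝ)).2 h2).trans ?_
  push_cast
  have h3 : ∀ j ∈ Ico a (L + 1), ∑ R ∈ Mo k j, (((low k (2 * L)).filter fun t =>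
      R ^ 2 ∣ V + t).card : ℝ) ≤ (qq k)⁻¹ ^ j * qq k ^ (2 * L) := fun j hj => by
    have := (mem_Ico.1 hj).2
    refine (sum_le_card_nsmul _ _ (qq k ^ (2 * L - 2 * j)) fun R hR => ?_).trans_eq ?_
    · obtain ⟨r1, rfl⟩ := mem_Mo.1 hR
      simpa using P1_cls (pow_ne_zero 2 r1.ne_zero) V (n := 2 * L) (by rw [natDegree_pow]; omega)
    · rw [nsmul_eq_mul, card_Mo, inv_pow, inv_mul_eq_div, eq_div_iff (by positivity), ← pow_add,
        ← pow_add]
      congr 1; omega
  refine (sum_le_sum h3).trans ?_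
  rw [← sum_mul]
  have h4 : (qq k)⁻¹ ≤ 1 / 2 := by rw [one_div]; exact inv_anti₀ two_pos two_le_qq
  refine mul_le_mul_of_nonneg_right ((geom_sum_Ico_le_of_lt_one (by positivity)
    (by linarith)).trans ?_) (by positivity)
  rw [div_le_iff₀ (by linarith), inv_pow, div_eq_mul_inv]
  have : 0 < (qq k ^ a)⁻¹ := by positivity
  nlinarith

omit [Finite k] in
theorem P1_eo (d B w : k[X]) :
    (d + B * expand k 2 w) * B = eo (evp (d * B) + fr B * w) (odp (d * B)) := by
  have h := eo_evp_odp (d * B)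
  simp only [eo, map_add, map_mul, expand_fr] at h ⊢
  linear_combination -h

theorem P1_dual {B : k[X]} (hB : Irreducible B) :
    ∃ C : k[X], C.natDegree ≤ B.natDegree + 1 ∧ ∀ d w, odp ((d + C * expand k 2 w) * B) =
      odp (d * B) + w := by
  have h0 : IsCoprime (evp B) (odp B) := by
    by_contra h
    have := mu_eo_eq_zero h
    rw [eo_evp_odp, mu, hB.moebius_eq] at this
    simp at this
  have e := eo_evp_odp B
  generalize evp B = b0 at h0 e
  generalize odp B = b1 at h0 e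
  have b : ∀ U V : k[X], 2 * U.natDegree ≤ (eo U V).natDegree ∧
      2 * V.natDegree ≤ (eo U V).natDegree := fun U V => by
    constructor
    · by_cases h : U = 0
      · simp [h]
      exact le_natDegree_of_ne_zero (by rw [coeff_eo_even]; simpa using h)
    · by_cases h : V = 0
      · simp [h]
      exact (Nat.le_succ _).trans (le_natDegree_of_ne_zero (by rw [coeff_eo_odd]; simpa using h))
  obtain ⟨b2, b3⟩ := b b0 b1
  rw [e] at b2 b3
  have n1 : b1 ≠ 0 := by
    rintro rfl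
    obtain ⟨c, rfl⟩ := natDegree_eq_zero.1 (natDegree_eq_zero_of_isUnit (isCoprime_zero_right.1 h0))
    have := hB.natDegree_pos
    simp [← e, eo] at this
  obtain ⟨x, y, hxy⟩ := h0
  have h1 := EuclideanDomain.div_add_mod x b1
  have h2 : (x % b1).natDegree ≤ b1.natDegree := natDegree_le_natDegree (degree_mod_lt x n1).le
  have h3 : (y + x / b1 * b0) * b1 = 1 - x % b1 * b0 := by linear_combination hxy + b0 * h1
  have h4 : (y + x / b1 * b0).natDegree ≤ b0.natDegree := by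
    by_cases h : y + x / b1 * b0 = 0
    · simp [h]
    have := (natDegree_sub_le 1 (x % b1 * b0)).trans (max_le_max_left _ natDegree_mul_le)
    rw [← h3, natDegree_mul h n1, natDegree_one] at this
    omega
  refine ⟨eo (y + x / b1 * b0) (x % b1), (natDegree_add_le _ _).trans (max_le ?_
    (natDegree_mul_le.trans ?_)), fun d w => ?_⟩
  · rw [natDegree_expand]; omega
  · rw [natDegree_expand, natDegree_X]; omega
  · have h := eo_evp_odp (d * B)
    have h5 := congrArg (expand k 2) h3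
    rw [← odp_eo (evp (d * B) + w * ((y + x / b1 * b0) * b0 + X * (x % b1) * b1))
      (odp (d * B) + w)]
    congr 1
    generalize y + x / b1 * b0 = y' at h5
    rw [add_mul, ← h, evp_eo, odp_eo, ← e]
    simp only [eo, map_add, map_mul, map_sub, map_one, expand_X] at h5 ⊢
    linear_combination (X * expand k 2 w) * h5

omit [Finite k] in
theorem P1_kap (Bt U V s z : k[X]) :
    kap Bt (U + Bt * (z ^ 2 + X * s ^ 2)) V = kap Bt U V + (Bt * s) ^ 4 := by
  have h2 : (2 : k[X]) = 0 := CharTwo.two_eq_zero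
  rw [kap, kap, show (U + Bt * (z ^ 2 + X * s ^ 2)) * Bt =
    U * Bt + ((Bt * z) ^ 2 + X * (Bt * s) ^ 2) by ring, derivative_add, derivative_sq_add]
  linear_combination (derivative (U * Bt) * (Bt * s) ^ 2) * h2

theorem P1_kc {Bt V : k[X]} (U : k[X]) {a H : ℕ} (hB : Bt ≠ 0) (h1 : Bt.natDegree < a)
    (h3 : H ≤ a) : ((low k H).filter fun t => V ≠ 0 ∧ ∃ P, IsPr P ∧ a ≤ P.natDegree ∧ P ∣ V ∧
      P ∣ kap Bt U V + (Bt * t) ^ 4).card ≤ V.natDegree := by
  have h2 : (2 : k[X]) = 0 := CharTwo.two_eq_zero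
  by_cases hV : V = 0
  · simp [hV]
  have hx := fun y (hy : y ∈ (low k H).filter fun t => V ≠ 0 ∧ ∃ P, IsPr P ∧ a ≤ P.natDegree ∧
    P ∣ V ∧ P ∣ kap Bt U V + (Bt * t) ^ 4) => (mem_filter.1 hy).2.2
  choose! f f1 f2 f3 f4 using hx
  refine (card_le_card_of_injOn f (fun x hx => (mem_pf hV).2 ⟨f1 x hx, f3 x hx⟩)
    fun x hx y hy e => ?_).trans ((card_le_dg fun _ => isPr_of_mem_pf).trans (dg_pf_le hV))
  have d1 := dvd_add (f4 x hx) (e ▸ f4 y hy)
  rw [show kap Bt U V + (Bt * x) ^ 4 + (kap Bt U V + (Bt * y) ^ 4) = (Bt * (x - y)) ^ 4 by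
    linear_combination (kap Bt U V + Bt ^ 4 * (2 * x ^ 3 * y - 3 * x ^ 2 * y ^ 2 + 2 * x * y ^ 3)) *
      h2] at d1
  have p := (f1 x hx).prime
  have := f2 x hx
  exact sub_eq_zero.1 (eq_zero_of_mem_low (sub_mem_low (mem_filter.1 hx).1 (mem_filter.1 hy).1)
    ((p.dvd_or_dvd (p.dvd_of_dvd_pow d1)).resolve_left fun h => by
      have := natDegree_le_of_dvd h hB; omega) (by omega))

theorem P1_main (d0 B : k[X]) (φ g : k[X] → ℝ) (l s L H a j0 J : ℕ) (Gm η : ℝ) (hd : d0.Monic)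
    (hB : IsPr B) (hs : d0.natDegree + B.natDegree = 2 * s) (hl : l ≤ d0.natDegree)
    (g1 : ∀ V ∈ low k s, |g V| ≤ Gm)
    (g2 : ∀ V, g V ≠ 0 → V ≠ 0 ∧ s ≤ V.natDegree + j0 ∧ ∃ T : Finset k[X], T.Nonempty ∧
      (∀ P ∈ T, IsPr P ∧ P.natDegree = a) ∧ pr T ∣ V ∧ s ≤ dg T + 2 * L)
    (φ1 : ∀ d, |φ d| ≤ 1)
    (φ2 : ∀ x ∈ low k l, ∃ χ, IsCh χ ∧ ∀ z ∈ low k (L + H),
      φ (d0 + x + B * z ^ 4) = φ (d0 + x) * χ z)
    (hH : 1 ≤ H) (n1 : B.natDegree + 4 * (L + H) ≤ l + 3)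
    (n2 : B.natDegree + 2 * (L + H) + 2 * j0 ≤ s + 2) (n3 : 3 * a ≤ L) (n4 : 2 * H ≤ a)
    (n5 : B.natDegree < a) (n6 : 2 * s ≤ J * L) (h0 : 0 ≤ η) (h1 : η ≤ 1)
    (hη : 16 * 4 ^ J ≤ η ^ 2 ^ J * qq k ^ H) :
    |∑ x ∈ low k l, mu (d0 + x) * φ (d0 + x) * g (odp ((d0 + x) * B))| ≤
      Gm * qq k ^ l * (2 * η + 1 / qq k ^ B.natDegree + 2 / qq k ^ a + s / qq k ^ H) := by
  have hq := qq_pos (k := k)
  have hG : 0 ≤ Gm := (abs_nonneg _).trans (g1 0 (zero_mem_low s))
  have b0 := hB.pos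
  have hUV : ∀ x ∈ low k l, (evp ((d0 + x) * B)).Monic ∧ (evp ((d0 + x) * B)).natDegree = s ∧
      (odp ((d0 + x) * B)).natDegree < s := fun x hx => by
    have a0 : x.degree < d0.degree := (mem_low.1 hx).trans_le (by
      rw [degree_eq_natDegree hd.ne_zero]; exact_mod_cast hl)
    have a1 : ((d0 + x) * B).Monic := (hd.add_of_left a0).mul hB.1
    have a2 : ((d0 + x) * B).natDegree = 2 * s := by
      rw [(hd.add_of_left a0).natDegree_mul hB.1, natDegree_add_eq_left_of_degree_lt a0, hs]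
    generalize (d0 + x) * B = f at a1 a2
    have a3 : (evp f).coeff s = 1 := by
      rw [← coeff_eo_even _ (odp f), eo_evp_odp, ← a2]; exact a1
    have a4 : (evp f).natDegree ≤ s := natDegree_le_iff_coeff_eq_zero.2 fun N hN => by
      rw [← coeff_eo_even _ (odp f), eo_evp_odp]; exact coeff_eq_zero_of_natDegree_lt (by omega)
    have a5 : (odp f).natDegree ≤ s - 1 := natDegree_le_iff_coeff_eq_zero.2 fun N hN => by
      rw [← coeff_eo_odd (evp f), eo_evp_odp]; exact coeff_eq_zero_of_natDegree_lt (by omega)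
    exact ⟨monic_of_natDegree_le_of_coeff_eq_one s a4 a3,
      natDegree_eq_of_le_of_coeff_ne_zero a4 (by simp [a3]), by omega⟩
  obtain ⟨b1, e1⟩ : ∃ b : k[X] → Prop, b = fun x => B ∣ d0 + x := ⟨_, rfl⟩
  obtain ⟨b2, e2⟩ : ∃ b : k[X] → Prop, b = fun x => ∃ R : k[X], R.Monic ∧ a ≤ R.natDegree ∧
    R.natDegree ≤ L ∧ R ^ 2 ∣ odp ((d0 + x) * B) := ⟨_, rfl⟩
  obtain ⟨b3, e3⟩ : ∃ b : k[X] → Prop, b = fun x => odp ((d0 + x) * B) ≠ 0 ∧ ∃ P, IsPr P ∧
    a ≤ P.natDegree ∧ P ∣ odp ((d0 + x) * B) ∧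
      P ∣ kap (fr B) (evp ((d0 + x) * B)) (odp ((d0 + x) * B)) := ⟨_, rfl⟩
  have hex : ∀ (C w : k[X]) (n : ℕ), w.natDegree ≤ n → C.natDegree + 2 * n < l →
      C * expand k 2 w ∈ low k l := fun C w n h h' => mem_low_of_natDegree_lt (by
    have := natDegree_mul_le (p := C) (q := expand k 2 w)
    rw [natDegree_expand] at this; omega)
  have c1 := P1_share (l := l) (n := B.natDegree) b1 (fun t => t) 1
    (fun t ht => low_mono (by omega) ht) fun x _ => by
      simpa [e1, add_assoc] using P1_cls hB.ne_zero (d0 + x) le_rfl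
  obtain ⟨C, C1, C2⟩ := P1_dual hB.2
  have c2 := P1_share (l := l) (n := 2 * L) b2 (fun t => C * expand k 2 t) _
    (fun t ht => hex C t _ (natDegree_le_of_mem_low ht) (by omega)) fun x _ => by
      simpa only [e2, ← add_assoc, C2] using P1_sq (odp ((d0 + x) * B)) a L
  rw [mul_div_cancel_right₀ _ (by positivity)] at c2
  have c3 := P1_share (l := l) (n := H) b3 (fun t => B * expand k 2 (0 ^ 2 + X * t ^ 2)) s
    (fun t ht => hex B _ (2 * H - 1) (by
      have := natDegree_le_of_mem_low ht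
      have := natDegree_mul_le_of_le natDegree_X_le (natDegree_pow_le (p := t) (n := 2))
      simp only [ne_eq, OfNat.ofNat_ne_zero, not_false_eq_true, zero_pow, zero_add]
      omega) (by omega)) fun x hx => by
      simp only [e3, ← add_assoc d0, P1_eo, evp_eo, odp_eo, P1_kap]
      exact_mod_cast (P1_kc _ (fr_ne_zero hB.ne_zero) (by rwa [natDegree_fr]) (by omega)).trans
        (hUV x hx).2.2.le
  obtain ⟨F, hF⟩ : ∃ F : k[X] → ℝ, ∀ x,
    F x = mu (d0 + x) * φ (d0 + x) * g (odp ((d0 + x) * B)) := ⟨_, fun _ => rfl⟩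
  have F1 : ∀ x ∈ low k l, |F x| ≤ Gm := fun x hx => by
    rw [hF, abs_mul, abs_mul]
    exact (mul_le_of_le_one_left (abs_nonneg _) (mul_le_one₀ (abs_mu_le _) (abs_nonneg _)
      (φ1 _))).trans (g1 _ (mem_low_of_natDegree_lt (hUV x hx).2.2))
  have inner : ∀ x ∈ low k l, |∑ z ∈ low k (L + H), if b1 (x + B * expand k 2 (z ^ 2)) ∨
      b2 (x + B * expand k 2 (z ^ 2)) ∨ b3 (x + B * expand k 2 (z ^ 2)) then 0 else
      F (x + B * expand k 2 (z ^ 2))| ≤ Gm * (2 * η * qq k ^ (L + H)) := by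
    intro x hx
    have i1 : ∀ z, b1 (x + B * expand k 2 (z ^ 2)) ↔ b1 x := fun z => by
      simp only [e1, ← add_assoc]; exact dvd_add_left (dvd_mul_right _ _)
    have i2 : ∀ z, b2 (x + B * expand k 2 (z ^ 2)) ↔ b2 x := fun z => by
      simp only [e2, ← add_assoc, P1_eo, odp_eo]
    have i3 : ∀ z, b3 (x + B * expand k 2 (z ^ 2)) ↔ b3 x := fun z => by
      have := P1_kap (fr B) (evp ((d0 + x) * B)) (odp ((d0 + x) * B)) 0 z
      simp only [ne_eq, OfNat.ofNat_ne_zero, not_false_eq_true, zero_pow, mul_zero, add_zero] at this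
      simp only [e3, ← add_assoc, P1_eo, odp_eo, evp_eo, this]
    simp only [i1, i2, i3]
    split_ifs with hb
    · simp only [sum_const_zero, abs_zero]; positivity
    by_cases hg : g (odp ((d0 + x) * B)) = 0
    · simp only [hF, ← add_assoc, P1_eo, odp_eo, hg, mul_zero, sum_const_zero, abs_zero]
      positivity
    obtain ⟨v1, v2, T, t1, t2, t3, t4⟩ := g2 _ hg
    obtain ⟨u1, u2, u3⟩ := hUV x hx
    obtain ⟨χ, x1, x2⟩ := φ2 x hx
    simp only [not_or, e1, e2, e3] at hb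
    set σ : k →+* k := ((frobeniusEquiv k 2).symm : k →+* k) with hσ
    have := P1_core (J := J) (χ := fun z => χ (z.map σ)) u1 (fr_ne_zero hB.ne_zero) v1 (by omega) t1
      t2 t3 (by omega) (fun R r1 r2 r3 r4 => hb.2.1 ⟨R, r1, r2, r3, r4⟩)
      (fun P p1 p2 p3 p4 => hb.2.2 ⟨v1, P, p1, p2, p3, p4⟩)
      ⟨fun x y => by simp only [Polynomial.map_add, x1.1], fun x => x1.2 _⟩ hH
      (by rw [natDegree_fr]; omega) n3 n4 (by rwa [natDegree_fr]) (by omega) h0 h1 hη
    rw [sum_congr rfl (g := fun z => -(φ (d0 + x) * g (odp ((d0 + x) * B))) *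
      (mu (eo (evp ((d0 + x) * B) + fr B * z ^ 2) (odp ((d0 + x) * B))) * χ (z.map σ)))
      fun z hz => ?_, ← mul_sum, abs_mul, abs_neg, abs_mul]
    · exact mul_le_mul ((mul_le_of_le_one_left (abs_nonneg _) (φ1 _)).trans
        (g1 _ (mem_low_of_natDegree_lt u3))) this (abs_nonneg _) hG
    have j1 : expand k 2 (z ^ 2) = (z.map σ) ^ 4 := by
      rw [show 4 = 2 * 2 from rfl, pow_mul, ← expand_fr (z.map σ), fr, Polynomial.map_map, map_pow]
      congr 2
      exact (Polynomial.map_id.symm.trans (congrArg z.map (by ext y; simp [hσ])))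
    have j2 : mu ((d0 + x + B * expand k 2 (z ^ 2)) * B) =
        -mu (d0 + x + B * expand k 2 (z ^ 2)) := by
      rw [mu, mu, (hB.2.coprime_iff_not_dvd.2 fun h => hb.1 ((dvd_add_left
        (dvd_mul_right _ _)).1 h)).symm.isRelPrime.moebius_mul, hB.2.moebius_eq]
      simp
    rw [hF, ← add_assoc, ← P1_eo, j2, P1_eo, odp_eo, j1, x2 _ (mem_low.2
      (degree_map_le.trans_lt (mem_low.1 hz)))]
    ring
  have havg := sum_avg (low k l) (low k (L + H)) (fun z => B * expand k 2 (z ^ 2))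
    (fun t ht g hg => add_mem_low hg (hex B _ (2 * (L + H - 1)) (by
      have := natDegree_le_of_mem_low ht
      rw [natDegree_pow]; omega) (by omega))) fun x => if b1 x ∨ b2 x ∨ b3 x then 0 else F x
  have h3 := (abs_sum_le_sum_abs _ _).trans (sum_le_sum inner)
  rw [← havg, sum_const, nsmul_eq_mul, card_low', card_low', abs_mul, abs_of_pos (pow_pos hq _),
    show qq k ^ l * (Gm * (2 * η * qq k ^ (L + H))) = qq k ^ (L + H) * (Gm * qq k ^ l * (2 * η)) by
      ring] at h3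
  have h4 := le_of_mul_le_mul_left h3 (pow_pos hq _)
  have h5 : |∑ x ∈ (low k l).filter fun x => b1 x ∨ b2 x ∨ b3 x, F x| ≤ Gm * (((low k l).filter
      b1).card + (((low k l).filter b2).card + ((low k l).filter b3).card)) := by
    refine (abs_sum_le_sum_abs _ _).trans ((sum_le_card_nsmul _ _ Gm fun x hx =>
      F1 x (mem_filter.1 hx).1).trans ?_)
    rw [nsmul_eq_mul, mul_comm, filter_or, filter_or]
    refine mul_le_mul_of_nonneg_left ?_ hG
    exact_mod_cast (card_union_le _ _).trans (Nat.add_le_add_left (card_union_le _ _) _)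
  simp only [← hF]
  rw [sum_congr rfl (g := fun x => (if b1 x ∨ b2 x ∨ b3 x then 0 else F x) +
    if b1 x ∨ b2 x ∨ b3 x then F x else 0) fun x _ => by split_ifs <;> simp, sum_add_distrib,
    ← sum_filter]
  refine (abs_add_le _ _).trans ((add_le_add h4 (h5.trans (mul_le_mul_of_nonneg_left
    (add_le_add c1 (add_le_add c2 c3)) hG))).trans_eq (by ring))

end Pool.Agent.P.MP_e94e4b_nt.LG
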