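import Pool.Agent.P.MP_e94e4b_nt.LG.If
import Pool.Agent.P.MP_e94e4b_nt.LG.P1c

/-! Step P1. -/

namespace Pool.Agent.P.MP_e94e4b_nt.LG

open Polynomial Finset
open Pool.Agent.P.MP_8be758_nt Pool.Agent.P.MP_8be758_nt.C2 Pool.Agent.P.MP_8be758_nt.L2
open scoped Classical ComplexConjugate

theorem p_P1 (hFORM : C2.S_FORM) :
    S_P1 := by
  intro k _ _ _ d0 B φ g l s L H a j0 J Gm η a1 a2 a3 a4 a5 a6 a7 a8 a9 b1 b2 b3 b4 b5 b6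
  exact P1_main d0 B φ g l s L H a j0 J Gm η a1 a2 a3 a4 a5 a6 a7 a8 a9 b1 b2 b3 b4 b5 (by omega)

end Pool.Agent.P.MP_e94e4b_nt.LG
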