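import Pool.Agent.P.MP_e94e4b_nt.LG.If

/-! Step P2. -/

namespace Pool.Agent.P.MP_e94e4b_nt.LG

open Polynomial Finset
open Pool.Agent.P.MP_8be758_nt Pool.Agent.P.MP_8be758_nt.C2 Pool.Agent.P.MP_8be758_nt.L2
open scoped Classical ComplexConjugate

theorem P2_cs {α β γ : Type} (F : Finset α) (G : Finset β) (P : Finset γ) (T : α → β → γ → ℝ)
    (D O : ℝ) (h : ∀ B1 ∈ P, ∀ B2 ∈ P, ∑ e ∈ F, ∑ x ∈ G, T e x B1 * T e x B2 ≤
      (if B1 = B2 then D else 0) + O) :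
    (∑ e ∈ F, ∑ x ∈ G, |∑ B ∈ P, T e x B|) ^ 2 ≤
      F.card * G.card * (P.card * D + (P.card : ℝ) ^ 2 * O) := by
  have h1 : (∑ e ∈ F, ∑ x ∈ G, |∑ B ∈ P, T e x B|) ^ 2 ≤
      F.card * G.card * ∑ e ∈ F, ∑ x ∈ G, (∑ B ∈ P, T e x B) ^ 2 := by
    have := sq_sum_le_card_mul_sum_sq (s := F ×ˢ G) (f := fun p => |∑ B ∈ P, T p.1 p.2 B|)
    simp only [sq_abs, Finset.sum_product, Finset.card_product, Nat.cast_mul] at this
    exact this
  refine h1.trans (mul_le_mul_of_nonneg_left ?_ (by positivity))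
  have h2 : ∑ e ∈ F, ∑ x ∈ G, (∑ B ∈ P, T e x B) ^ 2 =
      ∑ B1 ∈ P, ∑ B2 ∈ P, ∑ e ∈ F, ∑ x ∈ G, T e x B1 * T e x B2 := by
    simp only [sq, Finset.sum_mul_sum]
    calc ∑ e ∈ F, ∑ x ∈ G, ∑ B1 ∈ P, ∑ B2 ∈ P, T e x B1 * T e x B2
        = ∑ e ∈ F, ∑ B1 ∈ P, ∑ B2 ∈ P, ∑ x ∈ G, T e x B1 * T e x B2 := by
          refine Finset.sum_congr rfl fun e _ => ?_
          rw [Finset.sum_comm]
          exact Finset.sum_congr rfl fun B1 _ => Finset.sum_comm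
      _ = _ := by
          rw [Finset.sum_comm]
          exact Finset.sum_congr rfl fun B1 _ => Finset.sum_comm
  rw [h2]
  calc ∑ B1 ∈ P, ∑ B2 ∈ P, ∑ e ∈ F, ∑ x ∈ G, T e x B1 * T e x B2
      ≤ ∑ B1 ∈ P, ∑ B2 ∈ P, ((if B1 = B2 then D else 0) + O) :=
        Finset.sum_le_sum fun B1 h1 => Finset.sum_le_sum fun B2 h2 => h B1 h1 B2 h2
    _ = ∑ _B1 ∈ P, (D + P.card * O) := by
        refine Finset.sum_congr rfl fun B1 h1 => ?_
        rw [Finset.sum_add_distrib, Finset.sum_ite_eq, if_pos h1, Finset.sum_const, nsmul_eq_mul]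
    _ = _ := by
        rw [Finset.sum_const, nsmul_eq_mul]
        ring

theorem p_P2 (hP2A : S_P2A) :
    S_P2 := by
  intro k _ _ _ F cen l β σ s0 a r Gm Z h1 h2 hG hZ hb hA
  have hq : (0 : ℝ) < qq k ^ σ := pow_pos qq_pos σ
  have key := P2_cs F (low k l) (Pd k β) (fun e x B => G0 a r s0 (odp ((cen e + x) * B)))
    (F.card * qq k ^ l * Gm ^ 2) (Gm * Z) ?_
  · rw [card_low'] at key
    refine key.trans (le_of_eq ?_)
    ring
  intro B1 hB1 B2 hB2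
  by_cases h : B1 = B2
  · subst h
    rw [if_pos rfl]
    have : ∑ e ∈ F, ∑ x ∈ low k l, G0 a r s0 (odp ((cen e + x) * B1)) *
        G0 a r s0 (odp ((cen e + x) * B1)) ≤ ∑ _e ∈ F, ∑ _x ∈ low k l, Gm ^ 2 := by
      refine Finset.sum_le_sum fun e he => Finset.sum_le_sum fun x hx => ?_
      rw [← sq, ← sq_abs]
      exact pow_le_pow_left₀ (abs_nonneg _) (hb e he x hx B1 hB1) 2
    simp only [Finset.sum_const, nsmul_eq_mul, card_low'] at this
    have h0 : 0 ≤ Gm * Z := mul_nonneg hG hZ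
    linarith
  · rw [if_neg h, zero_add]
    obtain ⟨Δ, hm, hd, hΔ⟩ := hP2A k B1 B2 β hB1 hB2 h
    refine le_of_mul_le_mul_right ?_ hq
    calc (∑ e ∈ F, ∑ x ∈ low k l, G0 a r s0 (odp ((cen e + x) * B1)) *
          G0 a r s0 (odp ((cen e + x) * B2))) * qq k ^ σ
        ≤ ∑ e ∈ F, Gm * ∑ x ∈ low k l, |A0 a r s0 σ Δ (odp ((cen e + x) * B1))| := by
          rw [Finset.sum_mul]
          refine Finset.sum_le_sum fun e he => ?_
          exact (mul_le_mul_of_nonneg_right (le_abs_self _) hq.le).trans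
            (hΔ (cen e) (G0 a r s0) Gm l σ s0 a r h1 h2 fun x hx => hb e he x hx B2 hB2)
      _ ≤ Gm * (Z * qq k ^ σ) := by
          rw [← Finset.mul_sum]
          exact mul_le_mul_of_nonneg_left (hA B1 Δ hB1 hm hd) hG
      _ = _ := by ring

end Pool.Agent.P.MP_e94e4b_nt.LG
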