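import Pool.Agent.P.MP_e94e4b_nt.LG.If
import Pool.Agent.P.MP_e94e4b_nt.LG.Basic8

/-! Step P2A. -/

namespace Pool.Agent.P.MP_e94e4b_nt.LG

open Polynomial Finset
open Pool.Agent.P.MP_8be758_nt Pool.Agent.P.MP_8be758_nt.C2 Pool.Agent.P.MP_8be758_nt.L2
open scoped Classical ComplexConjugate

theorem P2A_odp_sq {k : Type} [Field k] [CharP k 2] (z : k[X]) : odp (z ^ 2) = 0 := by
  have e : z ^ 2 = eo (fr z) 0 := by simp [eo, expand_fr]
  rw [e, odp_eo]

theorem P2A_cut {k : Type} [Field k] {V W : k[X]} {s0 : ℕ} (h : W.natDegree < s0) :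
    s0 ≤ (V + W).natDegree ↔ s0 ≤ V.natDegree := by
  constructor
  · intro h1
    have := natDegree_add_le V W
    rcases le_max_iff.1 (h1.trans this) with h2 | h2
    · exact h2
    · omega
  · intro h1
    rw [natDegree_add_eq_left_of_natDegree_lt (by omega)]
    exact h1

theorem P2A_perm {k : Type} [Field k] [Finite k] [CharP k 2] {c : k} (hc : c ≠ 0) (σ : ℕ)
    (F : k[X] → ℝ) : ∑ t ∈ low k σ, F (C c * fr t) = ∑ t ∈ low k σ, F t := by
  refine sum_nbij (fun t => C c * fr t) (fun t ht => ?_) (fun t _ u _ e => ?_) (fun t ht => ?_)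
    (fun _ _ => rfl)
  · refine mul_mem_low (L := σ) ?_ (by simp)
    rw [mem_low] at *
    rwa [fr, degree_map]
  · have e' : fr t = fr u := mul_left_cancel₀ (C_ne_zero.2 hc) e
    exact map_injective _ (frobenius k 2).injective e'
  · obtain ⟨r, hr⟩ := H8.fr_surj (C c⁻¹ * t)
    refine ⟨r, mem_coe.2 (H8.mem_low_of_fr ?_), ?_⟩
    · rw [hr]; exact mul_mem_low (L := σ) (mem_coe.1 ht) (by simp)
    · show C c * fr r = t
      rw [hr, ← mul_assoc, ← C_mul, mul_inv_cancel₀ hc, C_1, one_mul]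

theorem P2A_sum {k : Type} [Field k] [Finite k] {Δ : k[X]} {β σ s0 : ℕ} (a r : ℕ)
    (hΔ : Δ.natDegree < β) (hs : β + σ ≤ s0) (V : k[X]) :
    ∑ t ∈ low k σ, G0 a r s0 (V + Δ * t) = A0 a r s0 σ Δ V := by
  have h : ∀ t ∈ low k σ, (s0 ≤ (V + Δ * t).natDegree ↔ s0 ≤ V.natDegree) := fun t ht => by
    refine P2A_cut ?_
    have h1 := natDegree_le_of_mem_low ht
    have h2 : (Δ * t).natDegree ≤ Δ.natDegree + t.natDegree := natDegree_mul_le
    omega
  unfold A0 AA G0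
  split_ifs with hV
  · exact sum_congr rfl fun t ht => if_pos ((h t ht).2 hV)
  · exact sum_eq_zero fun t ht => if_neg fun e => hV ((h t ht).1 e)

theorem p_P2A :
    S_P2A := by
  intro k _ _ _ B1 B2 β h1 h2 hne
  obtain ⟨p1, d1⟩ := mem_Pd.1 h1
  obtain ⟨p2, d2⟩ := mem_Pd.1 h2
  have D0 : odp (B1 * B2) ≠ 0 := fun h => by
    obtain ⟨t, ht⟩ := H8.of_odp_eq_zero p2 h
    exact hne (p2.eq_of_dvd p1 ⟨_, ht⟩).symm
  have dD : (odp (B1 * B2)).natDegree < β := by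
    have hm : B1 * B2 ∈ low k (2 * β + 1) := mem_low_of_natDegree_lt (by
      rw [natDegree_mul p1.ne_zero p2.ne_zero]; omega)
    have := natDegree_lt_of_mem_low (H8.odp_mem_low hm) D0
    omega
  set c := (odp (B1 * B2)).leadingCoeff with hc
  have c0 : c ≠ 0 := leadingCoeff_ne_zero.2 D0
  have dΔ : (odp (B1 * B2) * C c⁻¹).natDegree < β := by
    rw [natDegree_mul_C (inv_ne_zero c0)]; exact dD
  refine ⟨odp (B1 * B2) * C c⁻¹, monic_mul_leadingCoeff_inv D0, dΔ, ?_⟩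
  intro d0 g Gm l σ s0 a r hl hs hg
  have hv : ∀ t ∈ low k σ, ∀ x ∈ low k l, x + B2 * t ^ 2 ∈ low k l := fun t ht x hx => by
    refine add_mem_low hx ?_
    by_cases t0 : t = 0
    · rw [t0]; simpa using zero_mem_low l
    · have := natDegree_lt_of_mem_low ht t0
      refine mem_low_of_natDegree_lt ?_
      rw [natDegree_mul p2.ne_zero (pow_ne_zero _ t0), natDegree_pow]
      omega
  have av := sum_avg (low k l) (low k σ) (fun t => B2 * t ^ 2) hv
    (fun x => G0 a r s0 (odp ((d0 + x) * B1)) * g (odp ((d0 + x) * B2)))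
  have e : ∀ x : k[X], ∑ t ∈ low k σ, G0 a r s0 (odp ((d0 + (x + B2 * t ^ 2)) * B1)) *
      g (odp ((d0 + (x + B2 * t ^ 2)) * B2)) =
      A0 a r s0 σ (odp (B1 * B2) * C c⁻¹) (odp ((d0 + x) * B1)) * g (odp ((d0 + x) * B2)) := by
    intro x
    rw [← P2A_sum a r dΔ hs, ← P2A_perm c0 σ (fun t => G0 a r s0 (odp ((d0 + x) * B1) +
      odp (B1 * B2) * C c⁻¹ * t)), sum_mul]
    refine sum_congr rfl fun t _ => ?_
    have e1 : (d0 + (x + B2 * t ^ 2)) * B1 = (d0 + x) * B1 + B1 * B2 * t ^ 2 := by ring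
    have e2 : (d0 + (x + B2 * t ^ 2)) * B2 = (d0 + x) * B2 + (B2 * t) ^ 2 := by ring
    have e3 : odp (B1 * B2) * C c⁻¹ * (C c * fr t) = odp (B1 * B2) * fr t := by
      rw [mul_assoc, ← mul_assoc (C c⁻¹), ← C_mul, inv_mul_cancel₀ c0, C_1, one_mul]
    rw [e1, e2, H8.odp_add, H8.odp_add, P2A_odp_sq, add_zero, H8.odp_mul_sq, e3]
  rw [card_low'] at av
  simp only [e] at av
  have hq : (0 : ℝ) < qq k ^ σ := pow_pos qq_pos _
  rw [← abs_of_pos hq, ← abs_mul, mul_comm, av, mul_sum]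
  refine (abs_sum_le_sum_abs _ _).trans (sum_le_sum fun x hx => ?_)
  rw [abs_mul, mul_comm]
  exact mul_le_mul_of_nonneg_right (hg x hx) (abs_nonneg _)

end Pool.Agent.P.MP_e94e4b_nt.LG
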