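import Pool.Agent.P.MP_e94e4b_nt.LG.If

/-! Step PARM. -/

namespace Pool.Agent.P.MP_e94e4b_nt.LG

open Polynomial Finset
open Pool.Agent.P.MP_8be758_nt Pool.Agent.P.MP_8be758_nt.C2 Pool.Agent.P.MP_8be758_nt.L2
open scoped Classical ComplexConjugate

theorem PARM_sq (n : ℕ) (hn : 4 ≤ n) : n * n ≤ 2 ^ n := by
  induction n, hn using Nat.le_induction with
  | base => norm_num
  | succ n hn ih => rw [pow_succ]; nlinarith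

theorem PARM_pow (c b : ℕ) (hb : 64 * c + 512 ≤ b) : (c * (b + 1)) ^ 8 ≤ 2 ^ b := by
  have h1 : b / 8 * (b / 8) ≤ 2 ^ (b / 8) := PARM_sq _ (by omega)
  have h2 : c * (b + 1) ≤ b / 8 * (b / 8) := by
    obtain ⟨t, ht⟩ : ∃ t, t = b / 8 := ⟨_, rfl⟩
    rw [← ht]
    have a1 : 8 * c + 64 ≤ t := by omega
    have a2 : b + 1 ≤ 8 * t + 8 := by omega
    calc c * (b + 1) ≤ c * (8 * t + 8) := Nat.mul_le_mul_left _ a2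
      _ ≤ t * t := by nlinarith
  calc (c * (b + 1)) ^ 8 ≤ (2 ^ (b / 8)) ^ 8 := Nat.pow_le_pow_left (h2.trans h1) 8
    _ = 2 ^ (b / 8 * 8) := by rw [← pow_mul]
    _ ≤ 2 ^ b := Nat.pow_le_pow_right (by norm_num) (Nat.div_mul_le_self b 8)

theorem PARM_ra (x L : ℕ) (hL : 9 ≤ L) (hx : L ≤ x) :
    ∃ a r : ℕ, x ≤ r * a ∧ r * a ≤ x + r ∧ 3 * a ≤ L ∧ L ≤ 5 * a ∧ 1 ≤ r ∧ r * L ≤ 5 * x := by
  obtain ⟨r, hr⟩ : ∃ r, r = (4 * x + L - 1) / L := ⟨_, rfl⟩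
  have hL0 : 0 < L := by omega
  have e1 := Nat.div_add_mod (4 * x + L - 1) L
  have e2 := Nat.mod_lt (4 * x + L - 1) hL0
  rw [← hr] at e1
  have r1 : 4 * x ≤ r * L := by rw [mul_comm r L]; omega
  have r2 : r * L ≤ 5 * x := by rw [mul_comm r L]; omega
  have r0 : 0 < r := by
    rcases Nat.eq_zero_or_pos r with h | h
    · rw [h] at r1; omega
    · exact h
  obtain ⟨a, ha⟩ : ∃ a, a = (x + r - 1) / r := ⟨_, rfl⟩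
  have e3 := Nat.div_add_mod (x + r - 1) r
  have e4 := Nat.mod_lt (x + r - 1) r0
  rw [← ha] at e3
  have a1 : x ≤ r * a := by omega
  have a2 : r * a + 1 ≤ x + r := by omega
  refine ⟨a, r, a1, by omega, ?_, ?_, r0, r2⟩
  · have : r * (4 * a) < r * (L + 4) := by nlinarith
    have := Nat.lt_of_mul_lt_mul_left this
    omega
  · have : r * L ≤ r * (5 * a) := by nlinarith
    exact Nat.le_of_mul_le_mul_left this r0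

theorem PARM_lin (ν m ε E b : ℕ) (h1 : ν ≤ m + E) (h2 : m ≤ ν + E) (h3 : ε + E ≤ m)
    (h18 : 2000 * E ≤ ν) (h19 : 1000 * b ≤ E) (h21 : 20 ≤ b) :
    ∃ β s σ L : ℕ, 2 * ν + β = 2 * s + ε ∧ b ≤ β ∧ β ≤ b + 1 ∧ m ≤ ε + β + 2 * σ ∧
      ε + β + 2 * σ ≤ m + 1 ∧ ε + β + 4 * (L + b) ≤ m + 3 ∧ m ≤ ε + β + 4 * (L + b) ∧
      E ≤ 5 * L ∧ 3 * L ≤ s ∧ s ≤ ν + E := by
  obtain ⟨β, s, h4, h5, h6⟩ : ∃ β s : ℕ, 2 * ν + β = 2 * s + ε ∧ b ≤ β ∧ β ≤ b + 1 :=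
    ⟨b + (ε + b) % 2, (2 * ν + (b + (ε + b) % 2) - ε) / 2, by omega, by omega, by omega⟩
  obtain ⟨σ, h7, h8⟩ : ∃ σ : ℕ, m ≤ ε + β + 2 * σ ∧ ε + β + 2 * σ ≤ m + 1 :=
    ⟨(m + 1 - ε - β) / 2, by omega, by omega⟩
  obtain ⟨L, h9, h10⟩ : ∃ L : ℕ, ε + β + 4 * (L + b) ≤ m + 3 ∧ m ≤ ε + β + 4 * (L + b) :=
    ⟨(m + 3 - ε - β) / 4 - b, by omega, by omega⟩
  exact ⟨β, s, σ, L, h4, h5, h6, h7, h8, h9, h10, by omega, by omega, by omega⟩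

theorem PARM_main (κ ν m ε E b : ℕ) (hκ : 2000 ≤ κ) (h1 : ν ≤ m + E) (h2 : m ≤ ν + E)
    (h3 : ε + E ≤ m) (h18 : 2000 * E ≤ ν) (h19 : 1000 * b ≤ E) (h20 : 100 * κ ≤ b)
    (E3 : ν ≤ κ * (E + 1)) :
    ∃ β s σ L a r : ℕ, 2 * ν + β = 2 * s + ε ∧ b ≤ β ∧ β ≤ b + 1 ∧ m ≤ ε + β + 2 * σ ∧
      ε + β + 2 * σ ≤ m + 1 ∧ ε + β + 4 * (L + b) ≤ m + 3 ∧ m ≤ ε + β + 4 * (L + b) ∧
      s ≤ r * a + 2 * L ∧ r * a + 2 * L ≤ s + r ∧ 3 * a ≤ L ∧ L ≤ 5 * a ∧ 1 ≤ r ∧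
      r ≤ 100 * κ ∧ 2 * s + L ≤ 100 * κ * L := by
  obtain ⟨β, s, σ, L, h4, h5, h6, h7, h8, h9, h10, L1, L2, L3⟩ :=
    PARM_lin ν m ε E b h1 h2 h3 h18 h19 (by omega)
  have L0 : 9 ≤ L := by omega
  obtain ⟨a, r, a1, a2, a3, a4, a5, a6⟩ := PARM_ra (s - 2 * L) L L0 (by omega)
  refine ⟨β, s, σ, L, a, r, h4, h5, h6, h7, h8, h9, h10, ?_⟩
  clear h4 h5 h6 h7 h8 h9 h10 h1 h2 h3
  have n1 : ν ≤ 10 * (κ * L) := by
    have : κ * (E + 1) ≤ κ * (10 * L) := Nat.mul_le_mul_left _ (by omega)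
    calc ν ≤ κ * (10 * L) := E3.trans this
      _ = 10 * (κ * L) := by ring
  have n2 : 2000 * L ≤ κ * L := Nat.mul_le_mul_right _ hκ
  have n3 : 100 * κ * L = 100 * (κ * L) := by ring
  refine ⟨by omega, by omega, a3, a4, a5, ?_, by omega⟩
  have : r * L ≤ 100 * κ * L := by omega
  exact Nat.le_of_mul_le_mul_right this (by omega)

theorem p_PARM :
    S_PARM := by
  intro κ hκ
  refine ⟨100 * κ, fun κ3 hκ3 => ⟨κ3 * (100 * κ + 64 * κ3 + 512), ?_⟩⟩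
  intro ν m ε hν h1 h2 h3
  have k3 : 0 < κ3 := by omega
  have k0 : 0 < κ := by omega
  obtain ⟨E, hE⟩ : ∃ E, E = ν / κ := ⟨_, rfl⟩
  obtain ⟨b, hb⟩ : ∃ b, b = ν / κ3 := ⟨_, rfl⟩
  have b1 : 100 * κ + 64 * κ3 + 512 ≤ b := by
    rw [hb, Nat.le_div_iff_mul_le k3, mul_comm]; exact hν
  have b2 : κ3 * b ≤ ν := by rw [hb]; exact Nat.mul_div_le ν κ3
  have b3 : ν ≤ κ3 * (b + 1) := by
    rw [hb]; exact (Nat.lt_mul_div_succ ν k3).le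
  have E2 : κ * E ≤ ν := by rw [hE]; exact Nat.mul_div_le ν κ
  have E3 : ν ≤ κ * (E + 1) := by
    rw [hE]; exact (Nat.lt_mul_div_succ ν k0).le
  have h19 : 1000 * b ≤ E := by
    rw [hE, Nat.le_div_iff_mul_le k0]
    calc 1000 * b * κ = 1000 * κ * b := by ring
      _ ≤ κ3 * b := Nat.mul_le_mul_right _ hκ3
      _ ≤ ν := b2
  have h18 : 2000 * E ≤ ν := (Nat.mul_le_mul_right _ hκ).trans E2
  have h20 : 100 * κ ≤ b := by omega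
  have h21 : 20 ≤ b := by omega
  have b4 : 64 * κ3 + 512 ≤ b := by omega
  rw [← hE] at h1 h2 h3
  rw [← hE, ← hb]
  obtain ⟨β, s, σ, L, a, r, h4, h5, h6, h7, h8, h9, h10, h11, h12, h13, h14, h15, h16, h17⟩ :=
    PARM_main κ ν m ε E b hκ h1 h2 h3 h18 h19 h20 E3
  exact ⟨β, s, σ, L, a, r, r * a, h1, h2, h3, h4, h5, h6, h7, h8, h9, h10, rfl, h11, h12, h13,
    h14, h15, h16, h17, h18, h19, h20, h21,
    (Nat.pow_le_pow_left b3 8).trans (PARM_pow κ3 b b4)⟩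

end Pool.Agent.P.MP_e94e4b_nt.LG
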