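import Pool.Agent.P.MP_e94e4b_nt.LG.If

/-! Step PLAN. -/

namespace Pool.Agent.P.MP_e94e4b_nt.LG

open Polynomial Finset
open Pool.Agent.P.MP_8be758_nt Pool.Agent.P.MP_8be758_nt.C2 Pool.Agent.P.MP_8be758_nt.L2
open scoped Classical ComplexConjugate

theorem PLAN_fib {α G R : Type} [Fintype G] [Semiring R] (S : Finset α) (θ : α → G) (F : G → R) :
    ∑ g, ((S.filter (fun x => θ x = g)).card : R) * F g = ∑ x ∈ S, F (θ x) := by
  rw [← sum_fiberwise S θ]
  refine sum_congr rfl fun g _ => ?_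
  rw [sum_congr rfl (g := fun _ => F g) fun x hx => by rw [(mem_filter.1 hx).2]]
  simp

theorem p_PLAN (hTOP : S_TOP) (hPLG : S_PLG) :
    S_PLAN := by
  intro k _ _ Ws Ys τ n1 n2 j Y2 hW hY hτ hj hY2 hχ
  obtain ⟨G, _, _, θ, hm, hX, he, hs⟩ := hTOP k τ
  have h1 : θ 1 = 1 := by
    have := hm 1 1 monic_one monic_one
    rw [mul_one] at this
    exact (mul_eq_left.1 this.symm)
  have hXj : ∀ i : ℕ, θ (X ^ i) = 1 := fun i => by
    induction i with
    | zero => simpa using h1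
    | succ i ih => rw [pow_succ, hm _ _ (monic_X_pow i) monic_X, ih, hX, one_mul]
  have hbij : ∀ F : G → ℝ, ∑ v ∈ Mo k τ, F (θ v) = ∑ g, F g := fun F => by
    refine sum_bij (fun v _ => θ v) (fun _ _ => mem_univ _) (fun a ha b hb h => ?_)
      (fun g _ => ?_) fun _ _ => rfl
    · obtain ⟨a1, a2⟩ := mem_Mo.1 ha
      obtain ⟨b1, b2⟩ := mem_Mo.1 hb
      have := (he a b a1 b1 (a2.trans b2.symm)).1 h
      rw [a2, Nat.sub_self] at this
      exact sub_eq_zero.1 (by_contra fun c => Nat.not_lt_zero _ (natDegree_lt_of_mem_low this c))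
    · obtain ⟨f, hf, h⟩ := hs g
      exact ⟨f, hf, h⟩
  have hG : (Fintype.card G : ℝ) = qq k ^ τ := by
    have := hbij fun _ => 1
    simpa [card_Mo] using this.symm
  let w : G → ℝ := fun g => ((Ws.filter (fun x => θ x = g)).card : ℝ)
  let y : G → ℝ := fun g => ((Ys.filter (fun x => θ x = g)).card : ℝ)
  have hw : ∑ g, w g = Ws.card := by simpa using PLAN_fib Ws θ fun _ => (1 : ℝ)
  have hy : ∑ g, y g = Ys.card := by simpa using PLAN_fib Ys θ fun _ => (1 : ℝ)
  have hP := hPLG G w y Y2 (fun φ hφ => by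
    have h2 := PLAN_fib Ys θ (fun g => φ g)
    have h3 : ∑ g, (y g : ℂ) * φ g = ∑ x ∈ Ys, φ (θ x) := by simpa [y] using h2
    rw [h3]
    refine hχ (fun f => φ (θ f)) ⟨fun f g hf hg => by simp only [hm f g hf hg, map_mul],
      fun f _ => ?_, by simp only [hX, map_one],
      fun f g hf hg h4 h5 => congrArg φ ((he f g hf hg h4).2 h5)⟩ ?_
    · have h4 : φ (θ f) ^ Fintype.card G = 1 := by rw [← map_pow, pow_card_eq_one, map_one]
      exact Complex.norm_eq_one_of_pow_eq_one h4 Fintype.card_ne_zero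
    · by_contra c
      refine hφ (MonoidHom.ext fun g => ?_)
      obtain ⟨f, hf, rfl⟩ := hs g
      by_contra c'
      exact c ⟨f, (mem_Mo.1 hf).1, c'⟩) hY2
  rw [hw, hy, hG, ← hbij] at hP
  have hb : ∀ g, w g ≤ qq k ^ (n1 - τ) := fun g => by
    rcases (Ws.filter (fun x => θ x = g)).eq_empty_or_nonempty with c | ⟨W0, c⟩
    · simp only [w, c, card_empty, Nat.cast_zero]
      exact (pow_pos qq_pos _).le
    · rw [← card_low']
      obtain ⟨c1, c2⟩ := mem_filter.1 c
      obtain ⟨c3, c4⟩ := mem_Mo.1 (hW c1)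
      simp only [w, Nat.cast_le]
      refine card_le_card_of_injOn (fun x => x - W0) (fun x hx => ?_) fun a _ b _ h => by
        simpa using h
      obtain ⟨d1, d2⟩ := mem_filter.1 (mem_coe.1 hx)
      obtain ⟨d3, d4⟩ := mem_Mo.1 (hW d1)
      have := (he x W0 d3 c3 (d4.trans c4.symm)).1 (d2.trans c2.symm)
      rw [d4] at this
      exact mem_coe.2 this
  have hw2 : ∑ g, w g ^ 2 ≤ Ws.card * qq k ^ (n1 - τ) := by
    rw [← hw, sum_mul]
    exact sum_le_sum fun g _ => by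
      rw [sq]; exact mul_le_mul_of_nonneg_left (hb g) (Nat.cast_nonneg _)
  have hc : ∀ v ∈ Mo k τ, (((Ws ×ˢ Ys).filter (fun p => p.1 * p.2 - v * X ^ j ∈ low k j)).card : ℝ) =
      ∑ g, w g * y (g⁻¹ * θ v) := fun v hv => by
    obtain ⟨v1, v2⟩ := mem_Mo.1 hv
    rw [PLAN_fib Ws θ fun g => y (g⁻¹ * θ v), card_filter, sum_product]
    push_cast
    refine sum_congr rfl fun W hW' => ?_
    simp only [y, card_filter]
    push_cast
    refine sum_congr rfl fun Y hY' => ?_
    obtain ⟨a1, a2⟩ := mem_Mo.1 (hW hW')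
    obtain ⟨b1, b2⟩ := mem_Mo.1 (hY hY')
    have d1 : (W * Y).natDegree = j + τ := by rw [a1.natDegree_mul b1, a2, b2, hj]
    have d2 : (v * X ^ j).natDegree = j + τ := by
      rw [v1.natDegree_mul (monic_X_pow j), v2, natDegree_X_pow, add_comm]
    have := he _ _ (a1.mul b1) (v1.mul (monic_X_pow j)) (d1.trans d2.symm)
    rw [d1, Nat.add_sub_cancel, hm _ _ a1 b1, hm _ _ v1 (monic_X_pow j), hXj, mul_one] at this
    refine if_congr (this.symm.trans ?_) rfl rfl
    rw [eq_inv_mul_iff_mul_eq]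
  rw [sum_congr rfl fun v hv => by rw [hc v hv]]
  have h5 := mul_le_mul_of_nonneg_right (hP.trans (mul_le_mul_of_nonneg_left hw2 hY2))
    (pow_pos (qq_pos (k := k)) τ).le
  refine h5.trans_eq ?_
  rw [mul_assoc, mul_assoc, ← pow_add, Nat.sub_add_cancel hτ, mul_assoc]

end Pool.Agent.P.MP_e94e4b_nt.LG
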