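import Pool.Agent.P.MP_e94e4b_nt.LG.If

/-! Step PLG. -/

namespace Pool.Agent.P.MP_e94e4b_nt.LG

open Polynomial Finset
open Pool.Agent.P.MP_8be758_nt Pool.Agent.P.MP_8be758_nt.C2 Pool.Agent.P.MP_8be758_nt.L2
open scoped Classical ComplexConjugate

/-- Fourier transform on a finite abelian group. -/
noncomputable def PLG_hat {G : Type} [CommGroup G] [Fintype G] (f : G → ℝ)
    (ψ : AddChar (Additive G) ℂ) : ℂ := ∑ g, (f g : ℂ) * ψ (.ofMul g)

theorem PLG_pars {G : Type} [CommGroup G] [Fintype G] (f : G → ℝ) :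
    ∑ ψ, ‖PLG_hat f ψ‖ ^ 2 = Fintype.card G * ∑ g, f g ^ 2 := by
  apply Complex.ofReal_injective
  have h : ∀ (ψ : AddChar (Additive G) ℂ) (g h : G), (f g : ℂ) * ψ (.ofMul g) *
      conj ((f h : ℂ) * ψ (.ofMul h)) = f g * f h * ψ (.ofMul g - .ofMul h) := fun ψ g h => by
    rw [sub_eq_add_neg, ψ.map_add_eq_mul, ψ.map_neg_eq_conj, map_mul, Complex.conj_ofReal]
    ring
  push_cast
  simp_rw [← Complex.mul_conj', PLG_hat, map_sum, sum_mul_sum, h]
  rw [sum_comm, mul_sum]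
  refine sum_congr rfl fun g _ => ?_
  rw [sum_comm]
  simp_rw [← mul_sum, AddChar.sum_apply_eq_ite, sub_eq_zero]
  simp [sq, mul_comm]

theorem p_PLG :
    S_PLG := by
  intro G _ _ w y Y2 hy h0
  have c0 : (0 : ℝ) < Fintype.card G := by exact_mod_cast Fintype.card_pos
  refine le_of_mul_le_mul_left ?_ c0
  rw [← PLG_pars, mul_left_comm, ← PLG_pars w, mul_sum _ _ Y2]
  refine sum_le_sum fun ψ _ => ?_
  have e : PLG_hat (fun v => ∑ g, w g * y (g⁻¹ * v) - (∑ g, w g) * (∑ g, y g) / Fintype.card G) ψ =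
      PLG_hat w ψ * PLG_hat y ψ -
        ((∑ g, w g) * (∑ g, y g) / Fintype.card G : ℝ) * ∑ a : Additive G, ψ a := by
    simp only [PLG_hat, Complex.ofReal_sub, sub_mul, sum_sub_distrib, ← mul_sum]
    refine congrArg₂ _ ?_ (congrArg _ (Equiv.sum_comp Additive.ofMul ψ))
    push_cast
    simp_rw [sum_mul]
    rw [sum_comm]
    refine sum_congr rfl fun g _ => ?_
    rw [mul_sum, ← Equiv.sum_comp (Equiv.mulLeft g)]
    refine sum_congr rfl fun v _ => ?_
    simp [ψ.map_add_eq_mul]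
    ring
  rw [e, AddChar.sum_eq_ite]
  split_ifs with h
  · have : (Fintype.card G : ℂ) ≠ 0 := by exact_mod_cast c0.ne'
    simp [h, PLG_hat, this]
    positivity
  · rw [mul_zero, sub_zero, norm_mul, mul_pow, mul_comm]
    exact mul_le_mul_of_nonneg_right (hy ψ.toMonoidHom fun c => h (AddChar.toMonoidHomEquiv.injective c))
      (by positivity)

end Pool.Agent.P.MP_e94e4b_nt.LG
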