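import Pool.Agent.P.MP_e94e4b_nt.LG.If

/-! Step SP. -/

namespace Pool.Agent.P.MP_e94e4b_nt.LG

open Polynomial Finset
open Pool.Agent.P.MP_8be758_nt Pool.Agent.P.MP_8be758_nt.C2 Pool.Agent.P.MP_8be758_nt.L2
open scoped Classical ComplexConjugate

/-- the quotient has the expected degree -/
theorem SP_deg {k : Type} [Field k] [Finite k] {B W : k[X]} {n : ℕ} (hW : W ≠ 0) (hB : B ≠ 0)
    (h : B % W ∈ low k n) (hn : n ≤ B.natDegree) :
    B / W ≠ 0 ∧ (B / W).natDegree + W.natDegree = B.natDegree := by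
  have e := EuclideanDomain.div_add_mod B W
  have h0 : B / W ≠ 0 := fun h0 => by
    rw [h0, mul_zero, zero_add] at e
    rw [e] at h
    have := natDegree_lt_of_mem_low h hB
    omega
  refine ⟨h0, ?_⟩
  have hd : (B % W).degree < (W * (B / W)).degree :=
    (degree_mod_lt B hW).trans_le (degree_le_of_dvd (dvd_mul_right _ _) (mul_ne_zero hW h0))
  have := natDegree_add_eq_left_of_degree_lt hd
  rw [e, natDegree_mul hW h0] at this
  omega

/-- the number of stationary points -/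
theorem SP_count {k : Type} [Field k] [Finite k] [CharP k 2] {M B : k[X]} {T : Finset k[X]}
    {l c d : ℕ} (hM : M ≠ 0) (hB : B ≠ 0) (hc : 1 ≤ c) (hl : c / 2 ≤ l)
    (hd : B.natDegree + 1 = M.natDegree + l + c + d)
    (hT : ∀ y ∈ T, y.Monic ∧ y.natDegree = l ∧
      B % (M * y ^ 2) ∈ low k (M.natDegree + l + c / 2 + d)) :
    (T.card : ℝ) ≤ qq k ^ (c - c / 4 + d + 1) := by
  have key : ∀ y ∈ T, B / (M * y ^ 2) ≠ 0 ∧ (B / (M * y ^ 2)).natDegree + l + 1 = c + d := by
    intro y hy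
    obtain ⟨h1, h2, h3⟩ := hT y hy
    have := SP_deg (mul_ne_zero hM (pow_ne_zero 2 h1.ne_zero)) hB h3 (by omega)
    rw [natDegree_mul hM (pow_ne_zero 2 h1.ne_zero), natDegree_pow, h2] at this
    exact ⟨this.1, by omega⟩
  rcases T.eq_empty_or_nonempty with rfl | ⟨y1, hy1⟩
  · simpa using (pow_pos qq_pos _).le
  have hcd := (key y1 hy1).2
  have hm : ∀ y ∈ T, B / (M * y ^ 2) ∈ low k (c + d - l) := fun y hy =>
    mem_low_of_natDegree_lt (by have := (key y hy).2; omega)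
  rw [card_eq_sum_card_fiberwise hm]
  push_cast
  have hf : ∀ p ∈ low k (c + d - l),
      ((T.filter (fun y => B / (M * y ^ 2) = p)).card : ℝ) ≤ qq k ^ (l - c / 4 + 1) := by
    intro p _
    have := card_le_of_diff (T := T.filter (fun y => B / (M * y ^ 2) = p)) (W := 1) one_ne_zero
      (j := l - c / 4 + 1) ?_
    · simpa using this
    intro y hy z hz
    obtain ⟨hy, ey⟩ := mem_filter.1 hy
    obtain ⟨hz, ez⟩ := mem_filter.1 hz
    rw [one_mul]
    by_cases h0 : y - z = 0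
    · exact h0 ▸ zero_mem_low _
    obtain ⟨p0, pd⟩ := key y hy
    rw [ey] at p0 pd
    have e1 := EuclideanDomain.div_add_mod B (M * y ^ 2)
    have e2 := EuclideanDomain.div_add_mod B (M * z ^ 2)
    rw [ey] at e1
    rw [ez] at e2
    have hs := sub_mem_low (hT z hz).2.2 (hT y hy).2.2
    have e3 : B % (M * z ^ 2) - B % (M * y ^ 2) = p * (M * (y - z) ^ 2) := by
      linear_combination e2 - e1 + (M * p * (y * z - z ^ 2)) * (two_zero (k := k))
    rw [e3] at hs
    have := natDegree_lt_of_mem_low hs (mul_ne_zero p0 (mul_ne_zero hM (pow_ne_zero 2 h0)))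
    rw [natDegree_mul p0 (mul_ne_zero hM (pow_ne_zero 2 h0)),
      natDegree_mul hM (pow_ne_zero 2 h0), natDegree_pow] at this
    exact mem_low_of_natDegree_lt (by omega)
  refine (sum_le_card_nsmul _ _ _ hf).trans ?_
  rw [nsmul_eq_mul, card_low', ← pow_add]
  exact qq_pow_mono (by omega)

theorem p_SP (hLIN : S_LIN) (hORTH : L2.S_ORTH) :
    S_SP := by
  intro k _ _ _ M A Δ y0 l c1 hM hA hΔ h1 h2 h3
  obtain ⟨c, hc⟩ : ∃ c, A.natDegree + 1 = M.natDegree + l + c := ⟨A.natDegree + 1 - M.natDegree - l, by omega⟩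
  obtain ⟨x, hx⟩ : ∃ x, x + c / 2 + Δ.natDegree = l := ⟨l - c / 2 - Δ.natDegree, by omega⟩
  set n := M.natDegree + l + c / 2 + Δ.natDegree with hn
  have hu : ∀ u ∈ low k x, Δ * u ∈ low k (l - c / 2) := fun u hu => mul_mem_low hu (by omega)
  have hav := sum_avg (Gs Δ y0 l) (low k x) (fun u => Δ * u)
    (fun u hu' g hg => add_mem_Gs hg (low_mono (by omega) (hu u hu')) (dvd_mul_right _ _))
    (fun y => psi (res (M * y) A))
  have hin : ∀ y ∈ Gs Δ y0 l, ∑ u ∈ low k x, psi (res (M * (y + Δ * u)) A) =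
      qq k ^ x * (if A * Δ % (M * y ^ 2) ∈ low k n then psi (res (M * y) A) else 0) := by
    intro y hy
    obtain ⟨hy1, hy2, -⟩ := mem_Gs.1 hy
    have hW : M * y ^ 2 ≠ 0 := mul_ne_zero hM (pow_ne_zero 2 hy1.ne_zero)
    have hWd : (M * y ^ 2).natDegree = M.natDegree + 2 * l := by
      rw [natDegree_mul hM (pow_ne_zero 2 hy1.ne_zero), natDegree_pow, hy2]
    have hO := hORTH k (M * y ^ 2) (A * Δ % (M * y ^ 2)) x hW (by omega) (mod_mem_low hW _)
    rw [show (M * y ^ 2).natDegree - x = n by omega] at hO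
    have : ∀ u ∈ low k x, psi (res (M * (y + Δ * u)) A) =
        psi (res (M * y) A) * psi (res (M * y ^ 2) (u * (A * Δ % (M * y ^ 2)))) := by
      intro u hu'
      rw [hLIN k M A y (Δ * u) (c / 2) hM hy1.ne_zero (hy2 ▸ hu u hu') (by omega), psi_add]
      congr 2
      refine res_congr ⟨u * (A * Δ / (M * y ^ 2)), ?_⟩
      linear_combination (-u) * EuclideanDomain.div_add_mod (A * Δ) (M * y ^ 2)
    rw [sum_congr rfl this, ← mul_sum, hO]
    split_ifs <;> ring
  rw [sum_congr rfl hin, ← mul_sum, card_low'] at hav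
  rw [mul_left_cancel₀ (pow_pos qq_pos x).ne' hav, ← sum_filter]
  refine (abs_sum_le_sum_abs _ _).trans ?_
  rw [sum_congr rfl fun y _ => abs_psi _, sum_const, nsmul_eq_mul, mul_one]
  refine (SP_count (c := c) (d := Δ.natDegree) (l := l) hM (mul_ne_zero hA hΔ) (by omega) (by omega)
    (by rw [natDegree_mul hA hΔ]; omega) fun y hy => ?_).trans (qq_pow_mono (by omega))
  obtain ⟨hy, hy'⟩ := mem_filter.1 hy
  exact ⟨(mem_Gs.1 hy).1, (mem_Gs.1 hy).2.1, hy'⟩

end Pool.Agent.P.MP_e94e4b_nt.LG
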