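import Pool.Agent.P.MP_e94e4b_nt.LG.If
import Pool.Agent.P.MP_e94e4b_nt.LG.H22

/-! Step T2P. -/

namespace Pool.Agent.P.MP_e94e4b_nt.LG

open Polynomial Finset
open Pool.Agent.P.MP_8be758_nt Pool.Agent.P.MP_8be758_nt.C2 Pool.Agent.P.MP_8be758_nt.L2
open scoped Classical ComplexConjugate

theorem p_T2P (hPOI : S_POI) (hAZ : S_AZ) (hBIL : S_BIL) (hT2S : S_T2S) :
    S_T2P := by
  intro k _ _ _ Dl V a r si c hD1 hV ha c1 c2 c3
  have hD := hD1.ne_zero
  have hq := qq_pos (k := k)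
  by_cases hs : (r + 1) * a ≤ si
  · rw [hAZ k Dl V a _ si hD ha hs, abs_zero]; positivity
  have hz : ∀ W : k[X], ∃ z, ∀ W', IsCoprime W' Dl → Dl ∣ W' - W → Dl ∣ W' * z + V := fun W => by
    by_cases h : ∃ W', IsCoprime W' Dl ∧ Dl ∣ W' - W
    · obtain ⟨W0, ⟨p, q, e⟩, w, hw⟩ := h
      exact ⟨-(p * V), fun W' _ ⟨w', hw'⟩ => ⟨q * V + (w - w') * p * V, by
        linear_combination -V * e + p * V * hw - p * V * hw'⟩⟩
    · exact ⟨0, fun W' a b => absurd ⟨W', a, b⟩ h⟩
  choose ζ hζ using hz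
  rw [H22_AA, add_comm ((r : ℝ) * _)]
  set om := (r + 1) * a with hom
  have hom' : om = r * a + a := by rw [hom]; ring
  refine le_of_mul_le_mul_left ?_ (pow_pos hq (om - si))
  conv_lhs => rw [← abs_of_pos (pow_pos hq (om - si)), ← abs_mul, mul_sum]
  rw [sum_congr rfl (g := fun S => ∑ h ∈ (low k (om - si)).erase 0,
    psi (res (pr S * Dl) (h * V)) * psi (res Dl (h * ζ (pr S %ₘ Dl)))) fun S hS => ?_, sum_comm]
  · rw [← card_low', ← nsmul_eq_mul]
    refine (abs_sum_le_sum_abs _ _).trans ((sum_le_card_nsmul _ _ _ fun h hh => ?_).trans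
      (nsmul_le_nsmul_left (by positivity) card_erase_le))
    obtain ⟨h0, hh⟩ := mem_erase.1 hh
    have l := natDegree_lt_of_mem_low hh h0
    have d := natDegree_mul h0 hV
    refine (hBIL k a r (fun W => psi (res (W * Dl) (h * V)) * psi (res Dl (h * ζ (W %ₘ Dl))))
      fun x => by rw [abs_mul, abs_psi, abs_psi, mul_one]).trans (add_le_add ?_ le_rfl)
    have key := hT2S k Dl (h * V) (fun x P => psi (res Dl (h * ζ (x * P %ₘ Dl)))) a (r * a) c hD1
      (mul_ne_zero h0 hV) (fun _ _ => (abs_psi _).le) (by omega) (by omega) c3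
    have e : ∀ W P : k[X], W %ₘ Dl * P %ₘ Dl = W * P %ₘ Dl := fun W P => by
      refine modByMonic_eq_of_dvd_sub hD1 ?_
      rw [← sub_mul, modByMonic_eq_sub_mul_div, sub_sub_cancel_left, neg_mul, dvd_neg]
      exact (dvd_mul_right _ _).mul_right _
    simp only [e] at key
    exact Real.le_sqrt_of_sq_le key
  · obtain ⟨h3, h4⟩ := mem_Mo.1 (H22_pr hS).2
    have hc := H22_cop hS hD ha
    have e := (hPOI k _ Dl V _ si h3.ne_zero hD hc).2 (by omega) (hζ (pr S %ₘ Dl) _ hc (by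
      rw [modByMonic_eq_sub_mul_div, sub_sub_cancel]; exact dvd_mul_right _ _))
    rw [h4, ← add_sum_erase _ _ (zero_mem_low _), zero_mul, zero_mul, res_zero, res_zero, psi_zero]
      at e
    rw [mul_sub, mul_comm, e, ← mul_div_assoc, ← pow_add, show om - si + si = om by omega,
      div_self (by positivity)]
    ring

end Pool.Agent.P.MP_e94e4b_nt.LG
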