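import Pool.Agent.P.MP_e94e4b_nt.LG.If
import Pool.Agent.P.MP_e94e4b_nt.LG.H22

/-! Step T2S. -/

namespace Pool.Agent.P.MP_e94e4b_nt.LG

open Polynomial Finset
open Pool.Agent.P.MP_8be758_nt Pool.Agent.P.MP_8be758_nt.C2 Pool.Agent.P.MP_8be758_nt.L2
open scoped Classical ComplexConjugate

theorem p_T2S (hSP : S_SP) :
    S_T2S := by
  intro k _ _ _ Dl A γ a la c hD1 hA h1 c1 c2 c3
  have hD := hD1.ne_zero
  have hq := qq_pos (k := k)
  have hT : Pd k a ⊆ Mo k a := fun P hP => mem_Mo.2 ⟨(mem_Pd.1 hP).1.1, (mem_Pd.1 hP).2⟩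
  set T := Pd k a
  have cT : (T.card : ℝ) ≤ qq k ^ a := by rw [← card_Mo]; exact_mod_cast card_le_card hT
  refine (sq_sum_le_card_mul_sum_sq).trans ?_
  rw [card_Mo]
  refine mul_le_mul_of_nonneg_left ?_ (by positivity)
  simp only [sq_abs]
  simp only [sq, sum_mul_sum]
  rw [sum_comm]
  have b : ∀ P ∈ T, ∑ W ∈ Mo k la, ∑ Q ∈ T, psi (res (W * P * Dl) A) * γ (W %ₘ Dl) P *
      (psi (res (W * Q * Dl) A) * γ (W %ₘ Dl) Q) ≤
      qq k ^ la + qq k ^ (a + 2 * Dl.natDegree + 1 + (c - c / 4)) := fun P hP => by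
    rw [sum_comm, ← add_sum_erase T _ hP]
    refine add_le_add ?_ ?_
    · rw [← card_Mo, ← mul_one (((Mo k la).card : ℕ) : ℝ), ← nsmul_eq_mul, ← sum_const]
      refine sum_le_sum fun W _ => ?_
      rw [mul_mul_mul_comm, psi_mul_self, one_mul, ← abs_mul_abs_self]
      exact mul_le_one₀ (h1 _ _) (abs_nonneg _) (h1 _ _)
    · refine (sum_le_card_nsmul _ _ (qq k ^ Dl.natDegree *
        qq k ^ (c - c / 4 + Dl.natDegree + 1)) fun Q hQ => ?_).trans ?_
      · obtain ⟨hne, hQ⟩ := mem_erase.1 hQ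
        obtain ⟨p1, p2⟩ := mem_Mo.1 (hT hP)
        obtain ⟨q1, q2⟩ := mem_Mo.1 (hT hQ)
        have s0 : Q - P ≠ 0 := sub_ne_zero.2 hne
        have s1 := natDegree_lt_of_mem_low (H22_sub (hT hQ) (hT hP)) s0
        have dM : (Dl * (P * Q)).natDegree = Dl.natDegree + 2 * a := by
          rw [natDegree_mul hD (p1.mul q1).ne_zero, p1.natDegree_mul q1, p2, q2]; ring
        have dA := natDegree_mul hA s0
        rw [← sum_fiberwise_of_maps_to (t := low k Dl.natDegree) (g := fun g => g % Dl)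
          fun g _ => mod_mem_low hD g, ← card_low' Dl.natDegree, ← nsmul_eq_mul, ← sum_const]
        refine sum_le_sum fun r hr => ?_
        rw [sum_congr rfl (g := fun W => γ r P * γ r Q *
          psi (res (Dl * (P * Q) * W) (A * (Q - P)))) fun W hW => by
            rw [modByMonic_eq_mod _ hD1, (mem_filter.1 hW).2, CharTwo.sub_eq_add, mul_add A,
              res_add, psi_add, ← res_mul_mul (W * P * Dl) A q1.ne_zero,
              ← res_mul_mul (W * Q * Dl) A p1.ne_zero,
              show W * P * Dl * Q = Dl * (P * Q) * W by ring,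
              show W * Q * Dl * P = Dl * (P * Q) * W by ring]
            ring, ← mul_sum, H22_cls hD la hr]
        refine (le_abs_self _).trans ?_
        rw [abs_mul, abs_mul]
        exact (mul_le_of_le_one_left (abs_nonneg _)
          (mul_le_one₀ (h1 _ _) (abs_nonneg _) (h1 _ _))).trans (hSP k _ _ Dl r la c
            (mul_ne_zero hD (p1.mul q1).ne_zero) (mul_ne_zero hA s0) hD (by omega) (by omega) c3)
      · rw [nsmul_eq_mul, ← pow_add, show a + 2 * Dl.natDegree + 1 + (c - c / 4) =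
          a + (Dl.natDegree + (c - c / 4 + Dl.natDegree + 1)) by ring, pow_add _ a]
        exact mul_le_mul_of_nonneg_right
          (le_trans (by exact_mod_cast card_erase_le) cT) (by positivity)
  refine (sum_le_card_nsmul _ _ _ b).trans ?_
  rw [nsmul_eq_mul]
  refine (mul_le_mul_of_nonneg_right cT (by positivity)).trans (le_of_eq ?_)
  ring

end Pool.Agent.P.MP_e94e4b_nt.LG
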