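import Pool.Agent.P.MP_e94e4b_nt.LG.If

/-! Step TOP. -/

namespace Pool.Agent.P.MP_e94e4b_nt.LG

open Polynomial Finset
open Pool.Agent.P.MP_8be758_nt Pool.Agent.P.MP_8be758_nt.C2 Pool.Agent.P.MP_8be758_nt.L2
open scoped Classical ComplexConjugate

theorem TOP_unit {k : Type} [Field k] (τ : ℕ) {f : k[X]} (hf : f.Monic) :
    IsUnit (AdjoinRoot.mk (X ^ (τ + 1) : k[X]) f.reverse) := by
  rw [← X_mul_divX_add f.reverse, coeff_zero_reverse, hf.leadingCoeff, map_one, map_add, map_one,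
    map_mul]
  refine IsNilpotent.isUnit_add_one ((Commute.all _ _).isNilpotent_mul_right ⟨τ + 1, ?_⟩)
  rw [← map_pow, AdjoinRoot.mk_self]

theorem TOP_iff {k : Type} [Field k] (τ : ℕ) {f g : k[X]} (h : f.natDegree = g.natDegree) :
    X ^ (τ + 1) ∣ f.reverse - g.reverse ↔ (f - g).degree < (f.natDegree - τ : ℕ) := by
  rw [X_pow_dvd_iff, degree_lt_iff_coeff_zero]
  simp only [coeff_sub, coeff_reverse, ← h]
  refine ⟨fun a m hm => ?_, fun a i hi => a _ ?_⟩
  · rcases le_or_gt m f.natDegree with e | e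
    · have := a (f.natDegree - m) (by omega)
      rwa [revAt_le (Nat.sub_le _ _), Nat.sub_sub_self e] at this
    · rw [coeff_eq_zero_of_natDegree_lt e, coeff_eq_zero_of_natDegree_lt (h ▸ e), sub_zero]
  · rcases le_or_gt i f.natDegree with e | e
    · rw [revAt_le e]
      omega
    · rw [revAt_eq_self_of_lt e]
      omega

theorem p_TOP :
    S_TOP := by
  intro k _ _ τ
  have hm : (X ^ (τ + 1) : k[X]).Monic := monic_X_pow _
  have : Finite (AdjoinRoot (X ^ (τ + 1) : k[X])) :=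
    have := hm.finite_adjoinRoot
    Module.finite_of_finite k
  let c : AdjoinRoot (X ^ (τ + 1) : k[X]) →+* k := AdjoinRoot.lift (RingHom.id k) 0 (by simp)
  have hc : ∀ p, c (AdjoinRoot.mk _ p) = p.coeff 0 := fun p => by
    simp [c, coeff_zero_eq_eval_zero]
  let θ : k[X] → (Units.map c.toMonoidHom).ker := fun f =>
    if h : f.Monic then ⟨(TOP_unit τ h).unit, Units.ext ((hc _).trans (by simp [h]))⟩ else 1
  have hθ : ∀ {f : k[X]}, f.Monic → (θ f).1.1 = AdjoinRoot.mk _ f.reverse := fun h => by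
    simp [θ, h]
  refine ⟨_, inferInstance, Fintype.ofFinite _, θ, fun f g hf hg => Subtype.ext (Units.ext ?_),
    Subtype.ext (Units.ext ?_), fun f g hf hg h => ?_, fun x => ?_⟩
  · rw [Subgroup.coe_mul, Units.val_mul, hθ hf, hθ hg, hθ (hf.mul hg), reverse_mul_of_domain,
      map_mul]
  · have : (X : k[X]).reverse = 1 := by rw [← one_mul X, reverse_mul_X, ← C_1, reverse_C]
    rw [hθ monic_X, this]
    rfl
  · rw [mem_low, ← TOP_iff τ h, ← AdjoinRoot.mk_eq_mk, ← hθ hf, ← hθ hg, Units.val_inj,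
      Subtype.val_inj]
  · obtain ⟨p, hp⟩ := AdjoinRoot.mk_surjective x.1.1
    have h1 : AdjoinRoot.mk (X ^ (τ + 1)) (p %ₘ X ^ (τ + 1)) = x.1.1 := by
      rw [← hp, AdjoinRoot.mk_eq_mk, modByMonic_eq_sub_mul_div]
      simp
    have h2 : (p %ₘ X ^ (τ + 1)).natDegree ≤ τ := Nat.le_of_lt_succ (by
      simpa using natDegree_modByMonic_lt p hm fun e => by simpa using congrArg natDegree e)
    generalize p %ₘ X ^ (τ + 1) = r at h1 h2
    have h3 : (reflect τ r).coeff τ = 1 := by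
      rw [coeff_reflect, revAt_le le_rfl, Nat.sub_self, ← hc, h1]
      exact congrArg Units.val x.2
    have h4 : (reflect τ r).natDegree ≤ τ := natDegree_reflect_le.trans (max_le le_rfl h2)
    have h5 := monic_of_natDegree_le_of_coeff_eq_one τ h4 h3
    have h6 := natDegree_eq_of_le_of_coeff_ne_zero h4 (h3 ▸ one_ne_zero)
    exact ⟨_, mem_Mo.2 ⟨h5, h6⟩, Subtype.ext (Units.ext (by
      rw [hθ h5, reverse, h6, reflect_reflect, h1]))⟩

end Pool.Agent.P.MP_e94e4b_nt.LG
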