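import Pool.Agent.P.MP_e94e4b_nt.LG.If

/-! Step VAR. -/

namespace Pool.Agent.P.MP_e94e4b_nt.LG

open Polynomial Finset
open Pool.Agent.P.MP_8be758_nt Pool.Agent.P.MP_8be758_nt.C2 Pool.Agent.P.MP_8be758_nt.L2
open scoped Classical ComplexConjugate

section aux

variable {k : Type} [Field k] [Finite k]

theorem VAR_mem {a r : ℕ} {S : Finset k[X]} (hS : S ∈ WW k a r) :
    (∀ P ∈ S, IsPr P ∧ P.natDegree = a) ∧ S.card = r := by
  rw [WW, mem_powersetCard] at hS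
  exact ⟨fun P hP => mem_Pd.1 (hS.1 hP), hS.2⟩

theorem VAR_inj (a r : ℕ) : Set.InjOn (pr (k := k)) (WW k a r : Set (Finset k[X])) := by
  intro S hS T hT h
  have h1 := pf_pr (fun P hP => ((VAR_mem hS).1 P hP).1)
  have h2 := pf_pr (fun P hP => ((VAR_mem hT).1 P hP).1)
  rw [← h1, ← h2, h]

theorem VAR_Mo {a r : ℕ} {S : Finset k[X]} (hS : S ∈ WW k a r) : pr S ∈ Mo k (r * a) := by
  obtain ⟨h1, h2⟩ := VAR_mem hS
  refine mem_Mo.2 ⟨monic_pr (fun P hP => (h1 P hP).1), ?_⟩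
  rw [natDegree_pr (fun P hP => (h1 P hP).1), dg, sum_congr rfl (fun P hP => (h1 P hP).2)]
  simp [h2]

theorem VAR_cop {a r : ℕ} {S : Finset k[X]} (hS : S ∈ WW k a r) {Δ : k[X]} (hΔ : Δ ≠ 0)
    (hd : Δ.natDegree < a) : IsCoprime (pr S) Δ := by
  obtain ⟨h1, -⟩ := VAR_mem hS
  rw [pr, IsCoprime.prod_left_iff]
  intro P hP
  refine ((h1 P hP).1.2.coprime_iff_not_dvd).2 fun h => ?_
  have := natDegree_le_of_dvd h hΔ
  rw [(h1 P hP).2] at this
  omega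

theorem VAR_GW_C (a r : ℕ) {c : k} (hc : c ≠ 0) (U : k[X]) : GW a r (C c * U) = GW a r U := by
  unfold GW
  congr 2
  refine filter_congr fun S _ => ?_
  exact IsUnit.dvd_mul_left (isUnit_C.2 (IsUnit.mk0 c hc))

theorem VAR_C_low {c : k} {σ : ℕ} {t : k[X]} (ht : t ∈ low k σ) : C c * t ∈ low k σ :=
  mul_mem_low ht (by simp)

theorem VAR_AA_C (a r σ : ℕ) (Δ V : k[X]) {c : k} (hc : c ≠ 0) :
    AA a r σ Δ (C c * V) = AA a r σ Δ V := by
  unfold AA
  symm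
  refine sum_nbij' (fun t => C c * t) (fun t => C c⁻¹ * t) (fun t ht => VAR_C_low ht)
    (fun t ht => VAR_C_low ht) ?_ ?_ ?_
  · intro t _
    simp only [← mul_assoc, ← C_mul, inv_mul_cancel₀ hc, C_1, one_mul]
  · intro t _
    simp only [← mul_assoc, ← C_mul, mul_inv_cancel₀ hc, C_1, one_mul]
  · intro t _
    rw [← VAR_GW_C a r hc (V + Δ * t)]
    congr 2
    ring

theorem VAR_scale (s' : ℕ) (hs : 1 ≤ s') (F : k[X] → ℝ) (hF0 : ∀ V, 0 ≤ F V)
    (hF : ∀ (c : k) (V : k[X]), c ≠ 0 → F (C c * V) = F V) :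
    ∑ V ∈ (low k (s' + 1)).filter (fun V => V.natDegree = s'), F V ≤
      qq k * ∑ V ∈ Mo k s', F V := by
  have := Fintype.ofFinite k
  have h1 : (low k (s' + 1)).filter (fun V => V.natDegree = s') ⊆
      (((univ : Finset k).filter (fun c => c ≠ 0)) ×ˢ Mo k s').image
        (fun p : k × k[X] => C p.1 * p.2) := by
    intro V hV
    have hd : V.natDegree = s' := (mem_filter.1 hV).2
    have hV0 : V ≠ 0 := by
      rintro rfl
      simp at hd
      omega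
    have hl : V.leadingCoeff ≠ 0 := leadingCoeff_ne_zero.2 hV0
    refine mem_image.2 ⟨(V.leadingCoeff, V * C V.leadingCoeff⁻¹), ?_, ?_⟩
    · refine mem_product.2 ⟨by simp [hl], mem_Mo.2 ⟨monic_mul_leadingCoeff_inv hV0, ?_⟩⟩
      rw [natDegree_mul_C (inv_ne_zero hl), hd]
    · simp only
      rw [mul_comm V, ← mul_assoc, ← C_mul, mul_inv_cancel₀ hl, C_1, one_mul]
  refine (sum_le_sum_of_subset_of_nonneg h1 (fun V _ _ => hF0 V)).trans ?_
  refine (sum_image_le_of_nonneg (fun V _ => hF0 V)).trans ?_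
  rw [sum_product]
  have h2 : ∀ c ∈ (univ : Finset k).filter (fun c => c ≠ 0),
      ∑ V ∈ Mo k s', F (C c * V) = ∑ V ∈ Mo k s', F V := fun c hc =>
    sum_congr rfl fun V _ => hF c V (mem_filter.1 hc).2
  rw [sum_congr rfl h2, sum_const, nsmul_eq_mul]
  refine mul_le_mul_of_nonneg_right ?_ (sum_nonneg fun V _ => hF0 V)
  unfold qq
  rw [Nat.card_eq_fintype_card]
  exact_mod_cast card_le_univ _

theorem VAR_split (s' : ℕ) {Δ : k[X]} (hΔ : Δ ≠ 0) (F : k[X] → ℝ) (hF0 : ∀ V, 0 ≤ F V) :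
    ∑ V ∈ Mo k s', F V ≤ ∑ v0 ∈ low k Δ.natDegree, ∑ V ∈ Gs Δ v0 s', F V := by
  rw [← sum_fiberwise_of_maps_to (s := Mo k s') (t := low k Δ.natDegree) (g := fun V => V % Δ)
    (fun V _ => mod_mem_low hΔ V)]
  refine sum_le_sum fun v0 _ => sum_le_sum_of_subset_of_nonneg ?_ (fun V _ _ => hF0 V)
  intro V hV
  obtain ⟨h1, h2⟩ := mem_filter.1 hV
  obtain ⟨h3, h4⟩ := mem_Mo.1 h1
  refine mem_Gs.2 ⟨h3, h4, ⟨V / Δ, ?_⟩⟩
  rw [← h2]
  have := EuclideanDomain.div_add_mod V Δ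
  linear_combination -this

theorem VAR_AA (a r σ : ℕ) {Δ : k[X]} (hΔ : Δ ≠ 0) (V : k[X]) :
    AA a r σ Δ V = ∑ w0 ∈ low k Δ.natDegree,
      (∑ W ∈ ((WW k a r).image pr).filter (fun W => W % Δ = w0), ct σ Δ V W -
        (((WW k a r).image pr).filter (fun W => W % Δ = w0)).card * qq k ^ σ / qq k ^ (r * a)) := by
  have h1 : ∀ w0 ∈ low k Δ.natDegree,
      (∑ W ∈ ((WW k a r).image pr).filter (fun W => W % Δ = w0), ct σ Δ V W -
        (((WW k a r).image pr).filter (fun W => W % Δ = w0)).card * qq k ^ σ / qq k ^ (r * a)) =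
      ∑ W ∈ ((WW k a r).image pr).filter (fun W => W % Δ = w0),
        (ct σ Δ V W - qq k ^ σ / qq k ^ (r * a)) := by
    intro w0 _
    rw [sum_sub_distrib, sum_const, nsmul_eq_mul, mul_div_assoc]
  rw [sum_congr rfl h1, sum_fiberwise_of_maps_to (fun W _ => mod_mem_low hΔ W),
    sum_image (VAR_inj a r), sum_sub_distrib, sum_const, nsmul_eq_mul]
  unfold AA
  rw [sum_sub_distrib, sum_const, nsmul_eq_mul, card_low']
  congr 1
  · unfold GW ct
    simp only [card_filter, Nat.cast_sum]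
    rw [sum_comm]
  · unfold Gb
    ring

end aux

theorem p_VAR (hVAR1 : S_VAR1) (hGM : S_GM) :
    S_VAR := by
  intro k _ _ _ Δ a r τ σ l s' Y2 hΔ hd hr hτ hl hτw hΔl hY hχ
  have hΔ0 : Δ ≠ 0 := hΔ.ne_zero
  have hq := qq_pos (k := k)
  have ha : 1 ≤ a := by omega
  have hs : 1 ≤ s' := by
    have : 1 ≤ r * a := Nat.mul_pos hr ha
    omega
  set Ws : k[X] → Finset k[X] := fun w0 => ((WW k a r).image pr).filter (fun W => W % Δ = w0)
    with hWs
  have hcard : ∑ w0 ∈ low k Δ.natDegree, ((Ws w0).card : ℝ) ≤ qq k ^ (r * a) := by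
    refine le_trans (le_of_eq ?_) ((hGM k a r).2.1 ha)
    rw [← card_image_of_injOn (VAR_inj a r),
      card_eq_sum_card_fiberwise (f := fun W => W % Δ) (t := low k Δ.natDegree)
        (fun W _ => mod_mem_low hΔ0 W)]
    simp [hWs]
  have key : ∀ v0 w0 : k[X], (∑ V ∈ Gs Δ v0 s', (∑ W ∈ Ws w0, ct σ Δ V W -
      (Ws w0).card * qq k ^ σ / qq k ^ (r * a)) ^ 2) * qq k ^ τ ≤
      qq k ^ σ * Y2 * (Ws w0).card * qq k ^ (r * a) := by
    intro v0 w0
    rcases (Ws w0).eq_empty_or_nonempty with h | ⟨W1, hW1⟩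
    · simp [h]
    have hdiv : ∀ W ∈ Ws w0, Δ ∣ W - w0 := by
      intro W hW
      refine ⟨W / Δ, ?_⟩
      rw [← (mem_filter.1 hW).2]
      have := EuclideanDomain.div_add_mod W Δ
      linear_combination -this
    have hcop : IsCoprime w0 Δ := by
      obtain ⟨S, hS, rfl⟩ := mem_image.1 (mem_filter.1 hW1).1
      obtain ⟨u, hu⟩ := hdiv _ hW1
      obtain ⟨x, y, hxy⟩ := VAR_cop hS hΔ0 hd
      exact ⟨x, y + x * u, by linear_combination hxy - x * hu⟩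
    obtain ⟨x, y, hxy⟩ := id hcop
    refine hVAR1 k (Ws w0) Δ w0 (x * v0) v0 τ σ (r * a) l s' Y2 ?_ hΔ hdiv hcop
      ⟨-(y * v0), by linear_combination v0 * hxy⟩ hτ hl hτw hΔl hY (fun χ h1 h2 => hχ χ _ h1 h2)
    intro W hW
    obtain ⟨S, hS, rfl⟩ := mem_image.1 (mem_filter.1 hW).1
    exact VAR_Mo hS
  have cls : ∀ v0 : k[X], (∑ V ∈ Gs Δ v0 s', AA a r σ Δ V ^ 2) * qq k ^ τ ≤
      qq k ^ Δ.natDegree * (qq k ^ σ * Y2 * qq k ^ (r * a) * qq k ^ (r * a)) := by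
    intro v0
    have h1 : ∀ V ∈ Gs Δ v0 s', AA a r σ Δ V ^ 2 ≤ qq k ^ Δ.natDegree *
        ∑ w0 ∈ low k Δ.natDegree, (∑ W ∈ Ws w0, ct σ Δ V W -
          (Ws w0).card * qq k ^ σ / qq k ^ (r * a)) ^ 2 := by
      intro V _
      rw [VAR_AA a r σ hΔ0 V, ← card_low' Δ.natDegree]
      exact sq_sum_le_card_mul_sum_sq (α := ℝ) (s := low k Δ.natDegree)
        (f := fun w0 => ∑ W ∈ Ws w0, ct σ Δ V W - (Ws w0).card * qq k ^ σ / qq k ^ (r * a))
    refine (mul_le_mul_of_nonneg_right (sum_le_sum h1) (by positivity)).trans ?_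
    rw [← mul_sum, sum_comm, mul_assoc, sum_mul]
    refine mul_le_mul_of_nonneg_left ((sum_le_sum fun w0 _ => key v0 w0).trans ?_)
      (by positivity)
    rw [← sum_mul, ← mul_sum]
    gcongr
  have h2 := VAR_scale (k := k) s' hs (fun V => AA a r σ Δ V ^ 2) (fun V => sq_nonneg _)
    (fun c V hc => by rw [VAR_AA_C a r σ Δ V hc])
  have h3 := VAR_split (k := k) s' hΔ0 (fun V => AA a r σ Δ V ^ 2) (fun V => sq_nonneg _)
  have h4 : (∑ v0 ∈ low k Δ.natDegree, ∑ V ∈ Gs Δ v0 s', AA a r σ Δ V ^ 2) * qq k ^ τ ≤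
      qq k ^ Δ.natDegree *
        (qq k ^ Δ.natDegree * (qq k ^ σ * Y2 * qq k ^ (r * a) * qq k ^ (r * a))) := by
    rw [sum_mul]
    refine (sum_le_sum fun v0 _ => cls v0).trans (le_of_eq ?_)
    rw [sum_const, nsmul_eq_mul, card_low']
  calc _ ≤ qq k * (∑ v0 ∈ low k Δ.natDegree, ∑ V ∈ Gs Δ v0 s', AA a r σ Δ V ^ 2) * qq k ^ τ :=
        mul_le_mul_of_nonneg_right (h2.trans (mul_le_mul_of_nonneg_left h3 hq.le))
          (by positivity)
    _ ≤ qq k * (qq k ^ Δ.natDegree *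
        (qq k ^ Δ.natDegree * (qq k ^ σ * Y2 * qq k ^ (r * a) * qq k ^ (r * a)))) := by
        rw [mul_assoc]
        exact mul_le_mul_of_nonneg_left h4 hq.le
    _ = _ := by ring

end Pool.Agent.P.MP_e94e4b_nt.LG
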