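import Pool.Agent.P.MP_e94e4b_nt.LG.If

/-! Step VAR1. -/

namespace Pool.Agent.P.MP_e94e4b_nt.LG

open Polynomial Finset
open Pool.Agent.P.MP_8be758_nt Pool.Agent.P.MP_8be758_nt.C2 Pool.Agent.P.MP_8be758_nt.L2
open scoped Classical ComplexConjugate

variable {k : Type} [Field k] [Finite k]

theorem VAR1_rem (V : k[X]) (j : ℕ) : V - V /ₘ X ^ j * X ^ j ∈ low k j := by
  have h := degree_modByMonic_lt V (monic_X_pow (R := k) j)
  rw [degree_X_pow, modByMonic_eq_sub_mul_div, mul_comm] at h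
  exact mem_low.2 h

theorem VAR1_ct {Δ W w0 y0 v0 V u : k[X]} {σ w l s' : ℕ} (hW : W ∈ Mo k w) (hΔ : Δ.Monic)
    (h1 : Δ ∣ W - w0) (hc : IsCoprime w0 Δ) (h2 : Δ ∣ w0 * y0 - v0) (h3 : σ + Δ.natDegree ≤ s')
    (h4 : l + w = s') (hV : V ∈ Gs Δ v0 s') (hu : V - u ∈ low k (σ + Δ.natDegree)) :
    ct σ Δ V W =
      (((Gs Δ y0 l).filter (fun y => W * y - u ∈ low k (σ + Δ.natDegree))).card : ℝ) := by
  obtain ⟨hWm, hWd⟩ := mem_Mo.1 hW
  unfold ct
  congr 1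
  refine card_bij (fun t _ => (V + Δ * t) / W) ?_ ?_ ?_
  · intro t ht
    obtain ⟨ht, hd⟩ := mem_filter.1 ht
    have e := EuclideanDomain.mul_div_cancel' hWm.ne_zero hd
    generalize (V + Δ * t) / W = y at e
    have a1 : Δ * t ∈ low k (σ + Δ.natDegree) := mul_mem_low ht (add_comm _ _).le
    obtain ⟨b1, b2, b3⟩ := mem_Gs.1 (add_mem_Gs hV (low_mono h3 a1) (dvd_mul_right _ _))
    rw [← e] at b1 b2 b3
    have b4 := hWm.of_mul_monic_left b1
    rw [hWm.natDegree_mul b4] at b2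
    refine mem_filter.2 ⟨mem_Gs.2 ⟨b4, by omega, hc.symm.dvd_of_dvd_mul_left ?_⟩, ?_⟩
    · have := dvd_sub (dvd_sub b3 (h1.mul_right y)) h2
      convert this using 1; ring
    · have := add_mem_low a1 hu
      rw [e]; convert this using 1; ring
  · intro t ht t' ht' h
    have e := EuclideanDomain.mul_div_cancel' hWm.ne_zero (mem_filter.1 ht).2
    have e' := EuclideanDomain.mul_div_cancel' hWm.ne_zero (mem_filter.1 ht').2
    rw [h, e'] at e
    exact (mul_left_cancel₀ hΔ.ne_zero (add_left_cancel e)).symm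
  · intro y hy
    obtain ⟨hy, hl⟩ := mem_filter.1 hy
    have a1 : W * y - V ∈ low k (σ + Δ.natDegree) := by
      have := sub_mem_low hl hu
      convert this using 1; ring
    obtain ⟨t, ht⟩ : Δ ∣ W * y - V := by
      have := dvd_sub (dvd_add (dvd_add (h1.mul_right y) ((mem_Gs.1 hy).2.2.mul_left w0)) h2)
        (mem_Gs.1 hV).2.2
      convert this using 1; ring
    have e : V + Δ * t = W * y := by rw [← ht]; ring
    refine ⟨t, mem_filter.2 ⟨?_, ⟨y, e⟩⟩, by rw [e, mul_div_cancel_left₀ _ hWm.ne_zero]⟩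
    rcases eq_or_ne t 0 with rfl | h0
    · exact zero_mem_low _
    · rw [ht] at a1
      have := natDegree_lt_of_mem_low a1 (mul_ne_zero hΔ.ne_zero h0)
      rw [natDegree_mul hΔ.ne_zero h0] at this
      exact mem_low_of_natDegree_lt (by omega)

theorem VAR1_fib {Δ : k[X]} (hΔ : Δ.Monic) (v0 v : k[X]) (σ s' : ℕ) :
    (((Gs Δ v0 s').filter (fun V => V /ₘ X ^ (σ + Δ.natDegree) = v)).card : ℝ) ≤ qq k ^ σ := by
  rcases ((Gs Δ v0 s').filter
    (fun V => V /ₘ X ^ (σ + Δ.natDegree) = v)).eq_empty_or_nonempty with h | ⟨V0, h0⟩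
  · rw [h, card_empty, Nat.cast_zero]; exact (pow_pos qq_pos _).le
  · have e := card_low_dvd hΔ.ne_zero (L := σ + Δ.natDegree) (by omega)
    rw [Nat.add_sub_cancel] at e
    rw [← e, Nat.cast_le]
    obtain ⟨a1, a2⟩ := mem_filter.1 h0
    refine card_le_card_of_injOn (fun V => V - V0) (fun V hV => ?_)
      fun _ _ _ _ h => sub_left_injective h
    obtain ⟨b1, b2⟩ := mem_filter.1 (mem_coe.1 hV)
    refine mem_coe.2 (mem_filter.2 ⟨?_, ?_⟩)
    · have := sub_mem_low (VAR1_rem V (σ + Δ.natDegree)) (VAR1_rem V0 (σ + Δ.natDegree))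
      rw [a2, b2] at this
      convert this using 1; ring
    · have := dvd_sub (mem_Gs.1 b1).2.2 (mem_Gs.1 a1).2.2
      convert this using 1; ring

theorem p_VAR1 (hPLAN : S_PLAN) :
    S_VAR1 := by
  intro k _ _ _ Ws Δ w0 y0 v0 τ σ w l s' Y2 hWs hΔ h1 hc h2 h3 h4 h5 h6 hY hχ
  have hq := qq_pos (k := k)
  have H := hPLAN k Ws (Gs Δ y0 l) τ w l (σ + Δ.natDegree) Y2 hWs
    (fun y hy => mem_Mo.2 ⟨(mem_Gs.1 hy).1, (mem_Gs.1 hy).2.1⟩) h5 (by omega) hY hχ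
  set F : k[X] → ℝ := fun v => ((((Ws ×ˢ Gs Δ y0 l).filter (fun p =>
    p.1 * p.2 - v * X ^ (σ + Δ.natDegree) ∈ low k (σ + Δ.natDegree))).card : ℝ) -
      Ws.card * (Gs Δ y0 l).card / qq k ^ τ) ^ 2 with hF
  have hm : (Ws.card : ℝ) * qq k ^ σ / qq k ^ w = Ws.card * (Gs Δ y0 l).card / qq k ^ τ := by
    have e : qq k ^ l * qq k ^ w = qq k ^ τ * qq k ^ σ * qq k ^ Δ.natDegree := by
      rw [← pow_add, ← pow_add, ← pow_add, h3, h4]
    rw [card_Gs hΔ.ne_zero _ h6]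
    field_simp
    linear_combination (-(Ws.card : ℝ)) * e
  have e1 : ∀ V ∈ Gs Δ v0 s', (∑ W ∈ Ws, ct σ Δ V W - Ws.card * qq k ^ σ / qq k ^ w) ^ 2 =
      F (V /ₘ X ^ (σ + Δ.natDegree)) := fun V hV => by
    rw [hm, hF, sum_congr rfl fun W hW =>
      VAR1_ct (hWs hW) hΔ (h1 W hW) hc h2 (by omega) h4 hV (VAR1_rem V _)]
    simp only [card_filter, sum_product, Nat.cast_sum]
  have e2 : ∀ V ∈ Gs Δ v0 s', V /ₘ X ^ (σ + Δ.natDegree) ∈ Mo k τ := fun V hV => by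
    obtain ⟨a1, a2, -⟩ := mem_Gs.1 hV
    refine mem_Mo.2 ⟨?_, by rw [natDegree_divByMonic _ (monic_X_pow _), natDegree_X_pow]; omega⟩
    rw [Monic, leadingCoeff_divByMonic_of_monic (monic_X_pow _), a1]
    rw [degree_X_pow, degree_eq_natDegree a1.ne_zero]
    exact_mod_cast (by omega : σ + Δ.natDegree ≤ V.natDegree)
  have e3 : ∑ V ∈ Gs Δ v0 s', F (V /ₘ X ^ (σ + Δ.natDegree)) ≤ qq k ^ σ * ∑ v ∈ Mo k τ, F v := by
    rw [← sum_fiberwise_of_maps_to e2, mul_sum]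
    refine sum_le_sum fun v _ => ?_
    rw [sum_congr rfl fun V hV => by rw [(mem_filter.1 hV).2], sum_const, nsmul_eq_mul]
    exact mul_le_mul_of_nonneg_right (VAR1_fib hΔ v0 v σ s') (sq_nonneg _)
  rw [sum_congr rfl e1]
  calc _ ≤ qq k ^ σ * (∑ v ∈ Mo k τ, F v) * qq k ^ τ := by gcongr
    _ = qq k ^ σ * ((∑ v ∈ Mo k τ, F v) * qq k ^ τ) := mul_assoc _ _ _
    _ ≤ qq k ^ σ * (Y2 * Ws.card * qq k ^ w) := by gcongr
    _ = _ := by ring

end Pool.Agent.P.MP_e94e4b_nt.LG
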