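import Pool.Agent.P.MP_e94e4b_nt.LG.If

/-! Step YB. -/

namespace Pool.Agent.P.MP_e94e4b_nt.LG

open Polynomial Finset
open Pool.Agent.P.MP_8be758_nt Pool.Agent.P.MP_8be758_nt.C2 Pool.Agent.P.MP_8be758_nt.L2
open scoped Classical ComplexConjugate

theorem p_YB (hCHK : S_CHK) (hCLS : S_CLS) (hGSZ : S_GSZ) (hGSB : S_GSB) (hORTH : L2.S_ORTH) :
    S_YB := by
  intro k _ _ _ c la j χ Dl y0 B hcd hD1 hj hB
  obtain ⟨hc, h, -⟩ := id hcd
  have := Fintype.ofFinite k
  have hD := hD1.ne_zero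
  have hq := qq_pos (k := k)
  have hB0 : 0 ≤ B := (norm_nonneg _).trans (hB 0)
  have hX : ∀ j, (X ^ j : k[X]) ≠ 0 := fun j => pow_ne_zero j X_ne_zero
  have hM1 := hD1.mul (monic_X_pow c)
  have hM := hM1.ne_zero
  set dl := Dl.natDegree with hdl
  have d1 : (Dl * X ^ c).natDegree = dl + c := natDegree_mul_X_pow c hD
  set t : k[X] → ℂ := fun g => ((psi (res Dl (g * y0)) : ℝ) : ℂ) *
    ∑ u ∈ Mo k (la + c), χ u * (psi (res (Dl * X ^ c) (g * u)) : ℝ) with ht
  have e1 : ∀ u, ∑ g ∈ low k (dl + c), psi (res (Dl * X ^ c) (g * (u + y0 * X ^ c))) =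
      if Dl * X ^ c ∣ u - y0 * X ^ c then qq k ^ (dl + c) else 0 := fun u => by
    have := hORTH k _ _ _ hM le_rfl (mod_mem_low hM (u + y0 * X ^ c))
    rw [d1, Nat.sub_self] at this
    rw [sum_congr rfl (g := fun g => psi (res (Dl * X ^ c) (g * ((u + y0 * X ^ c) %
      (Dl * X ^ c))))) fun g _ => by
        rw [res_congr (H' := g * ((u + y0 * X ^ c) % (Dl * X ^ c)))
          ⟨g * ((u + y0 * X ^ c) / (Dl * X ^ c)), by
          linear_combination g * (EuclideanDomain.div_add_mod (u + y0 * X ^ c)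
            (Dl * X ^ c)).symm⟩], this, CharTwo.sub_eq_add]
    refine if_congr ⟨fun h0 => ?_, fun h0 => ?_⟩ rfl rfl
    · exact EuclideanDomain.mod_eq_zero.1 (eq_zero_of_mem_low h0 (one_dvd _) (by simp))
    · rw [EuclideanDomain.mod_eq_zero.2 h0]; exact zero_mem_low _
  have key : ∑ g ∈ low k (dl + c), t g = ((qq k ^ (dl + c) : ℝ) : ℂ) * YY χ Dl y0 la := by
    simp only [ht, YY, mul_sum]
    rw [sum_comm, sum_congr rfl (g := fun u => if Dl * X ^ c ∣ u - y0 * X ^ c then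
      ((qq k ^ (dl + c) : ℝ) : ℂ) * χ u else 0) fun u _ => by
        rw [← ite_zero_mul, ← Complex.ofReal_zero, ← apply_ite, ← e1, Complex.ofReal_sum, sum_mul]
        refine sum_congr rfl fun g _ => ?_
        rw [mul_add, res_add, psi_add, ← mul_assoc g y0, res_mul_mul _ _ (hX c)]
        push_cast; ring, ← sum_filter]
    symm
    refine sum_bij (fun y _ => y * X ^ c) (fun y hy => ?_)
      (fun a _ b _ e => mul_right_cancel₀ (hX c) e) (fun u hu => ?_) fun y hy => ?_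
    · obtain ⟨a1, a2, a3⟩ := mem_Gs.1 hy
      refine mem_filter.2 ⟨mem_Mo.2 ⟨a1.mul (monic_X_pow c), by
        rw [natDegree_mul_X_pow c a1.ne_zero, a2]⟩, ?_⟩
      rw [← sub_mul]; exact mul_dvd_mul_right a3 _
    · obtain ⟨a, w, hw⟩ := mem_filter.1 hu
      obtain ⟨a1, a2⟩ := mem_Mo.1 a
      have e : u = (y0 + Dl * w) * X ^ c := by linear_combination hw
      have m : (y0 + Dl * w).Monic := (monic_X_pow c).of_mul_monic_right (e ▸ a1)
      refine ⟨y0 + Dl * w, mem_Gs.2 ⟨m, ?_, ⟨w, by ring⟩⟩, e.symm⟩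
      rw [e, natDegree_mul_X_pow c m.ne_zero] at a2
      omega
    · rw [h.1 _ _ (mem_Gs.1 hy).1 (monic_X_pow c), (hCHK k c χ h).2.1, mul_one]
  have hv : ∀ (z : k) (g : k[X]) (i : ℕ), g.Monic → g.natDegree + i + 1 = dl + c → t (C z * g) =
      conj (χ g) * (psi (res Dl (C z * g * y0)) : ℝ) * (χ (Dl * X ^ c) * GS χ (la + c) i z) :=
    fun z g i a1 a2 => by
      simp only [ht]
      rw [hCLS k c _ i χ g _ z h (by omega) a1 hM1 (by omega)]
      ring
  set R := √(qq k ^ (2 * (la + c) + 1) / qq k ^ c) with hR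
  have hR0 : 0 ≤ R := Real.sqrt_nonneg _
  have b1 : ∀ z : k, ‖∑ g ∈ (low k (dl + c)).filter (fun g => g.leadingCoeff = z), t g‖ ≤
      B * R := fun z => by
    by_cases z0 : z = 0
    · rw [sum_eq_zero fun g hg => ?_, norm_zero]
      · positivity
      · have := (hGSZ k c (la + c) (la + 1) χ 0 hcd (by omega)).1 (by omega)
        rw [leadingCoeff_eq_zero.1 ((mem_filter.1 hg).2.trans z0)]
        simp only [GS, zero_mul] at this
        simp only [ht, zero_mul, res_zero, this, mul_zero]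
    have hi : Set.InjOn (fun g : k[X] => C z * g) (Mo k j) := fun a _ b _ e =>
      mul_left_cancel₀ (C_ne_zero.2 z0) e
    rw [← sum_subset (s₁ := (Mo k j).image fun g => C z * g) (fun g hg => ?_) fun g hg hn => ?_,
      sum_image hi, sum_congr rfl fun g hg => hv z g la (mem_Mo.1 hg).1
        (by rw [(mem_Mo.1 hg).2, hj]), ← sum_mul, norm_mul, norm_mul, h.2.1 _ hM1, one_mul]
    · refine mul_le_mul (hB z) (Real.le_sqrt_of_sq_le ?_) (norm_nonneg _) hB0
      rw [le_div_iff₀ (by positivity)]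
      exact hGSB k c _ la χ z h hc rfl z0
    · obtain ⟨g', hg', rfl⟩ := mem_image.1 hg
      obtain ⟨a1, a2⟩ := mem_Mo.1 hg'
      refine mem_filter.2 ⟨mem_low_of_natDegree_lt
        (lt_of_le_of_lt (natDegree_C_mul_le _ _) (by omega)), ?_⟩
      rw [leadingCoeff_mul, leadingCoeff_C, a1.leadingCoeff, mul_one]
    · obtain ⟨a1, a2⟩ := mem_filter.1 hg
      have g0 := leadingCoeff_ne_zero.1 (a2 ▸ z0)
      have l := natDegree_lt_of_mem_low a1 g0
      have m := monic_mul_leadingCoeff_inv g0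
      have d := natDegree_mul_C (p := g) (inv_ne_zero (a2 ▸ z0 : g.leadingCoeff ≠ 0))
      have e : C z * (g * C g.leadingCoeff⁻¹) = g := by
        rw [a2, mul_comm, mul_assoc, ← C_mul, inv_mul_cancel₀ z0, C_1, mul_one]
      have ne : g.natDegree ≠ j := fun hd => hn (mem_image.2 ⟨_, mem_Mo.2 ⟨m, d.trans hd⟩, e⟩)
      have hz := hGSZ k c (la + c) (dl + c - 1 - g.natDegree) χ z hcd (by omega)
      rw [← e, hv z _ (dl + c - 1 - g.natDegree) m (by omega)]
      rcases lt_or_gt_of_ne ne with h1 | h1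
      · rw [hz.1 (by omega), mul_zero, mul_zero]
      · rw [hz.2 (by omega) z0, mul_zero, mul_zero]
  have b2 : qq k ^ (dl + c) * ‖YY χ Dl y0 la‖ ≤ qq k * (B * R) := by
    have := congrArg norm key
    rw [norm_mul, Complex.norm_real, Real.norm_eq_abs, abs_of_pos (by positivity)] at this
    rw [← this, ← sum_fiberwise_of_maps_to (t := univ) (g := fun g : k[X] => g.leadingCoeff)
      fun g _ => mem_univ _]
    refine (norm_sum_le _ _).trans ((sum_le_sum fun z _ => b1 z).trans ?_)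
    rw [sum_const, nsmul_eq_mul, card_univ, qq, Nat.card_eq_fintype_card]
  have b3 : R ^ 2 * qq k ^ c = qq k ^ (2 * (la + c) + 1) := by
    rw [hR, Real.sq_sqrt (by positivity)]; field_simp
  have b5 := mul_le_mul_of_nonneg_right (pow_le_pow_left₀ (by positivity) b2 2) (pow_pos hq c).le
  refine le_of_mul_le_mul_left ?_ (pow_pos hq (2 * la + 2 + c))
  calc _ = (qq k ^ (j + la + 1) * ‖YY χ Dl y0 la‖) ^ 2 * qq k ^ c := by ring
    _ ≤ (qq k * (B * R)) ^ 2 * qq k ^ c := by rw [hj]; exact b5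
    _ = (qq k * B) ^ 2 * (R ^ 2 * qq k ^ c) := by ring
    _ = _ := by rw [b3]; ring

end Pool.Agent.P.MP_e94e4b_nt.LG
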