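import Pool.Agent.P.MP_e94e4b_nt.LG.If
import Pool.Agent.P.MP_e94e4b_nt.LG.H22

/-! Step YC. -/

namespace Pool.Agent.P.MP_e94e4b_nt.LG

open Polynomial Finset
open Pool.Agent.P.MP_8be758_nt Pool.Agent.P.MP_8be758_nt.C2 Pool.Agent.P.MP_8be758_nt.L2
open scoped Classical ComplexConjugate

theorem p_YC :
    S_YC := by
  intro k _ _ _ c j χ Dl A Z h hD1
  have hD := hD1.ne_zero
  have hp : ∀ x : k, ‖((psi x : ℝ) : ℂ)‖ = 1 := fun x => by
    rw [Complex.norm_real, Real.norm_eq_abs, abs_psi]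
  refine ⟨(norm_sum_le _ _).trans ?_, fun hB => ?_⟩
  · rw [sum_congr rfl (g := fun _ => (1 : ℝ)) fun g hg => by
      rw [norm_mul, hp, Complex.norm_conj, h.2.1 g (mem_Mo.1 hg).1, mul_one], sum_const,
      nsmul_eq_mul, mul_one, card_Mo]
  rw [← sum_fiberwise_of_maps_to (t := low k Dl.natDegree) (g := fun g => g % Dl)
    fun g _ => mod_mem_low hD g, ← card_low', ← nsmul_eq_mul, ← sum_const]
  refine (norm_sum_le _ _).trans (sum_le_sum fun r hr => ?_)
  rw [H22_cls hD j hr, sum_congr rfl (g := fun g => conj (χ g) * (psi (res Dl (r * A)) : ℂ))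
    fun g hg => by
      rw [res_congr (H' := r * A) (by rw [← sub_mul]; exact (mem_Gs.1 hg).2.2.mul_right _)],
    ← sum_mul, norm_mul, hp, mul_one, ← map_sum, Complex.norm_conj]
  exact hB r

end Pool.Agent.P.MP_e94e4b_nt.LG
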