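import Pool.Agent.P.MP_e94e4b_nt.LG.If

/-! Step YM2. -/

namespace Pool.Agent.P.MP_e94e4b_nt.LG

open Polynomial Finset
open Pool.Agent.P.MP_8be758_nt Pool.Agent.P.MP_8be758_nt.C2 Pool.Agent.P.MP_8be758_nt.L2
open scoped Classical ComplexConjugate

theorem YM2_a {ν m ε E b β s σ L a r w K s' τ l D : ℕ} (h : Par ν m ε E b β s σ L a r w K)
    (h1 : s ≤ s' + β) (h3 : τ + σ + D = s') (h4 : l + w = s') :
    τ + 4 + 10 * β + (ν - m / 2) ≤ 2 * l + ε + 3 * E := by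
  have a1 := h.h1
  have a2 := h.h2
  have a4 := h.h4
  have a6 := h.h6
  have a7 := h.h7
  have a10 := h.h10
  have a12 := h.h12
  have a16 := h.h16.trans h.h20
  have a18 := h.h18
  have a19 := h.h19
  have a21 := h.h21
  have b1 : 2 * (ν - m / 2) + m ≤ 2 * ν + 1 := by omega
  generalize ν - m / 2 = T at b1
  clear h
  linarith [Nat.zero_le D]

theorem YM2_b {ν m ε E b β s σ L a r w K s' τ l D c j : ℕ} (h : Par ν m ε E b β s σ L a r w K)
    (h0 : ν ≤ 40 * ε) (hD : D < β) (h2 : s' < s) (h3 : τ + σ + D = s') (h4 : l + w = s')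
    (h5 : j + l + 1 = D + c) (h7 : τ < c + 3 * E) :
    ν ≤ 200 * j ∧ c ≤ 400 * j ∧ 8 * D ≤ j ∧ 1 ≤ E := by
  have a2 := h.h2
  have a4 := h.h4
  have a6 := h.h6
  have a8 := h.h8
  have a9 := h.h9
  have a11 := h.h11
  have a18 := h.h18
  have a19 := h.h19
  have a21 := h.h21
  clear h
  have h7' : τ + 1 ≤ c + 3 * E := h7
  have b1 : ν ≤ 200 * j := by linarith [Nat.zero_le β]
  exact ⟨b1, by linarith [Nat.zero_le σ, Nat.zero_le D, Nat.zero_le ε], by linarith, by linarith⟩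

theorem p_YM2 (hCND : S_CND) (hYZ : S_YZ) (hCHW : S_CHW) (hYB : S_YB) (hYC : S_YC) :
    S_YM2 := by
  obtain ⟨κ1, l0, hκ, hW⟩ := hCHW 400
  refine ⟨1000 * κ1 + 200 * l0, fun k _ _ _ ν m ε E b β s σ L a r w K h h0 hT hε => ?_⟩
  intro Δ y0 s' τ l χ hΔ hD h1 h2 h3 h4 hχ hN
  have hq := qq_pos (k := k)
  have hq2 := two_le_qq (k := k)
  obtain ⟨c, hc, hC⟩ := hCND k τ χ hχ hN
  rcases le_or_gt (c + Δ.natDegree) l with e | e
  · rw [hYZ k c l χ Δ y0 hC hΔ.ne_zero e, norm_zero, zero_pow two_ne_zero, zero_mul, zero_mul]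
    positivity
  obtain ⟨j, hj⟩ : ∃ j, j + l + 1 = Δ.natDegree + c := ⟨Δ.natDegree + c - l - 1, by omega⟩
  have ha := YM2_a h h1 h3 h4
  have hA : ∀ (γ : k) (g : k[X]), C γ * g * y0 = g * (C γ * y0) := fun γ g => by ring
  obtain ⟨u, hu1, hu2⟩ : ∃ u : ℕ, c + 4 + 10 * β + (ν - m / 2) ≤ 2 * l + ε + 2 * u ∧
      ‖YY χ Δ y0 l‖ ^ 2 * qq k ^ (2 * u) ≤ qq k ^ (c + 3) := by
    rcases le_or_gt (c + 3 * E) τ with e' | e'
    · refine ⟨0, by linarith, ?_⟩
      have := hYB k c l j χ Δ y0 (qq k ^ j) hC hΔ hj fun γ => by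
        simp only [hA]; exact (hYC k c j χ Δ _ 0 hC.2.1 hΔ).1
      rw [← pow_mul, mul_comm j 2] at this
      rw [mul_zero, pow_zero, mul_one]
      exact (le_of_mul_le_mul_right this (by positivity)).trans (qq_pow_mono (by omega))
    · obtain ⟨b1, b2, b3, b4⟩ := YM2_b h hε hD h2 h3 h4 hj e'
      have b5 : l0 ≤ l0 * E := Nat.le_mul_of_pos_right _ b4
      have b6 : 1000 * (κ1 * E) + 200 * (l0 * E) ≤ ν := by linarith
      have b7 : 2 * E ≤ j / κ1 := (Nat.le_div_iff_mul_le hκ).2 (by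
        linarith [Nat.zero_le (l0 * E), Nat.zero_le (κ1 * E)])
      refine ⟨j / κ1, by linarith [Nat.zero_le E], ?_⟩
      have := hYB k c l j χ Δ y0 (qq k ^ Δ.natDegree * (2 * qq k ^ j /
        qq k ^ (Δ.natDegree + j / κ1))) hC hΔ hj fun γ => by
          simp only [hA]
          refine (hYC k c j χ Δ _ _ hC.2.1 hΔ).2 fun g0 => (le_div_iff₀ (by positivity)).2 ?_
          exact hW k c j χ Δ g0 (by linarith [Nat.zero_le (κ1 * E)]) hC hΔ.ne_zero b3 b2
      generalize j / κ1 = u at this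
      have e1 : qq k ^ (c + 1) * (qq k ^ Δ.natDegree * (2 * qq k ^ j /
          qq k ^ (Δ.natDegree + u))) ^ 2 = 4 * qq k ^ (c + 1) / qq k ^ (2 * u) * qq k ^ (2 * j) := by
        field_simp
        ring
      rw [e1] at this
      have e2 := (le_div_iff₀ (by positivity)).1 (le_of_mul_le_mul_right this (by positivity))
      refine e2.trans ?_
      rw [show c + 3 = 2 + (c + 1) by ring, pow_add _ 2]
      exact mul_le_mul_of_nonneg_right (by nlinarith) (by positivity)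
  generalize ν - m / 2 = T at hT hu1
  have e3 : qq k ^ ε + qq k ^ T ≤ qq k ^ (T + 1) := by
    have := qq_pow_mono (k := k) hT
    have h5 : 0 < qq k ^ T := by positivity
    rw [pow_succ]
    nlinarith
  refine le_of_mul_le_mul_right ?_ (show 0 < qq k ^ (2 * u) by positivity)
  calc _ = ‖YY χ Δ y0 l‖ ^ 2 * qq k ^ (2 * u) * (qq k ^ (10 * β) * (qq k ^ ε + qq k ^ T)) := by ring
    _ ≤ qq k ^ (c + 3) * (qq k ^ (10 * β) * qq k ^ (T + 1)) := by gcongr
    _ ≤ _ := by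
      rw [← pow_add, ← pow_add, ← pow_add, ← pow_add]
      exact qq_pow_mono (by linarith)

end Pool.Agent.P.MP_e94e4b_nt.LG
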