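import Pool.Agent.P.MP_e94e4b_nt.LG.If
import Pool.Agent.P.MP_e94e4b_nt.LG.CWd

/-! Step YZ. -/

namespace Pool.Agent.P.MP_e94e4b_nt.LG

open Polynomial Finset
open Pool.Agent.P.MP_8be758_nt Pool.Agent.P.MP_8be758_nt.C2 Pool.Agent.P.MP_8be758_nt.L2
open scoped Classical ComplexConjugate

theorem p_YZ (_hCHK : S_CHK) :
    S_YZ := by
  intro k _ _ _ c l χ Δ y0 ⟨hc, h, hex⟩ hD hl
  have hχ : CW.Ch c χ := ⟨h.1, h.2.1, h.2.2.1, h.2.2.2⟩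
  exact hχ.zero hc hex hD (by omega) y0

end Pool.Agent.P.MP_e94e4b_nt.LG
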