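import Pool.Agent.P.MP_8be758_nt.C2.TFORM
import Pool.Agent.P.MP_8be758_nt.C2.TINFY
import Pool.Agent.P.MP_8be758_nt.C2.TPF
import Pool.Agent.P.MP_8be758_nt.L2.TBASE
import Pool.Agent.P.MP_8be758_nt.L2.TBIJ
import Pool.Agent.P.MP_8be758_nt.L2.TGAUSS
import Pool.Agent.P.MP_8be758_nt.L2.TORTH
import Pool.Agent.P.MP_8be758_nt.L2.TREC
import Pool.Agent.P.MP_8be758_nt.L2.TSEQ
import Pool.Agent.P.MP_8be758_nt.L2.TXC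
import Pool.Agent.P.MP_e94e4b_nt.LG.APb
import Pool.Agent.P.MP_e94e4b_nt.LG.TAZ
import Pool.Agent.P.MP_e94e4b_nt.LG.TBIL
import Pool.Agent.P.MP_e94e4b_nt.LG.TCHK
import Pool.Agent.P.MP_e94e4b_nt.LG.TCHW
import Pool.Agent.P.MP_e94e4b_nt.LG.TCLS
import Pool.Agent.P.MP_e94e4b_nt.LG.TCND
import Pool.Agent.P.MP_e94e4b_nt.LG.TCON12
import Pool.Agent.P.MP_e94e4b_nt.LG.TCON3
import Pool.Agent.P.MP_e94e4b_nt.LG.TCUT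
import Pool.Agent.P.MP_e94e4b_nt.LG.TDET
import Pool.Agent.P.MP_e94e4b_nt.LG.TE2
import Pool.Agent.P.MP_e94e4b_nt.LG.TEE
import Pool.Agent.P.MP_e94e4b_nt.LG.TEK
import Pool.Agent.P.MP_e94e4b_nt.LG.TFIB
import Pool.Agent.P.MP_e94e4b_nt.LG.TGEN
import Pool.Agent.P.MP_e94e4b_nt.LG.TGEN0
import Pool.Agent.P.MP_e94e4b_nt.LG.TGM
import Pool.Agent.P.MP_e94e4b_nt.LG.TGSB
import Pool.Agent.P.MP_e94e4b_nt.LG.TGSZ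
import Pool.Agent.P.MP_e94e4b_nt.LG.TID0
import Pool.Agent.P.MP_e94e4b_nt.LG.TK0
import Pool.Agent.P.MP_e94e4b_nt.LG.TLIN
import Pool.Agent.P.MP_e94e4b_nt.LG.TP1
import Pool.Agent.P.MP_e94e4b_nt.LG.TP2
import Pool.Agent.P.MP_e94e4b_nt.LG.TP2A
import Pool.Agent.P.MP_e94e4b_nt.LG.TPARM
import Pool.Agent.P.MP_e94e4b_nt.LG.TPLAN
import Pool.Agent.P.MP_e94e4b_nt.LG.TPLG
import Pool.Agent.P.MP_e94e4b_nt.LG.TPOI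
import Pool.Agent.P.MP_e94e4b_nt.LG.TPP
import Pool.Agent.P.MP_e94e4b_nt.LG.TSP
import Pool.Agent.P.MP_e94e4b_nt.LG.TT2P
import Pool.Agent.P.MP_e94e4b_nt.LG.TT2S
import Pool.Agent.P.MP_e94e4b_nt.LG.TTOP
import Pool.Agent.P.MP_e94e4b_nt.LG.TVAR
import Pool.Agent.P.MP_e94e4b_nt.LG.TVAR1
import Pool.Agent.P.MP_e94e4b_nt.LG.TYB
import Pool.Agent.P.MP_e94e4b_nt.LG.TYC
import Pool.Agent.P.MP_e94e4b_nt.LG.TYM1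
import Pool.Agent.P.MP_e94e4b_nt.LG.TYM2
import Pool.Agent.P.MP_e94e4b_nt.LG.TYZ

/-! The steps put together. -/

namespace Pool.Agent.P.MP_e94e4b_nt.LG

open Pool.Agent.P.MP_8be758_nt

theorem a_GM : S_GM := p_GM L2.p_GAUSS

theorem a_GEN : S_GEN :=
  p_GEN (p_GEN0 (p_P1 (C2.p_FORM C2.p_PF C2.p_INFY)) a_GM (p_K0 p_CUT a_GM) (p_P2 p_P2A)) a_GM
    L2.p_GAUSS

theorem a_AZ : S_AZ := p_AZ (p_POI L2.p_ORTH)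

theorem t_APK : S_APK :=
  p_APK p_PARM (p_CON12 p_FIB p_E2 (p_EE p_DET p_EK) (p_VAR (p_VAR1 (p_PLAN p_TOP p_PLG)) a_GM))
    (p_CON3 (p_T2P (p_POI L2.p_ORTH) a_AZ p_BIL (p_T2S (p_SP p_LIN L2.p_ORTH))))
    (p_YM1 (p_CND p_CHK) p_CHW)
    (p_YM2 (p_CND p_CHK) (p_YZ p_CHK) p_CHW
      (p_YB p_CHK (p_CLS p_CHK) (p_GSZ p_CHK) (p_GSB (p_CLS p_CHK) L2.p_ORTH) L2.p_ORTH) p_YC) a_GEN

theorem t_APFIN : S_APFIN :=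
  p_APFIN (p_ID0 L2.p_BIJ) p_PP L2.p_ORTH L2.p_BIJ (L2.p_XC (L2.p_BASE L2.p_BIJ) L2.p_REC L2.p_SEQ)
    (p_APM a_GEN p_LIN a_AZ) t_APK

end Pool.Agent.P.MP_e94e4b_nt.LG
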