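import Pool.Agent.P.MP_e94e4b_nt.LG.If

/-! Step T3. -/

namespace Pool.Agent.P.MP_e94e4b_nt.LG

open Polynomial Finset
open Pool.Agent.P.MP_8be758_nt Pool.Agent.P.MP_8be758_nt.C2 Pool.Agent.P.MP_8be758_nt.L2
open scoped Classical ComplexConjugate

theorem T3_mo {k : Type} [Field k] [Finite k] {N d e : k[X]} {m D ε : ℕ} (hN : N.Monic)
    (hm : m ≤ 2 * N.natDegree) (hD : D + ε = 2 * N.natDegree) (hd : d ∈ Mo k D)
    (h : d * e - N ^ 2 ∈ low k m) : e ∈ Mo k ε := by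
  obtain ⟨d1, d2⟩ := mem_Mo.1 hd
  have h1 : (d * e - N ^ 2).degree < (N ^ 2).degree := (mem_low.1 h).trans_le (by
    rw [degree_eq_natDegree (hN.pow 2).ne_zero, natDegree_pow]
    exact_mod_cast hm)
  have h2 := (hN.pow 2).add_of_left h1
  have h3 := natDegree_add_eq_left_of_degree_lt h1
  rw [add_sub_cancel] at h2 h3
  have h4 := d1.of_mul_monic_left h2
  rw [d1.natDegree_mul h4, natDegree_pow] at h3
  exact mem_Mo.2 ⟨h4, by omega⟩

theorem p_T3 :
    S_T3 := by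
  intro k _ _ N m D ε hN hm hD hε
  have l : ∀ d ∈ Mo k D, mu d * cz N m d =
      ∑ e ∈ Mo k ε, if d * e - N ^ 2 ∈ low k m then mu d else 0 := fun d hd => by
    rw [← sum_filter, sum_const, nsmul_eq_mul, mul_comm, cz]
    congr 2
    refine (card_nbij (fun e => d * e - N ^ 2) (fun e he => ?_) (fun e _ e' _ h => ?_)
      fun x hx => ?_).symm
    · exact mem_coe.2 (mem_filter.2 ⟨(mem_filter.1 (mem_coe.1 he)).2, e, add_sub_cancel _ _⟩)
    · exact mul_left_cancel₀ (mem_Mo.1 hd).1.ne_zero (sub_left_injective h)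
    · obtain ⟨x1, e, x2⟩ := mem_filter.1 (mem_coe.1 hx)
      have x3 : d * e - N ^ 2 = x := by rw [← x2, add_sub_cancel_left]
      exact ⟨e, mem_coe.2 (mem_filter.2 ⟨T3_mo hN hm hD hd (x3 ▸ x1), x3 ▸ x1⟩), x3⟩
  rw [MD, sum_congr rfl l, sum_comm]
  refine sum_congr rfl fun e he => ?_
  obtain ⟨e1, e2⟩ := mem_Mo.1 he
  have r1 : N ^ 2 %ₘ e ∈ low k m := low_mono hε (mem_low.2 (by
    rw [← e2, ← degree_eq_natDegree e1.ne_zero]
    exact degree_modByMonic_lt _ e1))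
  have r2 := modByMonic_add_div (N ^ 2) e
  rw [← sum_filter, MM, e2]
  refine (sum_nbij (fun y => N ^ 2 /ₘ e + y) (fun y hy => ?_) (fun y _ y' _ h => add_left_cancel h)
    (fun d hd => ?_) fun _ _ => rfl).symm
  · have y1 : (N ^ 2 /ₘ e + y) * e - N ^ 2 ∈ low k m := by
      rw [show (N ^ 2 /ₘ e + y) * e - N ^ 2 = e * y - N ^ 2 %ₘ e by linear_combination r2]
      exact sub_mem_low (mul_mem_low hy (by omega)) r1
    exact mem_filter.2 ⟨T3_mo hN hm ((add_comm _ _).trans hD) he (by rwa [mul_comm]), y1⟩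
  · have y1 := add_mem_low (mem_filter.1 (mem_coe.1 hd)).2 r1
    rw [show d * e - N ^ 2 + N ^ 2 %ₘ e = (d - N ^ 2 /ₘ e) * e by linear_combination r2] at y1
    refine ⟨d - N ^ 2 /ₘ e, mem_coe.2 ?_, add_sub_cancel _ _⟩
    by_cases c : d - N ^ 2 /ₘ e = 0
    · rw [c]; exact zero_mem_low _
    · have := natDegree_lt_of_mem_low y1 (mul_ne_zero c e1.ne_zero)
      rw [natDegree_mul c e1.ne_zero] at this
      exact mem_low_of_natDegree_lt (by omega)

end Pool.Agent.P.MP_e94e4b_nt.LG
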