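import Pool.Agent.P.MP_e94e4b_nt.LG.TID
import Pool.Agent.P.MP_e94e4b_nt.LG.TT3
import Pool.Agent.P.MP_8be758_nt.C2.TDEC2

/-! Primes near a square in a progression: the divisor sums. -/

namespace Pool.Agent.P.MP_e94e4b_nt.LG

open Polynomial Finset
open Pool.Agent.P.MP_8be758_nt Pool.Agent.P.MP_8be758_nt.C2 Pool.Agent.P.MP_8be758_nt.L2
open scoped Classical

variable {k : Type} [Field k] [Finite k]

/-- the weighted Moebius sum over the divisors of degree `D` -/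
noncomputable def MW (N : k[X]) (m : ℕ) (w : k[X] → ℝ) (D : ℕ) : ℝ :=
  ∑ d ∈ Mo k D, mu d * ∑ x ∈ (low k m).filter (fun x => d ∣ N ^ 2 + x), w (N ^ 2 + x)

/-- the indicator of a residue class -/
noncomputable def ind (r a f : k[X]) : ℝ := if r ∣ f - a then 1 else 0

theorem AP_t3 {N : k[X]} {m D ε : ℕ} (w : k[X] → ℝ) (hN : N.Monic) (hm : m ≤ 2 * N.natDegree)
    (hD : D + ε = 2 * N.natDegree) (hε : ε ≤ m) : MW N m w D = ∑ e ∈ Mo k ε,
      ∑ y ∈ low k (m - ε), mu (N ^ 2 /ₘ e + y) * w ((N ^ 2 /ₘ e + y) * e) := by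
  have l : ∀ d ∈ Mo k D, mu d * ∑ x ∈ (low k m).filter (fun x => d ∣ N ^ 2 + x), w (N ^ 2 + x) =
      ∑ e ∈ Mo k ε, if d * e - N ^ 2 ∈ low k m then mu d * w (d * e) else 0 := fun d hd => by
    rw [← sum_filter, ← mul_sum]
    congr 1
    refine (sum_nbij (fun e => d * e - N ^ 2) (fun e he => ?_) (fun e _ e' _ h => ?_)
      (fun x hx => ?_) fun e _ => by rw [add_sub_cancel]).symm
    · exact mem_filter.2 ⟨(mem_filter.1 he).2, e, add_sub_cancel _ _⟩
    · exact mul_left_cancel₀ (mem_Mo.1 hd).1.ne_zero (sub_left_injective h)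
    · obtain ⟨x1, e, x2⟩ := mem_filter.1 (mem_coe.1 hx)
      have x3 : d * e - N ^ 2 = x := by rw [← x2, add_sub_cancel_left]
      exact ⟨e, mem_coe.2 (mem_filter.2 ⟨T3_mo hN hm hD hd (x3 ▸ x1), x3 ▸ x1⟩), x3⟩
  rw [MW, sum_congr rfl l, sum_comm]
  refine sum_congr rfl fun e he => ?_
  obtain ⟨e1, e2⟩ := mem_Mo.1 he
  have r1 : N ^ 2 %ₘ e ∈ low k m := low_mono (e2 ▸ hε) (modByMonic_mem_low e1 _)
  have r2 := modByMonic_add_div (N ^ 2) e
  rw [← sum_filter]
  refine (sum_nbij (fun y => N ^ 2 /ₘ e + y) (fun y hy => ?_) (fun y _ y' _ h => add_left_cancel h)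
    (fun d hd => ?_) fun _ _ => rfl).symm
  · have y1 : (N ^ 2 /ₘ e + y) * e - N ^ 2 ∈ low k m := by
      rw [show (N ^ 2 /ₘ e + y) * e - N ^ 2 = e * y - N ^ 2 %ₘ e by linear_combination r2]
      exact sub_mem_low (mul_mem_low hy (by omega)) r1
    exact mem_filter.2 ⟨T3_mo hN hm ((add_comm _ _).trans hD) he (by rwa [mul_comm]), y1⟩
  · have y1 := add_mem_low (mem_filter.1 (mem_coe.1 hd)).2 r1
    rw [show d * e - N ^ 2 + N ^ 2 %ₘ e = e * (d - N ^ 2 /ₘ e) by linear_combination r2] at y1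
    exact ⟨d - N ^ 2 /ₘ e, mem_coe.2 (e2 ▸ mem_low_of_mul e1.ne_zero y1), add_sub_cancel _ _⟩

variable [CharP k 2]

theorem AP_id (hID0 : S_ID0) (hPP : S_PP) {N : k[X]} {m : ℕ} {w : k[X] → ℝ} (hN : N.Monic)
    (h1 : 1 ≤ N.natDegree) (hm : 3 * m ≤ 4 * N.natDegree) (hw : ∀ f, |w f| ≤ 1) :
    |∑ D ∈ range (2 * N.natDegree + 1), (2 * (N.natDegree : ℝ) - D) * MW N m w D -
      2 * (N.natDegree : ℝ) * ∑ x ∈ (low k m).filter (fun x => Irreducible (N ^ 2 + x)),
        w (N ^ 2 + x)| ≤ 2 * (N.natDegree : ℝ) * qq k ^ ((m + 1) / 2) := by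
  have hd2 : (N ^ 2).natDegree = 2 * N.natDegree := hN.natDegree_pow 2
  have hx2 := fun x (hx : x ∈ low k m) => monic_add_low (hN.pow 2) hx (by omega)
  rw [hd2] at hx2
  have e1 : ∑ D ∈ range (2 * N.natDegree + 1), (2 * (N.natDegree : ℝ) - D) * MW N m w D =
      ∑ x ∈ low k m, (if (pf (N ^ 2 + x)).card = 1 then (dg (pf (N ^ 2 + x)) : ℝ) else 0) *
        w (N ^ 2 + x) := by
    have e : ∀ D, MW N m w D = ∑ x ∈ low k m,
        (∑ d ∈ (Mo k D).filter (fun d => d ∣ N ^ 2 + x), mu d) * w (N ^ 2 + x) := fun D => by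
      simp only [MW, sum_filter, mul_sum, sum_mul]
      rw [sum_comm]
      refine sum_congr rfl fun x _ => sum_congr rfl fun d _ => ?_
      split_ifs <;> simp
    simp only [e, mul_sum (low k m)]
    rw [sum_comm]
    refine sum_congr rfl fun x hx => ?_
    have := hID0 k _ (hx2 x hx).1 (by rw [(hx2 x hx).2]; omega)
    rw [(hx2 x hx).2] at this
    rw [← this, sum_mul]
    push_cast
    simp only [mul_assoc]
  have h0 : (0 : ℝ) ≤ 2 * (N.natDegree : ℝ) := by positivity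
  rw [e1, mul_sum, sum_filter, ← sum_sub_distrib]
  refine (abs_sum_le_sum_abs _ _).trans (le_trans ?_ (mul_le_mul_of_nonneg_left
    (hPP k N m hN h1 hm) h0))
  rw [mul_comm (2 * (N.natDegree : ℝ)), ← nsmul_eq_mul _ (2 * (N.natDegree : ℝ)), ← sum_const,
    sum_filter]
  refine sum_le_sum fun x hx => ?_
  by_cases hi : Irreducible (N ^ 2 + x)
  · simp [hi, ID_pf (hx2 x hx).1 hi, dg_singleton, (hx2 x hx).2]
  · by_cases hc : (pf (N ^ 2 + x)).card = 1
    · have := dg_pf_le (hx2 x hx).1.ne_zero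
      rw [(hx2 x hx).2] at this
      rw [if_pos hc, if_neg hi, if_pos ⟨hc, hi⟩, sub_zero, abs_mul, abs_of_nonneg (Nat.cast_nonneg _)]
      exact (mul_le_of_le_one_right (Nat.cast_nonneg _) (hw _)).trans (by exact_mod_cast this)
    · simp [hi, hc]

theorem AP_cnt (hO : S_ORTH) {M : k[X]} (hM : M ≠ 0) (F : k[X]) {m : ℕ} (h : m ≤ M.natDegree) :
    (((low k m).filter fun x => M ∣ F + x).card : ℝ) * qq k ^ (M.natDegree - m) =
      ∑ h ∈ low k (M.natDegree - m), psi (res M (h * F)) := by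
  have hy := mod_mem_low hM F
  have hv : M ∣ F - F % M := ⟨F / M, by linear_combination -EuclideanDomain.div_add_mod F M⟩
  have key : ∀ x, M ∣ F + x ↔ M ∣ x - F % M := fun x => by
    rw [show F + x = x - F % M + (F - F % M) by linear_combination add_self' (F % M)]
    exact dvd_add_left hv
  have k1 : ∀ g ∈ (low k m).filter (fun x => M ∣ F + x), g = F % M := fun g hg =>
    sub_eq_zero.1 (eq_zero_of_mem_low (sub_mem_low (low_mono h (mem_filter.1 hg).1) hy)
      ((key g).1 (mem_filter.1 hg).2) le_rfl)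
  rw [sum_congr rfl fun h' _ => congrArg psi (res_congr (H' := h' * (F % M)) (by
    rw [← mul_sub]; exact hv.mul_left _)), hO k M _ _ hM (by omega) hy,
    show M.natDegree - (M.natDegree - m) = m by omega]
  split_ifs with h'
  · rw [eq_singleton_iff_unique_mem.2 ⟨mem_filter.2 ⟨h', (key _).2 (by simp)⟩, k1⟩]
    simp
  · rw [eq_empty_of_forall_notMem fun g hg => h' (k1 g hg ▸ (mem_filter.1 hg).1)]
    simp

theorem AP_ind (hO : S_ORTH) {r : k[X]} (hr : r ≠ 0) (a f : k[X]) :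
    ind r a f * qq k ^ r.natDegree =
      ∑ g ∈ low k r.natDegree, psi (res r (g * a)) * psi (res r (g * f)) := by
  have := AP_cnt hO hr (f - a) (Nat.zero_le _)
  have e : low k 0 = {0} := by ext; simp [mem_low_zero]
  rw [e, filter_singleton, add_zero, Nat.sub_zero] at this
  rw [sum_congr rfl fun g _ => by rw [← psi_add, ← res_add, ← mul_add, add_comm a,
    ← CharTwo.sub_eq_add], ← this, ind]
  split_ifs <;> simp

theorem AP_avg (hO : S_ORTH) {ι : Type} {r : k[X]} (hr : r ≠ 0) (a : k[X]) (G : Finset ι)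
    (F : ι → ℝ) (f : ι → k[X]) {Z : ℝ} (hZ : ∀ g, |∑ d ∈ G, F d * psi (res r (g * f d))| ≤ Z) :
    |∑ d ∈ G, F d * ind r a (f d)| ≤ Z := by
  have hq := pow_pos (qq_pos (k := k)) r.natDegree
  refine le_of_mul_le_mul_right ?_ hq
  rw [← abs_of_pos hq, ← abs_mul, abs_of_pos hq, sum_mul]
  simp only [mul_assoc, AP_ind hO hr, mul_sum, mul_left_comm (F _)]
  rw [sum_comm, ← card_low', mul_comm, ← nsmul_eq_mul]
  refine (abs_sum_le_sum_abs _ _).trans (sum_le_card_nsmul _ _ _ fun g _ => ?_)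
  rw [← mul_sum, abs_mul, abs_psi, one_mul]
  exact hZ g

theorem AP_per (hO : S_ORTH) {r : k[X]} (hr : r ≠ 0) (G : Finset k[X]) (F c : k[X] → ℝ) {Z : ℝ}
    (c1 : ∀ x, |c x| ≤ 1) (c2 : ∀ x y, r ∣ x - y → c x = c y)
    (hZ : ∀ g, |∑ d ∈ G, F d * psi (res r (g * d))| ≤ Z) :
    |∑ d ∈ G, F d * c d| ≤ qq k ^ r.natDegree * Z := by
  have e : ∀ d, c d = ∑ a ∈ low k r.natDegree, c a * ind r a d := fun d => by
    have hv : r ∣ d - d % r := ⟨d / r, by linear_combination -EuclideanDomain.div_add_mod d r⟩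
    rw [sum_eq_single_of_mem _ (mod_mem_low hr d) fun a ha hn => ?_, ind, if_pos hv, mul_one,
      c2 _ _ hv]
    rw [ind, if_neg fun h => hn (sub_eq_zero.1 (eq_zero_of_mem_low (sub_mem_low ha
      (mod_mem_low hr d)) (by simpa using dvd_sub hv h) le_rfl)), mul_zero]
  rw [sum_congr rfl fun d _ => by rw [e d, mul_sum], sum_comm, ← card_low', ← nsmul_eq_mul]
  refine (abs_sum_le_sum_abs _ _).trans (sum_le_card_nsmul _ _ _ fun a _ => ?_)
  simp only [mul_left_comm (F _), ← mul_sum, abs_mul]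
  exact (mul_le_of_le_one_left (abs_nonneg _) (c1 a)).trans (AP_avg hO hr a G F (fun d => d) hZ)

theorem AP_in {N r a d : k[X]} (m : ℕ) (ha : IsCoprime a r) :
    (∀ w, r ∣ w * d - 1 → ∑ x ∈ (low k m).filter (fun x => d ∣ N ^ 2 + x), ind r a (N ^ 2 + x) =
      ((low k m).filter fun x => r * d ∣ N ^ 2 + d * w * a + x).card) ∧ ((¬ ∃ w, r ∣ w * d - 1) →
      ∑ x ∈ (low k m).filter (fun x => d ∣ N ^ 2 + x), ind r a (N ^ 2 + x) = 0) := by
  have h2 : (2 : k[X]) = 0 := CharTwo.two_eq_zero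
  refine ⟨fun w ⟨u, hu⟩ => ?_, fun h => sum_eq_zero fun x hx => if_neg fun ⟨t, ht⟩ => h ?_⟩
  · simp only [ind]
    rw [sum_boole, filter_filter]
    refine congrArg _ (congrArg _ (filter_congr fun x _ => ⟨fun ⟨⟨s, hs⟩, t, ht⟩ => ?_,
      fun ⟨s, hs⟩ => ⟨⟨r * s - w * a, by linear_combination hs⟩, d * s - u * a, by
        linear_combination hs - a * hu - a * h2⟩⟩))
    exact IsCoprime.mul_dvd ⟨-u, w, by linear_combination hu⟩
      ⟨t + u * a, by linear_combination ht + a * hu + a * h2⟩ ⟨s + w * a, by linear_combination hs⟩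
  · obtain ⟨s, hs⟩ := (mem_filter.1 hx).2
    obtain ⟨y, z, e⟩ := ha
    exact ⟨y * s, y * t - z, by linear_combination y * ht - y * hs + e⟩

theorem AP_low (hBIJ : S_BIJ) {N r a : k[X]} {m D : ℕ} (hr : r ≠ 0) (ha : IsCoprime a r)
    (h : D + r.natDegree ≤ m) :
    MW N m (ind r a) D = qq k ^ m / qq k ^ r.natDegree * xs (-1) (pf r) D := by
  have hq := qq_pos (k := k)
  have e1 : ∀ d ∈ Mo k D, mu d * ∑ x ∈ (low k m).filter (fun x => d ∣ N ^ 2 + x),
      ind r a (N ^ 2 + x) = qq k ^ (m - (r.natDegree + D)) * if IsCoprime d r then mu d else 0 := by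
    intro d hd
    obtain ⟨d1, d2⟩ := mem_Mo.1 hd
    split_ifs with c
    · obtain ⟨w, u, e⟩ := c
      rw [(AP_in m ha).1 w ⟨-u, by linear_combination e⟩, card_low_class (mul_ne_zero hr d1.ne_zero)
        _ (by rw [natDegree_mul hr d1.ne_zero]; omega), natDegree_mul hr d1.ne_zero, d2, mul_comm]
    · rw [(AP_in m ha).2 fun ⟨w, u, e⟩ => c ⟨w, -u, by linear_combination e⟩]
      simp
  have e2 : ∑ d ∈ Mo k D, (if IsCoprime d r then mu d else 0) = ∑ S ∈ Sc (pf r) D, sg S := by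
    rw [← sum_filter_of_ne (p := Squarefree) fun d _ hd => by
      by_contra hs
      exact hd (by simp [mu_of_not_squarefree hs]), ← hBIJ k D,
      sum_congr rfl (g := fun S => if Disjoint S (pf r) then sg S else 0) fun S hS => by
        simp only [mu_pr (mem_Sc.1 hS).1, coprime_pr_iff hr (mem_Sc.1 hS).1], ← sum_filter]
    refine sum_congr ?_ fun _ _ => rfl
    ext S
    simp [mem_Sc, and_assoc]
  rw [MW, sum_congr rfl e1, ← mul_sum, e2, xs, pow_sub₀ _ hq.ne' (by omega), pow_add]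
  simp only [sg]
  field_simp

theorem AP_mid (hO : S_ORTH) {N r a : k[X]} {m D : ℕ} {Z : ℝ} (hr : r ≠ 0) (ha : IsCoprime a r)
    (h : m ≤ r.natDegree + D) (hZ : ∀ h ∈ low k (r.natDegree + D - m), ∀ g,
      |∑ d ∈ Mo k D, mu d * (psi (res (r * d) (h * N ^ 2)) * psi (res r (g * d)))| ≤ Z) :
    |MW N m (ind r a) D| ≤ qq k ^ r.natDegree * Z := by
  have hq := pow_pos (qq_pos (k := k)) (r.natDegree + D - m)
  have e1 : ∀ d ∈ Mo k D, (mu d * ∑ x ∈ (low k m).filter (fun x => d ∣ N ^ 2 + x),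
      ind r a (N ^ 2 + x)) * qq k ^ (r.natDegree + D - m) = ∑ h ∈ low k (r.natDegree + D - m),
        mu d * psi (res (r * d) (h * N ^ 2)) * DEC2_a r d (h * a) := by
    intro d hd
    obtain ⟨d1, d2⟩ := mem_Mo.1 hd
    by_cases c : ∃ w, r ∣ w * d - 1
    · obtain ⟨w, hw⟩ := c
      have := AP_cnt hO (mul_ne_zero hr d1.ne_zero) (N ^ 2 + d * w * a) (m := m)
        (by rw [natDegree_mul hr d1.ne_zero]; omega)
      rw [natDegree_mul hr d1.ne_zero, d2] at this
      rw [(AP_in m ha).1 w hw, mul_assoc, this, mul_sum]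
      refine sum_congr rfl fun g _ => ?_
      rw [DEC2_eq hw, mul_assoc (mu d), ← psi_add, ← res_mul_mul r _ d1.ne_zero, ← res_add]
      congr 3; ring
    · simp [(AP_in m ha).2 c, DEC2_a, c]
  refine le_of_mul_le_mul_right ?_ hq
  rw [← abs_of_pos hq, ← abs_mul, abs_of_pos hq, MW, sum_mul, sum_congr rfl e1, sum_comm,
    ← card_low' (r.natDegree + D - m), mul_comm, ← nsmul_eq_mul]
  exact (abs_sum_le_sum_abs _ _).trans (sum_le_card_nsmul _ _ _ fun g hg => AP_per hO hr _ _ _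
    (fun x => DEC2_abs _ _ _) (fun x y h => DEC2_congr h (by simp))
    fun g' => by simpa only [mul_assoc] using hZ g hg g')

end Pool.Agent.P.MP_e94e4b_nt.LG
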