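import Pool.Agent.P.MP_e94e4b_nt.LG.Defs

/-! Basic facts. -/

namespace Pool.Agent.P.MP_e94e4b_nt.LG

open Polynomial Finset
open Pool.Agent.P.MP_8be758_nt Pool.Agent.P.MP_8be758_nt.C2 Pool.Agent.P.MP_8be758_nt.L2
open scoped Classical ComplexConjugate

variable {k : Type} [Field k]

section eo

theorem coeff_evp (f : k[X]) (j : ℕ) : (evp f).coeff j = f.coeff (2 * j) := by
  rw [evp, coeff_contract (by norm_num), mul_comm]

theorem coeff_odp (f : k[X]) (j : ℕ) : (odp f).coeff j = f.coeff (2 * j + 1) := by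
  rw [odp, coeff_contract (by norm_num), coeff_divX, mul_comm]

theorem evp_add (f g : k[X]) : evp (f + g) = evp f + evp g := by
  ext j; simp only [coeff_evp, coeff_add]

theorem odp_add (f g : k[X]) : odp (f + g) = odp f + odp g := by
  ext j; simp only [coeff_odp, coeff_add]

theorem evp_zero : evp (0 : k[X]) = 0 := by
  ext j; simp only [coeff_evp, coeff_zero]

theorem odp_zero : odp (0 : k[X]) = 0 := by
  ext j; simp only [coeff_odp, coeff_zero]

theorem eo_mul (U V U' V' : k[X]) :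
    eo U V * eo U' V' = eo (U * U' + X * (V * V')) (U * V' + V * U') := by
  simp only [eo, map_add, map_mul, expand_X]; ring

theorem evp_mul (f g : k[X]) : evp (f * g) = evp f * evp g + X * (odp f * odp g) := by
  conv_lhs => rw [← eo_evp_odp f, ← eo_evp_odp g, eo_mul, evp_eo]

theorem odp_mul (f g : k[X]) : odp (f * g) = evp f * odp g + odp f * evp g := by
  conv_lhs => rw [← eo_evp_odp f, ← eo_evp_odp g, eo_mul, odp_eo]

theorem eq_of_evp_odp {f g : k[X]} (h1 : evp f = evp g) (h2 : odp f = odp g) : f = g := by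
  rw [← eo_evp_odp f, h1, h2, eo_evp_odp]

theorem mu_C_mul {z : k} (hz : z ≠ 0) (f : k[X]) : mu (C z * f) = mu f := by
  rw [mu, mu, (associated_unit_mul_left f _ (isUnit_C.2 hz.isUnit)).moebius_eq]

theorem mu_mul {a f : k[X]} (h : IsCoprime a f) : mu (a * f) = mu a * mu f := by
  rw [mu, mu, mu, h.isRelPrime.moebius_mul, Int.cast_mul]

theorem mu_of_not_squarefree {f : k[X]} (h : ¬ Squarefree f) : mu f = 0 := by
  rw [mu, UniqueFactorizationMonoid.moebius, if_neg h, Int.cast_zero]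

theorem mu_pr {S : Finset k[X]} (h : ∀ P ∈ S, IsPr P) : mu (pr S) = sg S := by
  have c : (UniqueFactorizationMonoid.factors (pr S)).card = S.card :=
    Multiset.card_eq_card_of_rel (UniqueFactorizationMonoid.factors_unique (g := S.val)
      (fun _ hx => UniqueFactorizationMonoid.irreducible_of_factor _ hx) (fun P hP => (h P hP).2)
      ((UniqueFactorizationMonoid.factors_prod (monic_pr h).ne_zero).trans
        (by rw [pr, prod_eq_multiset_prod, Multiset.map_id']; rfl)))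
  rw [mu, UniqueFactorizationMonoid.moebius, if_pos (squarefree_pr h), c, sg]
  push_cast
  rfl

theorem mu_prime {P : k[X]} (h : IsPr P) : mu P = -1 := by
  have := mu_pr (S := {P}) (by simpa using h)
  simpa [pr, sg] using this

theorem pr_inj [Finite k] {S T : Finset k[X]} (hS : ∀ P ∈ S, IsPr P) (hT : ∀ P ∈ T, IsPr P)
    (h : pr S = pr T) : S = T := by
  rw [← pf_pr hS, h, pf_pr hT]

end eo

section fin

variable [Finite k]

theorem mem_low_iff_coeff {L : ℕ} {f : k[X]} : f ∈ low k L ↔ ∀ j, L ≤ j → f.coeff j = 0 := by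
  rw [mem_low, degree_lt_iff_coeff_zero]

theorem mem_low_zero {f : k[X]} : f ∈ low k 0 ↔ f = 0 :=
  ⟨fun h => by ext j; exact mem_low_iff_coeff.1 h j (Nat.zero_le _), fun h => h ▸ zero_mem_low 0⟩

theorem neg_mem_low {L : ℕ} {f : k[X]} (h : f ∈ low k L) : -f ∈ low k L := by
  simpa using sub_mem_low (zero_mem_low L) h

theorem C_mul_mem_low {L : ℕ} {f : k[X]} (c : k) (h : f ∈ low k L) : C c * f ∈ low k L :=
  mul_mem_low h (by simp)

/-- cancel a non-zero factor -/
theorem mem_low_of_mul {L : ℕ} {c f : k[X]} (hc : c ≠ 0) (h : c * f ∈ low k L) :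
    f ∈ low k (L - c.natDegree) := by
  by_cases h0 : f = 0
  · exact h0 ▸ zero_mem_low _
  have := natDegree_lt_of_mem_low h (mul_ne_zero hc h0)
  rw [natDegree_mul hc h0] at this
  exact mem_low_of_natDegree_lt (by omega)

theorem evp_mem_low {n : ℕ} {f : k[X]} (h : f ∈ low k n) : evp f ∈ low k ((n + 1) / 2) :=
  mem_low_iff_coeff.2 fun j hj => by
    rw [coeff_evp]; exact mem_low_iff_coeff.1 h _ (by omega)

theorem odp_mem_low {n : ℕ} {f : k[X]} (h : f ∈ low k n) : odp f ∈ low k (n / 2) :=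
  mem_low_iff_coeff.2 fun j hj => by
    rw [coeff_odp]; exact mem_low_iff_coeff.1 h _ (by omega)

theorem odp_mem_low_of_natDegree {s : ℕ} {f : k[X]} (h : f.natDegree ≤ 2 * s) :
    odp f ∈ low k s := by
  have := odp_mem_low (mem_low_of_natDegree_lt (L := 2 * s + 1) (p := f) (by omega))
  rwa [show (2 * s + 1) / 2 = s by omega] at this

omit [Finite k] in
theorem monic_evp {s : ℕ} {f : k[X]} (hf : f.Monic) (h : f.natDegree = 2 * s) :
    (evp f).Monic ∧ (evp f).natDegree = s := by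
  have h1 : (evp f).natDegree ≤ s := natDegree_le_iff_coeff_eq_zero.2 fun j hj => by
    rw [coeff_evp]; exact coeff_eq_zero_of_natDegree_lt (by omega)
  have h2 : (evp f).coeff s = 1 := by rw [coeff_evp, ← h]; exact hf.coeff_natDegree
  exact ⟨monic_of_natDegree_le_of_coeff_eq_one s h1 h2,
    natDegree_eq_of_le_of_coeff_ne_zero h1 (by rw [h2]; exact one_ne_zero)⟩

theorem monic_add_low {d x : k[X]} {l : ℕ} (hd : d.Monic) (hx : x ∈ low k l)
    (hl : l ≤ d.natDegree) : (d + x).Monic ∧ (d + x).natDegree = d.natDegree := by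
  have h : x.degree < d.degree := by
    rw [degree_eq_natDegree hd.ne_zero]; exact mem_low.1 (low_mono hl hx)
  exact ⟨hd.add_of_left h, natDegree_add_eq_left_of_degree_lt h⟩

theorem sub_mem_low_of_monic {f g : k[X]} (hf : f.Monic) (hg : g.Monic)
    (h : f.natDegree = g.natDegree) : f - g ∈ low k f.natDegree := by
  rw [mem_low, ← degree_eq_natDegree hf.ne_zero]
  exact degree_sub_lt_left (by rw [degree_eq_natDegree hf.ne_zero, degree_eq_natDegree hg.ne_zero, h])
    hf.ne_zero (by rw [hf.leadingCoeff, hg.leadingCoeff])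

theorem modByMonic_mem_low {e : k[X]} (he : e.Monic) (f : k[X]) :
    f %ₘ e ∈ low k e.natDegree := by
  rw [mem_low, ← degree_eq_natDegree he.ne_zero]; exact degree_modByMonic_lt f he

omit [Finite k] in
theorem monic_divByMonic {f e : k[X]} (hf : f.Monic) (he : e.Monic)
    (h : e.natDegree ≤ f.natDegree) :
    (f /ₘ e).Monic ∧ (f /ₘ e).natDegree = f.natDegree - e.natDegree := by
  refine ⟨?_, natDegree_divByMonic f he⟩
  rw [Monic, leadingCoeff_divByMonic_of_monic he, hf.leadingCoeff]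
  rw [degree_eq_natDegree hf.ne_zero, degree_eq_natDegree he.ne_zero]
  exact_mod_cast h

omit [Finite k] in
theorem monic_cen {N e : k[X]} (hN : N.Monic) (he : e.Monic)
    (h : e.natDegree ≤ 2 * N.natDegree) :
    (N ^ 2 /ₘ e).Monic ∧ (N ^ 2 /ₘ e).natDegree = 2 * N.natDegree - e.natDegree := by
  have := monic_divByMonic (hN.pow 2) he (by rwa [natDegree_pow])
  rwa [natDegree_pow] at this

theorem sum_Mo_eq {M : Type} [AddCommMonoid M] (D : ℕ) (F : k[X] → M) :
    ∑ d ∈ Mo k D, F d = ∑ x ∈ low k D, F (X ^ D + x) := by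
  refine (sum_bij (fun x _ => X ^ D + x) ?_ ?_ ?_ fun _ _ => rfl).symm
  · intro x hx
    have := monic_add_low (monic_X_pow D) hx (by simp)
    exact mem_Mo.2 (by simpa using this)
  · intro x _ y _ h
    simpa using h
  · intro d hd
    obtain ⟨h1, h2⟩ := mem_Mo.1 hd
    refine ⟨d - X ^ D, ?_, by ring⟩
    have := sub_mem_low_of_monic h1 (monic_X_pow D) (by simpa using h2)
    rwa [h2] at this

/-- splitting a sum over monic polynomials into classes -/
theorem sum_Mo_classes {M : Type} [AddCommMonoid M] {Δ : k[X]} (hΔ : Δ.Monic) (j : ℕ)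
    (F : k[X] → M) :
    ∑ g ∈ Mo k j, F g = ∑ g0 ∈ low k Δ.natDegree, ∑ g ∈ Gs Δ g0 j, F g := by
  rw [← sum_fiberwise_of_maps_to (g := fun g => g %ₘ Δ)
    (fun g _ => modByMonic_mem_low hΔ g)]
  refine sum_congr rfl fun g0 h0 => sum_congr ?_ fun _ _ => rfl
  ext g
  rw [mem_filter, mem_Mo, mem_Gs, and_assoc]
  refine and_congr_right fun _ => and_congr_right fun _ => ⟨fun h => ?_, fun h => ?_⟩
  · exact ⟨g /ₘ Δ, by rw [← h]; linear_combination -(modByMonic_add_div g Δ)⟩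
  · refine sub_eq_zero.1 (eq_zero_of_mem_low (sub_mem_low (modByMonic_mem_low hΔ g) h0) ?_ le_rfl)
    have : g %ₘ Δ - g0 = g - g0 - Δ * (g /ₘ Δ) := by linear_combination modByMonic_add_div g Δ
    rw [this]
    exact dvd_sub h (dvd_mul_right _ _)

theorem modByMonic_eq_of_mem_Gs {Δ g0 g : k[X]} {j : ℕ} (hΔ : Δ.Monic)
    (h0 : g0 ∈ low k Δ.natDegree) (hg : g ∈ Gs Δ g0 j) : g %ₘ Δ = g0 := by
  refine sub_eq_zero.1 (eq_zero_of_mem_low (sub_mem_low (modByMonic_mem_low hΔ g) h0) ?_ le_rfl)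
  have : g %ₘ Δ - g0 = g - g0 - Δ * (g /ₘ Δ) := by linear_combination modByMonic_add_div g Δ
  rw [this]
  exact dvd_sub (mem_Gs.1 hg).2.2 (dvd_mul_right _ _)

theorem sum_C_mul {M : Type} [AddCommMonoid M] {c : k} (hc : c ≠ 0) (L : ℕ) (F : k[X] → M) :
    ∑ t ∈ low k L, F (C c * t) = ∑ t ∈ low k L, F t :=
  sum_nbij' (fun t => C c * t) (fun t => C c⁻¹ * t) (fun _ h => C_mul_mem_low _ h)
    (fun _ h => C_mul_mem_low _ h)
    (fun t _ => by rw [← mul_assoc, ← C_mul, inv_mul_cancel₀ hc, C_1, one_mul])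
    (fun t _ => by rw [← mul_assoc, ← C_mul, mul_inv_cancel₀ hc, C_1, one_mul]) fun _ _ => rfl

/-- a set whose differences times `W` are short is small -/
theorem card_le_of_diff {T : Finset k[X]} {W : k[X]} (hW : W ≠ 0) {j : ℕ}
    (h : ∀ x ∈ T, ∀ y ∈ T, W * (x - y) ∈ low k j) : (T.card : ℝ) ≤ qq k ^ (j - W.natDegree) := by
  rcases T.eq_empty_or_nonempty with rfl | ⟨y, hy⟩
  · simpa using (pow_pos qq_pos _).le
  rw [← card_low']
  exact_mod_cast card_le_card_of_injOn (fun x => x - y)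
    (fun x hx => mem_coe.2 (mem_low_of_mul hW (h x (mem_coe.1 hx) y hy)))
    (fun x _ x' _ e => by simpa using e)

/-- the number of elements of a class in `low k L` -/
theorem card_low_class {M : k[X]} (hM : M ≠ 0) (c : k[X]) {L : ℕ} (h : M.natDegree ≤ L) :
    (((low k L).filter (fun x => M ∣ c + x)).card : ℝ) = qq k ^ (L - M.natDegree) := by
  have h0 : c % M ∈ low k L := low_mono h (mod_mem_low hM _)
  have hd : M ∣ c - c % M := ⟨c / M, by linear_combination -(EuclideanDomain.div_add_mod c M)⟩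
  rw [← card_low_dvd hM h]
  congr 1
  refine card_bij (fun x _ => x + c % M) ?_ ?_ ?_
  · intro x hx
    obtain ⟨h1, h2⟩ := mem_filter.1 hx
    refine mem_filter.2 ⟨add_mem_low h1 h0, ?_⟩
    have := dvd_sub h2 hd
    convert this using 1; ring
  · intro y _ y' _ e
    simpa using e
  · intro g hg
    obtain ⟨h1, h2⟩ := mem_filter.1 hg
    refine ⟨g - c % M, mem_filter.2 ⟨sub_mem_low h1 h0, ?_⟩, by ring⟩
    have := dvd_add h2 hd
    convert this using 1; ring

theorem card_Pd_le (a : ℕ) : ((Pd k a).card : ℝ) ≤ qq k ^ a := by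
  rw [← card_Mo]
  exact_mod_cast card_le_card fun P hP => mem_Mo.2 ⟨(mem_Pd.1 hP).1.1, (mem_Pd.1 hP).2⟩

theorem mem_WW {a r : ℕ} {S : Finset k[X]} :
    S ∈ WW k a r ↔ (∀ P ∈ S, IsPr P ∧ P.natDegree = a) ∧ S.card = r := by
  rw [WW, mem_powersetCard]
  exact and_congr_left fun _ => ⟨fun h P hP => mem_Pd.1 (h hP), fun h P hP => mem_Pd.2 (h P hP)⟩

theorem dg_WW {a r : ℕ} {S : Finset k[X]} (h : S ∈ WW k a r) : dg S = r * a := by
  obtain ⟨h1, h2⟩ := mem_WW.1 h
  rw [dg, sum_congr rfl fun P hP => (h1 P hP).2, sum_const, h2, smul_eq_mul]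

theorem pr_WW {a r : ℕ} {S : Finset k[X]} (h : S ∈ WW k a r) : pr S ∈ Mo k (r * a) := by
  have h1 : ∀ P ∈ S, IsPr P := fun P hP => ((mem_WW.1 h).1 P hP).1
  exact mem_Mo.2 ⟨monic_pr h1, by rw [natDegree_pr h1, dg_WW h]⟩

theorem coprime_WW {a r : ℕ} {S : Finset k[X]} (h : S ∈ WW k a r) {Δ : k[X]} (h0 : Δ ≠ 0)
    (hd : Δ.natDegree < a) : IsCoprime (pr S) Δ :=
  IsCoprime.prod_left fun P hP => by
    obtain ⟨h1, h2⟩ := (mem_WW.1 h).1 P hP
    exact h1.2.coprime_iff_not_dvd.2 fun hh => by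
      have := natDegree_le_of_dvd hh h0
      omega

theorem GW_nonneg (a r : ℕ) (V : k[X]) : 0 ≤ GW a r V := Nat.cast_nonneg _

theorem IsChar.mono {c c' : ℕ} {χ : k[X] → ℂ} (h : IsChar c χ) (hc : c ≤ c') : IsChar c' χ :=
  ⟨h.1, h.2.1, h.2.2.1, fun f g hf hg e hl => h.2.2.2 f g hf hg e (low_mono (by omega) hl)⟩

theorem IsChar.mul_conj {c : ℕ} {χ : k[X] → ℂ} (h : IsChar c χ) {f : k[X]} (hf : f.Monic) :
    χ f * conj (χ f) = 1 := by
  rw [Complex.mul_conj', h.2.1 f hf]; simp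

end fin

section two

variable [CharP k 2]

theorem two_zero : (2 : k[X]) = 0 := CharTwo.two_eq_zero

theorem fr_add (f g : k[X]) : fr (f + g) = fr f + fr g := Polynomial.map_add _

theorem fr_mul (f g : k[X]) : fr (f * g) = fr f * fr g := Polynomial.map_mul _

theorem fr_pow (f : k[X]) (n : ℕ) : fr (f ^ n) = fr f ^ n := Polynomial.map_pow _ _

theorem fr_zero : fr (0 : k[X]) = 0 := Polynomial.map_zero _

theorem fr_X : fr (X : k[X]) = X := map_X _

theorem monic_fr {f : k[X]} (h : f.Monic) : (fr f).Monic := h.map _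

theorem fr_inj {p q : k[X]} (h : fr p = fr q) : p = q :=
  map_injective _ (frobenius k 2).injective h

theorem sq_eq_eo (z : k[X]) : z ^ 2 = eo (fr z) 0 := by
  rw [eo, map_zero, mul_zero, add_zero, fr, ← map_expand, map_frobenius_expand]

theorem evp_sq (z : k[X]) : evp (z ^ 2) = fr z := by rw [sq_eq_eo, evp_eo]

theorem odp_sq (z : k[X]) : odp (z ^ 2) = 0 := by rw [sq_eq_eo, odp_eo]

theorem evp_mul_sq (f z : k[X]) : evp (f * z ^ 2) = evp f * fr z := by
  rw [evp_mul, evp_sq, odp_sq]; ring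

theorem odp_mul_sq (f z : k[X]) : odp (f * z ^ 2) = odp f * fr z := by
  rw [odp_mul, evp_sq, odp_sq]; ring

theorem fr_eo (U V : k[X]) : fr (eo U V) = U ^ 2 + X * V ^ 2 := by
  rw [← evp_sq, sq, eo_mul, evp_eo]; ring

theorem fr_eq (f : k[X]) : fr f = evp f ^ 2 + X * odp f ^ 2 := by
  conv_lhs => rw [← eo_evp_odp f, fr_eo]

theorem sq_add_eq_eo (c0 c1 : k[X]) : c0 ^ 2 + X * c1 ^ 2 = eo (fr c0) (fr c1) := by
  rw [sq_eq_eo c0, sq_eq_eo c1]; simp [eo]

theorem sum_shift' {M : Type} [AddCommMonoid M] (G : Finset k[X]) (v : k[X])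
    (hG : ∀ g ∈ G, g + v ∈ G) (f : k[X] → M) : ∑ g ∈ G, f (g + v) = ∑ g ∈ G, f g := by
  refine sum_nbij' (fun g => g + v) (fun g => g + v) hG hG ?_ ?_ (fun _ _ => rfl)
  · intro g _; simp [add_assoc, CharTwo.add_self_eq_zero]
  · intro g _; simp [add_assoc, CharTwo.add_self_eq_zero]

/-- a sum vanishes if a shift multiplies the terms by a constant other than one -/
theorem sum_eq_zero_of_shift (G : Finset k[X]) (v : k[X]) (hG : ∀ g ∈ G, g + v ∈ G)
    {f : k[X] → ℂ} {θ : ℂ} (hθ : θ ≠ 1) (hf : ∀ g ∈ G, f (g + v) = f g * θ) :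
    ∑ g ∈ G, f g = 0 := by
  have h := sum_shift' G v hG f
  rw [sum_congr rfl hf, ← sum_mul] at h
  have : (∑ g ∈ G, f g) * (θ - 1) = 0 := by rw [mul_sub, h]; ring
  exact (mul_eq_zero.1 this).resolve_right (sub_ne_zero.2 hθ)

variable [Finite k]

theorem fr_surj (t : k[X]) : ∃ t', fr t' = t :=
  map_surjective _ (Finite.surjective_of_injective (frobenius k 2).injective) t

theorem fr_mem_low {L : ℕ} {t : k[X]} : fr t ∈ low k L ↔ t ∈ low k L := by
  rw [mem_low, mem_low, fr, degree_map]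

theorem sum_fr {M : Type} [AddCommMonoid M] (L : ℕ) (F : k[X] → M) :
    ∑ t ∈ low k L, F (fr t) = ∑ t ∈ low k L, F t :=
  sum_bij (fun t _ => fr t) (fun _ h => fr_mem_low.2 h) (fun _ _ _ _ h => fr_inj h)
    (fun t ht => by
      obtain ⟨t', rfl⟩ := fr_surj t
      exact ⟨t', fr_mem_low.1 ht, rfl⟩) fun _ _ => rfl

theorem exists_sq_of_odp {f : k[X]} (h : odp f = 0) : ∃ y, f = y ^ 2 := by
  obtain ⟨y, hy⟩ := fr_surj (evp f)
  exact ⟨y, by rw [sq_eq_eo, hy, ← h, eo_evp_odp]⟩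

theorem odp_mul_ne_zero {B1 B2 : k[X]} (h1 : IsPr B1) (h2 : IsPr B2) (h : B1 ≠ B2) :
    odp (B1 * B2) ≠ 0 := fun h0 => by
  obtain ⟨y, hy⟩ := exists_sq_of_odp h0
  obtain ⟨t, rfl⟩ : B1 ∣ y := h1.prime.dvd_of_dvd_pow (hy ▸ dvd_mul_right B1 B2)
  refine h (h1.eq_of_dvd h2 ⟨t ^ 2, mul_left_cancel₀ h1.ne_zero ?_⟩)
  rw [hy]; ring

end two

theorem Par.pg {ν m ε E b β s σ L a r w K : ℕ} (h : Par ν m ε E b β s σ L a r w K) :
    Pg (2 * ν - ε) (m - ε) b β s σ L a r K := by
  have a1 := h.h1; have a2 := h.h2; have a3 := h.h3; have a18 := h.h18; have a19 := h.h19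
  have a21 := h.h21; have a6 := h.h6
  refine ⟨?_, ?_, h.h5, h.h6, ?_, ?_, h.h13, h.h14, ?_, h.h17, h.h15, h.h16, h.hw ▸ h.h11, ?_, ?_,
    by omega⟩
  · have := h.h4; omega
  · omega
  · have := h.h9; omega
  · have := h.h9; have := h.h4; omega
  · have := h.h10; have := h.h14; omega
  · have := h.h8; omega
  · have := h.h8; have := h.h4; omega

end Pool.Agent.P.MP_e94e4b_nt.LG
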