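import Pool.Agent.P.MP_8be758_nt.L2.Basic

/-! Differencing of characters at infinity in characteristic two: basic lemmas. -/

namespace Pool.Agent.P.MP_e94e4b_nt.LG.CW

open Polynomial Finset
open Pool.Agent.P.MP_8be758_nt.C2 Pool.Agent.P.MP_8be758_nt.L2
open scoped Classical ComplexConjugate

variable {k : Type} [Field k] [Finite k]

/-- a character at infinity of level at most `c` -/
structure Ch (c : ℕ) (χ : k[X] → ℂ) : Prop where
  mul : ∀ f g : k[X], f.Monic → g.Monic → χ (f * g) = χ f * χ g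
  nrm : ∀ f : k[X], f.Monic → ‖χ f‖ = 1
  one : χ X = 1
  lev : ∀ f g : k[X], f.Monic → g.Monic → f.natDegree = g.natDegree →
    f - g ∈ low k (f.natDegree - c) → χ f = χ g

theorem Ch.X_pow {c : ℕ} {χ : k[X] → ℂ} (h : Ch c χ) (n : ℕ) : χ (X ^ n) = 1 := by
  induction n with
  | zero =>
    have := h.mul 1 X monic_one monic_X
    rw [one_mul, h.one, mul_one] at this
    simpa using this.symm
  | succ n ih => rw [pow_succ, h.mul _ _ (monic_X_pow n) monic_X, ih, h.one, mul_one]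

theorem monic_add_of_lt {Y M : k[X]} (hY : Y.Monic) (hM : M.natDegree < Y.natDegree) :
    (Y + M).Monic ∧ (Y + M).natDegree = Y.natDegree :=
  ⟨hY.add_of_left (degree_lt_degree hM), natDegree_add_eq_left_of_natDegree_lt hM⟩

theorem Ch.chk {c : ℕ} {χ : k[X] → ℂ} (h : Ch c χ) (hc : 1 ≤ c) {Y M : k[X]} (hY : Y.Monic)
    (hM : M.natDegree + c ≤ Y.natDegree) :
    χ (Y + M) = χ Y * χ (X ^ c + C (M.coeff (Y.natDegree - c))) := by
  set z := M.coeff (Y.natDegree - c) with hz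
  obtain ⟨m1, d1⟩ := monic_add_of_lt hY (M := M) (by omega)
  have m2 : (X ^ c + C z : k[X]).Monic := monic_X_pow_add_C z (by omega)
  have d2 : (X ^ c + C z : k[X]).natDegree = c := natDegree_X_pow_add_C
  rw [← h.mul _ _ hY m2, ← mul_one (χ (Y + M)), ← h.X_pow c, ← h.mul _ _ m1 (monic_X_pow c)]
  have d3 : ((Y + M) * X ^ c).natDegree = Y.natDegree + c := by
    rw [m1.natDegree_mul (monic_X_pow c), d1, natDegree_X_pow]
  refine h.lev _ _ (m1.mul (monic_X_pow c)) (hY.mul m2) ?_ ?_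
  · rw [d3, hY.natDegree_mul m2, d2]
  · rw [d3, Nat.add_sub_cancel, mem_low, degree_lt_iff_coeff_zero]
    intro m hm
    have e : (Y + M) * X ^ c - Y * (X ^ c + C z) = M * X ^ c - C z * Y := by ring
    rw [e, coeff_sub, coeff_mul_X_pow', coeff_C_mul, if_pos (by omega)]
    rcases hm.eq_or_lt with rfl | hm
    · rw [hY.coeff_natDegree, mul_one, hz, sub_self]
    · rw [coeff_eq_zero_of_natDegree_lt hm, coeff_eq_zero_of_natDegree_lt (by omega), mul_zero,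
        sub_self]

variable [CharP k 2]

omit [Finite k] in
theorem shiftC (G : Finset k[X]) (v : k[X]) (hG : ∀ g ∈ G, g + v ∈ G) (f : k[X] → ℂ) :
    ∑ g ∈ G, f (g + v) = ∑ g ∈ G, f g := by
  refine sum_nbij' (fun g => g + v) (fun g => g + v) hG hG ?_ ?_ (fun _ _ => rfl)
  · intro g _; simp [add_assoc, add_self']
  · intro g _; simp [add_assoc, add_self']

omit [Finite k] in
theorem zeroC (G : Finset k[X]) (v : k[X]) (hG : ∀ g ∈ G, g + v ∈ G) (f : k[X] → ℂ) (w : ℂ)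
    (hw : w ≠ 1) (hf : ∀ g ∈ G, f (g + v) = w * f g) : ∑ g ∈ G, f g = 0 := by
  have e := shiftC G v hG f
  rw [sum_congr rfl hf, ← mul_sum] at e
  have : (w - 1) * ∑ g ∈ G, f g = 0 := by rw [sub_mul, e, one_mul, sub_self]
  exact (mul_eq_zero.1 this).resolve_left (sub_ne_zero.2 hw)

omit [Finite k] in
theorem vdc (G T : Finset k[X]) (v : k[X] → k[X]) (F : k[X] → ℂ)
    (hv : ∀ a b, v (a + b) = v a + v b) (hT : ∀ a ∈ T, ∀ b ∈ T, a + b ∈ T)
    (hG : ∀ w ∈ T, ∀ y ∈ G, y + v w ∈ G) (hne : T.Nonempty) :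
    ‖∑ y ∈ G, F y‖ ^ 2 * T.card ≤
      G.card * ∑ w ∈ T, ‖∑ y ∈ G, F (y + v w) * conj (F y)‖ := by
  have e1 : (T.card : ℂ) * ∑ y ∈ G, F y = ∑ y ∈ G, ∑ w ∈ T, F (y + v w) := by
    rw [sum_comm, sum_congr rfl (fun t ht => shiftC G (v t) (hG t ht) F)]
    simp
  have e2 : ∑ y ∈ G, ((‖∑ w ∈ T, F (y + v w)‖ ^ 2 : ℝ) : ℂ) =
      T.card * ∑ w ∈ T, ∑ y ∈ G, F (y + v w) * conj (F y) := by
    have : ∀ y, ((‖∑ w ∈ T, F (y + v w)‖ ^ 2 : ℝ) : ℂ) =
        ∑ t ∈ T, ∑ w ∈ T, F (y + v w) * conj (F (y + v t)) := by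
      intro y
      rw [← Complex.normSq_eq_norm_sq, ← Complex.mul_conj, map_sum, sum_mul_sum, sum_comm]
    simp only [this]
    rw [sum_comm, ← nsmul_eq_mul, ← sum_const]
    refine sum_congr rfl fun t ht => ?_
    rw [sum_comm, ← shiftC _ t fun _ hg => hT _ hg _ ht]
    refine sum_congr rfl fun w _ => ?_
    rw [← shiftC _ _ (hG t ht) fun y => F (y + v w) * conj (F y)]
    exact sum_congr rfl fun y _ => by rw [hv, add_comm (v w), add_assoc]
  have e3 : ∑ y ∈ G, ‖∑ w ∈ T, F (y + v w)‖ ^ 2 ≤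
      T.card * ∑ w ∈ T, ‖∑ y ∈ G, F (y + v w) * conj (F y)‖ := by
    have h0 : 0 ≤ ∑ y ∈ G, ‖∑ w ∈ T, F (y + v w)‖ ^ 2 := by positivity
    rw [← Complex.ofReal_sum] at e2
    calc _ = ‖((∑ y ∈ G, ‖∑ w ∈ T, F (y + v w)‖ ^ 2 : ℝ) : ℂ)‖ := by
          rw [Complex.norm_real, Real.norm_of_nonneg h0]
      _ ≤ _ := by
          rw [e2, norm_mul, Complex.norm_natCast]
          gcongr
          exact norm_sum_le _ _
  have e4 : (T.card : ℝ) * ‖∑ y ∈ G, F y‖ ≤ ∑ y ∈ G, ‖∑ w ∈ T, F (y + v w)‖ := by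
    rw [← Complex.norm_natCast, ← norm_mul, e1]
    exact norm_sum_le _ _
  have e5 := sq_sum_le_card_mul_sum_sq (s := G) (f := fun y => ‖∑ w ∈ T, F (y + v w)‖)
  have t0 : (0 : ℝ) < T.card := by exact_mod_cast hne.card_pos
  refine le_of_mul_le_mul_left ?_ t0
  calc _ = ((T.card : ℝ) * ‖∑ y ∈ G, F y‖) ^ 2 := by ring
    _ ≤ (∑ y ∈ G, ‖∑ w ∈ T, F (y + v w)‖) ^ 2 := by gcongr
    _ ≤ _ := e5
    _ ≤ G.card * (T.card * ∑ w ∈ T, ‖∑ y ∈ G, F (y + v w) * conj (F y)‖) := by gcongr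
    _ = _ := by ring

end Pool.Agent.P.MP_e94e4b_nt.LG.CW
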