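import Pool.Agent.P.MP_e94e4b_nt.LG.CWa

/-! Differencing of characters at infinity in characteristic two: the state and the step. -/

namespace Pool.Agent.P.MP_e94e4b_nt.LG.CW

open Polynomial Finset
open Pool.Agent.P.MP_8be758_nt.C2 Pool.Agent.P.MP_8be758_nt.L2
open scoped Classical ComplexConjugate

variable {k : Type} [Field k] [Finite k]

/-- the good shifts -/
def Gd (Dl : k[X]) (a i : ℕ) (L : k[X] → k[X]) (M w : k[X]) : Prop :=
  2 ^ i * a ≤ (L (Dl * w)).natDegree ∧ 2 ^ i * a ≤ (L (Dl * w) + M).natDegree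

/-- the invariant of the iterated differencing -/
structure St (Dl : k[X]) (la a b W t J i : ℕ) (L : k[X] → k[X]) (M : k[X]) (D : ℕ) (γ : k) :
    Prop where
  add : ∀ x y, L (x + y) = L x + L y
  top : ∀ y : k[X], y.Monic → y.natDegree = la → (L y).Monic ∧ (L y).natDegree = 2 ^ i * la
  up : ∀ x : k[X], x.natDegree ≤ b → (L x).natDegree ≤ 2 ^ i * b
  upM : M.natDegree ≤ 2 ^ i * b
  M0 : M ≠ 0
  g0 : γ ≠ 0
  upD : D + b ≤ 2 ^ i * b
  lo : 2 ^ (i + 1) * a ≤ D + M.natDegree + a
  small : ∀ x : k[X], x ≠ 0 → x.natDegree < J →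
    (L x).natDegree = x.natDegree + D ∧ (L x).leadingCoeff = γ * x.leadingCoeff
  bad : (((low k W).filter fun w => ¬ Gd Dl a i L M w).card : ℝ) ≤ 2 ^ (i + 1) * qq k ^ (W - t)

theorem deg_shift {Dl w : k[X]} {b W : ℕ} (hW : Dl.natDegree + W = b + 1) (h1 : 1 ≤ W)
    (hw : w ∈ low k W) : (Dl * w).natDegree ≤ b := by
  have := natDegree_le_of_mem_low hw
  have := natDegree_mul_le (p := Dl) (q := w)
  omega

omit [Finite k] in
theorem ne_of_deg {p : k[X]} {i a : ℕ} (ha : 1 ≤ a) (h : 2 ^ i * a ≤ p.natDegree) : p ≠ 0 := by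
  rintro rfl
  have : 0 < 2 ^ i * a := by positivity
  simp at h
  omega

variable [CharP k 2]

theorem card_shift (W : ℕ) {v : k[X]} (hv : v ∈ low k W) (p : k[X] → Prop) [DecidablePred p]
    [DecidablePred fun w => p (w + v)] :
    ((low k W).filter fun w => p (w + v)).card = ((low k W).filter p).card := by
  refine card_nbij' (fun g => g + v) (fun g => g + v) ?_ ?_ ?_ ?_
  · intro g hg
    simp only [coe_filter, Set.mem_ofPred_eq] at hg ⊢
    exact ⟨add_mem_low hg.1 hv, hg.2⟩
  · intro g hg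
    simp only [coe_filter, Set.mem_ofPred_eq] at hg ⊢
    exact ⟨add_mem_low hg.1 hv, by rw [add_assoc, add_self', add_zero]; exact hg.2⟩
  · intro g _; simp [add_assoc, add_self']
  · intro g _; simp [add_assoc, add_self']

theorem St.step {Dl : k[X]} {la a b W t J i : ℕ} {L : k[X] → k[X]} {M : k[X]} {D : ℕ} {γ : k}
    (h : St Dl la a b W t J i L M D γ) (hb : b < la) (hW : Dl.natDegree + W = b + 1) (h1 : 1 ≤ W)
    (ha : 1 ≤ a) (hJ : J + 2 ^ i * b ≤ 2 ^ i * a + b) {w : k[X]} (hw : w ∈ low k W)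
    (hg : Gd Dl a i L M w) :
    St Dl la a b W t J (i + 1) (fun y => L y * (L y + (L (Dl * w) + M))) (M * L (Dl * w))
      (D + (L (Dl * w) + M).natDegree) (γ * (L (Dl * w) + M).leadingCoeff) := by
  have h2 : (2 : k[X]) = 0 := CharTwo.two_eq_zero
  set A := L (Dl * w) with hA
  have a1 : A.natDegree ≤ 2 ^ i * b := h.up _ (deg_shift hW h1 hw)
  have a2 : (A + M).natDegree ≤ 2 ^ i * b := natDegree_add_le_of_degree_le a1 h.upM
  have a3 : A ≠ 0 := ne_of_deg ha hg.1
  have a4 : A + M ≠ 0 := ne_of_deg ha hg.2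
  have a5 : 2 ^ i * a ≤ A.natDegree := hg.1
  have a6 : 2 ^ i * a ≤ (A + M).natDegree := hg.2
  have p1 : 2 ^ i * b < 2 ^ i * la := Nat.mul_lt_mul_of_pos_left hb (by positivity)
  have e1 : ∀ n : ℕ, 2 ^ (i + 1) * n = 2 ^ i * n + 2 ^ i * n := fun n => by ring
  refine ⟨fun x y => ?_, fun y hy hd => ?_, fun x hx => ?_, ?_, mul_ne_zero h.M0 a3,
    mul_ne_zero h.g0 (leadingCoeff_ne_zero.2 a4), ?_, ?_, fun x hx hd => ?_, ?_⟩
  · rw [h.add]
    linear_combination (L x * L y) * h2
  · obtain ⟨m1, d1⟩ := h.top y hy hd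
    obtain ⟨m2, d2⟩ := monic_add_of_lt m1 (M := A + M) (by omega)
    exact ⟨m1.mul m2, by rw [m1.natDegree_mul m2, d2, d1, e1]⟩
  · have := h.up x hx
    have := natDegree_add_le_of_degree_le this a2
    have := natDegree_mul_le (p := L x) (q := L x + (A + M))
    rw [e1]; omega
  · have := natDegree_mul_le (p := M) (q := A)
    have := h.upM
    rw [e1]; omega
  · have := h.upD
    rw [e1]; omega
  · have := h.lo
    have e2 : 2 ^ (i + 1 + 1) * a = 2 ^ (i + 1) * a + 2 ^ i * a + 2 ^ i * a := by ring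
    rw [natDegree_mul h.M0 a3, e2]; omega
  · obtain ⟨d1, l1⟩ := h.small x hx hd
    have n1 : L x ≠ 0 := by
      rw [← leadingCoeff_ne_zero, l1]
      exact mul_ne_zero h.g0 (leadingCoeff_ne_zero.2 hx)
    have := h.upD
    have lt : (L x).natDegree < (A + M).natDegree := by omega
    have d2 := natDegree_add_eq_right_of_natDegree_lt lt
    have l2 := leadingCoeff_add_of_degree_lt (degree_lt_degree lt)
    have n2 : L x + (A + M) ≠ 0 := by
      rw [← leadingCoeff_ne_zero, l2]; exact leadingCoeff_ne_zero.2 a4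
    refine ⟨by rw [natDegree_mul n1 n2, d2, d1, add_assoc], ?_⟩
    rw [leadingCoeff_mul, l2, l1]; ring
  · have hs : ((low k W).filter fun v => ¬ Gd Dl a (i + 1) (fun y => L y * (L y + (A + M)))
        (M * A) v) ⊆ ((low k W).filter fun v => ¬ Gd Dl a i L M v) ∪
          ((low k W).filter fun v => ¬ Gd Dl a i L M (v + w)) := by
      intro v hv
      rw [mem_filter] at hv
      by_contra hn
      simp only [mem_union, mem_filter, hv.1, true_and, not_or, not_not] at hn
      obtain ⟨⟨g1, g2⟩, g3, g4⟩ := hn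
      rw [mul_add, h.add, ← hA] at g3 g4
      refine hv.2 ⟨?_, ?_⟩
      · show _ ≤ (L (Dl * v) * (L (Dl * v) + (A + M))).natDegree
        rw [← add_assoc, natDegree_mul (ne_of_deg ha g1) (ne_of_deg ha g4), e1]; omega
      · show _ ≤ (L (Dl * v) * (L (Dl * v) + (A + M)) + M * A).natDegree
        have e : L (Dl * v) * (L (Dl * v) + (A + M)) + M * A =
          (L (Dl * v) + A) * (L (Dl * v) + M) := by ring
        rw [e, natDegree_mul (ne_of_deg ha g3) (ne_of_deg ha g2), e1]; omega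
    have c1 := (card_le_card hs).trans (card_union_le _ _)
    rw [card_shift W hw fun v => ¬ Gd Dl a i L M v] at c1
    have c2 := h.bad
    calc _ ≤ ((_ + _ : ℕ) : ℝ) := by exact_mod_cast c1
      _ ≤ _ := by push_cast; rw [pow_succ 2 (i + 1)]; linarith

theorem St.init {Dl : k[X]} {la a b W t J : ℕ} (hD : Dl ≠ 0) (hW : Dl.natDegree + W = b + 1)
    (h1 : 1 ≤ W) (ha : 1 ≤ a) (hab : a + t = b + 1) (ht : t ≤ W) {w : k[X]} (hw : w ∈ low k W)
    (hn : w ∉ low k (W - t)) : St Dl la a b W t J 0 (fun y => y) (Dl * w) 0 1 := by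
  have key : ∀ v : k[X], v ∉ low k (W - t) → a ≤ (Dl * v).natDegree := by
    intro v hv
    have v0 : v ≠ 0 := by rintro rfl; exact hv (zero_mem_low _)
    have : ¬ v.natDegree < W - t := fun h => hv (mem_low_of_natDegree_lt h)
    rw [natDegree_mul hD v0]; omega
  have k1 := key w hn
  refine ⟨fun _ _ => rfl, fun y hy hd => ⟨hy, by simpa using hd⟩, fun x hx => by simpa using hx,
    by simpa using deg_shift hW h1 hw, ne_of_deg (i := 0) ha (by simpa using k1), one_ne_zero,
    by simp, by omega, fun x _ _ => ⟨rfl, by simp⟩, ?_⟩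
  have hs : ((low k W).filter fun v => ¬ Gd Dl a 0 (fun y => y) (Dl * w) v) ⊆
      ((low k W).filter fun v => v ∈ low k (W - t)) ∪
        ((low k W).filter fun v => v + w ∈ low k (W - t)) := by
    intro v hv
    rw [mem_filter] at hv
    by_contra hn
    simp only [mem_union, mem_filter, hv.1, true_and, not_or] at hn
    refine hv.2 ⟨by simpa using key v hn.1, ?_⟩
    have := key _ hn.2
    rw [mul_add] at this
    simpa using this
  have c1 := (card_le_card hs).trans (card_union_le _ _)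
  rw [card_shift W hw fun v => v ∈ low k (W - t)] at c1
  have c2 : ((low k W).filter fun v => v ∈ low k (W - t)).card ≤ (low k (W - t)).card :=
    card_le_card fun v hv => (mem_filter.1 hv).2
  have c3 := card_low' (k := k) (W - t)
  have c4 : ((((low k W).filter fun v => v ∈ low k (W - t)).card : ℕ) : ℝ) ≤ qq k ^ (W - t) := by
    rw [← c3]; exact_mod_cast c2
  calc _ ≤ ((_ + _ : ℕ) : ℝ) := by exact_mod_cast c1
    _ ≤ _ := by push_cast; linarith

end Pool.Agent.P.MP_e94e4b_nt.LG.CW
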