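import Pool.Agent.P.MP_e94e4b_nt.LG.CWb

/-! Differencing of characters at infinity in characteristic two: the bound. -/

namespace Pool.Agent.P.MP_e94e4b_nt.LG.CW

open Polynomial Finset
open Pool.Agent.P.MP_8be758_nt.C2 Pool.Agent.P.MP_8be758_nt.L2
open scoped Classical ComplexConjugate

variable {k : Type} [Field k] [Finite k]

theorem Ch.diff {c : ℕ} {χ : k[X] → ℂ} (h : Ch c χ) {Y A M : k[X]} (hY : Y.Monic)
    (hA : A.natDegree < Y.natDegree) (hM : M.natDegree < Y.natDegree) :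
    χ (Y + A) * conj (χ (Y + A + M)) * conj (χ Y * conj (χ (Y + M))) =
      conj (χ (Y * (Y + (A + M))) * conj (χ (Y * (Y + (A + M)) + M * A))) := by
  have hAM : (A + M).natDegree < Y.natDegree :=
    lt_of_le_of_lt (natDegree_add_le _ _) (max_lt hA hM)
  have e : Y * (Y + (A + M)) + M * A = (Y + A) * (Y + M) := by ring
  rw [e, h.mul _ _ hY (monic_add_of_lt hY hAM).1,
    h.mul _ _ (monic_add_of_lt hY hA).1 (monic_add_of_lt hY hM).1, add_assoc]
  simp only [map_mul, Complex.conj_conj]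
  ring

theorem mul_conj_one {z : ℂ} (h : ‖z‖ = 1) : z * conj z = 1 := by
  rw [Complex.mul_conj, Complex.normSq_eq_norm_sq, h]; simp

variable [CharP k 2]

theorem St.fin {c : ℕ} {χ : k[X] → ℂ} (hχ : Ch c χ) (hc : 1 ≤ c) (hex : ∃ z, χ (X ^ c + C z) ≠ 1)
    {Dl : k[X]} {la a b W t J i : ℕ} {L : k[X] → k[X]} {M : k[X]} {D : ℕ} {γ : k}
    (h : St Dl la a b W t J i L M D γ) (hD : Dl ≠ 0) (hb : b < la) (hJ : J ≤ b + 1)
    (A1 : Dl.natDegree + c + 2 ^ (i + 1) * b ≤ 2 ^ (i + 1) * la + b)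
    (A2 : 2 ^ (i + 1) * la + a < J + c + 2 ^ (i + 1) * a) (y0 : k[X]) :
    ∑ y ∈ Gs Dl y0 la, χ (L y) * conj (χ (L y + M)) = 0 := by
  obtain ⟨z, hz⟩ := hex
  have z0 : z ≠ 0 := by
    rintro rfl
    exact hz (by rw [map_zero, add_zero, hχ.X_pow])
  have e1 : ∀ n : ℕ, 2 ^ (i + 1) * n = 2 ^ i * n + 2 ^ i * n := fun n => by ring
  have p1 : 2 ^ i * b < 2 ^ i * la := Nat.mul_lt_mul_of_pos_left hb (by positivity)
  have u1 := h.upD
  have u2 := h.upM
  have u3 := h.lo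
  obtain ⟨e, he⟩ : ∃ e, Dl.natDegree + e + D + M.natDegree + c = 2 ^ (i + 1) * la :=
    ⟨2 ^ (i + 1) * la - (Dl.natDegree + D + M.natDegree + c), by
      have := e1 b
      omega⟩
  have lM := leadingCoeff_ne_zero.2 h.M0
  have lD := leadingCoeff_ne_zero.2 hD
  have lg := h.g0
  set z' := z / (M.leadingCoeff * γ * Dl.leadingCoeff) with hz'
  have z1 : z' ≠ 0 := div_ne_zero z0 (mul_ne_zero (mul_ne_zero lM lg) lD)
  set ξ : k[X] := Dl * (C z' * X ^ e) with hξ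
  have x0 : (C z' * X ^ e : k[X]) ≠ 0 := mul_ne_zero (C_ne_zero.2 z1) (pow_ne_zero _ X_ne_zero)
  have x1 : ξ ≠ 0 := mul_ne_zero hD x0
  have x2 : ξ.natDegree = Dl.natDegree + e := by
    rw [hξ, natDegree_mul hD x0, natDegree_C_mul_X_pow _ _ z1]
  have x3 : ξ.leadingCoeff = Dl.leadingCoeff * z' := by
    rw [hξ, leadingCoeff_mul, leadingCoeff_C_mul_X_pow]
  have x4 : ξ.natDegree < J := by omega
  obtain ⟨d1, l1⟩ := h.small ξ x1 x4
  have n1 : L ξ ≠ 0 := by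
    rw [← leadingCoeff_ne_zero, l1]
    exact mul_ne_zero lg (leadingCoeff_ne_zero.2 x1)
  have d2 : (M * L ξ).natDegree + c = 2 ^ (i + 1) * la := by
    rw [natDegree_mul h.M0 n1]; omega
  have l2 : (M * L ξ).leadingCoeff = z := by
    rw [leadingCoeff_mul, l1, x3, hz']; field_simp
  have d3 : (L ξ).natDegree ≤ 2 ^ i * b := h.up ξ (by omega)
  refine zeroC _ ξ (fun g hg => add_mem_Gs hg (mem_low_of_natDegree_lt (by omega))
    (dvd_mul_right _ _)) _ _ hz fun y hy => ?_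
  obtain ⟨y1, y2, -⟩ := mem_Gs.1 hy
  obtain ⟨m1, d4⟩ := h.top y y1 y2
  have hAM : (L ξ + M).natDegree < (L y).natDegree :=
    lt_of_le_of_lt (natDegree_add_le _ _) (max_lt (by omega) (by omega))
  obtain ⟨m2, d5⟩ := monic_add_of_lt m1 hAM
  have d6 : (L y * (L y + (L ξ + M))).natDegree = 2 ^ (i + 1) * la := by
    rw [m1.natDegree_mul m2, d5, d4, e1]
  have k1 := hχ.diff m1 (A := L ξ) (M := M) (by omega) (by omega)
  have k2 := hχ.chk hc (m1.mul m2) (M := M * L ξ) (by omega)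
  have k3 : (M * L ξ).coeff ((L y * (L y + (L ξ + M))).natDegree - c) = z := by
    rw [← l2, leadingCoeff]; congr 1; omega
  rw [k2, k3] at k1
  have n2 := mul_conj_one (hχ.nrm _ (m1.mul m2))
  have n3 := mul_conj_one (hχ.nrm _ m1)
  have n4 := mul_conj_one (hχ.nrm _ (monic_add_of_lt m1 (M := M) (by omega)).1)
  simp only [map_mul, Complex.conj_conj] at k1
  rw [h.add]
  linear_combination (χ (L y) * conj (χ (L y + M))) * k1 +
    (χ (X ^ c + C z) * χ (L y) * conj (χ (L y + M))) * n2 -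
    (χ (L y + L ξ) * conj (χ (L y + L ξ + M))) * (χ (L y + M) * conj (χ (L y + M))) * n3 -
    (χ (L y + L ξ) * conj (χ (L y + L ξ + M))) * n4

theorem fin_sq {x g η s : ℝ} (hg : 0 ≤ g) (hη : 0 ≤ η) (hs : 0 < s)
    (h : x ^ 2 * s ≤ g * (η ^ 2 * s * g + s * (2 * η ^ 2 * g))) : x ≤ 2 * η * g := by
  have h1 : x ^ 2 ≤ (2 * η * g) ^ 2 := by
    refine le_of_mul_le_mul_right (h.trans ?_) hs
    have : 0 ≤ η ^ 2 * s * g ^ 2 := by positivity
    nlinarith
  exact (abs_le_of_sq_le_sq' h1 (by positivity)).2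

omit [CharP k 2] in
theorem sum_gb (T : Finset k[X]) (p : k[X] → Prop) [DecidablePred p] (f : k[X] → ℝ) {g s : ℝ}
    (hs : 0 ≤ s) (h1 : ∀ w ∈ T, f w ≤ g) (h2 : ∀ w ∈ T, ¬ p w → f w ≤ s) :
    ∑ w ∈ T, f w ≤ (T.filter p).card * g + T.card * s := by
  rw [← sum_filter_add_sum_filter_not T p]
  refine add_le_add ?_ ?_
  · rw [← nsmul_eq_mul]
    exact sum_le_card_nsmul _ _ _ fun w hw => h1 w (mem_filter.1 hw).1
  · calc _ ≤ ((T.filter fun w => ¬ p w).card : ℝ) * s := by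
          rw [← nsmul_eq_mul]
          exact sum_le_card_nsmul _ _ _ fun w hw => h2 w (mem_filter.1 hw).1 (mem_filter.1 hw).2
      _ ≤ _ := by gcongr; exact filter_subset _ _

omit [Finite k] [CharP k 2] in
theorem norm_sum_le_card (G : Finset k[X]) (f : k[X] → ℂ) (h : ∀ y ∈ G, ‖f y‖ ≤ 1) :
    ‖∑ y ∈ G, f y‖ ≤ G.card := by
  refine (norm_sum_le _ _).trans ?_
  simpa using sum_le_card_nsmul G _ 1 h

theorem St.bound {c : ℕ} {χ : k[X] → ℂ} (hχ : Ch c χ) (hc : 1 ≤ c)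
    (hex : ∃ z, χ (X ^ c + C z) ≠ 1) {Dl : k[X]} {la a b W t J u : ℕ} (hD : Dl ≠ 0) (hb : b < la)
    (hW : Dl.natDegree + W = b + 1) (h1 : 1 ≤ W) (ha : 1 ≤ a) (hJ : J ≤ b + 1)
    (A1 : Dl.natDegree + c + 2 ^ u * b ≤ 2 ^ u * la + b) (A2 : 2 ^ u * la + a < J + c + 2 ^ u * a)
    (A3 : ∀ i, i < u → J + 2 ^ i * b ≤ 2 ^ i * a + b) {η : ℝ} (h0 : 0 ≤ η) (hη : η ≤ 1)
    (A4 : 2 ^ u * qq k ^ (W - t) ≤ η ^ 2 ^ u * qq k ^ W) (y0 : k[X]) (r : ℕ) :
    ∀ (i : ℕ) (L : k[X] → k[X]) (M : k[X]) (D : ℕ) (γ : k), i + r + 1 = u →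
      St Dl la a b W t J i L M D γ →
      ‖∑ y ∈ Gs Dl y0 la, χ (L y) * conj (χ (L y + M))‖ ≤
        2 * η ^ 2 ^ (i + 1) * (Gs Dl y0 la).card := by
  induction r with
  | zero =>
    intro i L M D γ hi h
    obtain rfl : u = i + 1 := by omega
    rw [h.fin hχ hc hex hD hb hJ A1 A2 y0, norm_zero]
    positivity
  | succ r ih =>
    intro i L M D γ hi h
    have p1 : 2 ^ i * b < 2 ^ i * la := Nat.mul_lt_mul_of_pos_left hb (by positivity)
    have hG : ∀ w ∈ low k W, ∀ y ∈ Gs Dl y0 la, y + Dl * w ∈ Gs Dl y0 la := fun w hw y hy =>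
      add_mem_Gs hy (mul_mem_low hw (by omega)) (dvd_mul_right _ _)
    have nF : ∀ y ∈ Gs Dl y0 la, ‖χ (L y) * conj (χ (L y + M))‖ = 1 := by
      intro y hy
      obtain ⟨y1, y2, -⟩ := mem_Gs.1 hy
      obtain ⟨m1, d4⟩ := h.top y y1 y2
      have := h.upM
      rw [norm_mul, Complex.norm_conj, hχ.nrm _ m1,
        hχ.nrm _ (monic_add_of_lt m1 (M := M) (by omega)).1, mul_one]
    have v1 := vdc (Gs Dl y0 la) (low k W) (fun w => Dl * w)
      (fun y => χ (L y) * conj (χ (L y + M))) (fun _ _ => mul_add _ _ _)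
      (fun _ ha _ hb => add_mem_low ha hb) hG ⟨0, zero_mem_low _⟩
    have v2 := sum_gb (low k W) (fun w => ¬ Gd Dl a i L M w)
      (fun w => ‖∑ y ∈ Gs Dl y0 la, χ (L (y + Dl * w)) * conj (χ (L (y + Dl * w) + M)) *
        conj (χ (L y) * conj (χ (L y + M)))‖) (g := (Gs Dl y0 la).card)
      (s := 2 * η ^ 2 ^ (i + 1 + 1) * (Gs Dl y0 la).card) (by positivity)
      (fun w hw => norm_sum_le_card _ _ fun y hy => by
        rw [norm_mul, Complex.norm_conj, nF _ hy, nF _ (hG w hw y hy), mul_one])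
      (fun w hw hg => by
        have s1 := h.step hb hW h1 ha (A3 i (by omega)) hw (not_not.1 hg)
        refine le_of_eq_of_le ?_ (ih _ _ _ _ _ (by omega) s1)
        rw [← Complex.norm_conj, map_sum]
        congr 1
        refine sum_congr rfl fun y hy => ?_
        obtain ⟨y1, y2, -⟩ := mem_Gs.1 hy
        obtain ⟨m1, d4⟩ := h.top y y1 y2
        have := h.upM
        have := h.up _ (deg_shift hW h1 hw)
        rw [h.add, hχ.diff m1 (by omega) (by omega), Complex.conj_conj])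
    have q0 := qq_pos (k := k)
    have b1 : (((low k W).filter fun w => ¬ Gd Dl a i L M w).card : ℝ) ≤
        (η ^ 2 ^ (i + 1)) ^ 2 * qq k ^ W := by
      calc _ ≤ _ := h.bad
        _ ≤ 2 ^ u * qq k ^ (W - t) := by
            gcongr
            · norm_num
            · omega
        _ ≤ _ := A4
        _ ≤ _ := by
            rw [← pow_mul, ← pow_succ]
            gcongr ?_ * _
            exact pow_le_pow_of_le_one h0 hη (Nat.pow_le_pow_right (by norm_num) (by omega))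
    rw [card_low'] at v1 v2
    refine fin_sq (s := qq k ^ W) (by positivity) (by positivity) (by positivity) (v1.trans ?_)
    gcongr
    refine v2.trans ?_
    rw [← pow_mul η (2 ^ (i + 1)) 2, ← pow_succ] at b1 ⊢
    gcongr

theorem Ch.bound {c : ℕ} {χ : k[X] → ℂ} (hχ : Ch c χ) (hc : 1 ≤ c)
    (hex : ∃ z, χ (X ^ c + C z) ≠ 1) {Dl : k[X]} {la a b W t J u : ℕ} (hD : Dl ≠ 0) (hb : b < la)
    (hW : Dl.natDegree + W = b + 1) (h1 : 1 ≤ W) (ha : 1 ≤ a) (hJ : J ≤ b + 1)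
    (hab : a + t = b + 1) (ht : t ≤ W) (hu : 1 ≤ u)
    (A1 : Dl.natDegree + c + 2 ^ u * b ≤ 2 ^ u * la + b) (A2 : 2 ^ u * la + a < J + c + 2 ^ u * a)
    (A3 : ∀ i, i < u → J + 2 ^ i * b ≤ 2 ^ i * a + b) {η : ℝ} (h0 : 0 ≤ η) (hη : η ≤ 1)
    (A4 : 2 ^ u * qq k ^ (W - t) ≤ η ^ 2 ^ u * qq k ^ W) (y0 : k[X]) :
    ‖∑ y ∈ Gs Dl y0 la, χ y‖ ≤ 2 * η * (Gs Dl y0 la).card := by
  have hG : ∀ w ∈ low k W, ∀ y ∈ Gs Dl y0 la, y + Dl * w ∈ Gs Dl y0 la := fun w hw y hy =>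
    add_mem_Gs hy (mul_mem_low hw (by omega)) (dvd_mul_right _ _)
  have nF : ∀ y ∈ Gs Dl y0 la, ‖χ y‖ = 1 := fun y hy => hχ.nrm _ (mem_Gs.1 hy).1
  have v1 := vdc (Gs Dl y0 la) (low k W) (fun w => Dl * w) χ (fun _ _ => mul_add _ _ _)
    (fun _ ha _ hb => add_mem_low ha hb) hG ⟨0, zero_mem_low _⟩
  have v2 := sum_gb (low k W) (fun w => w ∈ low k (W - t))
    (fun w => ‖∑ y ∈ Gs Dl y0 la, χ (y + Dl * w) * conj (χ y)‖) (g := (Gs Dl y0 la).card)
    (s := 2 * η ^ 2 * (Gs Dl y0 la).card) (by positivity)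
    (fun w hw => norm_sum_le_card _ _ fun y hy => by
      rw [norm_mul, Complex.norm_conj, nF _ hy, nF _ (hG w hw y hy), mul_one])
    (fun w hw hg => by
      have s1 := St.init (la := la) (J := J) hD hW h1 ha hab ht hw hg
      have s2 := St.bound hχ hc hex hD hb hW h1 ha hJ A1 A2 A3 h0 hη A4 y0 (u - 1) _ _ _ _ _
        (by omega) s1
      refine le_of_eq_of_le ?_ (s2.trans_eq (by norm_num))
      rw [← Complex.norm_conj, map_sum]
      congr 1
      refine sum_congr rfl fun y hy => ?_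
      rw [map_mul, Complex.conj_conj, mul_comm])
  have q0 := qq_pos (k := k)
  have b1 : (((low k W).filter fun w => w ∈ low k (W - t)).card : ℝ) ≤ η ^ 2 * qq k ^ W := by
    calc _ ≤ ((low k (W - t)).card : ℝ) := by
          exact_mod_cast card_le_card fun v hv => (mem_filter.1 hv).2
      _ ≤ 2 ^ u * qq k ^ (W - t) := by
          rw [card_low']
          exact le_mul_of_one_le_left (by positivity) (one_le_pow₀ (by norm_num))
      _ ≤ _ := A4
      _ ≤ _ := by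
          gcongr ?_ * _
          exact pow_le_pow_of_le_one h0 hη (Nat.le_self_pow (by omega) 2)
  rw [card_low'] at v1 v2
  refine fin_sq (s := qq k ^ W) (by positivity) (by positivity) (by positivity) (v1.trans ?_)
  gcongr
  refine v2.trans ?_
  gcongr

end Pool.Agent.P.MP_e94e4b_nt.LG.CW
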