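import Pool.Agent.P.MP_8be758_nt.L2.If

/-! Definitions for the project on primes near a square in characteristic two. -/

namespace Pool.Agent.P.MP_e94e4b_nt.LG

open Polynomial Finset
open Pool.Agent.P.MP_8be758_nt Pool.Agent.P.MP_8be758_nt.C2 Pool.Agent.P.MP_8be758_nt.L2
open scoped Classical ComplexConjugate

variable {k : Type} [Field k]

/-- the window: `N` is monic and `m` is within `E` of its degree -/
def Win (N : k[X]) (m E : ℕ) : Prop :=
  N.Monic ∧ N.natDegree ≤ m + E ∧ m ≤ N.natDegree + E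

/-- the number of multiples of `M` in the window -/
noncomputable def cz [Finite k] (N : k[X]) (m : ℕ) (M : k[X]) : ℝ :=
  (((low k m).filter (fun x => M ∣ N ^ 2 + x)).card : ℝ)

/-- the remainder term -/
noncomputable def rz [Finite k] (N : k[X]) (m : ℕ) (M : k[X]) : ℝ :=
  cz N m M - qq k ^ m / qq k ^ M.natDegree

/-- the Moebius sum over the divisors of degree `D` -/
noncomputable def MD [Finite k] (N : k[X]) (m D : ℕ) : ℝ :=
  ∑ d ∈ Mo k D, mu d * cz N m d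

/-- the number of primes in the window -/
noncomputable def PI [Finite k] (N : k[X]) (m : ℕ) : ℝ :=
  (((low k m).filter (fun x => Irreducible (N ^ 2 + x))).card : ℝ)

/-- the Moebius sum over the cofactors of `e` -/
noncomputable def MM [Finite k] (N : k[X]) (m : ℕ) (e : k[X]) : ℝ :=
  ∑ y ∈ low k (m - e.natDegree), mu (N ^ 2 /ₘ e + y)

/-- the sets of `r` primes of degree `a` -/
noncomputable def WW (k : Type) [Field k] [Finite k] (a r : ℕ) : Finset (Finset k[X]) :=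
  (Pd k a).powersetCard r

/-- the test function -/
noncomputable def GW [Finite k] (a r : ℕ) (V : k[X]) : ℝ :=
  (((WW k a r).filter (fun S => pr S ∣ V)).card : ℝ)

/-- its mean value -/
noncomputable def Gb (k : Type) [Field k] [Finite k] (a r : ℕ) : ℝ :=
  ((WW k a r).card : ℝ) / qq k ^ (r * a)

/-- the test function cut off at small degree -/
noncomputable def G1 [Finite k] (a r s0 : ℕ) (V : k[X]) : ℝ :=
  if s0 ≤ V.natDegree then GW a r V else 0

/-- the centred test function cut off at small degree -/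
noncomputable def G0 [Finite k] (a r s0 : ℕ) (V : k[X]) : ℝ :=
  if s0 ≤ V.natDegree then GW a r V - Gb k a r else 0

/-- the sum of the centred test function over a short progression -/
noncomputable def AA [Finite k] (a r σ : ℕ) (Δ V : k[X]) : ℝ :=
  ∑ t ∈ low k σ, (GW a r (V + Δ * t) - Gb k a r)

/-- the same, cut off at small degree -/
noncomputable def A0 [Finite k] (a r s0 σ : ℕ) (Δ V : k[X]) : ℝ :=
  if s0 ≤ V.natDegree then AA a r σ Δ V else 0

/-- the number of `t` of degree less than `σ` with `W` dividing `V + Δ t` -/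
noncomputable def ct [Finite k] (σ : ℕ) (Δ V W : k[X]) : ℝ :=
  (((low k σ).filter (fun t => W ∣ V + Δ * t)).card : ℝ)

/-- the number of solutions of the determinant inequality -/
noncomputable def DC (k : Type) [Field k] [Finite k] (h j : ℕ) : ℝ :=
  ((((low k h ×ˢ low k h) ×ˢ (low k h ×ˢ low k h)).filter
    (fun p => p.1.1 * p.2.2 + p.1.2 * p.2.1 ∈ low k j)).card : ℝ)

/-- the cubic form of two centres -/
noncomputable def cf (a0 a1 b0 b1 : k[X]) : k[X] :=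
  b1 * a0 ^ 2 + a1 * b0 ^ 2 + X * a1 * b1 * (a1 + b1)

/-- the number of `(a0, b0)` for given `(a1, b1)` -/
noncomputable def EK [Finite k] (h j : ℕ) (a1 b1 : k[X]) : ℝ :=
  (((low k h ×ˢ low k h).filter (fun p => cf p.1 a1 p.2 b1 ∈ low k j)).card : ℝ)

/-- the number of quadruples -/
noncomputable def EC (k : Type) [Field k] [Finite k] (h j : ℕ) : ℝ :=
  ∑ p ∈ low k h ×ˢ low k h, EK h j p.1 p.2

/-- a character at infinity of level `τ`: it sees the `τ` coefficients below the leading one -/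
def IsChar [Finite k] (τ : ℕ) (χ : k[X] → ℂ) : Prop :=
  (∀ f g : k[X], f.Monic → g.Monic → χ (f * g) = χ f * χ g) ∧
    (∀ f : k[X], f.Monic → ‖χ f‖ = 1) ∧ χ X = 1 ∧
    ∀ f g : k[X], f.Monic → g.Monic → f.natDegree = g.natDegree →
      f - g ∈ low k (f.natDegree - τ) → χ f = χ g

/-- not trivial on monic polynomials -/
def Ntr (χ : k[X] → ℂ) : Prop := ∃ f : k[X], f.Monic ∧ χ f ≠ 1

/-- a character of exact conductor `c` -/
def Cond [Finite k] (c : ℕ) (χ : k[X] → ℂ) : Prop :=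
  1 ≤ c ∧ IsChar c χ ∧ ∃ ζ : k, χ (X ^ c + C ζ) ≠ 1

/-- the character sum over a progression -/
noncomputable def YY [Finite k] (χ : k[X] → ℂ) (Δ y0 : k[X]) (l : ℕ) : ℂ :=
  ∑ y ∈ Gs Δ y0 l, χ y

/-- the Gauss sum at infinity -/
noncomputable def GS [Finite k] (χ : k[X] → ℂ) (n i : ℕ) (γ : k) : ℂ :=
  ∑ u ∈ Mo k n, χ u * (psi (γ * u.coeff i) : ℂ)

/-- the additive polynomial with the roots `0` and `vs` -/
noncomputable def Lm (vs : Multiset k[X]) (y : k[X]) : k[X] :=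
  y * (vs.map (fun v => y + v)).prod

/-- the degree lies in `[lo, hi)` -/
def Mid [Finite k] (lo hi : ℕ) (v : k[X]) : Prop := v ∈ low k hi ∧ v ∉ low k lo

/-- the state of the iterated differencing -/
def St [Finite k] (lo hi : ℕ) (vs : Multiset k[X]) (h1 : k[X]) : Prop :=
  (∀ x y, Lm vs (x + y) = Lm vs x + Lm vs y) ∧ Mid lo hi h1 ∧
    ∀ v ∈ vs, Mid lo hi v ∧ Mid lo hi (h1 + v)

/-- the bound of the iterated differencing with `s` steps left -/
def CB [Finite k] (χ : k[X] → ℂ) (Δ y0 : k[X]) (l lo hi e s : ℕ) (η : ℝ) : Prop :=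
  ∀ (vs : Multiset k[X]) (h1 : k[X]), St lo hi vs h1 → (vs.card + 1) * 2 ^ s = e →
    ‖∑ y ∈ Gs Δ y0 l, χ (Lm vs y) * conj (χ (Lm vs y + Lm vs h1))‖ ≤
      2 * η * ((Gs Δ y0 l).card : ℝ)

/-- the numerical parameters -/
structure Par (ν m ε E b β s σ L a r w K : ℕ) : Prop where
  h1 : ν ≤ m + E
  h2 : m ≤ ν + E
  h3 : ε + E ≤ m
  h4 : 2 * ν + β = 2 * s + ε
  h5 : b ≤ β
  h6 : β ≤ b + 1
  h7 : m ≤ ε + β + 2 * σ
  h8 : ε + β + 2 * σ ≤ m + 1
  h9 : ε + β + 4 * (L + b) ≤ m + 3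
  h10 : m ≤ ε + β + 4 * (L + b)
  hw : w = r * a
  h11 : s ≤ w + 2 * L
  h12 : w + 2 * L ≤ s + r
  h13 : 3 * a ≤ L
  h14 : L ≤ 5 * a
  h15 : 1 ≤ r
  h16 : r ≤ K
  h17 : 2 * s + L ≤ K * L
  h18 : 2000 * E ≤ ν
  h19 : 1000 * b ≤ E
  h20 : K ≤ b
  h21 : 20 ≤ b
  h22 : ν ^ 8 ≤ 2 ^ b

/-- the numerical conditions of the general Moebius bound -/
structure Pg (D l b β s σ L a r K : ℕ) : Prop where
  g1 : D + β = 2 * s
  g2 : l ≤ D
  g3 : b ≤ β
  g4 : β ≤ b + 1
  g5 : β + 4 * (L + b) ≤ l + 3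
  g6 : 3 * β + 2 * (L + b) ≤ s + 2
  g7 : 3 * a ≤ L
  g8 : L ≤ 5 * a
  g9 : 2 * b + 2 ≤ a
  g10 : 2 * s + L ≤ K * L
  g11 : 1 ≤ r
  g12 : r ≤ K
  g13 : s ≤ r * a + 2 * L
  g14 : β + 2 * σ ≤ l + 1
  g15 : 2 * β + σ ≤ s
  g16 : 4 ≤ b

/-- the factor `φ` is bounded and turns into a character on the lines through `d + low l` -/
def Lin [Finite k] (φ : k[X] → ℝ) (d B : k[X]) (l L : ℕ) : Prop :=
  (∀ f, |φ f| ≤ 1) ∧ ∀ x ∈ low k l, ∃ χ : k[X] → ℝ, IsCh χ ∧
    ∀ z ∈ low k L, φ (d + x + B * z ^ 4) = φ (d + x) * χ z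

/-- the bound for character sums needed in the variance -/
def YM (k : Type) [Field k] [Finite k] (ν m ε β s σ w : ℕ) : Prop :=
  ∀ (Δ y0 : k[X]) (s' τ l : ℕ) (χ : k[X] → ℂ), Δ.Monic → Δ.natDegree < β → s ≤ s' + β →
    s' < s → τ + σ + Δ.natDegree = s' → l + w = s' → IsChar τ χ → Ntr χ →
    ‖YY χ Δ y0 l‖ ^ 2 * qq k ^ (10 * β) * (qq k ^ ε + qq k ^ (ν - m / 2)) ≤
      qq k ^ (2 * l) * qq k ^ ε

/-- the concentration bound -/
def CN [Finite k] (N : k[X]) (m ε β s σ a r : ℕ) : Prop :=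
  ∀ B Δ : k[X], B ∈ Pd k β → Δ.Monic → Δ.natDegree < β →
    (∑ e ∈ Mo k ε, ∑ x ∈ low k (m - ε),
      |A0 a r (s - β) σ Δ (odp ((N ^ 2 /ₘ e + x) * B))|) * qq k ^ β ≤ qq k ^ (m + σ)

end Pool.Agent.P.MP_e94e4b_nt.LG
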