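import Pool.Agent.P.MP_e94e4b_nt.LG.Basic

/-! The steps of the project on primes near a square in characteristic two, as statements. -/

namespace Pool.Agent.P.MP_e94e4b_nt.LG

open Polynomial Finset
open Pool.Agent.P.MP_8be758_nt Pool.Agent.P.MP_8be758_nt.C2 Pool.Agent.P.MP_8be758_nt.L2
open scoped Classical ComplexConjugate

-- deps: L2.BIJ
def S_ID0 : Prop :=
  ∀ (k : Type) [Field k] [Finite k] (f : k[X]), f.Monic → 1 ≤ f.natDegree →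
    ∑ D ∈ range (f.natDegree + 1), ((f.natDegree : ℝ) - D) *
        ∑ d ∈ (Mo k D).filter (fun d => d ∣ f), mu d =
      if (pf f).card = 1 then (dg (pf f) : ℝ) else 0

-- deps:
def S_PP : Prop :=
  ∀ (k : Type) [Field k] [Finite k] [CharP k 2] (N : k[X]) (m : ℕ), N.Monic →
    1 ≤ N.natDegree → 3 * m ≤ 4 * N.natDegree →
    (((low k m).filter (fun x => (pf (N ^ 2 + x)).card = 1 ∧
      ¬ Irreducible (N ^ 2 + x))).card : ℝ) ≤ qq k ^ ((m + 1) / 2)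

-- deps: ID0 PP
def S_ID : Prop :=
  ∀ (k : Type) [Field k] [Finite k] [CharP k 2] (N : k[X]) (m : ℕ), N.Monic →
    1 ≤ N.natDegree → 3 * m ≤ 4 * N.natDegree →
    |∑ D ∈ range (2 * N.natDegree + 1), (2 * (N.natDegree : ℝ) - D) * MD N m D -
      2 * (N.natDegree : ℝ) * PI N m| ≤ 2 * (N.natDegree : ℝ) * qq k ^ ((m + 1) / 2)

-- deps: L2.BIJ L2.BASE
def S_MU0 : Prop :=
  ∀ (k : Type) [Field k] [Finite k] (D : ℕ),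
    ∑ d ∈ Mo k D, mu d = if D = 0 then 1 else if D = 1 then -qq k else 0

-- deps: L2.ORTH
def S_RF : Prop :=
  ∀ (k : Type) [Field k] [Finite k] [CharP k 2] (N M : k[X]) (m : ℕ), M ≠ 0 →
    (M.natDegree ≤ m → rz N m M = 0) ∧
    (m ≤ M.natDegree → rz N m M = (∑ h ∈ (low k (M.natDegree - m)).erase 0,
      psi (res M (h * N ^ 2))) / qq k ^ (M.natDegree - m))

-- deps: RF MU0
def S_T1 : Prop :=
  ∀ (k : Type) [Field k] [Finite k] [CharP k 2] (N : k[X]) (m : ℕ) (n : ℝ), 1 ≤ m →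
    ∑ D ∈ range (m + 1), (n - D) * MD N m D = qq k ^ m

-- deps: RF MU0
def S_T2 : Prop :=
  ∀ (k : Type) [Field k] [Finite k] [CharP k 2] (N : k[X]) (m D : ℕ) (Z : ℝ), m ≤ D → 2 ≤ D →
    0 ≤ Z → (∀ h ∈ low k (D - m), |∑ d ∈ Mo k D, mu d * psi (res d (h * N ^ 2))| ≤ Z) →
    |MD N m D| ≤ Z

-- deps:
def S_T3 : Prop :=
  ∀ (k : Type) [Field k] [Finite k] (N : k[X]) (m D ε : ℕ), N.Monic → m ≤ 2 * N.natDegree →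
    D + ε = 2 * N.natDegree → ε ≤ m → MD N m D = ∑ e ∈ Mo k ε, MM N m e

-- deps:
def S_LIN : Prop :=
  ∀ (k : Type) [Field k] [Finite k] [CharP k 2] (M A y u : k[X]) (j : ℕ), M ≠ 0 → y ≠ 0 →
    u ∈ low k (y.natDegree - j) → A.natDegree ≤ M.natDegree + y.natDegree + 2 * j →
    res (M * (y + u)) A = res (M * y) A + res (M * y ^ 2) (A * u)

-- deps: LIN L2.ORTH
def S_SP : Prop :=
  ∀ (k : Type) [Field k] [Finite k] [CharP k 2] (M A Δ y0 : k[X]) (l c1 : ℕ), M ≠ 0 → A ≠ 0 →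
    Δ ≠ 0 → M.natDegree + l ≤ A.natDegree → A.natDegree + 1 ≤ M.natDegree + l + c1 →
    c1 / 2 + Δ.natDegree ≤ l →
    |∑ y ∈ Gs Δ y0 l, psi (res (M * y) A)| ≤ qq k ^ (c1 - c1 / 4 + Δ.natDegree + 1)

-- deps: C2.FORM
def S_P1 : Prop :=
  ∀ (k : Type) [Field k] [Finite k] [CharP k 2] (d0 B : k[X]) (φ g : k[X] → ℝ)
    (l s L H a j0 J : ℕ) (Gm η : ℝ), d0.Monic → IsPr B → d0.natDegree + B.natDegree = 2 * s →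
    l ≤ d0.natDegree → (∀ V ∈ low k s, |g V| ≤ Gm) →
    (∀ V, g V ≠ 0 → V ≠ 0 ∧ s ≤ V.natDegree + j0 ∧ ∃ T : Finset k[X], T.Nonempty ∧
      (∀ P ∈ T, IsPr P ∧ P.natDegree = a) ∧ pr T ∣ V ∧ s ≤ dg T + 2 * L) →
    (∀ d, |φ d| ≤ 1) →
    (∀ x ∈ low k l, ∃ χ : k[X] → ℝ, IsCh χ ∧
      ∀ z ∈ low k (L + H), φ (d0 + x + B * z ^ 4) = φ (d0 + x) * χ z) →
    1 ≤ H → B.natDegree + 4 * (L + H) ≤ l + 3 → B.natDegree + 2 * (L + H) + 2 * j0 ≤ s + 2 →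
    3 * a ≤ L → 2 * H ≤ a → B.natDegree < a → 2 * s + L ≤ J * L → 0 ≤ η → η ≤ 1 →
    16 * 4 ^ J ≤ η ^ (2 ^ J) * qq k ^ H →
    |∑ x ∈ low k l, mu (d0 + x) * φ (d0 + x) * g (odp ((d0 + x) * B))| ≤
      Gm * qq k ^ l * (2 * η + 1 / qq k ^ B.natDegree + 2 / qq k ^ a + s / qq k ^ H)

-- deps: L2.GAUSS
def S_GM : Prop :=
  ∀ (k : Type) [Field k] [Finite k] (a r : ℕ),
    (∀ (V : k[X]) (K : ℕ), 1 ≤ a → V ≠ 0 → V.natDegree ≤ K * a → GW a r V ≤ 2 ^ K) ∧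
    (1 ≤ a → ((WW k a r).card : ℝ) ≤ qq k ^ (r * a)) ∧ 0 ≤ Gb k a r ∧ (1 ≤ a → Gb k a r ≤ 1) ∧
    (4 ≤ a → 2 * a * r ≤ 2 ^ a → 1 ≤ Gb k a r * (2 * a * r : ℝ) ^ r)

-- deps:
def S_CUT : Prop :=
  ∀ (k : Type) [Field k] [Finite k] [CharP k 2] (d B1 B2 : k[X]) (β s s0 : ℕ), d.Monic →
    B1 ∈ Pd k β → B2 ∈ Pd k β → d.natDegree + β = 2 * s → s0 + β ≤ s →
    (odp (d * B1)).natDegree < s0 → (odp (d * B2)).natDegree < s0 → B1 = B2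

-- deps: CUT GM
def S_K0 : Prop :=
  ∀ (k : Type) [Field k] [Finite k] [CharP k 2] (d0 : k[X]) (φ : k[X] → ℝ)
    (l β s s0 a r : ℕ), d0.Monic → d0.natDegree + β = 2 * s → l ≤ d0.natDegree → s0 + β ≤ s →
    1 ≤ a → (∀ f, |φ f| ≤ 1) →
    ((Pd k β).card : ℝ) * Gb k a r * |∑ x ∈ low k l, mu (d0 + x) * φ (d0 + x)| ≤
      ∑ B ∈ Pd k β, |∑ x ∈ low k l, mu (d0 + x) * φ (d0 + x) * G1 a r s0 (odp ((d0 + x) * B))| +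
        qq k ^ l + ∑ x ∈ low k l, |∑ B ∈ Pd k β, G0 a r s0 (odp ((d0 + x) * B))|

-- deps:
def S_P2A : Prop :=
  ∀ (k : Type) [Field k] [Finite k] [CharP k 2] (B1 B2 : k[X]) (β : ℕ), B1 ∈ Pd k β →
    B2 ∈ Pd k β → B1 ≠ B2 → ∃ Δ : k[X], Δ.Monic ∧ Δ.natDegree < β ∧
      ∀ (d0 : k[X]) (g : k[X] → ℝ) (Gm : ℝ) (l σ s0 a r : ℕ), β + 2 * σ ≤ l + 1 → β + σ ≤ s0 →
        (∀ x ∈ low k l, |g (odp ((d0 + x) * B2))| ≤ Gm) →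
        |∑ x ∈ low k l, G0 a r s0 (odp ((d0 + x) * B1)) * g (odp ((d0 + x) * B2))| * qq k ^ σ ≤
          Gm * ∑ x ∈ low k l, |A0 a r s0 σ Δ (odp ((d0 + x) * B1))|

-- deps: P2A
def S_P2 : Prop :=
  ∀ (k : Type) [Field k] [Finite k] [CharP k 2] (F : Finset k[X]) (cen : k[X] → k[X])
    (l β σ s0 a r : ℕ) (Gm Z : ℝ), β + 2 * σ ≤ l + 1 → β + σ ≤ s0 → 0 ≤ Gm → 0 ≤ Z →
    (∀ e ∈ F, ∀ x ∈ low k l, ∀ B ∈ Pd k β, |G0 a r s0 (odp ((cen e + x) * B))| ≤ Gm) →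
    (∀ B Δ : k[X], B ∈ Pd k β → Δ.Monic → Δ.natDegree < β →
      ∑ e ∈ F, ∑ x ∈ low k l, |A0 a r s0 σ Δ (odp ((cen e + x) * B))| ≤ Z * qq k ^ σ) →
    (∑ e ∈ F, ∑ x ∈ low k l, |∑ B ∈ Pd k β, G0 a r s0 (odp ((cen e + x) * B))|) ^ 2 ≤
      F.card * qq k ^ l * ((Pd k β).card * (F.card * qq k ^ l) * Gm ^ 2 +
        ((Pd k β).card : ℝ) ^ 2 * Gm * Z)

-- deps: P1 GM K0 P2
def S_GEN0 : Prop :=
  ∀ (k : Type) [Field k] [Finite k] [CharP k 2] (F : Finset k[X]) (cen : k[X] → k[X])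
    (φ : k[X] → ℝ) (D l b β s σ L a r K : ℕ) (η : ℝ), Pg D l b β s σ L a r K →
    (∀ e ∈ F, (cen e).Monic ∧ (cen e).natDegree = D) →
    (∀ e ∈ F, ∀ B ∈ Pd k β, Lin φ (cen e) B l (L + b)) → (∀ f, |φ f| ≤ 1) →
    (∀ B Δ : k[X], B ∈ Pd k β → Δ.Monic → Δ.natDegree < β →
      (∑ e ∈ F, ∑ x ∈ low k l, |A0 a r (s - β) σ Δ (odp ((cen e + x) * B))|) * qq k ^ β ≤
        F.card * qq k ^ (l + σ)) →
    0 ≤ η → η ≤ 1 → 16 * 4 ^ K ≤ η ^ (2 ^ K) * qq k ^ b →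
    ((Pd k β).card : ℝ) * Gb k a r *
        ∑ e ∈ F, |∑ x ∈ low k l, mu (cen e + x) * φ (cen e + x)| ≤
      F.card * qq k ^ l * ((Pd k β).card * 8 ^ K * (2 * η + (s + 3) / qq k ^ b) + 1 +
        √((Pd k β).card * 64 ^ K + ((Pd k β).card : ℝ) ^ 2 * 8 ^ K / qq k ^ β))

-- deps: GEN0 GM L2.GAUSS
def S_GEN : Prop :=
  ∀ K K' : ℕ, ∃ κ4 b0 : ℕ, 1 ≤ κ4 ∧
    ∀ (k : Type) [Field k] [Finite k] [CharP k 2] (F : Finset k[X]) (cen : k[X] → k[X])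
      (φ : k[X] → ℝ) (D l b β s σ L a r : ℕ), b0 ≤ b → s ≤ K' * b → Pg D l b β s σ L a r K →
      (∀ e ∈ F, (cen e).Monic ∧ (cen e).natDegree = D) →
      (∀ e ∈ F, ∀ B ∈ Pd k β, Lin φ (cen e) B l (L + b)) → (∀ f, |φ f| ≤ 1) →
      (∀ B Δ : k[X], B ∈ Pd k β → Δ.Monic → Δ.natDegree < β →
        (∑ e ∈ F, ∑ x ∈ low k l, |A0 a r (s - β) σ Δ (odp ((cen e + x) * B))|) * qq k ^ β ≤
          F.card * qq k ^ (l + σ)) →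
      (∑ e ∈ F, |∑ x ∈ low k l, mu (cen e + x) * φ (cen e + x)|) * qq k ^ (b / κ4) ≤
        F.card * qq k ^ l

-- deps: L2.ORTH
def S_POI : Prop :=
  ∀ (k : Type) [Field k] [Finite k] [CharP k 2] (W Δ V z : k[X]) (σ : ℕ), W ≠ 0 → Δ ≠ 0 →
    IsCoprime W Δ →
    (W.natDegree ≤ σ → ct σ Δ V W = qq k ^ σ / qq k ^ W.natDegree) ∧
    (σ ≤ W.natDegree → Δ ∣ W * z + V → ct σ Δ V W * qq k ^ (W.natDegree - σ) =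
      ∑ h ∈ low k (W.natDegree - σ), psi (res (W * Δ) (h * V)) * psi (res Δ (h * z)))

-- deps: POI
def S_AZ : Prop :=
  ∀ (k : Type) [Field k] [Finite k] [CharP k 2] (Δ V : k[X]) (a r σ : ℕ), Δ ≠ 0 →
    Δ.natDegree < a → r * a ≤ σ → AA a r σ Δ V = 0

-- deps: GEN LIN AZ
def S_MIDA : Prop :=
  ∃ κ5 D0 : ℕ, 1 ≤ κ5 ∧ ∀ (k : Type) [Field k] [Finite k] [CharP k 2] (A : k[X]) (D : ℕ),
    D0 ≤ D → 100 * A.natDegree ≤ 201 * D →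
    |∑ d ∈ Mo k D, mu d * psi (res d A)| * qq k ^ (D / κ5) ≤ qq k ^ D

-- deps:
def S_DET : Prop :=
  ∀ (k : Type) [Field k] [Finite k] (h j : ℕ),
    DC k h j ≤ 3 * ((h : ℝ) + 1) ^ 2 * qq k ^ (2 * h + j + 1)

-- deps:
def S_EK : Prop :=
  ∀ (k : Type) [Field k] [Finite k] [CharP k 2] (a1 b1 : k[X]) (h j : ℕ), a1 ≠ 0 →
    a1 ∈ low k h → b1.natDegree ≤ a1.natDegree → h ≤ j →
    (odp (a1 * b1) ≠ 0 → EK h j a1 b1 * qq k ^ (odp (a1 * b1)).natDegree ≤ qq k ^ j) ∧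
    EK h j a1 b1 ^ 2 * qq k ^ a1.natDegree ≤ qq k ^ (2 * h + j + 1)

-- deps: DET EK
def S_EE : Prop :=
  ∀ (k : Type) [Field k] [Finite k] [CharP k 2] (h j : ℕ),
    EC k h j ≤ 20 * ((h : ℝ) + 1) ^ 3 * qq k ^ (h + max h j + 4)

-- deps:
def S_E2 : Prop :=
  ∀ (k : Type) [Field k] [Finite k] [CharP k 2] (N B : k[X]) (ε β σ1 : ℕ), N.Monic →
    B ∈ Pd k β → β ≤ 2 * σ1 →
    (((Mo k ε ×ˢ Mo k ε).filter (fun p =>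
      odp (N ^ 2 /ₘ p.1 * B) + odp (N ^ 2 /ₘ p.2 * B) ∈ low k σ1)).card : ℝ) ≤
      EC k ((ε + β) / 2 + 1) (2 * ε + σ1 + β - N.natDegree)

-- deps:
def S_FIB : Prop :=
  ∀ (k : Type) [Field k] [Finite k] [CharP k 2] (F : Finset k[X]) (cen : k[X] → k[X])
    (B : k[X]) (A : k[X] → ℝ) (l β σ σ1 s : ℕ), B ∈ Pd k β → l ≤ 2 * σ + β →
    l + β ≤ 2 * σ1 + 1 → σ1 ≤ s → (∀ e ∈ F, odp (cen e * B) ∈ low k s) →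
    (∑ e ∈ F, ∑ x ∈ low k l, |A (odp ((cen e + x) * B))|) ^ 2 ≤
      qq k ^ (2 * σ + σ1) * (((F ×ˢ F).filter (fun p =>
        odp (cen p.1 * B) + odp (cen p.2 * B) ∈ low k σ1)).card : ℝ) * ∑ V ∈ low k s, A V ^ 2

-- deps:
def S_TOP : Prop :=
  ∀ (k : Type) [Field k] [Finite k] (τ : ℕ), ∃ (G : Type) (_ : CommGroup G) (_ : Fintype G)
    (θ : k[X] → G), (∀ f g : k[X], f.Monic → g.Monic → θ (f * g) = θ f * θ g) ∧ θ X = 1 ∧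
      (∀ f g : k[X], f.Monic → g.Monic → f.natDegree = g.natDegree →
        (θ f = θ g ↔ f - g ∈ low k (f.natDegree - τ))) ∧ ∀ x : G, ∃ f ∈ Mo k τ, θ f = x

-- deps:
def S_PLG : Prop :=
  ∀ (G : Type) [CommGroup G] [Fintype G] (w y : G → ℝ) (Y2 : ℝ),
    (∀ φ : G →* ℂ, φ ≠ 1 → ‖∑ g, (y g : ℂ) * φ g‖ ^ 2 ≤ Y2) → 0 ≤ Y2 →
    ∑ v, (∑ g, w g * y (g⁻¹ * v) - (∑ g, w g) * (∑ g, y g) / Fintype.card G) ^ 2 ≤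
      Y2 * ∑ g, w g ^ 2

-- deps: TOP PLG
def S_PLAN : Prop :=
  ∀ (k : Type) [Field k] [Finite k] (Ws Ys : Finset k[X]) (τ n1 n2 j : ℕ) (Y2 : ℝ),
    Ws ⊆ Mo k n1 → Ys ⊆ Mo k n2 → τ ≤ n1 → j + τ = n1 + n2 → 0 ≤ Y2 →
    (∀ χ : k[X] → ℂ, IsChar τ χ → Ntr χ → ‖∑ y ∈ Ys, χ y‖ ^ 2 ≤ Y2) →
    (∑ v ∈ Mo k τ, ((((Ws ×ˢ Ys).filter (fun p => p.1 * p.2 - v * X ^ j ∈ low k j)).card : ℝ) -
      Ws.card * Ys.card / qq k ^ τ) ^ 2) * qq k ^ τ ≤ Y2 * Ws.card * qq k ^ n1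

-- deps: PLAN
def S_VAR1 : Prop :=
  ∀ (k : Type) [Field k] [Finite k] [CharP k 2] (Ws : Finset k[X]) (Δ w0 y0 v0 : k[X])
    (τ σ w l s' : ℕ) (Y2 : ℝ), Ws ⊆ Mo k w → Δ.Monic → (∀ W ∈ Ws, Δ ∣ W - w0) →
    IsCoprime w0 Δ → Δ ∣ w0 * y0 - v0 → τ + σ + Δ.natDegree = s' → l + w = s' → τ ≤ w →
    Δ.natDegree ≤ l → 0 ≤ Y2 →
    (∀ χ : k[X] → ℂ, IsChar τ χ → Ntr χ → ‖YY χ Δ y0 l‖ ^ 2 ≤ Y2) →
    (∑ V ∈ Gs Δ v0 s', (∑ W ∈ Ws, ct σ Δ V W - Ws.card * qq k ^ σ / qq k ^ w) ^ 2) * qq k ^ τ ≤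
      qq k ^ σ * Y2 * Ws.card * qq k ^ w

-- deps: VAR1 GM
def S_VAR : Prop :=
  ∀ (k : Type) [Field k] [Finite k] [CharP k 2] (Δ : k[X]) (a r τ σ l s' : ℕ) (Y2 : ℝ),
    Δ.Monic → Δ.natDegree < a → 1 ≤ r → τ + σ + Δ.natDegree = s' → l + r * a = s' →
    τ ≤ r * a → Δ.natDegree ≤ l → 0 ≤ Y2 →
    (∀ (χ : k[X] → ℂ) (y0 : k[X]), IsChar τ χ → Ntr χ → ‖YY χ Δ y0 l‖ ^ 2 ≤ Y2) →
    (∑ V ∈ (low k (s' + 1)).filter (fun V => V.natDegree = s'), AA a r σ Δ V ^ 2) * qq k ^ τ ≤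
      qq k ^ (1 + 2 * Δ.natDegree + σ + 2 * (r * a)) * Y2

-- deps: FIB E2 EE VAR
def S_CON12 : Prop :=
  ∀ (k : Type) [Field k] [Finite k] [CharP k 2] (N : k[X]) (m ε E b β s σ L a r w K : ℕ),
    N.Monic → Par N.natDegree m ε E b β s σ L a r w K → YM k N.natDegree m ε β s σ w →
    CN N m ε β s σ a r

-- deps:
def S_CHK : Prop :=
  ∀ (k : Type) [Field k] [Finite k] (c : ℕ) (χ : k[X] → ℂ), IsChar c χ →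
    χ 1 = 1 ∧ (∀ n, χ (X ^ n) = 1) ∧
    ∀ (Z u : k[X]) (ζ : k), 1 ≤ c → Z.Monic → c ≤ Z.natDegree →
      u - C ζ * X ^ (Z.natDegree - c) ∈ low k (Z.natDegree - c) →
      χ (Z + u) = χ Z * χ (X ^ c + C ζ)

-- deps: CHK
def S_CND : Prop :=
  ∀ (k : Type) [Field k] [Finite k] (τ : ℕ) (χ : k[X] → ℂ), IsChar τ χ → Ntr χ →
    ∃ c, c ≤ τ ∧ Cond c χ

-- deps: CHK
def S_YZ : Prop :=
  ∀ (k : Type) [Field k] [Finite k] [CharP k 2] (c l : ℕ) (χ : k[X] → ℂ) (Δ y0 : k[X]),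
    Cond c χ → Δ ≠ 0 → c + Δ.natDegree ≤ l → YY χ Δ y0 l = 0

-- deps:
def S_VDCC : Prop :=
  ∀ (k : Type) [Field k] [Finite k] [CharP k 2] (G T : Finset k[X]) (F : k[X] → ℂ),
    (∀ x ∈ T, ∀ y ∈ T, x + y ∈ T) → (∀ g ∈ G, ∀ x ∈ T, g + x ∈ G) →
    ‖∑ g ∈ G, F g‖ ^ 2 * T.card ≤ G.card * ∑ x ∈ T, ‖∑ g ∈ G, F g * conj (F (g + x))‖

-- deps: CHK
def S_CW0 : Prop :=
  ∀ (k : Type) [Field k] [Finite k] [CharP k 2] (c l lo hi e : ℕ) (χ : k[X] → ℂ)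
    (Δ y0 : k[X]) (η : ℝ), Cond c χ → Δ ≠ 0 → hi ≤ l → 0 ≤ η →
    c + Δ.natDegree + 2 * (e * hi) + 1 ≤ 2 * (e * l) + 2 * e + hi →
    2 * (e * l) < c + 2 * (e * lo) → CB χ Δ y0 l lo hi e 0 η

-- deps: VDCC
def S_CWS : Prop :=
  ∀ (k : Type) [Field k] [Finite k] [CharP k 2] (c l lo hi e s : ℕ) (χ : k[X] → ℂ)
    (Δ y0 : k[X]) (η : ℝ), IsChar c χ → Δ ≠ 0 → Δ.natDegree ≤ lo → lo ≤ hi → hi ≤ l → 0 ≤ η →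
    e * qq k ^ lo ≤ η ^ 2 * qq k ^ hi → CB χ Δ y0 l lo hi e s (η ^ 2) →
    CB χ Δ y0 l lo hi e (s + 1) η

-- deps: VDCC CW0 CWS
def S_CW1 : Prop :=
  ∀ (k : Type) [Field k] [Finite k] [CharP k 2] (c l lo hi u : ℕ) (χ : k[X] → ℂ)
    (Δ y0 : k[X]) (η : ℝ), Cond c χ → Δ ≠ 0 → Δ.natDegree ≤ lo → lo ≤ hi → hi ≤ l → 0 ≤ η →
    η ≤ 1 → c + Δ.natDegree + 2 * (2 ^ u * hi) + 1 ≤ 2 * (2 ^ u * l) + 2 * 2 ^ u + hi →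
    2 * (2 ^ u * l) < c + 2 * (2 ^ u * lo) →
    2 ^ u * qq k ^ lo ≤ η ^ (2 ^ (u + 1)) * qq k ^ hi →
    ‖YY χ Δ y0 l‖ ≤ 2 * η * ((Gs Δ y0 l).card : ℝ)

-- deps: YZ CW1
def S_CHW : Prop :=
  ∀ K : ℕ, ∃ κ1 l0 : ℕ, 1 ≤ κ1 ∧ ∀ (k : Type) [Field k] [Finite k] [CharP k 2] (c l : ℕ)
    (χ : k[X] → ℂ) (Δ y0 : k[X]), l0 ≤ l → Cond c χ → Δ ≠ 0 → 8 * Δ.natDegree ≤ l →
    c ≤ K * l → ‖YY χ Δ y0 l‖ * qq k ^ (Δ.natDegree + l / κ1) ≤ 2 * qq k ^ l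

-- deps: CHK
def S_CLS : Prop :=
  ∀ (k : Type) [Field k] [Finite k] [CharP k 2] (c n i : ℕ) (χ : k[X] → ℂ) (g M : k[X]) (γ : k),
    IsChar c χ → c ≤ n → g.Monic → M.Monic → g.natDegree + i + 1 = M.natDegree →
    ∑ u ∈ Mo k n, χ u * (psi (res M (C γ * g * u)) : ℂ) = χ M * conj (χ g) * GS χ n i γ

-- deps: CHK
def S_GSZ : Prop :=
  ∀ (k : Type) [Field k] [Finite k] [CharP k 2] (c n i : ℕ) (χ : k[X] → ℂ) (γ : k),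
    Cond c χ → c ≤ n → (n < i + c → GS χ n i γ = 0) ∧ (i + c < n → γ ≠ 0 → GS χ n i γ = 0)

-- deps: CLS L2.ORTH
def S_GSB : Prop :=
  ∀ (k : Type) [Field k] [Finite k] [CharP k 2] (c n i : ℕ) (χ : k[X] → ℂ) (γ : k),
    IsChar c χ → 1 ≤ c → i + c = n → γ ≠ 0 → ‖GS χ n i γ‖ ^ 2 * qq k ^ c ≤ qq k ^ (2 * n + 1)

-- deps: CHK CLS GSZ GSB L2.ORTH
def S_YB : Prop :=
  ∀ (k : Type) [Field k] [Finite k] [CharP k 2] (c l j : ℕ) (χ : k[X] → ℂ) (Δ y0 : k[X])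
    (Z : ℝ), Cond c χ → Δ.Monic → j + l + 1 = Δ.natDegree + c →
    (∀ γ : k, ‖∑ g ∈ Mo k j, conj (χ g) * (psi (res Δ (C γ * g * y0)) : ℂ)‖ ≤ Z) →
    ‖YY χ Δ y0 l‖ ^ 2 * qq k ^ (2 * j) ≤ qq k ^ (c + 1) * Z ^ 2

-- deps:
def S_YC : Prop :=
  ∀ (k : Type) [Field k] [Finite k] [CharP k 2] (c j : ℕ) (χ : k[X] → ℂ) (Δ A : k[X]) (Z : ℝ),
    IsChar c χ → Δ.Monic →
    ‖∑ g ∈ Mo k j, conj (χ g) * (psi (res Δ (g * A)) : ℂ)‖ ≤ qq k ^ j ∧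
    ((∀ g0, ‖YY χ Δ g0 j‖ ≤ Z) →
      ‖∑ g ∈ Mo k j, conj (χ g) * (psi (res Δ (g * A)) : ℂ)‖ ≤ qq k ^ Δ.natDegree * Z)

-- deps: CND CHW
def S_YM1 : Prop :=
  ∀ K : ℕ, ∃ κ3 : ℕ, ∀ (k : Type) [Field k] [Finite k] [CharP k 2]
    (ν m ε E b β s σ L a r w : ℕ), Par ν m ε E b β s σ L a r w K → κ3 * b ≤ ν →
    ν - m / 2 ≤ ε → YM k ν m ε β s σ w

-- deps: CND YZ CHW YB YC
def S_YM2 : Prop :=
  ∃ κ0 : ℕ, ∀ (k : Type) [Field k] [Finite k] [CharP k 2]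
    (ν m ε E b β s σ L a r w K : ℕ), Par ν m ε E b β s σ L a r w K → κ0 * E ≤ ν →
    ε ≤ ν - m / 2 → ν ≤ 40 * ε → YM k ν m ε β s σ w

-- deps:
def S_BIL : Prop :=
  ∀ (k : Type) [Field k] [Finite k] (a r : ℕ) (F : k[X] → ℝ), (∀ f, |F f| ≤ 1) →
    |∑ S ∈ WW k a (r + 1), F (pr S)| ≤
      ∑ W ∈ Mo k (r * a), |∑ P ∈ Pd k a, F (W * P)| + r * qq k ^ (r * a)

-- deps: SP
def S_T2S : Prop :=
  ∀ (k : Type) [Field k] [Finite k] [CharP k 2] (Δ A : k[X]) (γ : k[X] → k[X] → ℝ)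
    (a l c1 : ℕ), Δ.Monic → A ≠ 0 → (∀ x y, |γ x y| ≤ 1) →
    Δ.natDegree + 2 * a + l ≤ A.natDegree → A.natDegree ≤ Δ.natDegree + a + l + c1 →
    c1 / 2 + Δ.natDegree ≤ l →
    (∑ W ∈ Mo k l, |∑ P ∈ Pd k a, psi (res (W * P * Δ) A) * γ (W %ₘ Δ) P|) ^ 2 ≤
      qq k ^ l * (qq k ^ (l + a) + qq k ^ (2 * a + 2 * Δ.natDegree + 1 + (c1 - c1 / 4)))

-- deps: POI AZ BIL T2S
def S_T2P : Prop :=
  ∀ (k : Type) [Field k] [Finite k] [CharP k 2] (Δ V : k[X]) (a r σ c1 : ℕ), Δ.Monic → V ≠ 0 →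
    Δ.natDegree < a → Δ.natDegree + 2 * a + r * a ≤ V.natDegree → V.natDegree ≤ σ + c1 →
    c1 / 2 + Δ.natDegree ≤ r * a →
    |AA a (r + 1) σ Δ V| ≤ r * qq k ^ (r * a) + √(qq k ^ (r * a) *
      (qq k ^ (r * a + a) + qq k ^ (2 * a + 2 * Δ.natDegree + 1 + (c1 - c1 / 4))))

-- deps: T2P
def S_CON3 : Prop :=
  ∀ (k : Type) [Field k] [Finite k] [CharP k 2] (N : k[X]) (m ε E b β s σ L a r w K : ℕ),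
    N.Monic → Par N.natDegree m ε E b β s σ L a r w K → 40 * ε ≤ N.natDegree →
    CN N m ε β s σ a r

-- deps:
def S_PARM : Prop :=
  ∀ κ : ℕ, 2000 ≤ κ → ∃ K : ℕ, ∀ κ3 : ℕ, 1000 * κ ≤ κ3 → ∃ ν0 : ℕ, ∀ ν m ε : ℕ, ν0 ≤ ν →
    ν ≤ m + ν / κ → m ≤ ν + ν / κ → ε + ν / κ ≤ m →
    ∃ β s σ L a r w : ℕ, Par ν m ε (ν / κ) (ν / κ3) β s σ L a r w K

-- deps: PARM CON12 CON3 YM1 YM2 GEN
def S_KEY : Prop :=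
  ∃ κ0 : ℕ, ∀ κ : ℕ, κ0 ≤ κ → ∃ κ2 ν0 : ℕ, 1 ≤ κ2 ∧
    ∀ (k : Type) [Field k] [Finite k] [CharP k 2] (N : k[X]) (m ε : ℕ), ν0 ≤ N.natDegree →
      Win N m (N.natDegree / κ) → ε + N.natDegree / κ ≤ m →
      (∑ e ∈ Mo k ε, |MM N m e|) * qq k ^ (N.natDegree / κ2) ≤ qq k ^ m

-- deps: ID T1 T2 T3 MIDA KEY
def S_FIN : Prop :=
  ∃ κ δ ν0 : ℕ, 1 ≤ κ ∧ 1 ≤ δ ∧
    ∀ (k : Type) [Field k] [Finite k] [CharP k 2] (N : k[X]) (m : ℕ), ν0 ≤ N.natDegree →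
      Win N m (N.natDegree / κ) →
      |2 * (N.natDegree : ℝ) * PI N m - qq k ^ m| * qq k ^ (N.natDegree / δ) ≤ qq k ^ m

end Pool.Agent.P.MP_e94e4b_nt.LG
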