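import Pool.Agent.P.MP_e94e4b_nt.W.Loc
import Pool.Agent.P.MP_8be758_nt.C2.TCOMP
import Pool.Agent.P.MP_8be758_nt.C2.TVDC
import Pool.Agent.P.MP_8be758_nt.C2.TLOC
import Pool.Agent.P.MP_8be758_nt.L2.Basic

/-! Iterated differencing for moduli that split into short coprime factors. -/

namespace Pool.Agent.P.MP_e94e4b_nt.LG

open Polynomial Finset Pool.Agent.P.MP_8be758_nt.C2 Pool.Agent.P.MP_8be758_nt.L2
open scoped Classical

variable {k : Type} [Field k]

/-- products of `j` bounded functions with short periods prime to `P` -/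
def P1_PF (P : k[X]) (L1 : ℕ) : ℕ → (k[X] → ℝ) → Prop
  | 0, f => ∃ e : ℝ, |e| ≤ 1 ∧ ∀ z, f z = e
  | j + 1, f => ∃ (V1 : k[X]) (a g : k[X] → ℝ), ¬ P ∣ V1 ∧ V1.natDegree ≤ L1 ∧ (∀ z, |a z| ≤ 1) ∧
      (∀ z y, a (z + V1 * y) = a z) ∧ P1_PF P L1 j g ∧ ∀ z, f z = a z * g z

/-- products of `j` pairwise coprime factors of degree at most `L1` -/
def P1_Fac (L1 : ℕ) : ℕ → k[X] → Prop
  | 0, V => IsUnit V
  | j + 1, V => ∃ V1 V2, V = V1 * V2 ∧ IsCoprime V1 V2 ∧ V1.natDegree ≤ L1 ∧ P1_Fac L1 j V2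

theorem P1_abs {P : k[X]} {L1 : ℕ} : ∀ (j : ℕ) (f : k[X] → ℝ), P1_PF P L1 j f → ∀ z, |f z| ≤ 1
  | 0, f, ⟨e, h1, h2⟩, z => by rw [h2]; exact h1
  | j + 1, f, ⟨_, a, g, _, _, h3, _, h5, h6⟩, z => by
    rw [h6, abs_mul]
    exact mul_le_one₀ (h3 z) (abs_nonneg _) (P1_abs j g h5 z)

theorem P1_diff {P : k[X]} {L1 : ℕ} (h : k[X]) :
    ∀ (j : ℕ) (f : k[X] → ℝ), P1_PF P L1 j f → P1_PF P L1 j fun z => f z * f (z + h)
  | 0, f, ⟨e, h1, h2⟩ => ⟨e * e, by
      rw [abs_mul]; exact mul_le_one₀ h1 (abs_nonneg _) h1, fun z => by simp only [h2]⟩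
  | j + 1, f, ⟨V1, a, g, h1, h2, h3, h4, h5, h6⟩ =>
    ⟨V1, fun z => a z * a (z + h), _, h1, h2, fun z => by
      rw [abs_mul]; exact mul_le_one₀ (h3 _) (abs_nonneg _) (h3 _), fun z y => by
      simp only [add_right_comm z _ h, h4], P1_diff h j g h5, fun z => by simp only [h6]; ring⟩

theorem P1_amul [Finite k] [CharP k 2] {V1 V2 w1 w2 : k[X]} (h1 : V1 ≠ 0) (h2 : V2 ≠ 0)
    (h : w1 * V1 + w2 * V2 = 1) (U N : k[X]) :
    DEC2_a (V1 * V2) U N = DEC2_a V1 U (N * w2) * DEC2_a V2 U (N * w1) := by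
  by_cases hw : ∃ w, V1 * V2 ∣ w * U - 1
  · obtain ⟨w, hw⟩ := hw
    rw [DEC2_eq hw, DEC2_eq ((dvd_mul_right _ _).trans hw), DEC2_eq ((dvd_mul_left _ _).trans hw),
      ← psi_add, ← res_split h1 h2]
    congr 2
    linear_combination -(w * N) * h
  · rw [DEC2_a, dif_neg hw]
    by_cases a1 : ∃ w, V1 ∣ w * U - 1
    · by_cases a2 : ∃ w, V2 ∣ w * U - 1
      · obtain ⟨x, x', hx⟩ := a1
        obtain ⟨y, y', hy⟩ := a2
        exact absurd ⟨x + y - x * y * U, -(x' * y'), by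
          linear_combination -(y * U - 1) * hx - V1 * x' * hy⟩ hw
      · rw [DEC2_a.eq_1 V2, dif_neg a2, mul_zero]
    · rw [DEC2_a.eq_1 V1, dif_neg a1, zero_mul]

theorem P1_split [Finite k] [CharP k 2] {P : k[X]} {L1 : ℕ} {Uf : k[X] → k[X]}
    (hU : ∀ M z y, M ∣ Uf (z + M * y) - Uf z) :
    ∀ (j : ℕ) (V : k[X]) (N : k[X] → k[X]), P1_Fac L1 j V → ¬ P ∣ V →
      (∀ M z y, M ∣ N (z + M * y) - N z) → P1_PF P L1 j fun z => DEC2_a V (Uf z) (N z)
  | 0, V, N, h, _, _ => ⟨1, by simp, fun z => by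
      show DEC2_a _ _ _ = _
      rw [DEC2_eq (w := 0) (IsUnit.dvd h), res_of_dvd (IsUnit.dvd h), psi_zero]⟩
  | j + 1, V, N, ⟨V1, V2, e, ⟨w1, w2, hw⟩, h3, h4⟩, hP, hN => by
    have n1 : ¬ P ∣ V1 := fun h => hP (e ▸ h.mul_right _)
    have n2 : ¬ P ∣ V2 := fun h => hP (e ▸ h.mul_left _)
    refine ⟨V1, fun z => DEC2_a V1 (Uf z) (N z * w2), _, n1, h3, fun z => DEC2_abs _ _ _,
      fun z y => DEC2_congr (hU _ _ _) (by rw [← sub_mul]; exact (hN _ _ _).mul_right _),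
      P1_split hU j V2 (fun z => N z * w1) h4 n2
        (fun M z y => by rw [← sub_mul]; exact (hN _ _ _).mul_right _), fun z => ?_⟩
    rw [e]
    exact P1_amul (fun h => n1 (by simp [h])) (fun h => n2 (by simp [h])) hw _ _

theorem P1_fac {L1 : ℕ} : ∀ (j : ℕ) (V : k[X]), V ≠ 0 →
    (∀ P e, IsPr P → P ^ e ∣ V → e * P.natDegree ≤ L1) → 2 * V.natDegree ≤ j * L1 → P1_Fac L1 j V
  | 0, V, h0, _, h => by
    obtain ⟨c, rfl⟩ := natDegree_eq_zero.1 (show V.natDegree = 0 by omega)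
    exact isUnit_C.2 (Ne.isUnit (by simpa using h0))
  | j + 1, V, h0, hP, h => by
    by_cases hV : V.natDegree ≤ L1
    · exact ⟨V, 1, (mul_one _).symm, isCoprime_one_right, hV, P1_fac j 1 one_ne_zero
        (fun P e a b => hP P e a (b.trans (one_dvd _))) (by simp)⟩
    set p : ℕ → Prop := fun n => ∃ V1 V2, V = V1 * V2 ∧ IsCoprime V1 V2 ∧ V1.natDegree = n with hp
    obtain ⟨V1, V2, e, hc, hd⟩ : p (Nat.findGreatest p L1) := Nat.findGreatest_spec (Nat.zero_le _)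
      ⟨1, V, (one_mul _).symm, isCoprime_one_left, natDegree_one⟩
    have hle := Nat.findGreatest_le (P := p) L1
    have a1 : V1 ≠ 0 := left_ne_zero_of_mul (e ▸ h0)
    have a2 : V2 ≠ 0 := right_ne_zero_of_mul (e ▸ h0)
    have a3 : V.natDegree = V1.natDegree + V2.natDegree := by rw [e, natDegree_mul a1 a2]
    refine ⟨V1, V2, e, hc, by omega, P1_fac j V2 a2
      (fun P n a b => hP P n a (e ▸ b.mul_left _)) ?_⟩
    by_contra hn
    obtain ⟨Q, q1, q2⟩ := exists_isPr_dvd (f := V2)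
      (fun hu => by have := natDegree_eq_zero_of_isUnit hu; omega) a2
    obtain ⟨n, V3, n1, n2⟩ := WfDvdMonoid.max_power_factor a2 q1.2
    have n0 : n ≠ 0 := by rintro rfl; exact n1 (by simpa [n2] using q2)
    have b1 := hP Q n q1 (by rw [e, n2]; exact (dvd_mul_right _ _).mul_left _)
    have b2 : IsCoprime (Q ^ n) V3 := (q1.2.coprime_iff_not_dvd.2 n1).pow_left
    rw [n2] at hc
    have b3 : n * Q.natDegree ≤ _ := Nat.le_findGreatest (P := p) b1
      ⟨Q ^ n, V1 * V3, by rw [e, n2]; ring, hc.of_mul_right_left.symm.mul_right b2, natDegree_pow _ _⟩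
    have b4 : 1 ≤ n * Q.natDegree := Nat.mul_pos (Nat.pos_of_ne_zero n0) q1.pos
    have b5 : V1.natDegree + n * Q.natDegree ≤ _ := Nat.le_findGreatest (P := p) (n := L1)
      (by rw [add_mul] at h; omega) ⟨V1 * Q ^ n, V3, by rw [e, n2]; ring,
        hc.of_mul_right_right.mul_left b2,
        by rw [natDegree_mul a1 (pow_ne_zero _ q1.ne_zero), natDegree_pow]⟩
    omega

theorem P1_str {V : k[X]} {T : Finset k[X]} {L1 a : ℕ} (h0 : V ≠ 0) (hT : T.Nonempty)
    (hp : ∀ P ∈ T, IsPr P ∧ P.natDegree = a) (hd : pr T ∣ V) (hs : V.natDegree < dg T + 2 * L1)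
    (ha : 3 * a ≤ L1) (hR : ∀ R : k[X], R.Monic → a ≤ R.natDegree → R.natDegree ≤ L1 → ¬ R ^ 2 ∣ V) :
    ∃ P V1, IsPr P ∧ a ≤ P.natDegree ∧ P.natDegree ≤ 2 * L1 ∧ V = V1 * P ∧ ¬ P ∣ V1 ∧
      ∀ Q e, IsPr Q → Q ^ e ∣ V1 → e * Q.natDegree ≤ L1 := by
  obtain ⟨c, hc⟩ := hd
  have hp1 : ∀ P ∈ T, IsPr P := fun P hP => (hp P hP).1
  have c0 : c ≠ 0 := right_ne_zero_of_mul (hc ▸ h0)
  have c1 : c.natDegree < 2 * L1 := by
    rw [hc, natDegree_mul (monic_pr hp1).ne_zero c0, natDegree_pr hp1] at hs; omega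
  have hA : ∀ Q, IsPr Q → L1 < Q.natDegree → IsCoprime Q (pr T) := fun Q q h =>
    q.2.coprime_iff_not_dvd.2 fun h' => by
      have := (hp Q ((dvd_pr_iff hp1 q).1 h')).2; omega
  have hB : ∀ Q e, IsPr Q → Q ^ e ∣ V → 2 ≤ e → e * Q.natDegree ≤ L1 := by
    intro Q e q h he
    have h2 := (pow_dvd_pow Q he).trans h
    have q1 := q.pos
    by_cases a1 : L1 < Q.natDegree
    · have := natDegree_le_of_dvd ((hA Q q a1).pow_left.dvd_of_dvd_mul_left (hc ▸ h2)) c0
      rw [natDegree_pow] at this; omega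
    by_cases a2 : a ≤ Q.natDegree
    · exact absurd h2 (hR Q q.1 a2 (by omega))
    by_contra a3
    have b1 := Nat.div_mul_le_self (a - 1) Q.natDegree
    have b2 := Nat.lt_div_mul_add (a := a - 1) q1
    generalize (a - 1) / Q.natDegree = j at b1 b2
    refine hR (Q ^ (j + 1)) (q.1.pow _) (by rw [natDegree_pow, add_mul]; omega)
      (by rw [natDegree_pow, add_mul]; omega) (?_)
    rw [← pow_mul]
    refine (pow_dvd_pow Q ?_).trans h
    by_contra b3
    have := Nat.mul_le_mul_right Q.natDegree (show e ≤ j + j + 1 by omega)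
    rw [add_mul, add_mul] at this
    omega
  by_cases hQ : ∃ P, IsPr P ∧ P ∣ V ∧ L1 < P.natDegree
  · obtain ⟨P, p1, p2, p3⟩ := hQ
    have p4 := (hA P p1 p3).dvd_of_dvd_mul_left (hc ▸ p2)
    obtain ⟨V1, e⟩ := p2
    have p5 : ¬ P ∣ V1 := fun h => by
      have := hB P 2 p1 (by rw [e, sq]; exact mul_dvd_mul_left _ h) le_rfl; omega
    refine ⟨P, V1, p1, by omega, (natDegree_le_of_dvd p4 c0).trans c1.le, by rw [e, mul_comm], p5,
      fun Q n q h => ?_⟩
    have h1 : Q ^ n ∣ V := e ▸ h.mul_left _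
    rcases n with _ | _ | n
    · simp
    · by_contra a1
      rw [zero_add, pow_one] at h h1
      have := natDegree_le_of_dvd ((p1.coprime q fun e => p5 (e ▸ h)).mul_dvd p4
        ((hA Q q (by omega)).dvd_of_dvd_mul_left (hc ▸ h1))) c0
      rw [natDegree_mul p1.ne_zero q.ne_zero] at this
      omega
    · exact hB Q _ q h1 (by omega)
  · obtain ⟨P, hP⟩ := hT
    obtain ⟨p1, p2⟩ := hp P hP
    obtain ⟨V1, e⟩ : P ∣ V := hc ▸ ((dvd_pr_iff hp1 p1).2 hP).mul_right _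
    refine ⟨P, V1, p1, p2.ge, by omega, by rw [e, mul_comm], fun h => hR P p1.1 p2.ge (by omega)
      (by rw [e, sq]; exact mul_dvd_mul_left _ h), fun Q n q h => ?_⟩
    have h1 : Q ^ n ∣ V := e ▸ h.mul_left _
    rcases n with _ | _ | n
    · simp
    · by_contra a1
      exact hQ ⟨Q, q, by simpa using h1, by omega⟩
    · exact hB Q _ q h1 (by omega)

variable [Finite k] [CharP k 2]

theorem P1_base {P c u b : k[X]} (hP : IsPr P) (hc : ¬ P ∣ c) (hb : ¬ P ∣ b) {L1 H : ℕ}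
    (hH : 2 * H ≤ P.natDegree) (hL : P.natDegree ≤ 2 * L1) {T : Finset k[X]} (hT : T.Nonempty)
    (hd : ∀ x ∈ T, ∀ y ∈ T, P ∣ x + y → x = y) {χ : k[X] → ℝ} (hχ : IsCh χ) :
    |∑ z ∈ low k (L1 + H), χ z * ∏ x ∈ T, lk P c (u + b * (z + x))| * qq k ^ H ≤
      (7 * T.card + 9) * qq k ^ (L1 + H) := by
  have h2 : (2 : k[X]) = 0 := CharTwo.two_eq_zero
  have hq := qq_pos (k := k)
  set L := min (L1 + H) P.natDegree with hLd
  have inner : ∀ z ∈ low k (L1 + H), |∑ y ∈ low k L, χ (z + y) *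
      ∏ x ∈ T, lk P c (u + b * (z + y + x))| ≤ (7 * T.card + 9) * √(qq k ^ P.natDegree) := by
    intro z _
    have := p_COMP k {P} (fun _ y => ∏ x ∈ T, lk P c (u + b * (z + x) + b * y))
      (fun _ => (7 * T.card + 9) * √(qq k ^ P.natDegree)) χ L (by simpa [IsPr] using hP)
      (fun Q hQ x y => by
        rw [mem_singleton.1 hQ]
        exact prod_congr rfl fun i _ => lk_congr (by simp) ⟨b * y, by ring⟩)
      (fun Q hQ l => by
        rw [mem_singleton.1 hQ]
        refine W.lks p_LOC T (fun _ => c) (fun x => u + b * (z + x)) (fun _ => b) l hP.1 hP.2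
          (fun _ _ => hb) (fun i hi j hj w a1 a2 => hd i hi j hj ?_)
          (hT.imp fun _ h => ⟨h, hc⟩)
        refine (hP.prime.dvd_or_dvd ?_).resolve_left hb
        convert dvd_add a1 a2 using 1
        linear_combination -(u + b * z + b * w) * h2) hχ.1 hχ.2 (by simp [hLd])
    simp only [prod_singleton] at this
    rw [sum_congr rfl (g := fun y => χ z * (χ y * ∏ x ∈ T, lk P c (u + b * (z + x) + b * y)))
      fun y _ => by
        rw [hχ.1, mul_assoc]
        congr 2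
        exact prod_congr rfl fun _ _ => by congr 1; ring, ← mul_sum, abs_mul]
    rcases hχ.2 z with h | h <;> simpa [h] using this
  have havg := sum_avg (low k (L1 + H)) (low k L) (fun y => y)
    (fun t ht g hg => add_mem_low hg (low_mono (min_le_left _ _) ht))
    fun z => χ z * ∏ x ∈ T, lk P c (u + b * (z + x))
  have h3 := (abs_sum_le_sum_abs _ _).trans (sum_le_sum inner)
  rw [← havg, sum_const, nsmul_eq_mul, card_low', card_low', abs_mul,
    abs_of_pos (pow_pos hq L)] at h3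
  have h4 : √(qq k ^ P.natDegree) * qq k ^ H ≤ qq k ^ L := by
    refine abs_le_of_sq_le_sq' ?_ (by positivity) |>.2
    rw [mul_pow, Real.sq_sqrt (by positivity), ← pow_mul, ← pow_mul, ← pow_add]
    exact qq_pow_mono (by omega)
  refine le_of_mul_le_mul_left ?_ (pow_pos hq L)
  calc _ = _ * qq k ^ H := (mul_assoc _ _ _).symm
    _ ≤ _ := mul_le_mul_of_nonneg_right h3 (by positivity)
    _ = (7 * T.card + 9) * qq k ^ (L1 + H) * (√(qq k ^ P.natDegree) * qq k ^ H) := by ring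
    _ ≤ _ := by rw [mul_comm (qq k ^ L)]; gcongr

theorem P1_vdc {P c u b : k[X]} (hP : IsPr P) (hc : ¬ P ∣ c) (hb : ¬ P ∣ b) {L1 H J : ℕ}
    (hH : 2 * H ≤ P.natDegree) (hL : P.natDegree ≤ 2 * L1) :
    ∀ (j : ℕ) (f : k[X] → ℝ) (T : Finset k[X]) (χ : k[X] → ℝ) (η : ℝ), P1_PF P L1 j f →
      T.Nonempty → (∀ x ∈ T, ∀ y ∈ T, P ∣ x + y → x = y) → T.card * 2 ^ j ≤ 2 ^ J → IsCh χ →
      0 ≤ η → η ≤ 1 → 16 * 4 ^ J ≤ η ^ 2 ^ j * qq k ^ H →
      |∑ z ∈ low k (L1 + H), f z * (χ z * ∏ x ∈ T, lk P c (u + b * (z + x)))| ≤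
        2 * η * qq k ^ (L1 + H)
  | 0, f, T, χ, η, ⟨e, e1, e2⟩, hT, hd, hJ, hχ, h0, _, hη => by
    have hq := qq_pos (k := k)
    have h1 := P1_base (u := u) hP hc hb hH hL hT hd hχ
    have h2 : (T.card : ℝ) ≤ 4 ^ J := by
      have : T.card ≤ 4 ^ J := (by simpa using hJ : T.card ≤ 2 ^ J).trans
        (Nat.pow_le_pow_left (by norm_num) _)
      exact_mod_cast this
    have h3 : (1 : ℝ) ≤ 4 ^ J := one_le_pow₀ (by norm_num)
    simp only [e2, ← mul_sum, abs_mul, pow_zero, pow_one] at hη ⊢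
    refine (mul_le_of_le_one_left (abs_nonneg _) e1).trans
      (le_of_mul_le_mul_right (h1.trans ?_) (pow_pos hq H))
    calc _ ≤ (2 * (η * qq k ^ H)) * qq k ^ (L1 + H) := by gcongr; linarith
      _ = _ := by ring
  | j + 1, f, T, χ, η, ⟨V1, a, g, v1, v2, a1, a2, g1, e⟩, hT, hd, hJ, hχ, h0, h1, hη => by
    have h2 : (2 : k[X]) = 0 := CharTwo.two_eq_zero
    have hq := qq_pos (k := k)
    obtain ⟨β, hβ⟩ : ∃ β : k[X] → ℝ, ∀ z,
      β z = g z * (χ z * ∏ x ∈ T, lk P c (u + b * (z + x))) := ⟨_, fun _ => rfl⟩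
    have hβ1 : ∀ z, |β z| ≤ 1 := fun z => by
      rw [hβ, abs_mul, abs_mul, Finset.abs_prod]
      refine mul_le_one₀ (P1_abs j g g1 z) (by positivity) (mul_le_one₀ ?_ (by positivity)
        (prod_le_one (fun _ _ => abs_nonneg _) fun _ _ => abs_lk_le _ _ _))
      rcases hχ.2 z with h | h <;> simp [h]
    have hv := p_VDC k a β V1 (L1 + H) H (by omega) a1 a2
    set Q : ℝ := qq k ^ (L1 + H) with hQ
    have hone : ∀ y ∈ low k H, |∑ x ∈ low k (L1 + H), β x * β (x + V1 * y)| ≤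
        Q * (if ∃ p ∈ T ×ˢ T, P ∣ p.1 + p.2 + V1 * y then 1 else 0) + 2 * η ^ 2 * Q := by
      intro y _
      split_ifs with hbad
      · refine (abs_sum_le_sum_abs _ _).trans
          ((sum_le_card_nsmul _ _ (1 : ℝ) fun x _ => ?_).trans ?_)
        · rw [abs_mul]
          exact mul_le_one₀ (hβ1 _) (abs_nonneg _) (hβ1 _)
        · rw [nsmul_eq_mul, card_low']
          exact le_add_of_nonneg_right (by positivity)
      have hb2 : ∀ x ∈ T, ∀ x' ∈ T, ¬ P ∣ x + x' + V1 * y := fun x hx x' hx' h =>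
        hbad ⟨(x, x'), mk_mem_product hx hx', h⟩
      have hdis : Disjoint T (T.image (· + V1 * y)) := disjoint_left.2 fun x hx hx' => by
        obtain ⟨x', a, b⟩ := mem_image.1 hx'
        exact hb2 x hx x' a (by rw [add_assoc, b, add_self']; exact dvd_zero _)
      have := P1_vdc (u := u) (J := J) hP hc hb hH hL j _ (T ∪ T.image (· + V1 * y)) (fun _ => 1)
        (η ^ 2) (P1_diff (V1 * y) j g g1) (hT.mono subset_union_left) (fun x hx x' hx' h => by
          rcases mem_union.1 hx with hx | hx <;> rcases mem_union.1 hx' with hx' | hx'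
          · exact hd x hx x' hx' h
          · obtain ⟨w, a, rfl⟩ := mem_image.1 hx'
            exact absurd (by rwa [← add_assoc] at h) (hb2 x hx w a)
          · obtain ⟨w, a, rfl⟩ := mem_image.1 hx
            exact absurd (by rwa [add_right_comm] at h) (hb2 w a x' hx')
          · obtain ⟨w, a, rfl⟩ := mem_image.1 hx
            obtain ⟨w', a', rfl⟩ := mem_image.1 hx'
            rw [hd w a w' a' (by convert h using 1; linear_combination -(V1 * y) * h2)])
        (le_trans (Nat.mul_le_mul_right _ ((card_union_le _ _).trans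
          (Nat.add_le_add_left card_image_le _))) (by rw [pow_succ] at hJ; linarith))
        ⟨by simp, by simp⟩ (by positivity) (pow_le_one₀ h0 h1)
        (by rwa [← pow_mul, ← pow_succ'])
      rw [mul_zero, zero_add]
      rw [sum_congr rfl (g := fun z => χ (V1 * y) * (g z * g (z + V1 * y) * (1 *
        ∏ x ∈ T ∪ T.image (· + V1 * y), lk P c (u + b * (z + x))))) fun z _ => ?_, ← mul_sum,
        abs_mul]
      · rcases hχ.2 (V1 * y) with h | h <;> simpa [h] using this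
      · rw [hβ, hβ, prod_union hdis, prod_image fun _ _ _ _ h => add_right_cancel h, hχ.1]
        simp only [add_assoc z, add_comm (V1 * y)]
        rcases hχ.2 z with h | h <;> rw [h] <;> ring
    have hbad : ((low k H).filter fun y => ∃ p ∈ T ×ˢ T, P ∣ p.1 + p.2 + V1 * y).card ≤ 4 ^ J := by
      have hx := fun y (hy : y ∈ (low k H).filter fun y =>
        ∃ p ∈ T ×ˢ T, P ∣ p.1 + p.2 + V1 * y) => (mem_filter.1 hy).2
      choose! F f1 f2 using hx
      refine (card_le_card_of_injOn F f1 fun x hx y hy e => ?_).trans ?_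
      · have d1 := dvd_sub (f2 x hx) (e ▸ f2 y hy)
        rw [add_sub_add_left_eq_sub, ← mul_sub] at d1
        exact sub_eq_zero.1 (eq_zero_of_mem_low (sub_mem_low (mem_filter.1 hx).1
          (mem_filter.1 hy).1) ((hP.prime.dvd_or_dvd d1).resolve_left v1) (by omega))
      · have : T.card ≤ 2 ^ J := le_trans (Nat.le_mul_of_pos_right _ (by positivity)) hJ
        rw [card_product, show 4 = 2 * 2 from rfl, mul_pow]
        exact Nat.mul_le_mul this this
    have hsum := sum_le_sum hone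
    rw [sum_add_distrib, ← mul_sum, sum_boole, sum_const, nsmul_eq_mul, card_low'] at hsum
    have hK : (4 : ℝ) ^ J ≤ η ^ 2 * qq k ^ H := by
      have b1 : η ^ 2 ^ (j + 1) ≤ η ^ 2 := pow_le_pow_of_le_one h0 h1
        (by rw [pow_succ]; have := Nat.one_le_two_pow (n := j); omega)
      have b2 := mul_le_mul_of_nonneg_right b1 (pow_pos hq H).le
      have b3 : (0 : ℝ) ≤ 4 ^ J := by positivity
      linarith
    have hK2 := ((Nat.cast_le (α := ℝ)).2 hbad).trans (by push_cast; exact hK)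
    simp only [e, mul_assoc (a _), ← hβ]
    refine abs_le_of_sq_le_sq ?_ (by positivity)
    refine le_of_mul_le_mul_right (hv.trans ((mul_le_mul_of_nonneg_left (hsum.trans (add_le_add
      (mul_le_mul_of_nonneg_left hK2 (by positivity)) le_rfl)) (by positivity)).trans ?_))
      (pow_pos hq H)
    have : 0 ≤ Q ^ 2 * η ^ 2 * qq k ^ H := by positivity
    change Q * _ ≤ _ * qq k ^ H
    nlinarith

end Pool.Agent.P.MP_e94e4b_nt.LG
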