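import Pool.Agent.P.MP_e94e4b_nt.LG.P1a
import Pool.Agent.P.MP_8be758_nt.C2.TFORM
import Pool.Agent.P.MP_8be758_nt.C2.TPF
import Pool.Agent.P.MP_8be758_nt.C2.TINFY
import Pool.Agent.P.MP_8be758_nt.C2.TSPLIT
import Pool.Agent.P.MP_8be758_nt.C2.TDLOC
import Pool.Agent.P.MP_8be758_nt.C2.TLAL

/-! The sum of the Moebius function along one line. -/

namespace Pool.Agent.P.MP_e94e4b_nt.LG

open Polynomial Finset Pool.Agent.P.MP_8be758_nt.C2 Pool.Agent.P.MP_8be758_nt.L2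
open scoped Classical

variable {k : Type} [Field k] [Finite k] [CharP k 2]

omit [Finite k] [CharP k 2] in
theorem P1_const {U E W Cn : k[X]} (hU : U ≠ 0) (hE : U + E ≠ 0) (hW : W ≠ 0)
    (h : Cn.natDegree + E.natDegree + 2 ≤ U.natDegree + (U + E).natDegree + W.natDegree) :
    res (U * W) Cn = res ((U + E) * W) Cn + 0 := by
  have h1 : res ((U + E) * W * U) (Cn * E) = 0 := res_eq_zero (by
    rw [natDegree_mul (mul_ne_zero hE hW) hU, natDegree_mul hE hW]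
    have := natDegree_mul_le (p := Cn) (q := E)
    omega)
  rw [← h1, ← res_mul_mul _ _ hE, ← res_mul_mul ((U + E) * W) _ hU, ← res_add]
  congr 1 <;> ring

theorem P1_dec {U V Bt V1 P : k[X]} {L : ℕ} (hU : U.Monic) (hB : Bt ≠ 0) (hV : V = V1 * P)
    (hd : V.natDegree < U.natDegree) (hP : IsPr P) (h1 : ¬ P ∣ V1) (h3 : ¬ P ∣ Bt)
    (h4 : ¬ P ∣ kap Bt U V) (hL : U.natDegree + Bt.natDegree + 2 * L ≤ 2 * V.natDegree + 2)
    (hL0 : 1 ≤ L) :
    ∃ (κ : ℝ) (N : k[X] → k[X]) (χ : k[X] → ℝ) (c u b : k[X]), |κ| = 1 ∧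
      (∀ M z y, M ∣ N (z + M * y) - N z) ∧ IsCh χ ∧ ¬ P ∣ c ∧ ¬ P ∣ b ∧ ∀ z ∈ low k L,
        mu (eo (U + Bt * z ^ 2) V) =
          κ * (DEC2_a V1 (U + Bt * z ^ 2) (N z) * (χ z * lk P c (u + b * z))) := by
  have h2 : (2 : k[X]) = 0 := CharTwo.two_eq_zero
  obtain ⟨U0, a0, eU⟩ := exists_sq_add U
  obtain ⟨V0, b, eV⟩ := exists_sq_add V
  obtain ⟨B0, B1, eB⟩ := exists_sq_add Bt
  have hV1 : V1 ≠ 0 := fun h => h1 (by simp [h])
  have hV0 : V ≠ 0 := hV ▸ mul_ne_zero hV1 hP.ne_zero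
  have hdV : derivative V = b ^ 2 := by rw [eV]; exact derivative_sq_add _ _
  have hPV : P ∣ V := hV ▸ dvd_mul_left _ _
  obtain ⟨c, u, b', e, χ, hc, hb, he, hχ1, hχ2, hz⟩ := p_DLOC p_LAL k P U0 a0 V0 b B0 B1 hP.1 hP.2
    (eV ▸ hPV) (fun h => DEC2_der (s := {P}) (by simpa [IsPr] using hP) (mem_singleton_self P) h1
      (by rw [prod_singleton, ← hV, hdV]; exact h.trans (dvd_pow_self b two_ne_zero)))
    (eB ▸ h3) (eB ▸ eU ▸ eV ▸ h4)
  obtain ⟨w0, w1, hw1⟩ : IsCoprime V1 P := (hP.2.coprime_iff_not_dvd.2 h1).symm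
  set Om := a0 * B0 + B1 * U0 with hOm
  set W := Bt ^ 3 * V ^ 2 with hW
  set A : k[X] → k[X] := fun z => X * (Bt * z ^ 2 * Om ^ 2 * B1 ^ 4 +
    Bt ^ 2 * z ^ 4 * B1 ^ 6) with hA
  set H : k[X] → k[X] := fun z => X * (a0 + B1 * z) ^ 2 * b ^ 2 +
    (a0 + B1 * z) ^ 3 * (U0 + B0 * z) + X * b ^ 3 * V0 with hH
  set κ : ℝ := psi ((((U.natDegree + 1) / 2 + U.natDegree * (V.natDegree + 1) : ℕ) : k) +
    res W (X * (Om ^ 4 * B1 ^ 2 + U * Om ^ 2 * B1 ^ 4 + U ^ 2 * B1 ^ 6)) +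
      res (U * W) (X * Om ^ 6)) * e with hκ
  have hO : 2 * Om.natDegree + 1 ≤ U.natDegree + Bt.natDegree := by
    have e1 : U * Bt = (U0 * B0 + X * a0 * B1) ^ 2 + X * Om ^ 2 := by
      rw [eU, eB, hOm]
      linear_combination (-(X * U0 * B0 * a0 * B1) - X * a0 * B0 * B1 * U0) * h2
    have e2 : (U * Bt).natDegree = U.natDegree + Bt.natDegree := natDegree_mul hU.ne_zero hB
    have e3 := natDegree_derivative_lt (p := U * Bt) (by omega)
    rw [e2, e1, derivative_sq_add, natDegree_pow] at e3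
    omega
  refine ⟨κ, fun x => H x * w1, fun x => psi (res W (A x)) * χ x, c, u, b', ?_,
    fun M x y => ?_, ⟨fun x y => ?_, fun x => ?_⟩, hc, hb, fun z hx => ?_⟩
  · rw [hκ, abs_mul, abs_psi, one_mul]
    rcases he with h | h <;> simp [h]
  · rw [← sub_mul]
    refine Dvd.dvd.mul_right ?_ _
    rw [← AdjoinRoot.mk_eq_mk]
    simp only [hH, map_add, map_mul, map_pow, AdjoinRoot.mk_self, zero_mul, add_zero]
  · have h1 : A (x + y) = A x + A y := by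
      simp only [hA]
      rw [show 4 = 2 * 2 from rfl, pow_mul (x + y), CharTwo.add_sq x, CharTwo.add_sq (x ^ 2)]
      ring
    show psi _ * _ = psi _ * _ * (psi _ * _)
    rw [h1, res_add, psi_add, hχ1]
    ring
  · show psi _ * _ = 1 ∨ psi _ * _ = -1
    rcases psi_eq (res W (A x)) with h | h <;> rcases hχ2 x with h' | h' <;> simp [h, h']
  set Ux := U + Bt * z ^ 2 with hUx
  have eUx : Ux = (U0 + B0 * z) ^ 2 + X * (a0 + B1 * z) ^ 2 := by
    rw [hUx, eU, eB]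
    linear_combination (-(U0 * B0 * z) - X * a0 * B1 * z) * h2
  have a1 := natDegree_mul_le (p := Bt) (q := z ^ 2)
  have a2 := natDegree_le_of_mem_low hx
  rw [natDegree_pow] at a1
  have hlt : (Bt * z ^ 2).natDegree < U.natDegree := by omega
  have hm : Ux.Monic := hU.add_of_left (degree_lt_degree hlt)
  have hdx : Ux.natDegree = U.natDegree := natDegree_add_eq_left_of_natDegree_lt hlt
  show mu _ = κ * (DEC2_a V1 Ux (H z * w1) * (psi (res W (A z)) * χ z * _))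
  by_cases hco : IsCoprime Ux V
  · obtain ⟨w, w', hw⟩ := hco
    have hw2 : V ∣ w * Ux - 1 := ⟨-w', by linear_combination hw⟩
    have f1 : mu (eo Ux V) =
        psi ((((Ux.natDegree + 1) / 2 + Ux.natDegree * (V.natDegree + 1) : ℕ) : k) +
          res (Ux * V ^ 2) (X * (a0 + B1 * z) ^ 6) + res V (w * H z)) :=
      p_FORM p_PF p_INFY k Ux V _ _ V0 b w eUx eV hm hV0 (hdx ▸ hd) hw2
    have f2 := p_SPLIT p_LOC k V V1 w1 (w * H z) {P} hV1 (by simpa using hV)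
      (by simpa using ⟨hP.1, hP.2, h1⟩) ⟨-w0, by rw [prod_singleton]; linear_combination hw1⟩
    have f3 := (hz z).2 w (eUx ▸ hPV.trans hw2)
    have f4 := DEC2_inf (V := V) (Om := Om) (B1 := B1) (a := a0 + B1 * z) hm.ne_zero hB (by
      rw [eUx, eB, hOm]
      linear_combination (-(a0 * B0 * B1 * U0) - B1 ^ 2 * U0 ^ 2 - B1 ^ 2 * U0 * B0 * z +
        a0 * B1 * z * B0 ^ 2) * h2)
    have f5 : X * (Om ^ 4 * B1 ^ 2 + Ux * Om ^ 2 * B1 ^ 4 + Ux ^ 2 * B1 ^ 6) =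
        X * (Om ^ 4 * B1 ^ 2 + U * Om ^ 2 * B1 ^ 4 + U ^ 2 * B1 ^ 6) + A z := by
      simp only [hA]
      rw [hUx]
      linear_combination (X * U * Bt * z ^ 2 * B1 ^ 6) * h2
    have f6 := DEC2_eq ((hV ▸ dvd_mul_right V1 _ : V1 ∣ V).trans hw2) (H z * w1)
    have f7 := P1_const (U := U) (E := Bt * z ^ 2) (W := W) (Cn := X * Om ^ 6) hU.ne_zero hm.ne_zero
      (mul_ne_zero (pow_ne_zero _ hB) (pow_ne_zero _ hV0)) (by
        have := natDegree_mul_le_of_le natDegree_X_le (natDegree_pow_le (p := Om) (n := 6))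
        rw [hdx, hW, natDegree_mul (pow_ne_zero _ hB) (pow_ne_zero _ hV0), natDegree_pow,
          natDegree_pow]
        omega)
    rw [f5, res_add] at f4
    rw [prod_singleton, hdV] at f2
    rw [f1, f4, hdx, f6, hκ, ← mul_assoc w, f7, add_zero]
    simp only [psi_add]
    rw [f2, f3]
    ring
  · rw [mu_eo_eq_zero hco]
    by_cases h1 : ∃ w, V1 ∣ w * Ux - 1
    · obtain ⟨w, w', hw⟩ := h1
      by_cases h3 : P ∣ Ux
      · rw [lk, if_pos ((hz z).1.2 (eUx ▸ h3))]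
        simp
      · refine absurd ?_ hco
        rw [hV]
        exact IsCoprime.mul_right ⟨w, -w', by linear_combination hw⟩
          (hP.2.coprime_iff_not_dvd.2 h3).symm
    · rw [DEC2_a, dif_neg h1]
      simp

theorem P1_core {U V Bt : k[X]} {T : Finset k[X]} {L H a J : ℕ} {χ : k[X] → ℝ} {η : ℝ}
    (hU : U.Monic) (hB : Bt ≠ 0) (hV : V ≠ 0) (hd : V.natDegree < U.natDegree) (hT : T.Nonempty)
    (hp : ∀ P ∈ T, IsPr P ∧ P.natDegree = a) (hW : pr T ∣ V) (hs : U.natDegree ≤ dg T + 2 * L)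
    (hR : ∀ R : k[X], R.Monic → a ≤ R.natDegree → R.natDegree ≤ L → ¬ R ^ 2 ∣ V)
    (hk : ∀ P, IsPr P → a ≤ P.natDegree → P ∣ V → ¬ P ∣ kap Bt U V) (hχ : IsCh χ) (hH : 1 ≤ H)
    (n1 : U.natDegree + Bt.natDegree + 2 * (L + H) ≤ 2 * V.natDegree + 2) (n2 : 3 * a ≤ L)
    (n3 : 2 * H ≤ a) (n4 : Bt.natDegree < a) (n5 : 2 * U.natDegree ≤ J * L) (h0 : 0 ≤ η)
    (h1 : η ≤ 1) (hη : 16 * 4 ^ J ≤ η ^ 2 ^ J * qq k ^ H) :
    |∑ z ∈ low k (L + H), mu (eo (U + Bt * z ^ 2) V) * χ z| ≤ 2 * η * qq k ^ (L + H) := by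
  obtain ⟨P, V1, p1, p2, p3, e, p4, p5⟩ := P1_str hV hT hp hW (by omega) n2 hR
  obtain ⟨κ, N, ξ, c, u, b, k1, k2, k3, k4, k5, k6⟩ := P1_dec (L := L + H) hU hB e hd p1 p4
    (fun h => by have := natDegree_le_of_dvd h hB; omega) (hk P p1 p2 (e ▸ dvd_mul_left _ _)) n1
    (by omega)
  have v1 : V1 ≠ 0 := left_ne_zero_of_mul (e ▸ hV)
  have := P1_vdc (u := u) (J := J) (H := H) p1 k4 k5 (by omega) p3 J _ {0} (fun z => ξ z * χ z) η
    (P1_split (Uf := fun z => U + Bt * z ^ 2) (fun M z y => ⟨Bt * y * (2 * z + M * y), by ring⟩)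
      J V1 N (P1_fac J V1 v1 p5 (by
        have := natDegree_le_of_dvd (e ▸ dvd_mul_right _ _ : V1 ∣ V) hV; omega)) p4 k2)
    (singleton_nonempty _) (by simp) (by simp)
    ⟨fun x y => by simp only [k3.1, hχ.1]; ring, fun x => by
      rcases k3.2 x with h | h <;> rcases hχ.2 x with h' | h' <;> simp [h, h']⟩ h0 h1 hη
  rw [← one_mul |_|, ← k1, ← abs_mul, mul_sum] at this
  refine le_of_eq_of_le (congrArg _ (sum_congr rfl fun z hz => ?_)) this
  rw [k6 z hz, prod_singleton, add_zero]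
  ring

end Pool.Agent.P.MP_e94e4b_nt.LG
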