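import Pool.Agent.P.MP_e94e4b_nt.LG.If
import Pool.Agent.P.MP_e94e4b_nt.LG.Basic8

/-! Step CUT. -/

namespace Pool.Agent.P.MP_e94e4b_nt.LG

open Polynomial Finset
open Pool.Agent.P.MP_8be758_nt Pool.Agent.P.MP_8be758_nt.C2 Pool.Agent.P.MP_8be758_nt.L2
open scoped Classical ComplexConjugate

theorem CUT_evp {k : Type} [Field k] {f : k[X]} {s : ℕ} (h : f.natDegree ≤ 2 * s) :
    (evp f).natDegree ≤ s := by
  rw [natDegree_le_iff_coeff_eq_zero] at *
  intro i hi
  rw [← coeff_eo_even (evp f) (odp f), eo_evp_odp]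
  exact h _ (by omega)

theorem p_CUT :
    S_CUT := by
  intro k _ _ _ d B1 B2 β s s0 hd h1 h2 hs hs0 e1 e2
  obtain ⟨p1, d1⟩ := mem_filter.1 h1
  obtain ⟨p2, d2⟩ := mem_filter.1 h2
  have q1 : IsPr B1 := (mem_filter.1 p1).2
  have q2 : IsPr B2 := (mem_filter.1 p2).2
  by_cases h0 : odp (B1 * B2) = 0
  · obtain ⟨t, ht⟩ := H8.of_odp_eq_zero q2 h0
    exact eq_of_monic_of_dvd_of_natDegree_le q2.1 q1.1 ⟨_, ht⟩ (by omega)
  exfalso
  have a1 : (evp (d * B1)).natDegree ≤ s := CUT_evp (natDegree_mul_le.trans (by omega))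
  have a2 : (evp (d * B2)).natDegree ≤ s := CUT_evp (natDegree_mul_le.trans (by omega))
  have h3 := H8.odp_mul (d * B1) (d * B2)
  rw [show d * B1 * (d * B2) = B1 * B2 * d ^ 2 by ring, H8.odp_mul_sq] at h3
  have h4 := congrArg natDegree h3
  rw [fr, natDegree_mul h0 (hd.map _).ne_zero, natDegree_map] at h4
  have h5 := natDegree_add_le (evp (d * B1) * odp (d * B2)) (odp (d * B1) * evp (d * B2))
  have h6 := natDegree_mul_le (p := evp (d * B1)) (q := odp (d * B2))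
  have h7 := natDegree_mul_le (p := odp (d * B1)) (q := evp (d * B2))
  omega

end Pool.Agent.P.MP_e94e4b_nt.LG
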