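import Pool.Agent.P.MP_e94e4b_nt.LG.If
import Pool.Agent.P.MP_e94e4b_nt.LG.H22

/-! Step GSZ. -/

namespace Pool.Agent.P.MP_e94e4b_nt.LG

open Polynomial Finset
open Pool.Agent.P.MP_8be758_nt Pool.Agent.P.MP_8be758_nt.C2 Pool.Agent.P.MP_8be758_nt.L2
open scoped Classical ComplexConjugate

theorem p_GSZ (hCHK : S_CHK) :
    S_GSZ := by
  intro k _ _ _ c n i χ γ ⟨hc, h, z, hz⟩ hn
  refine ⟨fun h1 => ?_, fun h1 g0 => ?_⟩
  · have e := H22_shift (Mo k n) (C z * X ^ (n - c))
      (fun u hu => H22_add hu (H22_CX z (by omega))) (fun u => χ u * (psi (γ * u.coeff i) : ℝ))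
    rw [sum_congr rfl (g := fun u => χ (X ^ c + C z) * (χ u * (psi (γ * u.coeff i) : ℝ)))
      fun u hu => by
        obtain ⟨a1, a2⟩ := mem_Mo.1 hu
        rw [(hCHK k c χ h).2.2 u _ z hc a1 (by omega) (by
          rw [a2, sub_self]; exact zero_mem_low _), coeff_add, coeff_C_mul_X_pow,
          if_neg (by omega), add_zero]
        ring, ← mul_sum] at e
    have : (χ (X ^ c + C z) - 1) * GS χ n i γ = 0 := by
      unfold GS; linear_combination e
    exact (mul_eq_zero.1 this).resolve_left (sub_ne_zero.2 hz)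
  · obtain ⟨y, hy⟩ := exists_psi_neg (K := k)
    have e := H22_shift (Mo k n) (C (y / γ) * X ^ i)
      (fun u hu => H22_add hu (H22_CX _ (by omega))) (fun u => χ u * (psi (γ * u.coeff i) : ℝ))
    rw [sum_congr rfl (g := fun u => -(χ u * (psi (γ * u.coeff i) : ℝ))) fun u hu => by
      have a := mem_Mo.1 hu
      have b := mem_Mo.1 (H22_add hu (H22_CX (y / γ) (show i < n by omega)))
      rw [h.2.2.2 _ _ b.1 a.1 (by rw [a.2, b.2]) (by
        rw [b.2, add_sub_cancel_left]; exact H22_CX _ (by omega)), coeff_add, coeff_C_mul_X_pow,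
        if_pos rfl, mul_add, mul_div_cancel₀ _ g0, psi_add, hy]
      push_cast; ring, sum_neg_distrib] at e
    unfold GS
    linear_combination (-1 / 2 : ℂ) * e

end Pool.Agent.P.MP_e94e4b_nt.LG
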