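import Pool.Agent.P.MP_e94e4b_nt.LG.If

/-! Step ID. -/

namespace Pool.Agent.P.MP_e94e4b_nt.LG

open Polynomial Finset
open Pool.Agent.P.MP_8be758_nt Pool.Agent.P.MP_8be758_nt.C2 Pool.Agent.P.MP_8be758_nt.L2
open scoped Classical ComplexConjugate

theorem ID_pf {k : Type} [Field k] [Finite k] {f : k[X]} (hm : f.Monic) (hf : Irreducible f) :
    pf f = {f} := by
  ext P
  rw [mem_pf hm.ne_zero, mem_singleton]
  exact ⟨fun h => h.1.eq_of_dvd ⟨hm, hf⟩ h.2, fun h => by rw [h]; exact ⟨⟨hm, hf⟩, dvd_rfl⟩⟩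

theorem p_ID (hID0 : S_ID0) (hPP : S_PP) :
    S_ID := by
  intro k _ _ _ N m hN h1 hm
  have hd2 : (N ^ 2).natDegree = 2 * N.natDegree := hN.natDegree_pow 2
  have hlt : ∀ x ∈ low k m, x.degree < (N ^ 2).degree := fun x hx => by
    rw [degree_eq_natDegree (hN.pow 2).ne_zero, hd2]
    exact (mem_low.1 hx).trans_le (by exact_mod_cast (by omega : m ≤ 2 * N.natDegree))
  have hmon : ∀ x ∈ low k m, (N ^ 2 + x).Monic := fun x hx =>
    (hN.pow 2).add_of_left (hlt x hx)
  have hdeg : ∀ x ∈ low k m, (N ^ 2 + x).natDegree = 2 * N.natDegree := fun x hx => by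
    rw [← hd2]
    exact natDegree_eq_of_degree_eq (degree_add_eq_left_of_degree_lt (hlt x hx))
  have e1 : ∑ D ∈ range (2 * N.natDegree + 1), (2 * (N.natDegree : ℝ) - D) * MD N m D =
      ∑ x ∈ low k m, if (pf (N ^ 2 + x)).card = 1 then (dg (pf (N ^ 2 + x)) : ℝ) else 0 := by
    have e : ∀ D, MD N m D =
        ∑ x ∈ low k m, ∑ d ∈ (Mo k D).filter (fun d => d ∣ N ^ 2 + x), mu d := fun D => by
      simp only [MD, cz, card_filter, sum_filter, Nat.cast_sum, mul_sum]
      rw [sum_comm]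
      refine sum_congr rfl fun x _ => sum_congr rfl fun d _ => ?_
      split_ifs <;> simp
    simp only [e, mul_sum (low k m)]
    rw [sum_comm]
    refine sum_congr rfl fun x hx => ?_
    have := hID0 k _ (hmon x hx) (by rw [hdeg x hx]; omega)
    rw [hdeg x hx] at this
    rw [← this]
    push_cast
    rfl
  have e2 : 2 * (N.natDegree : ℝ) * PI N m =
      ∑ x ∈ low k m, if Irreducible (N ^ 2 + x) then 2 * (N.natDegree : ℝ) else 0 := by
    rw [PI, ← sum_filter, sum_const, nsmul_eq_mul, mul_comm]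
  have h0 : (0 : ℝ) ≤ 2 * (N.natDegree : ℝ) := by positivity
  rw [e1, e2, ← sum_sub_distrib]
  refine (abs_sum_le_sum_abs _ _).trans (le_trans ?_ (mul_le_mul_of_nonneg_left
    (hPP k N m hN h1 hm) h0))
  rw [mul_comm (2 * (N.natDegree : ℝ)), ← nsmul_eq_mul _ (2 * (N.natDegree : ℝ)), ← sum_const,
    sum_filter]
  refine sum_le_sum fun x hx => ?_
  by_cases hi : Irreducible (N ^ 2 + x)
  · simp [hi, ID_pf (hmon x hx) hi, dg_singleton, hdeg x hx]
  · by_cases hc : (pf (N ^ 2 + x)).card = 1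
    · have := dg_pf_le (hmon x hx).ne_zero
      rw [hdeg x hx] at this
      rw [if_pos hc, if_neg hi, if_pos ⟨hc, hi⟩, sub_zero, abs_of_nonneg (Nat.cast_nonneg _)]
      exact_mod_cast this
    · simp [hi, hc]

end Pool.Agent.P.MP_e94e4b_nt.LG
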