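import Pool.Agent.P.MP_e94e4b_nt.LG.If

/-! Step POI. -/

namespace Pool.Agent.P.MP_e94e4b_nt.LG

open Polynomial Finset
open Pool.Agent.P.MP_8be758_nt Pool.Agent.P.MP_8be758_nt.C2 Pool.Agent.P.MP_8be758_nt.L2
open scoped Classical ComplexConjugate

theorem POI_one {k : Type} [Field k] [Finite k] [CharP k 2] {W u : k[X]} {σ : ℕ}
    (hu : u ∈ low k W.natDegree) (h : σ ≤ W.natDegree) :
    (((low k σ).filter (fun t => W ∣ u + t)).card : ℝ) = if u ∈ low k σ then 1 else 0 := by
  have e : (low k σ).filter (fun t => W ∣ u + t) = (low k σ).filter (fun t => u = t) := by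
    refine filter_congr fun t ht => ⟨fun hd => ?_, fun hd => ?_⟩
    · have h0 := eq_zero_of_mem_low (add_mem_low hu (low_mono h ht)) hd le_rfl
      linear_combination h0 - t * two_zero (k := k)
    · rw [hd, add_self']; exact dvd_zero _
  rw [e, filter_eq]
  split_ifs <;> simp

theorem p_POI (hORTH : L2.S_ORTH) :
    S_POI := by
  intro k _ _ _ W Δ V z σ hW hΔ hc
  obtain ⟨a, b, hab⟩ := id hc
  have hu : V * b % W ∈ low k W.natDegree := mod_mem_low hW _
  obtain ⟨z', hz'⟩ : W ∣ Δ * (V * b % W) - V := ⟨-(Δ * (V * b / W)) - V * a, by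
    linear_combination Δ * EuclideanDomain.div_add_mod (V * b) W + V * hab⟩
  generalize V * b % W = u at hu hz'
  have e : ct σ Δ V W = (((low k σ).filter (fun t => W ∣ u + t)).card : ℝ) := by
    rw [ct]
    congr 2
    refine filter_congr fun t _ => ⟨fun hd => ?_, fun hd => ?_⟩
    · refine hc.dvd_of_dvd_mul_left ?_
      rw [show Δ * (u + t) = V + Δ * t + W * z' by linear_combination hz']
      exact dvd_add hd (dvd_mul_right _ _)
    · rw [show V + Δ * t = Δ * (u + t) - W * z' by linear_combination -hz']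
      exact dvd_sub (hd.mul_left _) (dvd_mul_right _ _)
  refine ⟨fun h => ?_, fun h hd => ?_⟩
  · rw [e, card_low_class hW u h, pow_sub₀ _ qq_pos.ne' h, div_eq_mul_inv]
  · have hz : Δ ∣ z' - z := by
      refine hc.symm.dvd_of_dvd_mul_left ?_
      rw [show W * (z' - z) = Δ * u - (W * z + V) by linear_combination -hz']
      exact dvd_sub (dvd_mul_right _ _) hd
    have hs : ∀ g ∈ low k (W.natDegree - σ),
        psi (res (W * Δ) (g * V)) * psi (res Δ (g * z)) = psi (res W (g * u)) := by
      intro g _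
      rw [← psi_add, ← res_mul_mul W (g * u) hΔ,
        show g * u * Δ = g * V + g * z' * W by linear_combination g * hz', res_add,
        mul_comm W Δ, res_mul_mul Δ (g * z') hW,
        res_congr (H := g * z') (H' := g * z) (by rw [← mul_sub]; exact hz.mul_left _)]
    rw [sum_congr rfl hs, hORTH k W u _ hW (Nat.sub_le _ _) hu, Nat.sub_sub_self h, e,
      POI_one hu h]
    split_ifs <;> simp

end Pool.Agent.P.MP_e94e4b_nt.LG
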