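import Pool.Agent.P.MP_e94e4b_nt.LG.If

/-! Step YM1. -/

namespace Pool.Agent.P.MP_e94e4b_nt.LG

open Polynomial Finset
open Pool.Agent.P.MP_8be758_nt Pool.Agent.P.MP_8be758_nt.C2 Pool.Agent.P.MP_8be758_nt.L2
open scoped Classical ComplexConjugate

theorem YM1_L {K C b ν L s : ℕ} (hK : 1 ≤ K) (h1 : K * C * b ≤ ν) (h2 : ν ≤ 2 * s)
    (h3 : 2 * s + L ≤ K * L) : C * b ≤ L := by
  have h4 : K * (C * b) ≤ K * L := by
    rw [← mul_assoc]; omega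
  exact Nat.le_of_mul_le_mul_left h4 hK

theorem YM1_real {q y : ℝ} {b β l u ε T : ℕ} (hq : 2 ≤ q) (hy : 0 ≤ y)
    (h : y * q ^ u ≤ 2 * q ^ l) (hu : 20 * b ≤ u) (hβ : β ≤ b + 1) (hb : 20 ≤ b) (hT : T ≤ ε) :
    y ^ 2 * q ^ (10 * β) * (q ^ ε + q ^ T) ≤ q ^ (2 * l) * q ^ ε := by
  have hq1 : (1 : ℝ) ≤ q := by linarith
  have hq0 : (0 : ℝ) < q := by linarith
  have a1 : q ^ T ≤ q ^ ε := pow_le_pow_right₀ hq1 hT
  have a2 : (y * q ^ u) ^ 2 ≤ (2 * q ^ l) ^ 2 :=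
    pow_le_pow_left₀ (by positivity) h 2
  have a3 : q ^ (10 * β + 3) ≤ q ^ (2 * u) := pow_le_pow_right₀ hq1 (by omega)
  have a4 : (8 : ℝ) ≤ q ^ 3 := by
    have := pow_le_pow_left₀ (by norm_num : (0 : ℝ) ≤ 2) hq 3
    linarith
  have a5 : 8 * q ^ (10 * β) ≤ q ^ (2 * u) := by
    rw [pow_add] at a3
    have : (0 : ℝ) < q ^ (10 * β) := by positivity
    nlinarith
  have a6 : y ^ 2 * q ^ (2 * u) ≤ 4 * q ^ (2 * l) := by
    have e1 : (y * q ^ u) ^ 2 = y ^ 2 * q ^ (2 * u) := by ring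
    have e2 : (2 * q ^ l) ^ 2 = 4 * q ^ (2 * l) := by ring
    rw [e1, e2] at a2
    exact a2
  have a7 : y ^ 2 * (8 * q ^ (10 * β)) ≤ y ^ 2 * q ^ (2 * u) :=
    mul_le_mul_of_nonneg_left a5 (by positivity)
  have a8 : y ^ 2 * q ^ (10 * β) * 2 ≤ q ^ (2 * l) := by linarith
  have a9 : (0 : ℝ) ≤ y ^ 2 * q ^ (10 * β) := by positivity
  have a10 : (0 : ℝ) < q ^ ε := by positivity
  calc y ^ 2 * q ^ (10 * β) * (q ^ ε + q ^ T)
      ≤ y ^ 2 * q ^ (10 * β) * (2 * q ^ ε) := mul_le_mul_of_nonneg_left (by linarith) a9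
    _ = (y ^ 2 * q ^ (10 * β) * 2) * q ^ ε := by ring
    _ ≤ q ^ (2 * l) * q ^ ε := mul_le_mul_of_nonneg_right a8 a10.le

theorem p_YM1 (hCND : S_CND) (hCHW : S_CHW) :
    S_YM1 := by
  intro K
  obtain ⟨κ1, l0, hκ1, hW⟩ := hCHW K
  refine ⟨K * (20 * κ1 + l0 + 20), ?_⟩
  intro k _ _ _ ν m ε E b β s σ L a r w hP hκ hT
  intro Δ y0 s' τ l χ hΔ hd hs1 hs2 hτ hl hχ hN
  obtain ⟨c, hc, hC⟩ := hCND k τ χ hχ hN
  have hK : 1 ≤ K := le_trans hP.h15 hP.h16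
  have hb : 20 ≤ b := hP.h21
  have hβ : β ≤ b + 1 := hP.h6
  have hν : ν ≤ 2 * s := by
    have := hP.h2
    have := hP.h3
    have := hP.h4
    clear hP hκ
    omega
  have hL : (20 * κ1 + l0 + 20) * b ≤ L := YM1_L hK hκ hν hP.h17
  have e1 : (20 * κ1 + l0 + 20) * b = 20 * b * κ1 + l0 * b + 20 * b := by ring
  have e2 : l0 ≤ l0 * b := Nat.le_mul_of_pos_right _ (by omega)
  rw [e1] at hL
  have hLl : L ≤ l := by
    have := hP.h12
    have := hP.h16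
    have := hP.h20
    clear hP hκ
    omega
  have hcl : c ≤ K * l := by
    have a1 : K * L ≤ K * l := Nat.mul_le_mul_left _ hLl
    have := hP.h17
    clear hP hκ
    omega
  have hu : 20 * b ≤ l / κ1 := by
    rw [Nat.le_div_iff_mul_le (by omega)]
    clear hP hκ
    omega
  have h8 : 8 * Δ.natDegree ≤ l := by
    clear hP hκ
    omega
  have hl0 : l0 ≤ l := by
    clear hP hκ
    omega
  have hmain := hW k c l χ Δ y0 hl0 hC hΔ.ne_zero h8 hcl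
  exact YM1_real (two_le_qq (k := k)) (norm_nonneg _) hmain (le_trans hu (Nat.le_add_left _ _))
    hβ hb hT

end Pool.Agent.P.MP_e94e4b_nt.LG
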